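import Pool.Agent.H98.CC.Prob6

set_option autoImplicit false
set_option linter.unusedSectionVars false

/-!
# Common neighbourhoods: tail bounds
-/

namespace Pool.Agent.H98.CD

open Finset Pool.Agent.H98.CC
open scoped Classical

section

variable {n : ℕ} {p : ℝ}

/-- the vertices of `R` joined to all of `Q` -/
noncomputable def ful (G : SimpleGraph (Fin n)) (R Q : Finset (Fin n)) : Finset (Fin n) :=
  R.filter (fun w => nb G w Q = Q)

lemma nb_full {G : SimpleGraph (Fin n)} {w : Fin n} {Q : Finset (Fin n)} :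
    nb G w Q = Q ↔ ∀ x ∈ Q, G.Adj w x := by
  unfold nb
  rw [Finset.filter_eq_self]

lemma mem_ful {G : SimpleGraph (Fin n)} {R Q : Finset (Fin n)} {w : Fin n} :
    w ∈ ful G R Q ↔ w ∈ R ∧ ∀ x ∈ Q, G.Adj w x := by
  unfold ful
  rw [Finset.mem_filter, nb_full]

lemma ful_prob_eq (Q : Finset (Fin n)) : prs Q p (fun N => N = Q) = p ^ Q.card := by
  have := prs_subset (p := p) Q Q (Finset.Subset.refl _)
  rw [← this]
  apply prs_congr
  intro W hW
  exact ⟨fun h => h.ge, fun h => Finset.Subset.antisymm hW h⟩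

/-- many vertices joined to all of `Q` -/
lemma ful_many (hp0 : 0 ≤ p) (hp1 : p ≤ 1) (R Q : Finset (Fin n)) (hd : Disjoint R Q) (t : ℕ) :
    gnp n p (fun G => t ≤ (ful G R Q).card) ≤ (R.card.choose t : ℝ) * (p ^ Q.card) ^ t := by
  rw [gnp_eq]
  have h1 : prs (eT n) p (fun W => t ≤ (ful (gr W) R Q).card) ≤
      prs (eT n) p (fun W => ∃ T ∈ R.powersetCard t, ∀ w ∈ T, nb (gr W) w Q = Q) := by
    apply prs_mono _ hp0 hp1
    intro W _ h
    obtain ⟨T, hT, hTc⟩ := Finset.exists_subset_card_eq h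
    refine ⟨T, Finset.mem_powersetCard.mpr ⟨hT.trans (Finset.filter_subset _ _), hTc⟩, ?_⟩
    intro w hw
    exact (Finset.mem_filter.mp (hT hw)).2
  refine h1.trans ((prs_union _ hp0 hp1 _ _).trans ?_)
  have h2 : ∀ T ∈ R.powersetCard t,
      prs (eT n) p (fun W => ∀ w ∈ T, nb (gr W) w Q = Q) ≤ (p ^ Q.card) ^ t := by
    intro T hT
    rw [Finset.mem_powersetCard] at hT
    have h3 := rows_exs (p := p) T Q (hd.mono_left hT.1) (fun _ N => ind (N = Q))
    have h5 : prs (eT n) p (fun W => ∀ w ∈ T, nb (gr W) w Q = Q)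
        = exs (eT n) p (fun W => ∏ w ∈ T, ind (nb (gr W) w Q = Q)) := by
      apply exs_congr
      intro W _
      rw [ind_forall]
    rw [h5, h3]
    have h6 : ∀ w ∈ T, exs Q p (fun N => ind (N = Q)) = p ^ Q.card := fun w _ => ful_prob_eq Q
    rw [Finset.prod_congr rfl h6, Finset.prod_const, hT.2]
  refine (Finset.sum_le_card_nsmul _ _ _ h2).trans ?_
  rw [nsmul_eq_mul, Finset.card_powersetCard]

/-- `(e x / t)^t ≤ e^{-t}` if `8 x ≤ t` -/
lemma pow_tail (M t : ℕ) (β x : ℝ) (hβ : 0 ≤ β) (ht : 0 < t) (hx : M * β ≤ x) (h8 : 8 * x ≤ t) :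
    (M.choose t : ℝ) * β ^ t ≤ Real.exp (-t) := by
  have htr : (0 : ℝ) < t := by exact_mod_cast ht
  refine (choose_mul_pow_le M t β hβ ht).trans ?_
  have h1 : Real.exp 1 * M * β / t ≤ Real.exp (-1) := by
    rw [div_le_iff₀ htr]
    have h2 : Real.exp 1 ≤ 8 * Real.exp (-1) := by
      have h3 : Real.exp 1 = Real.exp (-1) * (Real.exp 1 * Real.exp 1) := by
        rw [← Real.exp_add, ← Real.exp_add]; norm_num
      have h4 : Real.exp 1 * Real.exp 1 ≤ 8 := by
        have := Real.exp_one_lt_d9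
        have h5 := Real.exp_pos 1
        nlinarith
      rw [h3, mul_comm]
      exact mul_le_mul_of_nonneg_right h4 (Real.exp_pos _).le
    have hMβ : 0 ≤ M * β := by positivity
    calc Real.exp 1 * M * β = Real.exp 1 * (M * β) := by ring
      _ ≤ 8 * Real.exp (-1) * (M * β) := mul_le_mul_of_nonneg_right h2 hMβ
      _ ≤ 8 * Real.exp (-1) * x := mul_le_mul_of_nonneg_left hx (by positivity)
      _ = Real.exp (-1) * (8 * x) := by ring
      _ ≤ _ := mul_le_mul_of_nonneg_left h8 (Real.exp_pos _).le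
  refine (pow_le_pow_left₀ (by positivity) h1 _).trans (le_of_eq ?_)
  rw [← Real.exp_nat_mul]
  congr 1; ring

lemma ful_mgf (hp0 : 0 ≤ p) (R Q : Finset (Fin n)) (hd : Disjoint R Q) (a : ℝ) :
    exs (eT n) p (fun W => a ^ (ful (gr W) R Q).card) = (1 + (a - 1) * p ^ Q.card) ^ R.card := by
  have h1 : exs (eT n) p (fun W => a ^ (ful (gr W) R Q).card) =
      exs (eT n) p (fun W => ∏ w ∈ R, (fun N => 1 + (a - 1) * ind (N = Q)) (nb (gr W) w Q)) := by
    apply exs_congr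
    intro W _
    unfold ful
    rw [← Finset.prod_const, Finset.prod_filter]
    apply Finset.prod_congr rfl
    intro w _
    by_cases h : nb (gr W) w Q = Q
    · rw [if_pos h]
      dsimp only
      rw [ind_pos h]; ring
    · rw [if_neg h]
      dsimp only
      rw [ind_neg h]; ring
  rw [h1, rows_exs (p := p) R Q hd (fun _ N => 1 + (a - 1) * ind (N = Q)), Finset.prod_const]
  congr 1
  rw [exs_add, exs_const, exs_mul_left]
  congr 2
  exact ful_prob_eq Q

/-- upper tail -/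
lemma ful_upper (hp0 : 0 ≤ p) (hp1 : p ≤ 1) (R Q : Finset (Fin n)) (hd : Disjoint R Q) (η : ℝ)
    (hη0 : 0 ≤ η) (hη1 : η ≤ 1) :
    gnp n p (fun G => (1 + η) * (R.card * p ^ Q.card) ≤ ((ful G R Q).card : ℝ)) ≤
      Real.exp (-(η ^ 2 / 8 * (R.card * p ^ Q.card))) := by
  set μ : ℝ := R.card * p ^ Q.card with hμ
  have hμ0 : 0 ≤ μ := by positivity
  set θ : ℝ := η / 4 with hθ
  have hθ0 : 0 ≤ θ := by positivity
  have hlog : Real.exp (θ - θ ^ 2) ≤ 1 + θ := by
    have h1 : |θ - θ ^ 2| ≤ 1 := by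
      rw [abs_le]; constructor <;> nlinarith
    have h2 := Real.abs_exp_sub_one_sub_id_le h1
    have h3 := (abs_le.mp h2).2
    nlinarith [mul_nonneg hθ0 hθ0, mul_nonneg hθ0 (mul_nonneg hθ0 hθ0)]
  rw [gnp_eq]
  have hm := markov (eT n) hp0 hp1 (fun W => (1 + θ) ^ (ful (gr W) R Q).card)
    (fun W => (1 + η) * μ ≤ ((ful (gr W) R Q).card : ℝ))
    (Real.exp ((θ - θ ^ 2) * ((1 + η) * μ))) (Real.exp_pos _) (fun W _ => by positivity)
    (fun W _ h => by
      have h1 := pow_le_pow_left₀ (Real.exp_pos _).le hlog (ful (gr W) R Q).card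
      refine le_trans ?_ h1
      rw [← Real.exp_nat_mul]
      apply Real.exp_le_exp.mpr
      have h2 : 0 ≤ θ - θ ^ 2 := by nlinarith
      have := mul_le_mul_of_nonneg_left h h2
      linarith)
  refine hm.trans ?_
  rw [div_le_iff₀ (Real.exp_pos _), ← Real.exp_add, ful_mgf hp0 R Q hd]
  have h1 : 1 + (1 + θ - 1) * p ^ Q.card ≤ Real.exp (θ * p ^ Q.card) := by
    have := Real.add_one_le_exp (θ * p ^ Q.card)
    linarith
  refine (pow_le_pow_left₀ (by
    have : 0 ≤ θ * p ^ Q.card := by positivity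
    linarith) h1 _).trans ?_
  rw [← Real.exp_nat_mul]
  apply Real.exp_le_exp.mpr
  have h2 : (R.card : ℝ) * (θ * p ^ Q.card) = θ * μ := by rw [hμ]; ring
  rw [h2]
  have h3 : θ - (θ - θ ^ 2) * (1 + η) ≤ -(η ^ 2 / 8) := by
    rw [hθ]; nlinarith [mul_nonneg hη0 hη0]
  have h4 := mul_le_mul_of_nonneg_right h3 hμ0
  linarith

/-- lower tail -/
lemma ful_lower (hp0 : 0 ≤ p) (hp1 : p ≤ 1) (R Q : Finset (Fin n)) (hd : Disjoint R Q) (η : ℝ)
    (hη0 : 0 ≤ η) (hη1 : η ≤ 1 / 2) :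
    gnp n p (fun G => ((ful G R Q).card : ℝ) ≤ (1 - η) * (R.card * p ^ Q.card)) ≤
      Real.exp (-(η ^ 2 / 8 * (R.card * p ^ Q.card))) := by
  set μ : ℝ := R.card * p ^ Q.card with hμ
  have hμ0 : 0 ≤ μ := by positivity
  set θ : ℝ := η / 4 with hθ
  have hθ0 : 0 ≤ θ := by positivity
  have hθ1 : θ ≤ 1 / 8 := by rw [hθ]; linarith
  have hlog : Real.exp (-(θ + 2 * θ ^ 2)) ≤ 1 - θ := by
    have h1 : |-(θ + 2 * θ ^ 2)| ≤ 1 := by
      rw [abs_le]; constructor <;> nlinarith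
    have h2 := Real.abs_exp_sub_one_sub_id_le h1
    have h3 := (abs_le.mp h2).2
    nlinarith [mul_nonneg hθ0 hθ0, mul_nonneg hθ0 (mul_nonneg hθ0 hθ0),
      mul_nonneg (mul_nonneg hθ0 hθ0) (sub_nonneg.mpr hθ1),
      mul_nonneg (mul_nonneg (mul_nonneg hθ0 hθ0) hθ0) (sub_nonneg.mpr hθ1)]
  rw [gnp_eq]
  have hm := markov (eT n) hp0 hp1 (fun W => (1 - θ) ^ (ful (gr W) R Q).card)
    (fun W => ((ful (gr W) R Q).card : ℝ) ≤ (1 - η) * μ)
    (Real.exp (-((θ + 2 * θ ^ 2) * ((1 - η) * μ)))) (Real.exp_pos _)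
    (fun W _ => pow_nonneg (by linarith) _)
    (fun W _ h => by
      have h1 := pow_le_pow_left₀ (Real.exp_pos _).le hlog (ful (gr W) R Q).card
      refine le_trans ?_ h1
      rw [← Real.exp_nat_mul]
      apply Real.exp_le_exp.mpr
      have h2 : 0 ≤ θ + 2 * θ ^ 2 := by positivity
      have := mul_le_mul_of_nonneg_left h h2
      linarith)
  refine hm.trans ?_
  rw [div_le_iff₀ (Real.exp_pos _), ← Real.exp_add, ful_mgf hp0 R Q hd]
  have hpq : p ^ Q.card ≤ 1 := pow_le_one₀ hp0 hp1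
  have hpq0 : 0 ≤ p ^ Q.card := by positivity
  have h1 : 1 + (1 - θ - 1) * p ^ Q.card ≤ Real.exp (-(θ * p ^ Q.card)) := by
    have := Real.add_one_le_exp (-(θ * p ^ Q.card))
    linarith
  refine (pow_le_pow_left₀ (by nlinarith) h1 _).trans ?_
  rw [← Real.exp_nat_mul]
  apply Real.exp_le_exp.mpr
  have h2 : (R.card : ℝ) * (-(θ * p ^ Q.card)) = -(θ * μ) := by rw [hμ]; ring
  rw [h2]
  have h3 : -θ + (θ + 2 * θ ^ 2) * (1 - η) ≤ -(η ^ 2 / 8) := by
    rw [hθ]; nlinarith [mul_nonneg hη0 hη0, mul_nonneg hη0 (mul_nonneg hη0 hη0)]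
  have h4 := mul_le_mul_of_nonneg_right h3 hμ0
  linarith

end

end Pool.Agent.H98.CD
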