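import Pool.Agent.H98.CC.Prob6

set_option autoImplicit false
set_option linter.unusedSectionVars false

/-!
# Covered pairs and density, general versions
-/

namespace Pool.Agent.H98.CD

open Finset Pool.Agent.H98.CC
open scoped Classical

section

variable {n : ℕ} {p : ℝ}

/-- no small set is too dense -/
lemma dense_small (hp0 : 0 ≤ p) (hp1 : p ≤ 1) (hn : 0 < n) (b : ℕ) (hb : 0 < b) (hbn : b ≤ n)
    (K : ℝ) (hK : 0 < K) (h1 : 15 * ((b : ℝ) ^ 2 * p) ≤ K) (h2 : 4 * (b * Real.log n) ≤ K) :
    gnp n p (fun G => ¬ ∀ Y : Finset (Fin n), Y.card ≤ b → cpair G.Adj Y ≤ K) ≤ 1 / n := by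
  have hL : 0 ≤ Real.log n := Real.log_nonneg (by exact_mod_cast hn)
  have hbr : (1 : ℝ) ≤ b := by exact_mod_cast hb
  set t := ⌈K / 2⌉₊ with ht
  have htK : K / 2 ≤ t := Nat.le_ceil _
  have ht0 : 0 < t := Nat.ceil_pos.mpr (by linarith)
  have e1 : gnp n p (fun G => ¬ ∀ Y : Finset (Fin n), Y.card ≤ b → cpair G.Adj Y ≤ K) ≤
      gnp n p (fun G => ∃ B ∈ (univ : Finset (Fin n)).powersetCard b,
        t ≤ ((eWX B B).filter (fun e => e ∈ G.edgeSet)).card) := by
    apply gnp_mono hp0 hp1
    intro G h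
    push Not at h
    obtain ⟨Y, hY, h⟩ := h
    obtain ⟨B, hYB, hB⟩ := Finset.exists_superset_card_eq hY
      (show b ≤ Fintype.card (Fin n) by rw [Fintype.card_fin]; exact hbn)
    refine ⟨B, ?_, ?_⟩
    · rw [Finset.mem_powersetCard]
      exact ⟨Finset.subset_univ _, hB⟩
    · have h3 := eWX_deg G B B
      have h4 : cpair G.Adj B = ((∑ w ∈ B, (nb G w B).card : ℕ) : ℝ) := by
        unfold cpair
        push_cast
        rfl
      have h6 : cpair G.Adj Y ≤ cpair G.Adj B := by
        rw [cpair_eq, cpair_eq]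
        have h7 : ((Y ×ˢ Y).filter (fun e => G.Adj e.1 e.2)).card ≤
            ((B ×ˢ B).filter (fun e => G.Adj e.1 e.2)).card := by
          apply Finset.card_le_card
          apply Finset.filter_subset_filter
          exact Finset.product_subset_product hYB hYB
        exact_mod_cast h7
      rw [h4] at h6
      have h5 : ((∑ w ∈ B, (nb G w B).card : ℕ) : ℝ) ≤
          2 * (((eWX B B).filter (fun e => e ∈ G.edgeSet)).card : ℝ) := by exact_mod_cast h3
      apply Nat.ceil_le.mpr
      linarith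
  refine e1.trans ((gnp_union_le hp0 hp1 _ _ (Real.exp (-(K / 2)))
    (Real.exp (b * Real.log n)) (Real.exp_pos _).le ?_ ?_).trans ?_)
  · rw [← pow_eq_exp hn]
    exact card_pc b
  · intro B hB
    rw [Finset.mem_powersetCard] at hB
    refine (gnp_many hp0 hp1 (eWX B B) (eWX_sub B B) t).trans ?_
    have hc : (eWX B B).card ≤ b * b := by
      have := eWX_card B B
      rwa [hB.2] at this
    refine (mul_le_mul_of_nonneg_right (cast_choose_le hc t) (by positivity)).trans
      ((choose_mul_pow_le _ t p hp0 ht0).trans ?_)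
    have htr : (0 : ℝ) < t := by exact_mod_cast ht0
    have h3 : Real.exp 1 * ((b * b : ℕ) : ℝ) * p / t ≤ Real.exp (-1) := by
      rw [div_le_iff₀ htr]
      push_cast
      have h4 : Real.exp 1 ≤ 15 / 2 * Real.exp (-1) := by
        have h5 : Real.exp 1 = Real.exp (-1) * (Real.exp 1 * Real.exp 1) := by
          rw [← Real.exp_add, ← Real.exp_add]; norm_num
        have h6 : Real.exp 1 * Real.exp 1 ≤ 15 / 2 := by
          have h10 := Real.exp_one_lt_d9
          have h11 := Real.exp_pos 1
          nlinarith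
        nth_rewrite 1 [h5]
        rw [mul_comm]
        exact mul_le_mul_of_nonneg_right h6 (Real.exp_pos _).le
      calc Real.exp 1 * (b * b) * p = Real.exp 1 * (b ^ 2 * p) := by ring
        _ ≤ 15 / 2 * Real.exp (-1) * (b ^ 2 * p) :=
          mul_le_mul_of_nonneg_right h4 (by positivity)
        _ = Real.exp (-1) * ((15 * (b ^ 2 * p)) / 2) := by ring
        _ ≤ Real.exp (-1) * (K / 2) := by
          apply mul_le_mul_of_nonneg_left _ (Real.exp_pos _).le
          linarith
        _ ≤ _ := mul_le_mul_of_nonneg_left htK (Real.exp_pos _).le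
    refine (pow_le_pow_left₀ (by positivity) h3 _).trans ?_
    rw [← Real.exp_nat_mul]
    apply Real.exp_le_exp.mpr
    linarith
  · rw [inv_eq_exp hn, ← Real.exp_add]
    apply Real.exp_le_exp.mpr
    have h5 : 1 * Real.log n ≤ b * Real.log n := mul_le_mul_of_nonneg_right hbr hL
    linarith

/-- vertices of medium degree to `B` do not cover too many pairs of `B` -/
lemma cover_gen (hp0 : 0 ≤ p) (hp1 : p ≤ 1) (hn : 0 < n) (b D : ℕ) (Λ : ℝ) (hΛ2 : 0 < Λ)
    (hb : 100 ≤ b) (hbn : b ≤ n)
    (hterm : ∀ d : ℕ, D ≤ d → 100 * d ≤ 52 * b →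
      Real.exp (7 / 4 * Λ / b * (d : ℝ) ^ 2) * ((b.choose d : ℝ) * p ^ d) ≤
        Real.exp (-(3 * Real.log n)))
    (hun : 1 + b * (1 + Real.log n - Real.log b - 63 / 40 * Λ) ≤ - Real.log n) :
    gnp n p (fun G => ¬ ∀ B : Finset (Fin n), B.card = b →
      ∑ w ∈ Bᶜ, (if D ≤ (nb G w B).card ∧ 100 * (nb G w B).card ≤ 52 * b
        then ((nb G w B).card : ℝ) ^ 2 else 0) ≤ 9 / 10 * (b : ℝ) ^ 2) ≤ 1 / n := by
  have hnr : (0 : ℝ) < n := by exact_mod_cast hn
  have hbr : (100 : ℝ) ≤ b := by exact_mod_cast hb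
  set lam : ℝ := 7 / 4 * Λ / b with hlam
  have hlam0 : 0 < lam := by
    rw [hlam]; apply div_pos <;> linarith
  set R : Finset ℕ := (Finset.range (b + 1)).filter (fun d => D ≤ d ∧ 100 * d ≤ 52 * b) with hR
  have hmem : ∀ d, d ∈ R ↔ (D ≤ d ∧ 100 * d ≤ 52 * b) := by
    intro d
    rw [hR, Finset.mem_filter, Finset.mem_range]
    constructor
    · exact fun h => h.2
    · exact fun h => ⟨by omega, h⟩
  have e1 : gnp n p (fun G => ¬ ∀ B : Finset (Fin n), B.card = b →
      ∑ w ∈ Bᶜ, (if D ≤ (nb G w B).card ∧ 100 * (nb G w B).card ≤ 52 * b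
        then ((nb G w B).card : ℝ) ^ 2 else 0) ≤ 9 / 10 * (b : ℝ) ^ 2) ≤
      gnp n p (fun G => ∃ B ∈ (univ : Finset (Fin n)).powersetCard b,
        9 / 10 * (b : ℝ) ^ 2 ≤ ∑ w ∈ Bᶜ, (if (nb G w B).card ∈ R
          then ((nb G w B).card : ℝ) ^ 2 else 0)) := by
    apply gnp_mono hp0 hp1
    intro G h
    push Not at h
    obtain ⟨B, hB, h⟩ := h
    refine ⟨B, ?_, ?_⟩
    · rw [Finset.mem_powersetCard]
      exact ⟨Finset.subset_univ _, hB⟩
    · simp only [hmem]
      exact h.le
  refine e1.trans ((gnp_union_le hp0 hp1 _ _ (Real.exp (1 - lam * (9 / 10 * (b : ℝ) ^ 2)))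
    (Real.exp (b * (1 + Real.log n - Real.log b))) (Real.exp_pos _).le ?_ ?_).trans ?_)
  · rw [Finset.card_powersetCard, Finset.card_univ, Fintype.card_fin]
    have h3 := choose_mul_pow_le n b 1 (by norm_num) (by omega)
    rw [one_pow, mul_one, mul_one] at h3
    refine h3.trans (le_of_eq ?_)
    rw [Real.exp_nat_mul]
    congr 1
    rw [Real.exp_sub, Real.exp_add, Real.exp_log hnr, Real.exp_log (by linarith)]
  · intro B hB
    rw [Finset.mem_powersetCard] at hB
    have hBb := hB.2
    rw [gnp_eq]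
    set F : Finset (Fin n) → ℝ := fun N => Real.exp (if N.card ∈ R then lam * (N.card : ℝ) ^ 2 else 0)
      with hF
    have hm := markov (eT n) hp0 hp1 (fun W => ∏ w ∈ Bᶜ, F (nb (gr W) w B))
      (fun W => 9 / 10 * (b : ℝ) ^ 2 ≤ ∑ w ∈ Bᶜ, (if (nb (gr W) w B).card ∈ R
          then ((nb (gr W) w B).card : ℝ) ^ 2 else 0))
      (Real.exp (lam * (9 / 10 * (b : ℝ) ^ 2))) (Real.exp_pos _)
      (fun W _ => Finset.prod_nonneg (fun w _ => (Real.exp_pos _).le))
      (fun W _ h => by
        have h3 : ∏ w ∈ Bᶜ, F (nb (gr W) w B) = Real.exp (lam * ∑ w ∈ Bᶜ,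
            (if (nb (gr W) w B).card ∈ R then ((nb (gr W) w B).card : ℝ) ^ 2 else 0)) := by
          rw [Finset.mul_sum, Real.exp_sum]
          apply Finset.prod_congr rfl
          intro w _
          rw [hF]
          dsimp only
          congr 1
          by_cases h4 : (nb (gr W) w B).card ∈ R
          · rw [if_pos h4, if_pos h4]
          · rw [if_neg h4, if_neg h4, mul_zero]
        rw [h3]
        apply Real.exp_le_exp.mpr
        exact mul_le_mul_of_nonneg_left h hlam0.le)
    refine hm.trans ?_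
    rw [Real.exp_sub]
    apply div_le_div_of_nonneg_right _ (Real.exp_pos _).le
    rw [rows_exs (p := p) Bᶜ B disjoint_compl_left (fun _ N => F N)]
    rw [Finset.prod_const]
    have h4 : exs B p F ≤ Real.exp (1 / n) := by
      refine (mgf_le hp0 hp1 B (fun d => lam * (d : ℝ) ^ 2) R).trans ?_
      have h5 : ∑ d ∈ R, Real.exp (lam * (d : ℝ) ^ 2) * ((B.card.choose d : ℝ) * p ^ d) ≤
          ∑ d ∈ R, Real.exp (-(3 * Real.log n)) := by
        apply Finset.sum_le_sum
        intro d hd
        rw [hmem] at hd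
        rw [hBb]
        exact hterm d hd.1 hd.2
      have h6 : ∑ d ∈ R, Real.exp (-(3 * Real.log n)) ≤ 1 / n := by
        rw [Finset.sum_const, nsmul_eq_mul]
        have h7 : (R.card : ℝ) ≤ (n : ℝ) ^ 2 := by
          have h8 : R.card ≤ b + 1 := by
            refine (Finset.card_filter_le _ _).trans ?_
            rw [Finset.card_range]
          have h9 : (R.card : ℝ) ≤ n + 1 := by
            have : R.card ≤ n + 1 := by omega
            exact_mod_cast this
          have h10 : (100 : ℝ) ≤ n := by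
            have : 100 ≤ n := by omega
            exact_mod_cast this
          nlinarith
        refine (mul_le_mul_of_nonneg_right h7 (Real.exp_pos _).le).trans ?_
        rw [pow_eq_exp hn 2, inv_eq_exp hn, ← Real.exp_add]
        apply Real.exp_le_exp.mpr
        push_cast
        linarith
      have := Real.add_one_le_exp (1 / (n : ℝ))
      linarith
    have h5 : 0 ≤ exs B p F := exs_nonneg _ hp0 hp1 (fun _ _ => (Real.exp_pos _).le)
    refine (pow_le_pow_left₀ h5 h4 _).trans ?_
    rw [← Real.exp_nat_mul]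
    apply Real.exp_le_exp.mpr
    rw [mul_one_div, div_le_one hnr]
    have h6 : (Bᶜ).card ≤ n := by
      refine (Finset.card_le_univ _).trans ?_
      rw [Fintype.card_fin]
    exact_mod_cast h6
  · rw [inv_eq_exp hn, ← Real.exp_add]
    apply Real.exp_le_exp.mpr
    have h3 : lam * (9 / 10 * (b : ℝ) ^ 2) = 63 / 40 * Λ * b := by
      rw [hlam]
      have : (b : ℝ) ≠ 0 := by positivity
      field_simp
      ring
    rw [h3]
    linarith

/-- one term of the moment generating function when `D` is a multiple of the expected degree -/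
lemma term3 (b D d : ℕ) (Λ : ℝ) (hΛ : p = Real.exp (-Λ)) (hΛ2 : 200 ≤ Λ) (hD : 0 < D)
    (hb : 0 < b) (h1 : 49 * (b * p) ≤ D) (hd1 : D ≤ d) (hd2 : 100 * d ≤ 52 * b) :
    Real.exp (7 / 4 * Λ / b * (d : ℝ) ^ 2) * ((b.choose d : ℝ) * p ^ d) ≤
      Real.exp (-((D : ℝ) / 4)) := by
  have hdpos : 0 < d := lt_of_lt_of_le hD hd1
  have hdr : (0 : ℝ) < d := by exact_mod_cast hdpos
  have hDr : (0 : ℝ) < D := by exact_mod_cast hD
  have hbr : (0 : ℝ) < b := by exact_mod_cast hb
  have hd1r : (D : ℝ) ≤ d := by exact_mod_cast hd1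
  have hd2r : 100 * (d : ℝ) ≤ 52 * b := by exact_mod_cast hd2
  have hp0 : 0 ≤ p := hΛ ▸ (Real.exp_pos _).le
  have hp0' : 0 < p := hΛ ▸ (Real.exp_pos _)
  have h3 := choose_mul_pow_le b d p hp0 hdpos
  have h4 : Real.exp 1 * b * p / d = Real.exp (1 - Λ + Real.log (b / d)) := by
    rw [Real.exp_add, Real.exp_log (by positivity), Real.exp_sub, hΛ, Real.exp_neg]
    field_simp
  rw [h4, ← Real.exp_nat_mul] at h3
  refine (mul_le_mul_of_nonneg_left h3 (Real.exp_pos _).le).trans ?_
  rw [← Real.exp_add]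
  apply Real.exp_le_exp.mpr
  -- the bracket
  have h5 : 7 / 4 * Λ / b * (d : ℝ) ^ 2 + d * (1 - Λ + Real.log (b / d))
      = d * (1 - Λ + Real.log (b / d) + 7 / 4 * Λ * (d / b)) := by
    field_simp
    ring
  rw [h5]
  have e3 : Real.exp 3 ≤ 49 := by
    have h10 := Real.exp_one_lt_d9
    have h11 : Real.exp 3 = Real.exp 1 ^ 3 := by rw [← Real.exp_nat_mul]; norm_num
    rw [h11]
    have h12 : Real.exp 1 ^ 3 ≤ 2.7182818286 ^ 3 := pow_le_pow_left₀ (Real.exp_pos 1).le h10.le 3
    refine h12.trans (by norm_num)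
  have h6 : 1 - Λ + Real.log (b / d) + 7 / 4 * Λ * (d / b) ≤ -(1 / 4) := by
    by_cases h7 : 7 * (d : ℝ) ≤ b
    · by_cases h8 : Λ * (d : ℝ) ≤ b
      · -- small `d`
        have h9 : Real.log (b / d) ≤ Λ - 3 := by
          rw [Real.log_le_iff_le_exp (by positivity), div_le_iff₀ hdr, Real.exp_sub,
            show Real.exp Λ = 1 / p by rw [hΛ, Real.exp_neg, one_div, inv_inv],
            div_div, div_mul_eq_mul_div, one_mul, le_div_iff₀ (by positivity)]
          calc b * (p * Real.exp 3) ≤ b * (p * 49) := by gcongr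
            _ = 49 * (b * p) := by ring
            _ ≤ D := h1
            _ ≤ d := hd1r
        have h10 : 7 / 4 * Λ * (d / b) ≤ 7 / 4 := by
          have : Λ * (d / b) ≤ 1 := by
            rw [← mul_div_assoc, div_le_one hbr]; exact h8
          linarith
        linarith
      · push Not at h8
        have h9 : Real.log (b / d) ≤ Real.log Λ := by
          apply Real.log_le_log (by positivity)
          rw [div_le_iff₀ hdr]; exact h8.le
        have h11 : Real.log Λ ≤ Λ / 2 := by
          have h12 := Real.log_le_sub_one_of_pos (show 0 < Λ / 4 by linarith)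
          have h13 : Real.log Λ = Real.log (Λ / 4) + Real.log 4 := by
            rw [← Real.log_mul (by positivity) (by norm_num)]; congr 1; ring
          have h14 : Real.log 4 ≤ 2 := by
            rw [Real.log_le_iff_le_exp (by norm_num)]
            have h15 : Real.exp 2 = Real.exp 1 * Real.exp 1 := by rw [← Real.exp_add]; norm_num
            rw [h15]
            have := Real.exp_one_gt_d9
            nlinarith
          linarith
        have h10 : (d : ℝ) / b ≤ 1 / 7 := by
          rw [div_le_div_iff₀ hbr (by norm_num)]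
          linarith
        have h10 : 7 / 4 * Λ * (d / b) ≤ 7 / 4 * Λ * (1 / 7) :=
          mul_le_mul_of_nonneg_left h10 (by linarith)
        linarith
    · push Not at h7
      have h8 : Real.log (b / d) ≤ 2 := by
        have h9 : (b : ℝ) / d ≤ 7 := by
          rw [div_le_iff₀ hdr]; linarith
        have h10 : Real.log 7 ≤ 2 := by
          rw [Real.log_le_iff_le_exp (by norm_num)]
          have h11 : Real.exp 2 = Real.exp 1 * Real.exp 1 := by rw [← Real.exp_add]; norm_num
          rw [h11]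
          have := Real.exp_one_gt_d9
          nlinarith
        exact (Real.log_le_log (by positivity) h9).trans h10
      have h9 : (d : ℝ) / b ≤ 52 / 100 := by
        rw [div_le_div_iff₀ hbr (by norm_num)]
        linarith
      have h10 : 7 / 4 * Λ * (d / b) ≤ 7 / 4 * Λ * (52 / 100) :=
        mul_le_mul_of_nonneg_left h9 (by linarith)
      linarith
  have h7 := mul_le_mul_of_nonneg_left h6 hdr.le
  linarith

end

end Pool.Agent.H98.CD
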