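import Pool.Agent.H98.CC.Exs

set_option autoImplicit false
set_option linter.unusedSectionVars false

/-!
# A lower tail inequality for the number of contained sets
-/

namespace Pool.Agent.H98.CD

open Finset Pool.Agent.H98.CC
open scoped Classical

section

variable {X : Type*} [DecidableEq X] {p : ℝ}

/-- independence of the event that `T` is contained and a function of the complement of `T` -/
lemma exs_indep (s T : Finset X) (hT : T ⊆ s) (g : Finset X → ℝ) :
    exs s p (fun W => ind (T ⊆ W) * g (W \ T)) = p ^ T.card * exs s p (fun W => g (W \ T)) := by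
  have hd : Disjoint T (s \ T) := Finset.disjoint_sdiff
  have hU : T ∪ (s \ T) = s := Finset.union_sdiff_of_subset hT
  have h1 := exs_split T (s \ T) hd p (fun W => ind (T ⊆ W)) g
  have h2 := exs_split T (s \ T) hd p (fun _ => 1) g
  rw [hU] at h1 h2
  have e0 : ∀ W, W ⊆ s → W ∩ (s \ T) = W \ T := by
    intro W hW
    ext x
    simp only [Finset.mem_inter, Finset.mem_sdiff]
    constructor
    · rintro ⟨h3, _, h4⟩; exact ⟨h3, h4⟩
    · rintro ⟨h3, h4⟩; exact ⟨h3, hW h3, h4⟩
  have e1 : exs s p (fun W => ind (T ⊆ W) * g (W \ T)) =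
      exs s p (fun W => ind (T ⊆ W ∩ T) * g (W ∩ (s \ T))) := by
    apply exs_congr
    intro W hW
    have h3 : T ⊆ W ∩ T ↔ T ⊆ W := by
      rw [Finset.subset_inter_iff]
      simp
    rw [e0 W hW, ind_congr h3]
  have e2 : exs s p (fun W => g (W \ T)) = exs s p (fun W => 1 * g (W ∩ (s \ T))) := by
    apply exs_congr
    intro W hW
    rw [e0 W hW, one_mul]
  rw [e1, h1, e2, h2, exs_const, one_mul]
  congr 1
  exact prs_subset T T (Finset.Subset.refl T)

/-- a decreasing function and the event that `T` is contained are negatively correlated -/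
lemma exs_down (s : Finset X) (hp0 : 0 ≤ p) (hp1 : p ≤ 1) (g : Finset X → ℝ)
    (hg : ∀ W W', W ⊆ W' → W' ⊆ s → g W' ≤ g W) (T : Finset X) (hT : T ⊆ s) :
    exs s p (fun W => ind (T ⊆ W) * g W) ≤ p ^ T.card * exs s p g := by
  have hd : Disjoint T (s \ T) := Finset.disjoint_sdiff
  have hU : T ∪ (s \ T) = s := Finset.union_sdiff_of_subset hT
  have hrec : ∀ W, W ⊆ s → W ∩ T ∪ W ∩ (s \ T) = W := by
    intro W hW
    rw [← Finset.inter_union_distrib_left, hU, Finset.inter_eq_left.mpr hW]
  have e1 : exs s p (fun W => ind (T ⊆ W) * g W)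
      = exs T p (fun Y => exs (s \ T) p (fun Z => ind (T ⊆ Y) * g (Y ∪ Z))) := by
    rw [← exs_fubini T (s \ T) hd, hU]
    apply exs_congr
    intro W hW
    have h3 : T ⊆ W ∩ T ↔ T ⊆ W := by
      rw [Finset.subset_inter_iff]
      simp
    rw [hrec W hW, ind_congr h3]
  have e2 : exs s p g = exs T p (fun Y => exs (s \ T) p (fun Z => g (Y ∪ Z))) := by
    rw [← exs_fubini T (s \ T) hd, hU]
    apply exs_congr
    intro W hW
    rw [hrec W hW]
  have e3 : exs s p (fun W => ind (T ⊆ W) * g W)
      = p ^ T.card * exs (s \ T) p (fun Z => g (T ∪ Z)) := by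
    rw [e1, ← prs_subset T T (Finset.Subset.refl T), prs, ← exs_mul_right]
    apply exs_congr
    intro Y hY
    by_cases h : T ⊆ Y
    · have : Y = T := Finset.Subset.antisymm hY h
      subst this
      simp [ind_pos]
    · rw [ind_neg h, zero_mul]
      simp only [zero_mul]
      exact exs_const _ _ _
  rw [e3, e2]
  apply mul_le_mul_of_nonneg_left _ (by positivity)
  rw [← exs_const T p (exs (s \ T) p (fun Z => g (T ∪ Z)))]
  apply exs_mono T hp0 hp1
  intro Y hY
  apply exs_mono _ hp0 hp1
  intro Z hZ
  exact hg _ _ (Finset.union_subset_union_left hY)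
    (Finset.union_subset hT (hZ.trans Finset.sdiff_subset))

variable {ι : Type*} [DecidableEq ι]

/-- the number of the sets `T i`, `i ∈ I`, contained in `W` -/
noncomputable def xc (T : ι → Finset X) (I : Finset ι) (W : Finset X) : ℕ :=
  (I.filter (fun i => T i ⊆ W)).card

/-- the expected number of contained sets -/
noncomputable def mu (p : ℝ) (T : ι → Finset X) (I : Finset ι) : ℝ := ∑ i ∈ I, p ^ (T i).card

/-- the sum over the ordered pairs of distinct intersecting sets -/
noncomputable def del (p : ℝ) (T : ι → Finset X) (I : Finset ι) : ℝ :=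
  ∑ i ∈ I, ∑ j ∈ I.filter (fun j => j ≠ i ∧ ¬ Disjoint (T j) (T i)), p ^ (T j ∪ T i).card

lemma xc_mono (T : ι → Finset X) (I : Finset ι) {W W' : Finset X} (h : W ⊆ W') :
    xc T I W ≤ xc T I W' := by
  unfold xc
  apply Finset.card_le_card
  intro i hi
  rw [Finset.mem_filter] at hi ⊢
  exact ⟨hi.1, hi.2.trans h⟩

/-- the moment generating function bound -/
lemma janson_mgf (s : Finset X) (hp0 : 0 ≤ p) (hp1 : p ≤ 1) (q : ℝ) (hq0 : 0 ≤ q) (hq1 : q ≤ 1)
    (T : ι → Finset X) (I : Finset ι) (hT : ∀ i ∈ I, T i ⊆ s) :
    exs s p (fun W => (1 - q) ^ xc T I W) ≤ Real.exp (-(q * mu p T I) + q ^ 2 * del p T I) := by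
  have hq' : 0 ≤ 1 - q := by linarith
  have hq'' : 1 - q ≤ 1 := by linarith
  induction I using Finset.induction_on with
  | empty =>
    have h1 : exs s p (fun W => (1 - q) ^ xc T (∅ : Finset ι) W) = 1 := by
      rw [← exs_const s p 1]
      apply exs_congr
      intro W _
      simp [xc]
    rw [h1]
    simp [mu, del]
  | insert k I hk ih =>
    have ih' := ih (fun i hi => hT i (Finset.mem_insert_of_mem hi))
    have hTk := hT k (Finset.mem_insert_self k I)
    set Id := I.filter (fun j => ¬ Disjoint (T j) (T k)) with hId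
    set Ie := I.filter (fun j => Disjoint (T j) (T k)) with hIe
    set F := exs s p (fun W => (1 - q) ^ xc T I W) with hF
    have hF0 : 0 ≤ F := exs_nonneg s hp0 hp1 (fun _ _ => by positivity)
    -- the new count
    have hx : ∀ W, (1 - q) ^ xc T (insert k I) W =
        (1 - q) ^ xc T I W - q * (ind (T k ⊆ W) * (1 - q) ^ xc T I W) := by
      intro W
      by_cases h : T k ⊆ W
      · have h1 : xc T (insert k I) W = xc T I W + 1 := by
          unfold xc
          rw [Finset.filter_insert, if_pos h, Finset.card_insert_of_notMem]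
          intro h2
          exact hk (Finset.mem_filter.mp h2).1
        rw [h1, pow_succ, ind_pos h]; ring
      · have h1 : xc T (insert k I) W = xc T I W := by
          unfold xc
          rw [Finset.filter_insert, if_neg h]
        rw [h1, ind_neg h]; ring
    set g : Finset X → ℝ := fun W => (1 - q) ^ xc T Ie W with hg
    have hg0 : ∀ W, 0 ≤ g W := fun W => by rw [hg]; positivity
    have hgdown : ∀ W W', W ⊆ W' → W' ⊆ s → g W' ≤ g W := by
      intro W W' h _
      exact pow_le_pow_of_le_one hq' hq'' (xc_mono T Ie h)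
    have hgT : ∀ W, g (W \ T k) = g W := by
      intro W
      rw [hg]
      dsimp only
      congr 1
      unfold xc
      congr 1
      apply Finset.filter_congr
      intro i hi
      rw [hIe, Finset.mem_filter] at hi
      constructor
      · intro h; exact h.trans Finset.sdiff_subset
      · intro h; exact Finset.subset_sdiff.mpr ⟨h, hi.2⟩
    set br : ℝ := p ^ (T k).card - q * ∑ j ∈ Id, p ^ (T j ∪ T k).card with hbr
    have hEg : F ≤ exs s p g := by
      apply exs_mono s hp0 hp1
      intro W _
      apply pow_le_pow_of_le_one hq' hq''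
      unfold xc
      apply Finset.card_le_card
      apply Finset.filter_subset_filter
      exact Finset.filter_subset _ _
    -- lower bound for the cross term
    have hlow : exs s p g * br ≤ exs s p (fun W => ind (T k ⊆ W) * (1 - q) ^ xc T I W) := by
      have h1 : ∀ W, W ⊆ s → ind (T k ⊆ W) * g W - q * ∑ j ∈ Id, ind (T j ∪ T k ⊆ W) * g W ≤
          ind (T k ⊆ W) * (1 - q) ^ xc T I W := by
        intro W _
        by_cases h : T k ⊆ W
        · have h2 : xc T I W = xc T Ie W + xc T Id W := by
            unfold xc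
            rw [← Finset.card_union_of_disjoint]
            · congr 1
              rw [← Finset.filter_union, hIe, hId, Finset.filter_union_filter_not_eq]
            · apply Finset.disjoint_filter_filter
              rw [hIe, hId]
              exact Finset.disjoint_filter_filter_not _ _ _
          have h3 : 1 - q * (xc T Id W : ℝ) ≤ (1 - q) ^ xc T Id W := by
            have := one_add_mul_le_pow (show (-2 : ℝ) ≤ -q by linarith) (xc T Id W)
            have e : (1 + -q : ℝ) = 1 - q := by ring
            rw [e] at this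
            linarith
          have h4 : ∑ j ∈ Id, ind (T j ∪ T k ⊆ W) * g W = (xc T Id W : ℝ) * g W := by
            rw [← Finset.sum_mul]
            congr 1
            unfold xc
            rw [Finset.card_filter]
            push_cast
            apply Finset.sum_congr rfl
            intro j _
            by_cases h5 : T j ⊆ W
            · rw [ind_pos (Finset.union_subset h5 h), if_pos h5]
            · rw [ind_neg (fun h6 => h5 (Finset.subset_union_left.trans h6)), if_neg h5]
          rw [ind_pos h, h4, h2, pow_add, one_mul, one_mul]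
          have h5 := mul_le_mul_of_nonneg_left h3 (hg0 W)
          have e2 : g W = (1 - q) ^ xc T Ie W := rfl
          rw [e2] at h5 ⊢
          linarith
        · have h4 : ∑ j ∈ Id, ind (T j ∪ T k ⊆ W) * g W = 0 := by
            apply Finset.sum_eq_zero
            intro j _
            rw [ind_neg (fun h6 => h (Finset.subset_union_right.trans h6)), zero_mul]
          rw [ind_neg h, h4]
          simp
      have h2 := exs_mono s hp0 hp1 h1
      have h3 : exs s p (fun W => ind (T k ⊆ W) * g W - q * ∑ j ∈ Id, ind (T j ∪ T k ⊆ W) * g W)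
          = exs s p (fun W => ind (T k ⊆ W) * g W) -
            q * ∑ j ∈ Id, exs s p (fun W => ind (T j ∪ T k ⊆ W) * g W) := by
        rw [← exs_sum, ← exs_mul_left]
        have h4 : exs s p (fun W => ind (T k ⊆ W) * g W) =
            exs s p (fun W => (ind (T k ⊆ W) * g W - q * ∑ j ∈ Id, ind (T j ∪ T k ⊆ W) * g W) +
              q * ∑ j ∈ Id, ind (T j ∪ T k ⊆ W) * g W) := by
          apply exs_congr
          intro W _
          ring
        rw [h4, exs_add]
        ring
      rw [h3] at h2
      refine le_trans ?_ h2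
      have h4 : exs s p (fun W => ind (T k ⊆ W) * g W) = p ^ (T k).card * exs s p g := by
        have := exs_indep (p := p) s (T k) hTk g
        simp only [hgT] at this
        exact this
      have h5 : ∑ j ∈ Id, exs s p (fun W => ind (T j ∪ T k ⊆ W) * g W) ≤
          ∑ j ∈ Id, p ^ (T j ∪ T k).card * exs s p g := by
        apply Finset.sum_le_sum
        intro j hj
        apply exs_down s hp0 hp1 g hgdown
        apply Finset.union_subset _ hTk
        exact hT j (Finset.mem_insert_of_mem (Finset.mem_filter.mp hj).1)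
      rw [← Finset.sum_mul] at h5
      rw [h4, hbr]
      have h6 := mul_le_mul_of_nonneg_left h5 hq0
      linarith
    have hmain : exs s p (fun W => (1 - q) ^ xc T (insert k I) W) ≤ F * Real.exp (-(q * br)) := by
      have h1 : exs s p (fun W => (1 - q) ^ xc T (insert k I) W) =
          F - q * exs s p (fun W => ind (T k ⊆ W) * (1 - q) ^ xc T I W) := by
        have h2 : F = exs s p (fun W => (1 - q) ^ xc T (insert k I) W +
            q * (ind (T k ⊆ W) * (1 - q) ^ xc T I W)) := by
          apply exs_congr
          intro W _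
          rw [hx]; ring
        rw [h2, exs_add, exs_mul_left]; ring
      rw [h1]
      by_cases hbr0 : 0 ≤ br
      · have h2 : F * br ≤ exs s p g * br := mul_le_mul_of_nonneg_right hEg hbr0
        have h3 := mul_le_mul_of_nonneg_left (h2.trans hlow) hq0
        have h4 := Real.add_one_le_exp (-(q * br))
        have h5 := mul_le_mul_of_nonneg_left h4 hF0
        linarith
      · push Not at hbr0
        have h2 : 0 ≤ exs s p (fun W => ind (T k ⊆ W) * (1 - q) ^ xc T I W) :=
          exs_nonneg s hp0 hp1 (fun _ _ => mul_nonneg (ind_nonneg _) (by positivity))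
        have h3 : 1 ≤ Real.exp (-(q * br)) := Real.one_le_exp (by nlinarith)
        have h4 := mul_nonneg hq0 h2
        have h5 := mul_le_mul_of_nonneg_left h3 hF0
        linarith
    refine hmain.trans ((mul_le_mul_of_nonneg_right ih' (Real.exp_pos _).le).trans ?_)
    rw [← Real.exp_add]
    apply Real.exp_le_exp.mpr
    have h1 : mu p T (insert k I) = mu p T I + p ^ (T k).card := by
      unfold mu
      rw [Finset.sum_insert hk]; ring
    have h2 : del p T I + ∑ j ∈ Id, p ^ (T j ∪ T k).card ≤ del p T (insert k I) := by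
      unfold del
      rw [Finset.sum_insert hk, add_comm]
      apply add_le_add
      · apply Finset.sum_le_sum_of_subset_of_nonneg
        · intro j hj
          rw [hId, Finset.mem_filter] at hj
          rw [Finset.mem_filter]
          exact ⟨Finset.mem_insert_of_mem hj.1, fun h => hk (h ▸ hj.1), hj.2⟩
        · intro j _ _; positivity
      · apply Finset.sum_le_sum
        intro i _
        apply Finset.sum_le_sum_of_subset_of_nonneg
        · apply Finset.filter_subset_filter
          exact Finset.subset_insert _ _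
        · intro j _ _; positivity
    rw [h1, hbr]
    have h3 := mul_le_mul_of_nonneg_left h2 (sq_nonneg q)
    linarith

/-- the lower tail -/
lemma janson_lt (s : Finset X) (hp0 : 0 ≤ p) (hp1 : p ≤ 1) (q : ℝ) (hq0 : 0 ≤ q) (hq1 : q ≤ 1 / 2)
    (T : ι → Finset X) (I : Finset ι) (hT : ∀ i ∈ I, T i ⊆ s) (t : ℝ)
    (ht : 4 * t ≤ mu p T I) (hΔ : 4 * (q * del p T I) ≤ mu p T I) :
    prs s p (fun W => (xc T I W : ℝ) ≤ t) ≤ Real.exp (-(3 / 8 * (q * mu p T I))) := by
  by_cases ht0 : t < 0
  · have h1 : prs s p (fun W => (xc T I W : ℝ) ≤ t) = 0 := by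
      rw [show (0 : ℝ) = exs s p (fun _ => 0) by rw [exs_const]]
      apply exs_congr
      intro W _
      apply ind_neg
      intro h
      have : (0 : ℝ) ≤ xc T I W := by positivity
      linarith
    rw [h1]; exact (Real.exp_pos _).le
  push Not at ht0
  have hmu0 : 0 ≤ mu p T I := by unfold mu; exact Finset.sum_nonneg (fun _ _ => by positivity)
  have hq' : 0 < 1 - q := by linarith
  -- `(1 - q) ≥ exp (- 3/2 q)`
  have hlog : Real.exp (-(3 / 2 * q)) ≤ 1 - q := by
    rw [Real.exp_neg, inv_le_comm₀ (Real.exp_pos _) hq']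
    rw [inv_le_iff_one_le_mul₀ hq']
    have h1 : 1 + 3 / 2 * q + (3 / 2 * q) ^ 2 / 2 ≤ Real.exp (3 / 2 * q) :=
      Real.quadratic_le_exp_of_nonneg (by positivity)
    have h2 : 1 ≤ (1 + 3 / 2 * q + (3 / 2 * q) ^ 2 / 2) * (1 - q) := by nlinarith [mul_nonneg hq0 hq0, mul_nonneg hq0 (mul_nonneg hq0 hq0), mul_nonneg hq0 (sub_nonneg.mpr hq1), mul_nonneg (mul_nonneg hq0 hq0) (sub_nonneg.mpr hq1)]
    exact h2.trans (mul_le_mul_of_nonneg_right h1 hq'.le)
  have hm := markov s hp0 hp1 (fun W => (1 - q) ^ xc T I W) (fun W => (xc T I W : ℝ) ≤ t)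
    (Real.exp (-(3 / 2 * q * t))) (Real.exp_pos _) (fun W _ => by positivity)
    (fun W _ h => by
      have h1 := pow_le_pow_left₀ (Real.exp_pos _).le hlog (xc T I W)
      refine le_trans ?_ h1
      rw [← Real.exp_nat_mul]
      apply Real.exp_le_exp.mpr
      have := mul_le_mul_of_nonneg_left h (show 0 ≤ 3 / 2 * q by positivity)
      linarith)
  refine hm.trans ?_
  rw [div_le_iff₀ (Real.exp_pos _), ← Real.exp_add]
  refine (janson_mgf s hp0 hp1 q hq0 (by linarith) T I hT).trans ?_
  apply Real.exp_le_exp.mpr
  have h1 : q * (4 * t) ≤ q * mu p T I := mul_le_mul_of_nonneg_left ht hq0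
  have h2 : q * (4 * (q * del p T I)) ≤ q * mu p T I := mul_le_mul_of_nonneg_left hΔ hq0
  have h3 : q ^ 2 * del p T I = q * (q * del p T I) := by ring
  rw [h3]
  linarith

end

end Pool.Agent.H98.CD
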