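import Pool.Agent.H98.CD.UpD

set_option autoImplicit false
set_option linter.unusedSectionVars false

/-!
# The upper bound near `n^{-1/3}`
-/

namespace Pool.Agent.H98.CD

open Finset Pool.Agent.H98.CC
open scoped Classical

/-- the order of magnitude near `n^{-1/3}` -/
noncomputable def ff2 (n : ℕ) (p : ℝ) : ℝ :=
  1 / p * (max (Real.log n / 3 - n * p ^ 3) 0 + Real.log (Real.log n + n * p ^ 3))

lemma epow (L : ℝ) (h0 : 0 ≤ L) (h : L ≤ Real.exp (L / 1000)) (k : ℕ) :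
    L ^ k ≤ Real.exp (k * (L / 1000)) := by
  rw [Real.exp_nat_mul]
  exact pow_le_pow_left₀ h0 h k

/-- basic facts on `y = n p^3` and `ω = log n + y` -/
lemma yfacts (L Λ : ℝ) (b1 : 600 ≤ L) (b2 : L ≤ Real.exp (L / 1000))
    (h1 : Λ ≤ (1 / 3 + 1 / 300) * L) (h2 : (1 / 3 - 1 / 1000) * L ≤ Λ) :
    0 < Real.exp (L - 3 * Λ) ∧ Real.exp (-(L / 100)) ≤ Real.exp (L - 3 * Λ) ∧
    L + Real.exp (L - 3 * Λ) ≤ Real.exp (L / 200) ∧ L - 3 * Λ ≤ Real.log (L + Real.exp (L - 3 * Λ)) ∧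
    6 ≤ Real.log (L + Real.exp (L - 3 * Λ)) := by
  have hy := Real.exp_pos (L - 3 * Λ)
  refine ⟨hy, Real.exp_le_exp.mpr (by linarith), ?_, ?_, ?_⟩
  · have e1 : Real.exp (L - 3 * Λ) ≤ Real.exp (3 * (L / 1000)) :=
      Real.exp_le_exp.mpr (by linarith)
    have e2 : L ≤ Real.exp (3 * (L / 1000)) :=
      b2.trans (Real.exp_le_exp.mpr (by linarith))
    have e3 : 2 * Real.exp (3 * (L / 1000)) ≤ Real.exp (L / 1000) * Real.exp (3 * (L / 1000)) :=
      mul_le_mul_of_nonneg_right (by linarith) (Real.exp_pos _).le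
    rw [← Real.exp_add] at e3
    have e4 : Real.exp (L / 1000 + 3 * (L / 1000)) ≤ Real.exp (L / 200) :=
      Real.exp_le_exp.mpr (by linarith)
    linarith
  · rw [Real.le_log_iff_exp_le (by linarith)]
    linarith
  · rw [Real.le_log_iff_exp_le (by linarith)]
    have h3 : Real.exp 6 = Real.exp 1 ^ 6 := by rw [← Real.exp_nat_mul]; norm_num
    have h4 : Real.exp 1 ^ 6 ≤ 2.7182818286 ^ 6 :=
      pow_le_pow_left₀ (Real.exp_pos 1).le Real.exp_one_lt_d9.le 6
    have h5 : (2.7182818286 : ℝ) ^ 6 ≤ 600 := by norm_num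
    linarith

/-- the upper bound -/
lemma asy_upper2 (n : ℕ) (p Λ L : ℝ) (hn : 5 ≤ n) (hp : p = Real.exp (-Λ)) (hL : L = Real.log n)
    (b1 : 600 ≤ L) (b2 : L ≤ Real.exp (L / 1000))
    (h1 : Λ ≤ (1 / 3 + 1 / 300) * L) (h2 : (1 / 3 - 1 / 1000) * L ≤ Λ) :
    gnp n p (fun G => ¬ (cliqueChromaticNumber G : ℝ) ≤ 12 * ff2 n p) ≤ 3 / n := by
  obtain ⟨y0, y1, y2, y3, y4⟩ := yfacts L Λ b1 b2 h1 h2
  have hn0 : 0 < n := by omega
  have hnr : (0 : ℝ) < n := by exact_mod_cast hn0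
  have hnL : (n : ℝ) = Real.exp L := by rw [hL, Real.exp_log hnr]
  have hp0 : 0 < p := hp ▸ Real.exp_pos _
  have hΛ0 : 100 ≤ Λ := by linarith only [h2, b1]
  have hL0 : 0 < L := by linarith only [b1]
  set y : ℝ := Real.exp (L - 3 * Λ) with hy
  set ω : ℝ := L + y with hω
  have hω0 : 600 ≤ ω := by linarith only [hω, y0, b1]
  have hω00 : 0 < ω := by linarith only [hω0]
  set lw : ℝ := Real.log ω with hlw
  have hnp3 : n * p ^ 3 = y := by
    rw [hnL, hp, ← Real.exp_nat_mul, ← Real.exp_add, hy]; congr 1; push_cast; ring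
  set z : ℝ := max (L / 3 - y) 0 with hz
  have hz0 : 0 ≤ z := le_max_right _ _
  have hzL : z ≤ L / 3 := by
    rw [hz]; exact max_le (by linarith only [y0]) (by linarith only [hL0])
  have hff : ff2 n p = Real.exp Λ * (z + lw) := by
    unfold ff2
    rw [← hL, hnp3, hp, Real.exp_neg, one_div, inv_inv]
  have hp1 : p ≤ 1 := by rw [hp]; exact Real.exp_le_one_iff.mpr (by linarith only [hΛ0])
  have hpp : p * Real.exp Λ = 1 := by
    rw [hp, ← Real.exp_add, neg_add_cancel, Real.exp_zero]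
  -- `ω^4`
  have hlwL : lw ≤ L / 200 := by
    rw [hlw, Real.log_le_iff_le_exp hω00]; exact y2
  have hlw4 : Real.exp (-(4 * lw)) = 1 / ω ^ 4 := by
    rw [Real.exp_neg, one_div]
    congr 1
    have : 4 * lw = ((4 : ℕ) : ℝ) * lw := by norm_num
    rw [this, Real.exp_nat_mul, hlw, Real.exp_log hω00]
  -- the parameters
  set g : ℝ := 2 * z + 4 * lw with hg
  have hg0 : 0 < g := by linarith only [hg, hz0, y4]
  have hgL : g ≤ (2 / 3 + 1 / 50) * L := by linarith only [hg, hzL, hlwL]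
  set M : ℝ := Real.exp (L - g) with hM
  have hM0 : 0 < M := Real.exp_pos _
  set k1 : ℕ := ⌈Real.exp Λ * g⌉₊ with hk1
  have k1_lo : Real.exp Λ * g ≤ k1 := Nat.le_ceil _
  have k1_hi : (k1 : ℝ) ≤ Real.exp Λ * g + 1 :=
    (Nat.ceil_lt_add_one (by positivity)).le
  set k2 : ℕ := ⌈Real.exp Λ⌉₊ with hk2
  have k2_lo : Real.exp Λ ≤ k2 := Nat.le_ceil _
  have k2_hi : (k2 : ℝ) ≤ Real.exp Λ + 1 := (Nat.ceil_lt_add_one (by positivity)).le
  have hk1n : 8 * L * (k1 : ℝ) ≤ n := by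
    rw [hnL]
    have e1 : Real.exp Λ * g + 1 ≤ Real.exp (1 / 2 * L) * L := by
      have e2 : Real.exp Λ ≤ Real.exp (1 / 2 * L) := Real.exp_le_exp.mpr (by linarith only [h1, hL0])
      have e3 : Real.exp Λ * g ≤ Real.exp (1 / 2 * L) * ((2 / 3 + 1 / 50) * L) :=
        mul_le_mul e2 hgL hg0.le (Real.exp_pos _).le
      have e4 : 1 ≤ Real.exp (1 / 2 * L) := Real.one_le_exp (by linarith only [hL0])
      have e5 : 1 * (1 / 10 * L) ≤ Real.exp (1 / 2 * L) * (1 / 10 * L) :=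
        mul_le_mul_of_nonneg_right e4 (by linarith only [hL0])
      have e6 : 0 ≤ Real.exp (1 / 2 * L) * L := by positivity
      linarith only [e3, e5, e6, b1]
    have e2 : 8 * L * (k1 : ℝ) ≤ 8 * L * (Real.exp (1 / 2 * L) * L) :=
      mul_le_mul_of_nonneg_left (k1_hi.trans e1) (by linarith only [hL0])
    refine e2.trans ?_
    have e3 := epow L hL0.le b2 3
    have e4 : 8 * L * (Real.exp (1 / 2 * L) * L) ≤ Real.exp (1 / 2 * L) * L ^ 3 := by
      have : 8 * L * (Real.exp (1 / 2 * L) * L) = Real.exp (1 / 2 * L) * L ^ 2 * 8 := by ring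
      rw [this, pow_succ L 2, ← mul_assoc]
      exact mul_le_mul_of_nonneg_left (by linarith only [b1]) (by positivity)
    refine e4.trans ((mul_le_mul_of_nonneg_left e3 (Real.exp_pos _).le).trans ?_)
    rw [← Real.exp_add]
    apply Real.exp_le_exp.mpr
    push_cast
    linarith only [hL0]
  have hMn : M = n * (Real.exp (-(2 * z)) * (1 / ω ^ 4)) := by
    rw [hM, hnL, ← hlw4, ← Real.exp_add, ← Real.exp_add, hg]; congr 1; ring
  have hMn2 : M ≤ n * (1 / ω ^ 4) := by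
    rw [hMn]
    apply mul_le_mul_of_nonneg_left _ hnr.le
    have : Real.exp (-(2 * z)) ≤ 1 := Real.exp_le_one_iff.mpr (by linarith only [hz0])
    have h3 : 0 ≤ 1 / ω ^ 4 := by positivity
    calc Real.exp (-(2 * z)) * (1 / ω ^ 4) ≤ 1 * (1 / ω ^ 4) := mul_le_mul_of_nonneg_right this h3
      _ = _ := one_mul _
  have hM24 : 24 * L * M ≤ n := by
    have e1 : 24 * L * M ≤ 24 * L * (n * (1 / ω ^ 4)) :=
      mul_le_mul_of_nonneg_left hMn2 (by positivity)
    refine e1.trans ?_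
    have e2 : 24 * L * (n * (1 / ω ^ 4)) = n * (24 * L / ω ^ 4) := by ring
    rw [e2]
    apply mul_le_of_le_one_right hnr.le
    rw [div_le_one (by positivity)]
    have e3 : L ≤ ω := by linarith only [hω, y0]
    have e4 : 24 ≤ ω ^ 3 := by
      have : (600 : ℝ) ^ 3 ≤ ω ^ 3 := pow_le_pow_left₀ (by norm_num) hω0 3
      linarith only [this]
    calc 24 * L ≤ ω ^ 3 * ω := mul_le_mul e4 e3 hL0.le (by positivity)
      _ = ω ^ 4 := by ring
  -- `M p`
  have hnp : n * p = Real.exp (2 * Λ) * y := by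
    rw [hnL, hp, hy, ← Real.exp_add, ← Real.exp_add]; congr 1; ring
  have hnp2 : n * p ^ 2 = Real.exp Λ * y := by
    rw [hnL, hp, hy, ← Real.exp_nat_mul, ← Real.exp_add, ← Real.exp_add]; congr 1; push_cast; ring
  have hyω : y * (1 / ω ^ 4) ≤ 1 / ω ^ 3 := by
    have : 1 / ω ^ 3 = ω * (1 / ω ^ 4) := by field_simp
    rw [this]
    exact mul_le_mul_of_nonneg_right (by linarith only [hω, hL0]) (by positivity)
  have hMp : M * p ≤ Real.exp (2 * Λ) / ω ^ 3 := by
    calc M * p ≤ n * (1 / ω ^ 4) * p := mul_le_mul_of_nonneg_right hMn2 hp0.le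
      _ = (n * p) * (1 / ω ^ 4) := by ring
      _ = Real.exp (2 * Λ) * (y * (1 / ω ^ 4)) := by rw [hnp]; ring
      _ ≤ Real.exp (2 * Λ) * (1 / ω ^ 3) := mul_le_mul_of_nonneg_left hyω (Real.exp_pos _).le
      _ = _ := by ring
  have hMp2 : M * p ^ 2 ≤ Real.exp Λ / ω ^ 3 := by
    calc M * p ^ 2 ≤ n * (1 / ω ^ 4) * p ^ 2 := mul_le_mul_of_nonneg_right hMn2 (by positivity)
      _ = (n * p ^ 2) * (1 / ω ^ 4) := by ring
      _ = Real.exp Λ * (y * (1 / ω ^ 4)) := by rw [hnp2]; ring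
      _ ≤ Real.exp Λ * (1 / ω ^ 3) := mul_le_mul_of_nonneg_left hyω (Real.exp_pos _).le
      _ = _ := by ring
  have hω3 : (600 : ℝ) ^ 3 ≤ ω ^ 3 := pow_le_pow_left₀ (by norm_num) hω0 3
  have hMp3 : M * p ^ 3 ≤ 1 := by
    calc M * p ^ 3 ≤ n * (1 / ω ^ 4) * p ^ 3 := mul_le_mul_of_nonneg_right hMn2 (by positivity)
      _ = (n * p ^ 3) * (1 / ω ^ 4) := by ring
      _ = y * (1 / ω ^ 4) := by rw [hnp3]
      _ ≤ 1 / ω ^ 3 := hyω
      _ ≤ 1 := by
        rw [div_le_one (by positivity)]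
        linarith only [hω3]
  -- polynomial terms are small compared with `e^Λ / ω^3`
  have hsmall : 5 * L + 2 ≤ Real.exp Λ / ω ^ 3 := by
    rw [le_div_iff₀ (by positivity)]
    have e1 : ω ^ 3 ≤ Real.exp (3 * (L / 200)) := by
      have : ω ^ 3 ≤ Real.exp (L / 200) ^ 3 := pow_le_pow_left₀ hω00.le y2 3
      rw [← Real.exp_nat_mul] at this
      refine this.trans (Real.exp_le_exp.mpr ?_)
      push_cast
      exact le_of_eq (by ring)
    have e2 : 5 * L + 2 ≤ L ^ 2 := by nlinarith only [b1]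
    have e3 := epow L hL0.le b2 2
    have e4 : (5 * L + 2) * ω ^ 3 ≤ Real.exp ((2 : ℕ) * (L / 1000)) * Real.exp (3 * (L / 200)) :=
      mul_le_mul (e2.trans e3) e1 (by positivity) (Real.exp_pos _).le
    refine e4.trans ?_
    rw [← Real.exp_add]
    apply Real.exp_le_exp.mpr
    push_cast
    linarith only [h2, hL0]
  have hsmall2 : Real.exp Λ / ω ^ 3 ≤ Real.exp (2 * Λ) / ω ^ 3 := by
    apply div_le_div_of_nonneg_right _ (by positivity)
    apply Real.exp_le_exp.mpr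
    linarith only [hΛ0]
  -- `c0`
  set η : ℝ := 1 / (4 * L) with hη
  have hη0 : 0 ≤ η := by positivity
  have hη1 : η ≤ 1 / 2 := by
    rw [hη]
    apply one_div_le_one_div_of_le (by norm_num)
    linarith only [b1]
  have hηL : η * L = 1 / 4 := by rw [hη]; field_simp
  set wm : ℝ := n - 3 * M - k1 with hwm
  have hwm1 : (1 - 1 / (4 * L)) * n ≤ wm := by
    have e1 : 3 * M ≤ 1 / (8 * L) * n := by
      rw [one_div, inv_mul_eq_div, le_div_iff₀ (by positivity)]
      linarith only [hM24]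
    have e2 : (k1 : ℝ) ≤ 1 / (8 * L) * n := by
      rw [one_div, inv_mul_eq_div, le_div_iff₀ (by positivity)]
      linarith only [hk1n]
    have e3 : 1 / (4 * L) * (n : ℝ) = 1 / (8 * L) * n + 1 / (8 * L) * n := by field_simp; norm_num
    have e4 : (1 - 1 / (4 * L)) * (n : ℝ) = n - 1 / (4 * L) * n := by ring
    rw [e4, e3]
    linarith only [hwm, e1, e2]
  have hη' : 1 / (4 * L) = η := hη.symm
  rw [hη'] at hwm1
  have hwm2 : (1 / 2) * n ≤ wm := by
    have : (1 / 2) * (n : ℝ) ≤ (1 - η) * n := mul_le_mul_of_nonneg_right (by linarith only [hη1]) hnr.le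
    linarith only [this, hwm1]
  have hwm0 : 0 ≤ wm := by linarith only [hwm2, hnr]
  set c0 : ℕ := ⌊(1 - η) * (wm * p ^ 2)⌋₊ with hc0
  have hη1' : 0 ≤ 1 - η := by linarith only [hη1]
  have c0_hi : (c0 : ℝ) ≤ (1 - η) * (wm * p ^ 2) :=
    Nat.floor_le (mul_nonneg hη1' (mul_nonneg hwm0 (by positivity)))
  have c0_lo : (1 - η) * (wm * p ^ 2) - 1 ≤ c0 := by
    have := Nat.lt_floor_add_one ((1 - η) * (wm * p ^ 2))
    rw [← hc0] at this
    linarith only [this]
  -- `p c0 ≥ min y L - 2`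
  have hpc0 : min y L - 2 ≤ p * c0 := by
    have e1 : (1 - η) * ((1 - η) * (n * p ^ 3)) - p ≤ p * c0 := by
      have e2 := mul_le_mul_of_nonneg_left c0_lo hp0.le
      refine le_trans ?_ e2
      have e3 : (1 - η) * n * p ^ 3 ≤ wm * p ^ 3 :=
        mul_le_mul_of_nonneg_right hwm1 (by positivity)
      have e4 := mul_le_mul_of_nonneg_left e3 hη1'
      have e5 : p * ((1 - η) * (wm * p ^ 2) - 1) = (1 - η) * (wm * p ^ 3) - p := by ring
      rw [e5]
      linarith only [e4]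
    rw [hnp3] at e1
    have e2 : (1 - η) * ((1 - η) * y) = y - 2 * (η * y) + η ^ 2 * y := by ring
    rw [e2] at e1
    have e3 : 0 ≤ η ^ 2 * y := by positivity
    rcases le_total y (2 * L) with h3 | h3
    · have e4 : η * y ≤ η * (2 * L) := mul_le_mul_of_nonneg_left h3 hη0
      have e5 : η * (2 * L) = 1 / 2 := by linarith only [hηL]
      have e6 := min_le_left y L
      linarith only [e1, e3, e4, e5, e6, hp1]
    · have e4 : η * y ≤ 1 / 8 * y := by
        apply mul_le_mul_of_nonneg_right _ y0.le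
        rw [hη]
        apply one_div_le_one_div_of_le (by norm_num)
        linarith only [b1]
      have e6 := min_le_right y L
      linarith only [e1, e3, e4, e6, hp1, h3, hL0]
  have hpow : (1 - p) ^ c0 ≤ Real.exp (2 - min y L) := by
    have e1 : 1 - p ≤ Real.exp (-p) := by
      have := Real.add_one_le_exp (-p)
      linarith only [this]
    have e2 := pow_le_pow_left₀ (by linarith only [hp1]) e1 c0
    refine e2.trans ?_
    rw [← Real.exp_nat_mul]
    apply Real.exp_le_exp.mpr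
    linarith only [hpc0]
  have ht : M * (p ^ 2 * (1 - p) ^ c0) ≤ 1 := by
    have e1 : M * (p ^ 2 * (1 - p) ^ c0) ≤ M * (p ^ 2 * Real.exp (2 - min y L)) := by
      apply mul_le_mul_of_nonneg_left _ hM0.le
      exact mul_le_mul_of_nonneg_left hpow (by positivity)
    refine e1.trans ?_
    have e2 : M * (p ^ 2 * Real.exp (2 - min y L)) =
        Real.exp (L - g - 2 * Λ + 2 - min y L) := by
      rw [hM, hp, ← Real.exp_nat_mul, ← Real.exp_add, ← Real.exp_add]; congr 1; push_cast; ring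
    rw [e2]
    apply Real.exp_le_one_iff.mpr
    have e3 : L / 3 ≤ 2 * z + min y L := by
      have e5 : L / 3 - y ≤ z := le_max_left _ _
      rcases le_total y L with h3 | h3
      · rw [min_eq_left h3]
        rcases le_total y (L / 3) with h4 | h4
        · linarith only [e5, h4]
        · linarith only [hz0, h4]
      · rw [min_eq_right h3]
        linarith only [hz0, hL0]
    linarith only [e3, hg, y3, y4, hlw]
  -- reduction
  set d1 : ℕ := ⌈24 * (M * p)⌉₊ + ⌈3 * L⌉₊ with hd1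
  set d2 : ℕ := ⌈24 * (M * p ^ 2)⌉₊ + ⌈4 * L⌉₊ with hd2
  set d3 : ℕ := ⌈24 * (M * p ^ 3)⌉₊ + ⌈5 * L⌉₊ with hd3
  set t3 : ℕ := ⌈24 * (M * (p ^ 2 * (1 - p) ^ c0))⌉₊ + ⌈4 * L⌉₊ with ht3
  have hq0 : 0 ≤ M * (p ^ 2 * (1 - p) ^ c0) := by
    apply mul_nonneg hM0.le
    apply mul_nonneg (by positivity)
    exact pow_nonneg (by linarith only [hp1]) _
  have hceil : ∀ a b : ℝ, 0 ≤ a → 0 ≤ b → a ≤ ((⌈a⌉₊ + ⌈b⌉₊ : ℕ) : ℝ) ∧
      b ≤ ((⌈a⌉₊ + ⌈b⌉₊ : ℕ) : ℝ) ∧ ((⌈a⌉₊ + ⌈b⌉₊ : ℕ) : ℝ) ≤ a + b + 2 := by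
    intro a b ha hb
    push_cast
    have e1 := Nat.le_ceil a
    have e2 := Nat.le_ceil b
    have e3 := (Nat.ceil_lt_add_one ha).le
    have e4 := (Nat.ceil_lt_add_one hb).le
    have e5 : (0 : ℝ) ≤ (⌈a⌉₊ : ℝ) := by positivity
    have e6 : (0 : ℝ) ≤ (⌈b⌉₊ : ℝ) := by positivity
    exact ⟨by linarith only [e1, e6], by linarith only [e2, e5], by linarith only [e3, e4]⟩
  obtain ⟨u1, u2, u3⟩ := hceil (24 * (M * p)) (3 * L) (by positivity) (by positivity)
  obtain ⟨v1, v2, v3⟩ := hceil (24 * (M * p ^ 2)) (4 * L) (by positivity) (by positivity)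
  obtain ⟨w1, w2, w3⟩ := hceil (24 * (M * p ^ 3)) (5 * L) (by positivity) (by positivity)
  obtain ⟨x1, x2, x3⟩ := hceil (24 * (M * (p ^ 2 * (1 - p) ^ c0))) (4 * L) (by linarith only [hq0])
    (by positivity)
  rw [← hd1] at u1 u2 u3
  rw [← hd2] at v1 v2 v3
  rw [← hd3] at w1 w2 w3
  rw [← ht3] at x1 x2 x3
  have hred : gnp n p (fun G => ¬ (cliqueChromaticNumber G : ℝ) ≤ 12 * ff2 n p) ≤
      gnp n p (fun G => ¬ cliqueChromaticNumber G ≤ 2 * k1 + k2) := by
    apply gnp_mono hp0.le hp1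
    intro G h h3
    apply h
    have h4 : (cliqueChromaticNumber G : ℝ) ≤ ((2 * k1 + k2 : ℕ) : ℝ) := by exact_mod_cast h3
    push_cast at h4
    rw [hff]
    have e1 : 1 ≤ Real.exp Λ := Real.one_le_exp (by linarith only [hΛ0])
    have e2 : Real.exp Λ * 6 ≤ Real.exp Λ * lw := mul_le_mul_of_nonneg_left y4 (Real.exp_pos _).le
    have e3 : 0 ≤ Real.exp Λ * z := by positivity
    have e4 : Real.exp Λ * g = 2 * (Real.exp Λ * z) + 4 * (Real.exp Λ * lw) := by rw [hg]; ring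
    have e5 : 12 * (Real.exp Λ * (z + lw)) = 12 * (Real.exp Λ * z) + 12 * (Real.exp Λ * lw) := by
      ring
    rw [e5]
    rw [e4] at k1_hi
    linarith only [h4, k1_hi, k2_hi, e1, e2, e3]
  refine hred.trans ?_
  refine upper_prob2 hp0.le hp1 hn k1 k2 M d1 d2 d3 t3 c0 η ?_ ?_ hη0 hη1 ?_ ?_ ?_ ?_ ?_ ?_ ?_ ?_ ?_
    ?_ ?_ ?_ ?_ ?_
  · -- k1 ≤ n
    have e1 : (k1 : ℝ) ≤ n := by
      have e2 : 1 * (k1 : ℝ) ≤ 8 * L * k1 :=
        mul_le_mul_of_nonneg_right (by linarith only [b1]) (by positivity)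
      linarith only [e2, hk1n]
    exact_mod_cast e1
  · have e1 : (0 : ℝ) < k2 := lt_of_lt_of_le (Real.exp_pos _) k2_lo
    exact_mod_cast e1
  · -- triangles
    rw [← hL]
    have e1 : p ^ 2 * (n - 2) = n * p ^ 2 - 2 * p ^ 2 := by ring
    have e2 : p ^ 2 ≤ 1 := pow_le_one₀ hp0.le hp1
    have e3 : n * p ^ 2 = Real.exp (L - 2 * Λ) := by
      rw [hnL, hp, ← Real.exp_nat_mul, ← Real.exp_add]; congr 1; push_cast; ring
    rw [e1, e3]
    have e4 := epow L hL0.le b2 2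
    have e5 : Real.exp ((2 : ℕ) * (L / 1000)) ≤ Real.exp (L - 2 * Λ) := by
      apply Real.exp_le_exp.mpr
      push_cast
      linarith only [h1, hL0]
    have e6 : 3 * L + 2 ≤ L ^ 2 := by nlinarith only [b1]
    linarith only [e2, e4, e5, e6]
  · -- c3
    rw [hM, hnL, ← Real.exp_add]
    apply Real.exp_le_exp.mpr
    have e1 := mul_le_mul_of_nonneg_left k1_lo hp0.le
    have e2 : p * (Real.exp Λ * g) = g := by rw [← mul_assoc, hpp, one_mul]
    linarith only [e1, e2]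
  · -- c4
    rw [← hL]
    refine b2.trans ?_
    rw [hM]
    apply Real.exp_le_exp.mpr
    linarith only [hgL, hL0]
  · linarith only [u1]
  · rw [← hL]; linarith only [u2]
  · linarith only [v1]
  · rw [← hL]; linarith only [v2]
  · linarith only [w1]
  · rw [← hL]; linarith only [w2]
  · linarith only [x1]
  · rw [← hL]; linarith only [x2]
  · exact c0_hi
  · -- concentration
    rw [← hL]
    have e1 : Real.exp (3 / 10 * L) ≤ n * p ^ 2 := by
      rw [hnL, hp, ← Real.exp_nat_mul, ← Real.exp_add]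
      apply Real.exp_le_exp.mpr
      push_cast
      linarith only [h1, hL0]
    have e2 : 1 / 2 * (n * p ^ 2) ≤ wm * p ^ 2 := by
      have := mul_le_mul_of_nonneg_right hwm2 (show 0 ≤ p ^ 2 by positivity)
      linarith only [this]
    have e3 : η ^ 2 / 8 * (1 / 2 * Real.exp (3 / 10 * L)) ≤ η ^ 2 / 8 * (wm * p ^ 2) := by
      apply mul_le_mul_of_nonneg_left _ (by positivity)
      linarith only [e1, e2]
    refine le_trans ?_ e3
    have e4 : η ^ 2 / 8 * (1 / 2 * Real.exp (3 / 10 * L)) = Real.exp (3 / 10 * L) / (256 * L ^ 2) := by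
      rw [hη]; field_simp; norm_num
    rw [e4, le_div_iff₀ (by positivity)]
    have e5 := epow L hL0.le b2 5
    have e6 : 4 * L * (256 * L ^ 2) ≤ L ^ 5 := by
      have e7 : (1024 : ℝ) ≤ L ^ 2 := by nlinarith only [b1]
      calc 4 * L * (256 * L ^ 2) = 1024 * L ^ 3 := by ring
        _ ≤ L ^ 2 * L ^ 3 := mul_le_mul_of_nonneg_right e7 (by positivity)
        _ = L ^ 5 := by ring
    refine e6.trans (e5.trans (Real.exp_le_exp.mpr ?_))
    push_cast
    linarith only [hL0]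
  · -- the hypergraph condition
    have D1 : (d1 : ℝ) ≤ 25 * (Real.exp (2 * Λ) / ω ^ 3) := by
      linarith only [u3, hMp, hsmall, hsmall2, hL0]
    have D2 : (d2 : ℝ) ≤ 25 * (Real.exp Λ / ω ^ 3) := by
      linarith only [v3, hMp2, hsmall, hL0]
    have D3 : (d3 : ℝ) ≤ 6 * ω := by
      linarith only [w3, hMp3, hω, y0, b1]
    have T3 : (t3 : ℝ) ≤ 6 * ω := by
      linarith only [x3, ht, hω, y0, b1]
    have K2 : (k2 : ℝ) ≤ 2 * Real.exp Λ := by
      have e1 : 1 ≤ Real.exp Λ := Real.one_le_exp (by linarith only [hΛ0])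
      linarith only [k2_hi, e1]
    have K3 : Real.exp Λ ^ 3 ≤ (k2 : ℝ) ^ 3 := pow_le_pow_left₀ (Real.exp_pos _).le k2_lo 3
    refine le_trans ?_ K3
    have E0 : 0 < Real.exp Λ := Real.exp_pos _
    have E2 : Real.exp (2 * Λ) = Real.exp Λ ^ 2 := by
      rw [← Real.exp_nat_mul]; norm_num
    have X1 : (d1 : ℝ) * t3 ≤ 25 * (Real.exp (2 * Λ) / ω ^ 3) * (6 * ω) :=
      mul_le_mul D1 T3 (by positivity) (by positivity)
    have X2 : (d1 : ℝ) * t3 * k2 ≤ 25 * (Real.exp (2 * Λ) / ω ^ 3) * (6 * ω) * (2 * Real.exp Λ) :=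
      mul_le_mul X1 K2 (by positivity) (by positivity)
    have X3 : 25 * (Real.exp (2 * Λ) / ω ^ 3) * (6 * ω) * (2 * Real.exp Λ) =
        300 * (Real.exp Λ ^ 3 / ω ^ 2) := by
      rw [E2]; field_simp; norm_num
    have X4 : (d1 : ℝ) * d2 ≤ 25 * (Real.exp (2 * Λ) / ω ^ 3) * (25 * (Real.exp Λ / ω ^ 3)) :=
      mul_le_mul D1 D2 (by positivity) (by positivity)
    have X5 : (d1 : ℝ) * d2 * d3 ≤
        25 * (Real.exp (2 * Λ) / ω ^ 3) * (25 * (Real.exp Λ / ω ^ 3)) * (6 * ω) :=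
      mul_le_mul X4 D3 (by positivity) (by positivity)
    have X6 : 25 * (Real.exp (2 * Λ) / ω ^ 3) * (25 * (Real.exp Λ / ω ^ 3)) * (6 * ω) =
        3750 * (Real.exp Λ ^ 3 / ω ^ 5) := by
      rw [E2]; field_simp; norm_num
    have Y1 : Real.exp Λ ^ 3 / ω ^ 2 ≤ Real.exp Λ ^ 3 / 360000 := by
      apply div_le_div_of_nonneg_left (by positivity) (by norm_num)
      have : (600 : ℝ) ^ 2 ≤ ω ^ 2 := pow_le_pow_left₀ (by norm_num) hω0 2
      linarith only [this]
    have Y2 : Real.exp Λ ^ 3 / ω ^ 5 ≤ Real.exp Λ ^ 3 / 360000 := by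
      apply div_le_div_of_nonneg_left (by positivity) (by norm_num)
      have : (600 : ℝ) ^ 5 ≤ ω ^ 5 := pow_le_pow_left₀ (by norm_num) hω0 5
      have h5 : (360000 : ℝ) ≤ 600 ^ 5 := by norm_num
      linarith only [this, h5]
    have Z0 : 0 < Real.exp Λ ^ 3 := by positivity
    have F1 : 4 * ((d1 : ℝ) * t3) * k2 = 4 * ((d1 : ℝ) * t3 * k2) := by ring
    rw [F1]
    linarith only [X2, X3, X5, X6, Y1, Y2, Z0]

end Pool.Agent.H98.CD
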