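import Pool.Agent.H98.CD.K4P4
import Pool.Agent.H98.CD.Upp2

set_option autoImplicit false
set_option linter.unusedSectionVars false

/-!
# Lower bound with complete graphs on four vertices: asymptotics
-/

namespace Pool.Agent.H98.CD

open Finset Pool.Agent.H98.CC
open scoped Classical

/-- the lower bound when `n p ^ 3` is at least of order `log n` -/
lemma asy_lower4 (n : ℕ) (p Λ L : ℝ) (hn : 5 ≤ n) (hp : p = Real.exp (-Λ)) (hL : L = Real.log n)
    (b1 : 10 ^ 24 ≤ L) (b2 : L ≤ Real.exp (L / 1000))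
    (h1 : Λ ≤ (1 / 3 + 1 / 300) * L) (h2 : (1 / 3 - 1 / 1000) * L ≤ Λ)
    (hy4 : L / 4 ≤ Real.exp (L - 3 * Λ)) :
    gnp n p (fun G => ¬ 1 / 1000 * (Real.exp Λ * Real.log (L + Real.exp (L - 3 * Λ))) ≤
      (cliqueChromaticNumber G : ℝ)) ≤ 9 / n := by
  have b1' : (9000 : ℝ) ≤ L := le_trans (by norm_num) b1
  obtain ⟨y0, y1, y2, y3, y4⟩ := yfacts L Λ (le_trans (by norm_num) b1) b2 h1 h2
  have hn0 : 0 < n := by omega
  have hnr : (0 : ℝ) < n := by exact_mod_cast hn0
  have hnL : (n : ℝ) = Real.exp L := by rw [hL, Real.exp_log hnr]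
  have hL0 : 0 < L := by linarith only [b1']
  have hL1 : (1 : ℝ) ≤ L := by linarith only [b1']
  have hp0 : 0 < p := hp ▸ Real.exp_pos _
  have hpp : p * Real.exp Λ = 1 := by
    rw [hp, ← Real.exp_add, neg_add_cancel, Real.exp_zero]
  set y : ℝ := Real.exp (L - 3 * Λ) with hy
  have hylarge : 10 ^ 20 ≤ y := by
    have : (10 : ℝ) ^ 20 ≤ 10 ^ 24 / 4 := by norm_num
    linarith only [this, b1, hy4]
  have hy1 : 1 ≤ y := le_trans (by norm_num) hylarge
  have hyhi : y ≤ Real.exp (3 * (L / 1000)) := Real.exp_le_exp.mpr (by linarith only [h2])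
  set ω : ℝ := L + y with hω
  have hω0 : 0 < ω := by linarith only [hω, y0, hL0]
  have hω5 : ω ≤ 5 * y := by linarith only [hω, hy4]
  set z : ℝ := Real.log ω with hz
  have hz0 : 0 < z := by linarith only [y4]
  have hzL : z ≤ L / 200 := by rw [hz, Real.log_le_iff_le_exp hω0]; exact y2
  have hexpz : Real.exp z = ω := Real.exp_log hω0
  -- `g` and `x`
  set g : ℝ := Real.exp (z / 8) with hg
  have hg0 : 0 < g := Real.exp_pos _
  have hg8 : g ^ 8 = ω := by
    rw [hg, ← Real.exp_nat_mul, ← hexpz]; congr 1; push_cast; ring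
  have hg3 : 1000 ≤ g := by
    have e1 : (1000 : ℝ) ^ 8 ≤ g ^ 8 := by
      rw [hg8]
      have : (1000 : ℝ) ^ 8 = 10 ^ 24 := by norm_num
      rw [this]; linarith only [b1, hω, y0]
    exact le_of_pow_le_pow_left₀ (by norm_num) hg0.le e1
  set x : ℝ := Real.exp (-(z / 8)) with hx
  have hx0 : 0 < x := Real.exp_pos _
  have hgx : g * x = 1 := by rw [hg, hx, ← Real.exp_add, add_neg_cancel, Real.exp_zero]
  have hx1 : x ≤ 1 := Real.exp_le_one_iff.mpr (by linarith only [hz0])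
  have hygx : g ^ 8 ≤ 5 * y := by rw [hg8]; exact hω5
  have hyx3 : 10 ^ 14 ≤ y * x ^ 3 := by
    have e1 : g ^ 8 * x ^ 3 = g ^ 5 * (g * x) ^ 3 := by ring
    rw [hgx, one_pow, mul_one] at e1
    have e2 : (1000 : ℝ) ^ 5 ≤ g ^ 5 := pow_le_pow_left₀ (by norm_num) hg3 5
    have e3 := mul_le_mul_of_nonneg_right hygx (show 0 ≤ x ^ 3 by positivity)
    rw [e1] at e3
    have e4 : (1000 : ℝ) ^ 5 = 10 ^ 15 := by norm_num
    rw [e4] at e2
    linarith only [e2, e3]
  have hyx : 1 ≤ y * x := by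
    have e1 : y * x ^ 3 ≤ y * x := by
      apply mul_le_mul_of_nonneg_left _ (by positivity)
      calc x ^ 3 = x * (x ^ 2) := by ring
        _ ≤ x * 1 := by
          apply mul_le_mul_of_nonneg_left _ hx0.le
          exact pow_le_one₀ hx0.le hx1
        _ = x := mul_one _
    linarith only [e1, hyx3]
  -- `E`
  set E : ℝ := Real.exp (L - Λ - z / 8) with hE
  have hE0 : 0 < E := Real.exp_pos _
  have hE1 : Real.exp (L / 2) ≤ E := by
    rw [hE]; apply Real.exp_le_exp.mpr; linarith only [h1, hzL, hL0]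
  have hEn : E = n * p * x := by
    rw [hnL, hp, hx, ← Real.exp_add, ← Real.exp_add, hE,
      show L + -Λ + -(z / 8) = L - Λ - z / 8 by ring]
  have hEp : Real.exp (L / 4) ≤ E * p := by
    rw [hE, hp, ← Real.exp_add]; apply Real.exp_le_exp.mpr; linarith only [h1, hzL, hL0]
  have hEp2 : E * p ^ 2 = y * x := by
    rw [hE, hp, ← Real.exp_nat_mul, ← Real.exp_add, hy, hx, ← Real.exp_add]
    congr 1
    push_cast
    ring
  have hpow : ∀ k : ℕ, L ^ k ≤ Real.exp (k * (L / 1000)) := fun k => epow L hL0.le b2 k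
  have h4pow : 10 ^ 20 * L ^ 4 ≤ Real.exp (L / 4) := by
    have e1 := hpow 5
    have e2 : Real.exp ((5 : ℕ) * (L / 1000)) ≤ Real.exp (L / 4) :=
      Real.exp_le_exp.mpr (by push_cast; linarith only [hL0])
    have e3 : 10 ^ 20 * L ^ 4 ≤ L ^ 5 := by
      have : L ^ 5 = L * L ^ 4 := by ring
      rw [this]
      have e4 : (10 : ℝ) ^ 20 ≤ L := le_trans (by norm_num) b1
      exact mul_le_mul_of_nonneg_right e4 (by positivity)
    linarith only [e1, e2, e3]
  have hL4 : L ≤ L ^ 4 := by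
    calc L = L ^ 1 := (pow_one L).symm
      _ ≤ L ^ 4 := pow_le_pow_right₀ hL1 (by norm_num)
  have hL41 : 1 ≤ L ^ 4 := one_le_pow₀ hL1
  have hE2 : Real.exp (L / 4) ≤ Real.exp (L / 2) :=
    Real.exp_le_exp.mpr (by linarith only [hL0])
  have hpsmall : p ≤ Real.exp (-(L / 4)) := by
    rw [hp]; apply Real.exp_le_exp.mpr; linarith only [h2, hL0]
  have hpsmall2 : p * (10 ^ 20 * L ^ 4) ≤ 1 := by
    have e1 : Real.exp (-(L / 4)) * Real.exp (L / 4) = 1 := by
      rw [← Real.exp_add, neg_add_cancel, Real.exp_zero]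
    calc p * (10 ^ 20 * L ^ 4) ≤ Real.exp (-(L / 4)) * Real.exp (L / 4) :=
          mul_le_mul hpsmall h4pow (by positivity) (Real.exp_pos _).le
      _ = 1 := e1
  have hpL : p * L ≤ 1 / 100 := by
    have e1 : p * L ≤ p * L ^ 4 := mul_le_mul_of_nonneg_left hL4 hp0.le
    have e2 : 0 ≤ p * L ^ 4 := by positivity
    have e3 : p * (10 ^ 20 * L ^ 4) = 10 ^ 20 * (p * L ^ 4) := by ring
    rw [e3] at hpsmall2
    norm_num at hpsmall2
    linarith only [e1, e2, hpsmall2]
  have hp9 : p * 9000 ≤ 1 / 100 := by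
    have : p * 9000 ≤ p * L := mul_le_mul_of_nonneg_left b1' hp0.le
    linarith only [this, hpL]
  have hp12 : p ≤ 1 / 2 := by linarith only [hp9, hp0]
  have hΛ200 : 200 ≤ Λ := by linarith only [h2, b1']
  -- `s`
  set s : ℕ := ⌈E⌉₊ with hs
  have s_lo : E ≤ s := Nat.le_ceil _
  have s_hi : (s : ℝ) ≤ 101 / 100 * E := by
    have := Nat.ceil_lt_add_one hE0.le
    norm_num at h4pow
    linarith only [this, hE1, hE2, h4pow, hL41]
  have hs0 : (0 : ℝ) < s := lt_of_lt_of_le hE0 s_lo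
  have hE20 : 10 ^ 20 ≤ E := by
    have e1 : (10 : ℝ) ^ 20 * 1 ≤ 10 ^ 20 * L ^ 4 :=
      mul_le_mul_of_nonneg_left hL41 (by norm_num)
    linarith only [e1, hE1, hE2, h4pow]
  have hs100 : 100 ≤ s := by
    have e1 : (100 : ℝ) ≤ 10 ^ 20 := by norm_num
    have : (100 : ℝ) ≤ s := by linarith only [s_lo, hE20, e1]
    exact_mod_cast this
  set b : ℕ := 2 * s - s / 100 with hb
  have b_hi : (b : ℝ) ≤ 2 * s := by
    have : b ≤ 2 * s := by omega
    exact_mod_cast this
  have b_lo : 199 / 100 * (s : ℝ) ≤ b := by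
    have : 199 * s ≤ 100 * b := by omega
    have h2 : 199 * (s : ℝ) ≤ 100 * b := by exact_mod_cast this
    linarith only [h2]
  have b_lo1 : (s : ℝ) ≤ b := by linarith only [b_lo, hs0]
  have hb0 : (0 : ℝ) < b := by linarith only [b_lo1, hs0]
  have hb3 : 6 * (s : ℝ) ^ 3 ≤ (b : ℝ) ^ 3 := by
    calc 6 * (s : ℝ) ^ 3 ≤ (199 / 100 * (s : ℝ)) ^ 3 := by
          have : 0 ≤ (s : ℝ) ^ 3 := by positivity
          have e : (199 / 100 * (s : ℝ)) ^ 3 = 7880599 / 1000000 * (s : ℝ) ^ 3 := by ring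
          rw [e]; linarith only [this]
      _ ≤ _ := pow_le_pow_left₀ (by positivity) b_lo 3
  have hsp : Real.exp (L / 4) ≤ s * p :=
    hEp.trans (mul_le_mul_of_nonneg_right s_lo hp0.le)
  have hsp2 : s * p ^ 2 ≤ 101 / 100 * y := by
    calc s * p ^ 2 ≤ 101 / 100 * E * p ^ 2 := mul_le_mul_of_nonneg_right s_hi (by positivity)
      _ = 101 / 100 * (y * x) := by rw [← hEp2]; ring
      _ ≤ 101 / 100 * (y * 1) := by
        apply mul_le_mul_of_nonneg_left _ (by norm_num)
        exact mul_le_mul_of_nonneg_left hx1 y0.le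
      _ = 101 / 100 * y := by ring
  have hsp2lo : y * x ≤ s * p ^ 2 := by
    rw [← hEp2]; exact mul_le_mul_of_nonneg_right s_lo (by positivity)
  -- `D`
  set e7 : ℝ := Real.exp (-(7 / 10 * Λ)) with he7
  have he70 : 0 < e7 := Real.exp_pos _
  set D : ℕ := ⌈e7 * s⌉₊ with hD
  have D_lo : e7 * s ≤ D := Nat.le_ceil _
  have D_lo2 : 10 ^ 20 * L ^ 4 ≤ (D : ℝ) := by
    refine h4pow.trans (le_trans ?_ D_lo)
    refine le_trans ?_ (mul_le_mul_of_nonneg_left s_lo he70.le)
    rw [he7, hE, ← Real.exp_add]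
    apply Real.exp_le_exp.mpr
    linarith only [h1, hzL, hL0]
  have D20 : 10 ^ 20 ≤ (D : ℝ) := by
    have e1 : (10 : ℝ) ^ 20 * 1 ≤ 10 ^ 20 * L ^ 4 :=
      mul_le_mul_of_nonneg_left hL41 (by norm_num)
    linarith only [e1, D_lo2]
  have D0 : (0 : ℝ) < D := lt_of_lt_of_le (by norm_num) D20
  have D_hi : (D : ℝ) ≤ 2 * (e7 * s) := by
    have e1 := Nat.ceil_lt_add_one (show 0 ≤ e7 * s by positivity)
    have e2 : (1 : ℝ) ≤ 10 ^ 20 / 2 := by norm_num
    linarith only [e1, e2, D20]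
  have hDp : L ≤ D * p := by
    have e1 : e7 * E * p ≤ D * p := by
      apply mul_le_mul_of_nonneg_right _ hp0.le
      exact (mul_le_mul_of_nonneg_left s_lo he70.le).trans D_lo
    refine b2.trans (le_trans ?_ e1)
    rw [he7, hE, hp, ← Real.exp_add, ← Real.exp_add]
    apply Real.exp_le_exp.mpr
    linarith only [h1, hzL, hL0]
  -- `D2`
  have hnp2 : n * p ^ 2 = Real.exp (L - 2 * Λ) := by
    rw [hnL, hp, ← Real.exp_nat_mul, ← Real.exp_add]; congr 1; push_cast; ring
  have hnp2y : n * p ^ 2 = y * Real.exp Λ := by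
    rw [hnp2, hy, ← Real.exp_add]; congr 1; ring
  have hnp20 : 0 < n * p ^ 2 := by positivity
  have hnp2' : Real.exp (L / 4) ≤ n * p ^ 2 := by
    rw [hnp2]; exact Real.exp_le_exp.mpr (by linarith only [h1, hL0])
  set D2 : ℕ := ⌈6 * (n * p ^ 2)⌉₊ + ⌈4 * L⌉₊ with hD2
  have D2_lo1 : 6 * (n * p ^ 2) ≤ D2 := by
    rw [hD2]; push_cast
    have h1 := Nat.le_ceil (6 * (n * p ^ 2))
    have h2 : (0 : ℝ) ≤ (⌈4 * L⌉₊ : ℝ) := by positivity
    linarith only [h1, h2]
  have D2_lo2 : 4 * L ≤ D2 := by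
    rw [hD2]; push_cast
    have h1 := Nat.le_ceil (4 * L)
    have h2 : (0 : ℝ) ≤ (⌈6 * (n * p ^ 2)⌉₊ : ℝ) := by positivity
    linarith only [h1, h2]
  have D2_hi : (D2 : ℝ) ≤ 6 * (n * p ^ 2) + 4 * L + 2 := by
    rw [hD2]; push_cast
    have h1 := (Nat.ceil_lt_add_one (show 0 ≤ 6 * (n * p ^ 2) by positivity)).le
    have h2 := (Nat.ceil_lt_add_one (show 0 ≤ 4 * L by linarith only [hL0])).le
    linarith only [h1, h2]
  have hnp2big : 6 * L ≤ n * p ^ 2 := by
    have e1 : 6 * L ≤ 10 ^ 20 * L ^ 4 := by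
      have : 0 ≤ L ^ 4 := by positivity
      norm_num
      linarith only [hL4, this]
    linarith only [e1, h4pow, hnp2']
  have D2_hi2 : (D2 : ℝ) ≤ 7 * (n * p ^ 2) := by linarith only [D2_hi, hnp2big, b1']
  -- `D3`
  set D3 : ℕ := ⌈8 * y⌉₊ + ⌈5 * L⌉₊ with hD3
  have D3_lo1 : 8 * y ≤ D3 := by
    rw [hD3]; push_cast
    have h1 := Nat.le_ceil (8 * y)
    have h2 : (0 : ℝ) ≤ (⌈5 * L⌉₊ : ℝ) := by positivity
    linarith only [h1, h2]
  have D3_lo2 : 5 * L ≤ D3 := by
    rw [hD3]; push_cast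
    have h1 := Nat.le_ceil (5 * L)
    have h2 : (0 : ℝ) ≤ (⌈8 * y⌉₊ : ℝ) := by positivity
    linarith only [h1, h2]
  have D3_hi : (D3 : ℝ) ≤ 30 * y := by
    rw [hD3]; push_cast
    have h1 := (Nat.ceil_lt_add_one (show 0 ≤ 8 * y by positivity)).le
    have h2 := (Nat.ceil_lt_add_one (show 0 ≤ 5 * L by linarith only [hL0])).le
    linarith only [h1, h2, hy4, hy1]
  -- `K`
  set K : ℝ := 15 * ((D : ℝ) ^ 2 * p) with hK
  have hK0 : 0 < K := by positivity
  have he7sq : e7 ^ 2 = Real.exp (-(14 / 10 * Λ)) := by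
    rw [he7, ← Real.exp_nat_mul]; congr 1; push_cast; ring
  have hKhi : K ≤ 60 * (e7 ^ 2 * ((s : ℝ) ^ 2 * p)) := by
    have e1 : (D : ℝ) ^ 2 ≤ (2 * (e7 * s)) ^ 2 := pow_le_pow_left₀ D0.le D_hi 2
    have e2 := mul_le_mul_of_nonneg_right e1 hp0.le
    rw [hK]
    calc 15 * ((D : ℝ) ^ 2 * p) ≤ 15 * ((2 * (e7 * s)) ^ 2 * p) := by linarith only [e2]
      _ = _ := by ring
  -- small quantities
  set r : ℝ := e7 ^ 2 * Real.exp Λ with hr
  have hr0 : 0 < r := by positivity
  have hreq : r = Real.exp (-(4 / 10 * Λ)) := by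
    rw [hr, he7sq, ← Real.exp_add]; congr 1; ring
  have hyr : 10 ^ 6 * (y ^ 4 * r) ≤ Real.exp (-(L / 10)) := by
    have e1 : y ^ 4 ≤ Real.exp ((4 : ℕ) * (3 * (L / 1000))) := by
      rw [Real.exp_nat_mul]
      exact pow_le_pow_left₀ y0.le hyhi 4
    have e2 : (10 : ℝ) ^ 6 ≤ Real.exp (L / 1000) := by
      have : (10 : ℝ) ^ 6 ≤ 10 ^ 24 := by norm_num
      linarith only [this, b1, b2]
    calc 10 ^ 6 * (y ^ 4 * r) ≤ Real.exp (L / 1000) *
          (Real.exp ((4 : ℕ) * (3 * (L / 1000))) * Real.exp (-(4 / 10 * Λ))) := by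
          rw [hreq]
          apply mul_le_mul e2 _ (by positivity) (Real.exp_pos _).le
          exact mul_le_mul_of_nonneg_right e1 (Real.exp_pos _).le
      _ = Real.exp (L / 1000 + ((4 : ℕ) * (3 * (L / 1000)) + -(4 / 10 * Λ))) := by
          rw [Real.exp_add, Real.exp_add]
      _ ≤ Real.exp (-(L / 10)) := by
          apply Real.exp_le_exp.mpr
          push_cast
          linarith only [h2, hL0]
  have hexp10 : Real.exp (-(L / 10)) ≤ 1 := Real.exp_le_one_iff.mpr (by linarith only [hL0])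
  have hKp2 : K * p ^ 2 ≤ 100 * (y ^ 2 * r) := by
    have e1 := mul_le_mul_of_nonneg_right hKhi (show 0 ≤ p ^ 2 by positivity)
    have e2 : 60 * (e7 ^ 2 * ((s : ℝ) ^ 2 * p)) * p ^ 2 = 60 * (e7 ^ 2 * (s * p ^ 2) ^ 2) *
        (1 / p) := by field_simp
    have e3 : 1 / p = Real.exp Λ := by
      rw [hp, Real.exp_neg, one_div, inv_inv]
    rw [e3] at e2
    have e4 : (s * p ^ 2) ^ 2 ≤ (101 / 100 * y) ^ 2 := pow_le_pow_left₀ (by positivity) hsp2 2
    have e5 := mul_le_mul_of_nonneg_left e4 (show 0 ≤ r by positivity)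
    have e6 : 60 * (e7 ^ 2 * (s * p ^ 2) ^ 2) * Real.exp Λ = 60 * (r * (s * p ^ 2) ^ 2) := by
      rw [hr]; ring
    have e7' : r * (101 / 100 * y) ^ 2 = 10201 / 10000 * (y ^ 2 * r) := by ring
    have e8 : 0 ≤ y ^ 2 * r := by positivity
    rw [e2, e6] at e1
    rw [e7'] at e5
    linarith only [e1, e5, e8]
  have hKp2' : K * p ^ 2 ≤ 1 := by
    have e1 : y ^ 2 * r ≤ y ^ 4 * r :=
      mul_le_mul_of_nonneg_right (pow_le_pow_right₀ hy1 (by norm_num)) hr0.le
    norm_num at hyr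
    have e2 : 0 ≤ y ^ 4 * r := by positivity
    linarith only [e1, e2, hyr, hexp10, hKp2]
  -- `k`
  set k : ℕ := ⌊1 / 1000 * (Real.exp Λ * z)⌋₊ with hk
  have k_hi : (k : ℝ) ≤ 1 / 1000 * (Real.exp Λ * z) := Nat.floor_le (by positivity)
  have hpk : p * k ≤ z / 1000 := by
    calc p * k ≤ p * (1 / 1000 * (Real.exp Λ * z)) := mul_le_mul_of_nonneg_left k_hi hp0.le
      _ = (p * Real.exp Λ) * (z / 1000) := by ring
      _ = z / 1000 := by rw [hpp, one_mul]
  have k_hi2 : (k : ℝ) ≤ Real.exp (L / 2) := by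
    have e1 : Real.exp Λ * z ≤ Real.exp (2 / 5 * L) * Real.exp (L / 10) := by
      apply mul_le_mul _ _ hz0.le (Real.exp_pos _).le
      · apply Real.exp_le_exp.mpr; linarith only [h1, hL0]
      · have e2 : Real.exp (L / 1000) ≤ Real.exp (L / 10) :=
          Real.exp_le_exp.mpr (by linarith only [hL0])
        linarith only [e2, b2, hzL, hL0]
    rw [← Real.exp_add] at e1
    have e2 : 2 / 5 * L + L / 10 = L / 2 := by ring
    rw [e2] at e1
    have e3 : 0 ≤ Real.exp Λ * z := by positivity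
    linarith only [e1, k_hi, e3]
  -- reduction
  have hred : gnp n p (fun G => ¬ 1 / 1000 * (Real.exp Λ * z) ≤ (cliqueChromaticNumber G : ℝ)) ≤
      gnp n p (fun G => ¬ k < cliqueChromaticNumber G) := by
    apply gnp_mono hp0.le (by linarith only [hp12])
    intro G h h2
    apply h
    have h3 : ((k + 1 : ℕ) : ℝ) ≤ cliqueChromaticNumber G := by exact_mod_cast h2
    have h4 := Nat.lt_floor_add_one (1 / 1000 * (Real.exp Λ * z))
    push_cast at h3
    linarith only [h3, h4]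
  refine hred.trans ?_
  have hexpn : Real.exp (L / 2) * (10 ^ 20 * L ^ 4) ≤ n := by
    rw [hnL]
    calc Real.exp (L / 2) * (10 ^ 20 * L ^ 4) ≤ Real.exp (L / 2) * Real.exp (L / 4) :=
          mul_le_mul_of_nonneg_left h4pow (Real.exp_pos _).le
      _ = Real.exp (L / 2 + L / 4) := by rw [Real.exp_add]
      _ ≤ Real.exp L := Real.exp_le_exp.mpr (by linarith only [hL0])
  have hexp1 : 1 ≤ Real.exp (L / 2) := Real.one_le_exp (by linarith only [hL0])
  have hs_n : 100 * (s : ℝ) ≤ n := by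
    calc 100 * (s : ℝ) ≤ 100 * (101 / 100 * E) := mul_le_mul_of_nonneg_left s_hi (by norm_num)
      _ = 101 * (n * p * x) := by rw [← hEn]; ring
      _ ≤ n := by
        have e1 : p * x ≤ 1 / 9000 * 1 := by
          apply mul_le_mul _ hx1 hx0.le (by norm_num)
          linarith only [hp9, hp0]
        have e2 : (n : ℝ) * (p * x) ≤ n * (1 / 9000 * 1) := mul_le_mul_of_nonneg_left e1 hnr.le
        have e3 : 101 * (n * p * x) = 101 * ((n : ℝ) * (p * x)) := by ring
        rw [e3]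
        linarith only [e2, hnr]
  have hp20 : p * 10 ^ 20 ≤ 1 := by
    have e1 : p * (10 ^ 20 * 1) ≤ p * (10 ^ 20 * L ^ 4) := by
      apply mul_le_mul_of_nonneg_left _ hp0.le
      exact mul_le_mul_of_nonneg_left hL41 (by norm_num)
    rw [mul_one] at e1
    linarith only [e1, hpsmall2]
  have hnp3 : n * p ^ 2 * p = y := by
    rw [hnp2, hp, ← Real.exp_add, hy]; congr 1; ring
  have hD2p : D2 * p ≤ 7 * y := by
    calc D2 * p ≤ 7 * (n * p ^ 2) * p := mul_le_mul_of_nonneg_right D2_hi2 hp0.le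
      _ = 7 * (n * p ^ 2 * p) := by ring
      _ = 7 * y := by rw [hnp3]
  have hb3p : 6 * (y * x) ^ 3 ≤ (b : ℝ) ^ 3 * p ^ 6 := by
    have e1 : (y * x) ^ 3 ≤ (s * p ^ 2) ^ 3 := pow_le_pow_left₀ (by positivity) hsp2lo 3
    have e2 := mul_le_mul_of_nonneg_right hb3 (show 0 ≤ p ^ 6 by positivity)
    have e3 : 6 * (s : ℝ) ^ 3 * p ^ 6 = 6 * (s * p ^ 2) ^ 3 := by ring
    rw [e3] at e2
    linarith only [e1, e2]
  have he71 : e7 ≤ 1 := Real.exp_le_one_iff.mpr (by linarith only [hΛ200])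
  refine lower4_prob hp0 hp12 (by omega) s b ((s + 7) / 8) D D2 D3 200 200 1600000 k Λ K
    (1 / 96 * ((b : ℝ) ^ 3 * p ^ 6)) (25 * y) y hp hΛ200 hs100 hb rfl ?_ ?_ ?_ ?_ ?_
    (by norm_num) (by norm_num) (by norm_num) ?_ hK0 ?_ ?_ ?_ ?_ ?_ ?_ ?_ ?_ ?_ ?_ ?_ ?_ ?_ ?_
    ?_ ?_ (le_of_eq hK.symm) ?_ ?_ ?_ ?_ ?_
  · -- b ≤ n
    have : (b : ℝ) ≤ n := by linarith only [b_hi, hs_n, hs0]
    exact_mod_cast this
  · -- 2 k ≤ n
    have : 2 * (k : ℝ) ≤ n := by
      have e1 : Real.exp (L / 2) * 100 ≤ Real.exp (L / 2) * (10 ^ 20 * L ^ 4) := by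
        apply mul_le_mul_of_nonneg_left _ (Real.exp_pos _).le
        norm_num
        linarith only [hL41]
      linarith only [k_hi2, hexpn, e1, hexp1]
    exact_mod_cast this
  · -- D ≤ n
    have : (D : ℝ) ≤ n := by
      have e1 : e7 * s ≤ 1 * s := mul_le_mul_of_nonneg_right he71 hs0.le
      linarith only [D_hi, hs_n, e1, hs0]
    exact_mod_cast this
  · -- L ≤ 4 Λ
    rw [← hL]; linarith only [h2, hL0]
  · -- 50 D2 ≤ s
    have : 50 * (D2 : ℝ) ≤ s := by
      have e1 : 350 * p ≤ x := by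
        have e4 : Real.exp (-(L / 1000)) ≤ x := by
          rw [hx]; apply Real.exp_le_exp.mpr; linarith only [hzL, hL0]
        have e5 : 350 * Real.exp (-(L / 4)) ≤ Real.exp (-(L / 1000)) := by
          have e6 : Real.exp (-(L / 1000)) = Real.exp (-(L / 4)) * Real.exp (249 * L / 1000) := by
            rw [← Real.exp_add]; congr 1; ring
          have e8 : Real.exp (L / 1000) ≤ Real.exp (249 * L / 1000) :=
            Real.exp_le_exp.mpr (by linarith only [hL0])
          rw [e6, mul_comm]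
          apply mul_le_mul_of_nonneg_left _ (Real.exp_pos _).le
          linarith only [e8, b2, b1']
        linarith only [e4, e5, hpsmall]
      calc 50 * (D2 : ℝ) ≤ 50 * (7 * (n * p ^ 2)) := by linarith only [D2_hi2]
        _ = n * p * (350 * p) := by ring
        _ ≤ n * p * x := mul_le_mul_of_nonneg_left e1 (by positivity)
        _ = E := hEn.symm
        _ ≤ s := s_lo
    exact_mod_cast this
  · -- 3 m ≤ b
    have : ((3 * 1600000 : ℕ) : ℝ) ≤ b := by
      push_cast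
      norm_num at hE20
      linarith only [hE20, s_lo, b_lo1]
    exact_mod_cast this
  · -- c1
    linarith only [D2_lo1]
  · -- c2
    rw [← hL]; linarith only [D2_lo2]
  · -- c3
    have h1 : 11 * Real.exp (-Λ) ≤ e7 * Real.exp (-(Λ / 5)) := by
      have e1 : e7 * Real.exp (-(Λ / 5)) = Real.exp (-Λ) * Real.exp (1 / 10 * Λ) := by
        rw [he7, ← Real.exp_add, ← Real.exp_add]; congr 1; ring
      rw [e1]
      have h2 := Real.add_one_le_exp (1 / 10 * Λ)
      have h4 : 11 ≤ Real.exp (1 / 10 * Λ) := by linarith only [h2, hΛ200]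
      have h5 := mul_le_mul_of_nonneg_left h4 (Real.exp_pos (-Λ)).le
      linarith only [h5]
    calc 11 * (s * p) = s * (11 * Real.exp (-Λ)) := by rw [hp]; ring
      _ ≤ s * (e7 * Real.exp (-(Λ / 5))) := mul_le_mul_of_nonneg_left h1 hs0.le
      _ = (e7 * s) * Real.exp (-(Λ / 5)) := by ring
      _ ≤ _ := mul_le_mul_of_nonneg_right D_lo (Real.exp_pos _).le
  · -- c4
    rw [← hL]
    have e1 : 1 * (D : ℝ) ≤ Λ / 5 * D := mul_le_mul_of_nonneg_right (by linarith only [hΛ200]) D0.le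
    have e2 : 404 * L ≤ 10 ^ 20 * L ^ 4 := by
      have : 0 ≤ L ^ 4 := by positivity
      norm_num
      linarith only [hL4, this]
    linarith only [e1, e2, D_lo2]
  · -- c5
    have e1 : (300 : ℝ) ≤ 10 ^ 20 := by norm_num
    have h1 : (300 : ℝ) ≤ D := by linarith only [e1, D20]
    exact_mod_cast h1
  · -- c6
    rw [Real.log_le_iff_le_exp (by positivity), div_le_iff₀ D0]
    have h1 : 2 ≤ Real.exp 1 := by
      have := Real.add_one_le_exp (1 : ℝ); linarith only [this]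
    have e1 : Real.exp (7 / 10 * Λ + 1) * e7 = Real.exp 1 := by
      rw [he7, ← Real.exp_add]; congr 1; ring
    calc (b : ℝ) ≤ 2 * s := b_hi
      _ ≤ Real.exp 1 * s := mul_le_mul_of_nonneg_right h1 hs0.le
      _ = Real.exp (7 / 10 * Λ + 1) * (e7 * s) := by rw [← e1]; ring
      _ ≤ _ := mul_le_mul_of_nonneg_left D_lo (Real.exp_pos _).le
  · -- c7
    rw [← hL]
    have e1 : L - Λ - z / 8 ≤ Real.log b := by
      rw [Real.le_log_iff_exp_le hb0]
      linarith only [s_lo, b_lo1]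
    have e2 : 1 + L - Real.log b - 63 / 40 * Λ ≤ -1 := by
      linarith only [e1, h2, hzL, b1']
    have e3 : b * (1 + L - Real.log b - 63 / 40 * Λ) ≤ b * (-1) :=
      mul_le_mul_of_nonneg_left e2 hb0.le
    have e4 : 2 * L ≤ 10 ^ 20 * L ^ 4 := by
      have : 0 ≤ L ^ 4 := by positivity
      norm_num
      linarith only [hL4, this]
    linarith only [e3, b_lo1, s_lo, hE1, hE2, h4pow, e4, hL1]
  · -- c8
    rw [← hL]
    have e1 : (s : ℝ) * p ≤ b * p := mul_le_mul_of_nonneg_right b_lo1 hp0.le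
    have e2 : 768 * L ≤ 10 ^ 20 * L ^ 4 := by
      have : 0 ≤ L ^ 4 := by positivity
      norm_num
      linarith only [hL4, this]
    linarith only [e1, e2, hsp, h4pow, hL0]
  · -- c8'
    have e1 : (s : ℝ) * p ^ 2 ≤ b * p ^ 2 := mul_le_mul_of_nonneg_right b_lo1 (by positivity)
    linarith only [e1, hsp2lo, hyx]
  · -- cx
    rw [hnL, hp, ← Real.exp_nat_mul, ← Real.exp_add, hy]
    apply Real.exp_le_exp.mpr
    push_cast
    linarith only []
  · -- cx8
    linarith only [D3_lo1]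
  · -- cxL
    rw [← hL]; linarith only [D3_lo2]
  · -- cμ
    have e1 : K * p ^ 3 ≤ p := by
      calc K * p ^ 3 = (K * p ^ 2) * p := by ring
        _ ≤ 1 * p := mul_le_mul_of_nonneg_right hKp2' hp0.le
        _ = p := one_mul p
    have e2 : (1 : ℝ) ≤ (y * x) ^ 3 := one_le_pow₀ hyx
    have e3 : (1 / 48 * ((b : ℝ) ^ 3 * p ^ 3) - 3 * ((1600000 : ℕ) : ℝ) * K) * p ^ 3 =
        1 / 48 * ((b : ℝ) ^ 3 * p ^ 6) - 4800000 * (K * p ^ 3) := by
      push_cast; ring
    rw [e3]
    norm_num at hp20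
    linarith only [e1, e2, hb3p, hp20]
  · -- cX
    linarith only [hKp2', hD2p, hy1]
  · -- cX1
    linarith only [hy1]
  · -- cμ2
    rw [← hL]
    have e1 : 3 / 8 * (1 / (4 * (25 * y)) * (1 / 96 * (6 * (y * x) ^ 3))) ≤
        3 / 8 * (1 / (4 * (25 * y)) * (1 / 96 * ((b : ℝ) ^ 3 * p ^ 6))) := by
      apply mul_le_mul_of_nonneg_left _ (by norm_num)
      apply mul_le_mul_of_nonneg_left _ (by positivity)
      linarith only [hb3p]
    have e2 : 3 / 8 * (1 / (4 * (25 * y)) * (1 / 96 * (6 * (y * x) ^ 3))) =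
        3 / 12800 * (y * (y * x ^ 3)) := by
      field_simp
      ring
    have e3 : y * 10 ^ 14 ≤ y * (y * x ^ 3) := mul_le_mul_of_nonneg_left hyx3 y0.le
    refine le_trans ?_ e1
    rw [e2]
    push_cast
    norm_num at e3
    linarith only [e3, hy4, y0]
  · -- cK2
    rw [← hL]
    have e1 : D * L ≤ D * (D * p) := mul_le_mul_of_nonneg_left hDp D0.le
    have e2 : 0 ≤ D * (D * p) := by positivity
    have e3 : (D : ℝ) ^ 2 * p = D * (D * p) := by ring
    rw [hK, e3]
    linarith only [e1, e2]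
  · -- c11
    rw [← hL]
    have e1 : K * D2 * p ^ 3 ≤ Real.exp (-(L / 10)) := by
      refine le_trans ?_ hyr
      have e2 : K * D2 * p ^ 3 = (K * p ^ 2) * (D2 * p) := by ring
      have e3 : (K * p ^ 2) * (D2 * p) ≤ 100 * (y ^ 2 * r) * (7 * y) :=
        mul_le_mul hKp2 hD2p (by positivity) (by positivity)
      have e4 : 100 * (y ^ 2 * r) * (7 * y) = 700 * (y ^ 3 * r) := by ring
      have e5 : y ^ 3 * r ≤ y ^ 4 * r :=
        mul_le_mul_of_nonneg_right (pow_le_pow_right₀ hy1 (by norm_num)) hr0.le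
      have e6 : 0 ≤ y ^ 4 * r := by positivity
      rw [e2]
      norm_num
      linarith only [e3, e4, e5, e6]
    refine (pow_le_pow_left₀ (by positivity) e1 200).trans ?_
    rw [← Real.exp_nat_mul]
    apply Real.exp_le_exp.mpr
    push_cast
    linarith only [hL0]
  · -- c12
    rw [← hL]
    have e1 : b * K * D3 * p ^ 4 ≤ Real.exp (-(L / 10)) := by
      refine le_trans ?_ hyr
      have e2 : b * K * D3 * p ^ 4 = (b * p ^ 2) * (K * p ^ 2) * D3 := by ring
      have e7' : (b : ℝ) * p ^ 2 ≤ 202 / 100 * y := by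
        have := mul_le_mul_of_nonneg_right b_hi (show 0 ≤ p ^ 2 by positivity)
        linarith only [this, hsp2]
      have e3 : (b * p ^ 2) * (K * p ^ 2) * D3 ≤ 202 / 100 * y * (100 * (y ^ 2 * r)) * (30 * y) := by
        apply mul_le_mul _ D3_hi (by positivity) (by positivity)
        exact mul_le_mul e7' hKp2 (by positivity) (by positivity)
      have e4 : 202 / 100 * y * (100 * (y ^ 2 * r)) * (30 * y) = 6060 * (y ^ 4 * r) := by ring
      have e6 : 0 ≤ y ^ 4 * r := by positivity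
      rw [e2]
      norm_num
      linarith only [e3, e4, e6]
    refine (pow_le_pow_left₀ (by positivity) e1 200).trans ?_
    rw [← Real.exp_nat_mul]
    apply Real.exp_le_exp.mpr
    push_cast
    linarith only [hL0]
  · -- c13
    rw [← hL]
    have e1 : Real.exp (L / 2) * (10 ^ 20 * L ^ 4) ≤ n * Real.exp (-(2 * p * k)) := by
      have e2 : Real.exp (L / 2) * Real.exp (L / 4) ≤ n * Real.exp (-(2 * p * k)) := by
        rw [hnL, ← Real.exp_add, ← Real.exp_add]
        apply Real.exp_le_exp.mpr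
        linarith only [hpk, hzL, hL0]
      exact (mul_le_mul_of_nonneg_left h4pow (Real.exp_pos _).le).trans e2
    have e2 : ((k : ℝ) + 1) * L ≤ (2 * Real.exp (L / 2)) * L ^ 4 := by
      apply mul_le_mul _ hL4 hL0.le (by positivity)
      linarith only [k_hi2, hexp1]
    have e3 : 0 ≤ Real.exp (L / 2) * L ^ 4 := by positivity
    norm_num at e1
    linarith only [e1, e2, e3]
  · -- c14
    have e1 : 6 * (s : ℝ) * k ≤ 606 / 100000 * (n * (x * z)) := by
      calc 6 * (s : ℝ) * k ≤ 6 * (101 / 100 * E) * (1 / 1000 * (Real.exp Λ * z)) := by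
            apply mul_le_mul _ k_hi (by positivity) (by positivity)
            linarith only [s_hi]
        _ = 606 / 100000 * (n * (x * z)) * (p * Real.exp Λ) := by rw [hEn]; ring
        _ = 606 / 100000 * (n * (x * z)) := by rw [hpp, mul_one]
    have e2 : x * z ≤ 25 / 3 * Real.exp (-(2 * p * k)) := by
      have e3 : z ≤ 25 / 3 * Real.exp (3 / 25 * z) := by
        have := Real.add_one_le_exp (3 / 25 * z)
        linarith only [this]
      have e4 : x * z ≤ x * (25 / 3 * Real.exp (3 / 25 * z)) := mul_le_mul_of_nonneg_left e3 hx0.le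
      have e5 : x * (25 / 3 * Real.exp (3 / 25 * z)) = 25 / 3 * Real.exp (-(z / 200)) := by
        have e6 : Real.exp (-(z / 200)) = x * Real.exp (3 / 25 * z) := by
          rw [hx, ← Real.exp_add]; congr 1; ring
        rw [e6]; ring
      rw [e5] at e4
      have e6 : Real.exp (-(z / 200)) ≤ Real.exp (-(2 * p * k)) := by
        apply Real.exp_le_exp.mpr
        linarith only [hpk, hz0]
      linarith only [e4, e6]
    have e3 := mul_le_mul_of_nonneg_left e2 hnr.le
    have e4 : 0 < n * Real.exp (-(2 * p * k)) := by positivity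
    linarith only [e1, e3, e4]

end Pool.Agent.H98.CD
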