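import Pool.Agent.H98.CC.Det2
import Pool.Agent.H98.CC.Fin2

set_option autoImplicit false
set_option linter.unusedSectionVars false

/-!
# Lower bound with complete graphs on four vertices: deterministic part
-/

namespace Pool.Agent.H98.CD

open Finset Pool.Agent.H98.CC
open scoped Classical

section

variable {n : ℕ}

/-- all pairs of `T` are adjacent -/
def Clq (G : SimpleGraph (Fin n)) (T : Finset (Fin n)) : Prop :=
  ∀ x ∈ T, ∀ y ∈ T, x ≠ y → G.Adj x y

/-- the triples of `B` that are not covered by a vertex outside with many neighbours in `B` -/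
noncomputable def unc3 (G : SimpleGraph (Fin n)) (B : Finset (Fin n)) (D : ℕ) :
    Finset (Finset (Fin n)) :=
  (B.powersetCard 3).filter (fun T => ∀ w, w ∉ B → D ≤ (nb G w B).card → ¬ ∀ x ∈ T, G.Adj w x)

/-- the clean triangles -/
noncomputable def ctr (G : SimpleGraph (Fin n)) (B : Finset (Fin n)) (D : ℕ) :
    Finset (Finset (Fin n)) :=
  (unc3 G B D).filter (fun T => Clq G T)

/-- `m` disjoint members of `F` inside `N` -/
def DM (F : Finset (Finset (Fin n))) (N : Finset (Fin n)) (m : ℕ) : Prop :=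
  ∃ M : Finset (Finset (Fin n)), M ⊆ F ∧ M.card = m ∧ (∀ T ∈ M, T ⊆ N) ∧
    ∀ T ∈ M, ∀ T' ∈ M, T ≠ T' → Disjoint T T'

/-- `j` disjoint complete graphs in `N` with a triangle in `B` -/
def Qd (H : SimpleGraph (Fin n)) (B N : Finset (Fin n)) (j : ℕ) : Prop :=
  ∃ M : Finset (Finset (Fin n) × Fin n), M.card = j ∧
    (∀ e ∈ M, e.1 ∈ B.powersetCard 3 ∧ Clq H e.1 ∧ e.1 ⊆ N ∧ e.2 ∈ N ∧ ∀ x ∈ e.1, H.Adj e.2 x) ∧
    ∀ e ∈ M, ∀ e' ∈ M, e ≠ e' → Disjoint (insert e.2 e.1) (insert e'.2 e'.1)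

/-- the bad event at a vertex with neighbourhood `N` -/
def Bad4 (H : SimpleGraph (Fin n)) (B S : Finset (Fin n)) (T j D : ℕ) (N : Finset (Fin n)) :
    Prop :=
  (∃ w, w ∉ S ∧ (nb H w B).card < D ∧
    DM (((nb H w B).powersetCard 3).filter (fun T => Clq H T)) N T) ∨ Qd H B N j

/-- the properties of the random graph -/
structure Good4 (G : SimpleGraph (Fin n)) (p : ℝ) (s b s8 D D2 T j m : ℕ) : Prop where
  codeg : ∀ u v : Fin n, u ≠ v → (nb G u (nb G v Finset.univ)).card ≤ D2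
  few : ∀ X : Finset (Fin n), X.card = 2 * s →
    (Finset.univ.filter (fun w => D ≤ (nb G w X).card)).card ≤ s / 100
  cover : ∀ B : Finset (Fin n), B.card = b →
    ∑ w ∈ Bᶜ, (if D ≤ (nb G w B).card ∧ 100 * (nb G w B).card ≤ 52 * b
      then ((nb G w B).card : ℝ) ^ 2 else 0) ≤ 9 / 10 * (b : ℝ) ^ 2
  tris : ∀ B : Finset (Fin n), B.card = b → 1 / 12 * (b : ℝ) ^ 3 ≤ ((unc3 G B D).card : ℝ) →
    1 / 48 * ((b : ℝ) ^ 3 * p ^ 3) ≤ ((ctr G B D).card : ℝ)
  mat : ∀ B A : Finset (Fin n), B.card = b → A.card = s → Disjoint A B →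
    1 / 48 * ((b : ℝ) ^ 3 * p ^ 3) ≤ ((ctr (off A G) B D).card : ℝ) →
    (∀ x ∈ B, (nb (off A G) x B).card < D) →
    ∃ a ∈ A, DM (ctr (off A G) B D) (nb G a Aᶜ) m
  nobad : ∀ B S : Finset (Fin n), B.card = b → S.card = s8 → Disjoint S B →
    (∀ x ∈ B, (nb (off S G) x B).card < D) → ∃ a ∈ S, ¬ Bad4 (off S G) B S T j D (nb G a Sᶜ)

/-- a random subset separates many pairs -/
lemma exists_sep' {ι : Type*} [DecidableEq ι] (A : Finset (Fin n)) (m : ℕ) (M : Fin n → Finset ι)
    (hM : ∀ a ∈ A, (M a).card = m) (w : Fin n → ι → Fin n)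
    (hw : ∀ a ∈ A, ∀ e ∈ M a, w a e ≠ a) :
    ∃ S ⊆ A, (A.card : ℝ) * m / 4 ≤ ∑ a ∈ S, (((M a).filter (fun e => w a e ∉ S)).card : ℝ) := by
  by_contra hcon
  push Not at hcon
  set f : Finset (Fin n) → ℝ := fun S => ∑ a ∈ S, (((M a).filter (fun e => w a e ∉ S)).card : ℝ)
    with hf
  -- the average of `f`
  have h1 : (A.card : ℝ) * m / 4 ≤ exs A (1 / 2) f := by
    have h2 : exs A (1 / 2) f = ∑ a ∈ A, ∑ e ∈ M a, prs A (1 / 2) (fun S => a ∈ S ∧ w a e ∉ S) := by
      unfold prs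
      rw [Finset.sum_congr rfl (fun a _ => (exs_sum (M a) A (1 / 2)
        (fun e S => ind (a ∈ S ∧ w a e ∉ S))).symm), ← exs_sum]
      apply exs_congr
      intro S hS
      rw [hf]
      beta_reduce
      rw [← Finset.sum_subset hS (f := fun a => ∑ e ∈ M a, ind (a ∈ S ∧ w a e ∉ S))]
      · apply Finset.sum_congr rfl
        intro a ha
        rw [Finset.card_filter]
        push_cast
        apply Finset.sum_congr rfl
        intro e _
        by_cases h : w a e ∉ S
        · rw [if_pos h, ind_pos ⟨ha, h⟩]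
        · rw [if_neg h, ind_neg (fun h' => h h'.2)]
      · intro a _ ha
        apply Finset.sum_eq_zero
        intro e _
        exact ind_neg (fun h => ha h.1)
    rw [h2]
    have h3 : ∀ a ∈ A, ∀ e ∈ M a, (1 / 4 : ℝ) ≤ prs A (1 / 2) (fun S => a ∈ S ∧ w a e ∉ S) := by
      intro a ha e he
      have h4 : prs A (1 / 2) (fun S => a ∈ S ∧ w a e ∉ S)
          + prs A (1 / 2) (fun S => a ∈ S ∧ w a e ∈ S) = prs A (1 / 2) (fun S => {a} ⊆ S) := by
        unfold prs
        rw [← exs_add]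
        apply exs_congr
        intro S _
        by_cases h5 : a ∈ S <;> by_cases h6 : w a e ∈ S <;> simp [ind, h5, h6]
      have h5 : prs A (1 / 2 : ℝ) (fun S => {a} ⊆ S) = 1 / 2 := by
        rw [prs_subset A {a} (by simpa using ha), Finset.card_singleton, pow_one]
      have h6 : prs A (1 / 2 : ℝ) (fun S => a ∈ S ∧ w a e ∈ S) ≤ 1 / 4 := by
        by_cases h7 : w a e ∈ A
        · have h8 : prs A (1 / 2 : ℝ) (fun S => a ∈ S ∧ w a e ∈ S)
              = prs A (1 / 2 : ℝ) (fun S => ({a, w a e} : Finset (Fin n)) ⊆ S) := by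
            apply prs_congr
            intro S _
            simp [Finset.insert_subset_iff]
          rw [h8, prs_subset A {a, w a e} (by
            rw [Finset.insert_subset_iff, Finset.singleton_subset_iff]; exact ⟨ha, h7⟩),
            Finset.card_pair (hw a ha e he).symm]
          norm_num
        · have h8 : prs A (1 / 2 : ℝ) (fun S => a ∈ S ∧ w a e ∈ S) = 0 := by
            unfold prs
            rw [← exs_const A (1 / 2) 0]
            apply exs_congr
            intro S hS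
            exact ind_neg (fun h => h7 (hS h.2))
          rw [h8]; norm_num
      linarith
    have h4 : ∀ a ∈ A, (m : ℝ) / 4 ≤ ∑ e ∈ M a, prs A (1 / 2) (fun S => a ∈ S ∧ w a e ∉ S) := by
      intro a ha
      have := Finset.card_nsmul_le_sum (M a) _ _ (h3 a ha)
      rw [nsmul_eq_mul, hM a ha] at this
      linarith
    have := Finset.card_nsmul_le_sum A _ _ h4
    rw [nsmul_eq_mul] at this
    linarith
  -- strict inequality contradiction
  have h2 : ∀ S, S ⊆ A → f S < (A.card : ℝ) * m / 4 := fun S hS => hcon S hS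
  obtain ⟨S0, hS0, hmax⟩ := Finset.exists_max_image A.powerset f ⟨∅, Finset.empty_mem_powerset A⟩
  rw [Finset.mem_powerset] at hS0
  have h3 : exs A (1 / 2) f ≤ f S0 := by
    rw [← exs_const A (1 / 2) (f S0)]
    apply exs_mono A (by norm_num) (by norm_num)
    intro S hS
    exact hmax S (Finset.mem_powerset.mpr hS)
  have h4 := h2 S0 hS0
  linarith

/-- the selection of a set of vertices whose coverers lie outside -/
lemma exists_sel' {ι : Type*} [DecidableEq ι] (A : Finset (Fin n)) (m s8 : ℕ) (M : Fin n → Finset ι)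
    (hm : 0 < m) (hM : ∀ a ∈ A, (M a).card = m) (w : Fin n → ι → Fin n)
    (hw : ∀ a ∈ A, ∀ e ∈ M a, w a e ≠ a) (hs8 : 8 * s8 ≤ A.card + 7) :
    ∃ S ⊆ A, S.card = s8 ∧ ∀ a ∈ S, m ≤ 8 * ((M a).filter (fun e => w a e ∉ S)).card := by
  obtain ⟨S, hSA, hS⟩ := exists_sep' A m M hM w hw
  set S1 := S.filter (fun a => m ≤ 8 * ((M a).filter (fun e => w a e ∉ S)).card) with hS1
  have h1 : ∑ a ∈ S, (((M a).filter (fun e => w a e ∉ S)).card : ℝ)
      ≤ (S1.card : ℝ) * m + (A.card : ℝ) * (m / 8) := by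
    rw [← Finset.sum_filter_add_sum_filter_not S
      (fun a => m ≤ 8 * ((M a).filter (fun e => w a e ∉ S)).card)]
    apply add_le_add
    · rw [← nsmul_eq_mul]
      apply Finset.sum_le_card_nsmul
      intro a ha
      have h2 : ((M a).filter (fun e => w a e ∉ S)).card ≤ m := by
        rw [← hM a (hSA (Finset.mem_filter.mp ha).1)]
        exact Finset.card_le_card (Finset.filter_subset _ _)
      exact_mod_cast h2
    · have h3 := Finset.sum_le_card_nsmul (S.filter (fun a => ¬ (m ≤ 8 * ((M a).filter (fun e => w a e ∉ S)).card)))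
        (fun a => (((M a).filter (fun e => w a e ∉ S)).card : ℝ)) ((m : ℝ) / 8) (by
          intro a ha
          have h2 := (Finset.mem_filter.mp ha).2
          have h4 : 8 * ((M a).filter (fun e => w a e ∉ S)).card ≤ m := by omega
          have h5 : (8 : ℝ) * (((M a).filter (fun e => w a e ∉ S)).card : ℝ) ≤ m := by exact_mod_cast h4
          linarith)
      refine h3.trans ?_
      rw [nsmul_eq_mul]
      apply mul_le_mul_of_nonneg_right _ (by positivity)
      have : (S.filter (fun a => ¬ (m ≤ 8 * ((M a).filter (fun e => w a e ∉ S)).card))).card ≤ A.card :=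
        Finset.card_le_card ((Finset.filter_subset _ _).trans hSA)
      exact_mod_cast this
  have h2 : (A.card : ℝ) / 8 ≤ S1.card := by
    have hm' : (0 : ℝ) < m := by exact_mod_cast hm
    have h3 : (A.card : ℝ) * m / 8 ≤ (S1.card : ℝ) * m := by linarith
    have h4 : (A.card : ℝ) / 8 * m ≤ (S1.card : ℝ) * m := by linarith
    exact le_of_mul_le_mul_right h4 hm'
  have h3 : A.card ≤ 8 * S1.card := by
    have : (A.card : ℝ) ≤ 8 * S1.card := by linarith
    exact_mod_cast this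
  obtain ⟨S2, hS2, hS2c⟩ := Finset.exists_subset_card_eq (show s8 ≤ S1.card by omega)
  refine ⟨S2, hS2.trans ((Finset.filter_subset _ _).trans hSA), hS2c, ?_⟩
  intro a ha
  have h4 := (Finset.mem_filter.mp (hS2 ha)).2
  refine h4.trans ?_
  apply Nat.mul_le_mul_left
  apply Finset.card_le_card
  intro e he
  rw [Finset.mem_filter] at he ⊢
  exact ⟨he.1, fun h => he.2 (Finset.mem_filter.mp (hS2 h)).1⟩

/-- clean triangles do not depend on the edges at `A` -/
lemma ctr_off (G : SimpleGraph (Fin n)) (A B : Finset (Fin n)) (D : ℕ) (hD : 0 < D)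
    (hAB : Disjoint A B) (hlow : ∀ a ∈ A, (nb G a B).card < D) :
    ctr (off A G) B D = ctr G B D := by
  have hBA : ∀ x ∈ B, x ∉ A := fun x hx h => (Finset.disjoint_left.mp hAB) h hx
  have key1 : ∀ T : Finset (Fin n), T ⊆ B →
      ((∀ w, w ∉ B → D ≤ (nb (off A G) w B).card → ¬ ∀ x ∈ T, (off A G).Adj w x) ↔
      (∀ w, w ∉ B → D ≤ (nb G w B).card → ¬ ∀ x ∈ T, G.Adj w x)) := by
    intro T hT
    constructor
    · intro h w hw hDw h2
      by_cases hwA : w ∈ A
      · have := hlow w hwA; omega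
      · refine h w hw (by rwa [nb_off G A B hAB w hwA]) ?_
        intro x hx
        exact off_adj.mpr ⟨h2 x hx, hwA, hBA x (hT hx)⟩
    · intro h w hw hDw h2
      by_cases hwA : w ∈ A
      · rw [nb_off_mem G A B w hwA] at hDw
        simp at hDw; omega
      · rw [nb_off G A B hAB w hwA] at hDw
        exact h w hw hDw (fun x hx => (off_adj.mp (h2 x hx)).1)
  have key2 : ∀ T : Finset (Fin n), T ⊆ B → (Clq (off A G) T ↔ Clq G T) := by
    intro T hT
    constructor
    · intro h x hx y hy hxy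
      exact (off_adj.mp (h x hx y hy hxy)).1
    · intro h x hx y hy hxy
      exact off_adj.mpr ⟨h x hx y hy hxy, hBA x (hT hx), hBA y (hT hy)⟩
  ext T
  unfold ctr unc3
  rw [Finset.mem_filter, Finset.mem_filter, Finset.mem_filter, Finset.mem_filter,
    Finset.mem_powersetCard]
  constructor
  · rintro ⟨⟨h1, h2⟩, h3⟩
    exact ⟨⟨h1, (key1 T h1.1).1 h2⟩, (key2 T h1.1).1 h3⟩
  · rintro ⟨⟨h1, h2⟩, h3⟩
    exact ⟨⟨h1, (key1 T h1.1).2 h2⟩, (key2 T h1.1).2 h3⟩

lemma unc3_card (G : SimpleGraph (Fin n)) (B : Finset (Fin n)) (D : ℕ) (b : ℕ) (hB : B.card = b)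
    (h52 : ∀ w, 100 * (nb G w B).card ≤ 52 * b)
    (hcov : ∑ w ∈ Bᶜ, (if D ≤ (nb G w B).card ∧ 100 * (nb G w B).card ≤ 52 * b
      then ((nb G w B).card : ℝ) ^ 2 else 0) ≤ 9 / 10 * (b : ℝ) ^ 2) (hb : 100 ≤ b) :
    1 / 12 * (b : ℝ) ^ 3 ≤ ((unc3 G B D).card : ℝ) := by
  set K := Bᶜ.filter (fun w => D ≤ (nb G w B).card) with hK
  have h1 : B.powersetCard 3 ⊆ unc3 G B D ∪ K.biUnion (fun w => (nb G w B).powersetCard 3) := by
    intro T hT
    by_cases h : T ∈ unc3 G B D
    · exact Finset.mem_union_left _ h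
    · apply Finset.mem_union_right
      unfold unc3 at h
      rw [Finset.mem_filter] at h
      push Not at h
      obtain ⟨w, hw, hDw, h3⟩ := h hT
      rw [Finset.mem_powersetCard] at hT
      rw [Finset.mem_biUnion]
      refine ⟨w, Finset.mem_filter.mpr ⟨by simpa using hw, hDw⟩, ?_⟩
      rw [Finset.mem_powersetCard]
      refine ⟨?_, hT.2⟩
      intro x hx
      exact mem_nb.mpr ⟨hT.1 hx, h3 x hx⟩
  have h2 := (Finset.card_le_card h1).trans (Finset.card_union_le _ _)
  have hch : ∀ d : ℕ, ((d.choose 3 : ℕ) : ℝ) ≤ (d : ℝ) ^ 3 / 6 := by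
    intro d
    have := Nat.choose_le_pow_div (α := ℝ) 3 d
    simpa [Nat.factorial] using this
  have hb3 : (b : ℝ) * (b - 1) * (b - 2) / 6 = ((b.choose 3 : ℕ) : ℝ) := by
    obtain ⟨c, rfl⟩ : ∃ c, b = c + 2 := ⟨b - 2, by omega⟩
    have h3 := Nat.add_one_mul_choose_eq (c + 1) 2
    have h4 := Nat.add_one_mul_choose_eq c 1
    have h3r : ((c : ℝ) + 2) * (((c + 1).choose 2 : ℕ) : ℝ) = (((c + 2).choose 3 : ℕ) : ℝ) * 3 := by
      exact_mod_cast h3
    have h4r : ((c : ℝ) + 1) * c = (((c + 1).choose 2 : ℕ) : ℝ) * 2 := by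
      have h5 : (c + 1) * c = (c + 1).choose 2 * 2 := by
        rw [Nat.choose_one_right] at h4
        exact h4
      exact_mod_cast h5
    push_cast
    have h6 : ((c : ℝ) + 2) * ((((c + 1).choose 2 : ℕ) : ℝ) * 2) =
        (((c + 2).choose 3 : ℕ) : ℝ) * 6 := by linarith
    rw [← h4r] at h6
    linarith
  have h3 : ((K.biUnion (fun w => (nb G w B).powersetCard 3)).card : ℝ) ≤
      ∑ w ∈ K, (52 / 600 * (b : ℝ)) * ((nb G w B).card : ℝ) ^ 2 := by
    have h4 : ((K.biUnion (fun w => (nb G w B).powersetCard 3)).card : ℝ) ≤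
        ∑ w ∈ K, (((nb G w B).powersetCard 3).card : ℝ) := by
      exact_mod_cast Finset.card_biUnion_le
    refine h4.trans ?_
    apply Finset.sum_le_sum
    intro w _
    rw [Finset.card_powersetCard]
    refine (hch _).trans ?_
    have h5 : 100 * ((nb G w B).card : ℝ) ≤ 52 * b := by exact_mod_cast h52 w
    have h6 : ((nb G w B).card : ℝ) ^ 3 = ((nb G w B).card : ℝ) * ((nb G w B).card : ℝ) ^ 2 := by
      ring
    have h7 := mul_le_mul_of_nonneg_right h5 (sq_nonneg ((nb G w B).card : ℝ))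
    rw [h6]
    linarith
  rw [← Finset.mul_sum] at h3
  have h4 : ∑ w ∈ K, ((nb G w B).card : ℝ) ^ 2 ≤ 9 / 10 * (b : ℝ) ^ 2 := by
    refine le_trans (le_of_eq ?_) hcov
    rw [hK, Finset.sum_filter]
    apply Finset.sum_congr rfl
    intro w _
    by_cases h : D ≤ (nb G w B).card
    · rw [if_pos h, if_pos ⟨h, h52 w⟩]
    · rw [if_neg h, if_neg (fun h' => h h'.1)]
  rw [Finset.card_powersetCard, hB] at h2
  have h5 : ((b.choose 3 : ℕ) : ℝ) ≤ ((unc3 G B D).card : ℝ) +
      ((K.biUnion (fun w => (nb G w B).powersetCard 3)).card : ℝ) := by exact_mod_cast h2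
  rw [← hb3] at h5
  have hbr : (100 : ℝ) ≤ b := by exact_mod_cast hb
  have h6 := mul_le_mul_of_nonneg_left h4 (show 0 ≤ 52 / 600 * (b : ℝ) by positivity)
  have h7 : 52 / 600 * (b : ℝ) * (9 / 10 * (b : ℝ) ^ 2) = 468 / 6000 * (b : ℝ) ^ 3 := by ring
  rw [h7] at h6
  have h8 : (b : ℝ) * (b - 1) * (b - 2) / 6 = 1 / 6 * (b : ℝ) ^ 3 - 1 / 2 * (b : ℝ) ^ 2 + 1 / 3 * b := by
    ring
  have h9 : 100 * (b : ℝ) ^ 2 ≤ (b : ℝ) ^ 3 := by
    have : (b : ℝ) ^ 3 = b * (b : ℝ) ^ 2 := by ring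
    rw [this]
    exact mul_le_mul_of_nonneg_right hbr (sq_nonneg _)
  rw [h8] at h5
  linarith

end

end Pool.Agent.H98.CD
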