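import Pool.Agent.H98.CD.K4D

set_option autoImplicit false
set_option linter.unusedSectionVars false

/-!
# Lower bound with complete graphs on four vertices: deterministic part, continued
-/

namespace Pool.Agent.H98.CD

open Finset Pool.Agent.H98.CC
open scoped Classical

section

variable {n : ℕ}

/-- the greedy extraction of disjoint complete graphs -/
lemma extract4 (G : SimpleGraph (Fin n)) (B S : Finset (Fin n)) (hSB : Disjoint S B)
    (T0 j D m : ℕ) (hT : 0 < T0) (a : Fin n)
    (hbad : ¬ Bad4 (off S G) B S T0 j D (nb G a Sᶜ)) (M : Finset (Finset (Fin n)))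
    (hM : ∀ T ∈ M, T ∈ B.powersetCard 3 ∧ Clq G T ∧ ∀ x ∈ T, G.Adj a x)
    (hM2 : ∀ T ∈ M, ∀ T' ∈ M, T ≠ T' → Disjoint T T')
    (w : Finset (Fin n) → Fin n)
    (hw : ∀ T ∈ M, G.Adj (w T) a ∧ (∀ x ∈ T, G.Adj (w T) x) ∧ (nb G (w T) B).card < D)
    (hlow : ∀ x ∈ B, (nb G x B).card < D)
    (hsel : m ≤ 8 * (M.filter (fun T => w T ∉ S)).card) (hm : 8 * (j * (5 * T0)) ≤ m) : False := by
  unfold Bad4 at hbad
  push Not at hbad
  obtain ⟨hb1, hb2⟩ := hbad
  set N := nb G a Sᶜ with hN
  set F := M.filter (fun T => w T ∉ S) with hF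
  have hFM : F ⊆ M := Finset.filter_subset _ _
  have hBS : ∀ x ∈ B, x ∉ S := fun x hx h => (Finset.disjoint_left.mp hSB) h hx
  have hclq : ∀ T ∈ M, Clq (off S G) T := by
    intro T hT x hx y hy hxy
    obtain ⟨h1, h2, _⟩ := hM T hT
    rw [Finset.mem_powersetCard] at h1
    exact off_adj.mpr ⟨h2 x hx y hy hxy, hBS x (h1.1 hx), hBS y (h1.1 hy)⟩
  have hTN : ∀ T ∈ M, T ⊆ N := by
    intro T hT x hx
    obtain ⟨h1, _, h2⟩ := hM T hT
    rw [Finset.mem_powersetCard] at h1
    rw [hN, mem_nb, Finset.mem_compl]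
    exact ⟨hBS x (h1.1 hx), h2 x hx⟩
  -- triples in `F` with a given coverer
  have hcov : ∀ z, z ∉ S → (nb G z B).card < D → (F.filter (fun T => w T = z)).card < T0 := by
    intro z hz hzD
    have h1 := hb1 z hz (by rwa [nb_off G S B hSB z hz])
    by_contra hcon
    push Not at hcon
    obtain ⟨J, hJ, hJc⟩ := Finset.exists_subset_card_eq hcon
    apply h1
    refine ⟨J, ?_, hJc, ?_, ?_⟩
    · intro T hTJ
      have h2 := Finset.mem_filter.mp (hJ hTJ)
      have h3 := hFM h2.1
      rw [Finset.mem_filter, Finset.mem_powersetCard]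
      obtain ⟨h4, h5, h6⟩ := hM T h3
      rw [Finset.mem_powersetCard] at h4
      refine ⟨⟨?_, h4.2⟩, hclq T h3⟩
      intro x hx
      rw [nb_off G S B hSB z hz, mem_nb]
      refine ⟨h4.1 hx, ?_⟩
      have h7 := (hw T h3).2.1 x hx
      rwa [h2.2] at h7
    · intro T hTJ
      exact hTN T (hFM (Finset.mem_filter.mp (hJ hTJ)).1)
    · intro T hTJ T' hTJ' hne
      exact hM2 T (hFM (Finset.mem_filter.mp (hJ hTJ)).1) T'
        (hFM (Finset.mem_filter.mp (hJ hTJ')).1) hne
  set R : Finset (Fin n) → Finset (Fin n) → Prop := fun T T' =>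
    w T = w T' ∨ w T ∈ T' ∨ w T' ∈ T with hR
  have hRs : ∀ T T', R T T' → R T' T := by
    intro T T' h
    simp only [hR] at h ⊢
    rcases h with h | h | h
    · exact Or.inl h.symm
    · exact Or.inr (Or.inr h)
    · exact Or.inr (Or.inl h)
  have hconf : ∀ T ∈ F, (F.filter (fun T' => R T T' ∨ R T' T ∨ T' = T)).card ≤ 5 * T0 := by
    intro T hTF
    have hTM := hFM hTF
    have hwS : w T ∉ S := (Finset.mem_filter.mp hTF).2
    obtain ⟨h3, h4, h5⟩ := hM T hTM
    rw [Finset.mem_powersetCard] at h3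
    have hsub : F.filter (fun T' => R T T' ∨ R T' T ∨ T' = T) ⊆
        (F.filter (fun T' => w T' = w T) ∪ T.biUnion (fun x => F.filter (fun T' => w T' = x))) ∪
        F.filter (fun T' => w T ∈ T') := by
      intro T' hT'
      rw [Finset.mem_filter] at hT'
      obtain ⟨h6, h7⟩ := hT'
      have h8 : R T T' ∨ T' = T := by
        rcases h7 with h7 | h7 | h7
        · exact Or.inl h7
        · exact Or.inl (hRs _ _ h7)
        · exact Or.inr h7
      rcases h8 with h8 | h8
      · simp only [hR] at h8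
        rcases h8 with h8 | h8 | h8
        · exact Finset.mem_union_left _ (Finset.mem_union_left _
            (Finset.mem_filter.mpr ⟨h6, h8.symm⟩))
        · exact Finset.mem_union_right _ (Finset.mem_filter.mpr ⟨h6, h8⟩)
        · exact Finset.mem_union_left _ (Finset.mem_union_right _
            (Finset.mem_biUnion.mpr ⟨w T', h8, Finset.mem_filter.mpr ⟨h6, rfl⟩⟩))
      · exact Finset.mem_union_left _ (Finset.mem_union_left _
            (Finset.mem_filter.mpr ⟨h6, by rw [h8]⟩))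
    have hc1 := hcov (w T) hwS (hw T hTM).2.2
    have hc2 : (T.biUnion (fun x => F.filter (fun T' => w T' = x))).card ≤ 3 * (T0 - 1) := by
      refine Finset.card_biUnion_le.trans ?_
      have h6 : ∀ x ∈ T, (F.filter (fun T' => w T' = x)).card ≤ T0 - 1 := by
        intro x hx
        have := hcov x (hBS x (h3.1 hx)) (hlow x (h3.1 hx))
        omega
      refine (Finset.sum_le_card_nsmul _ _ _ h6).trans ?_
      rw [h3.2, smul_eq_mul]
    have hc4 : (F.filter (fun T' => w T ∈ T')).card ≤ 1 := by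
      rw [Finset.card_le_one]
      intro x hx y hy
      rw [Finset.mem_filter] at hx hy
      by_contra hne
      have := hM2 x (hFM hx.1) y (hFM hy.1) hne
      exact (Finset.disjoint_left.mp this) hx.2 hy.2
    have h9 := Finset.card_le_card hsub
    have h10 := Finset.card_union_le
      (F.filter (fun T' => w T' = w T) ∪ T.biUnion (fun x => F.filter (fun T' => w T' = x)))
      (F.filter (fun T' => w T ∈ T'))
    have h11 := Finset.card_union_le (F.filter (fun T' => w T' = w T))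
      (T.biUnion (fun x => F.filter (fun T' => w T' = x)))
    omega
  obtain ⟨J, hJF, hJc, hJ⟩ := exists_noconf R (5 * T0) j F
    (fun e he => by convert hconf e he) (by omega) (by omega)
  apply hb2
  refine ⟨J.image (fun T => (T, w T)), ?_, ?_, ?_⟩
  · rw [Finset.card_image_of_injective, hJc]
    intro T T' h
    simp only [Prod.mk.injEq] at h
    exact h.1
  · intro t ht
    obtain ⟨T, hTJ, rfl⟩ := Finset.mem_image.mp ht
    have hTF := hJF hTJ
    have hTM := hFM hTF
    have hwS : w T ∉ S := (Finset.mem_filter.mp hTF).2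
    obtain ⟨h3, h4, h5⟩ := hM T hTM
    obtain ⟨h6, h7, h8⟩ := hw T hTM
    refine ⟨h3, hclq T hTM, hTN T hTM, ?_, ?_⟩
    · rw [hN, mem_nb, Finset.mem_compl]; exact ⟨hwS, h6.symm⟩
    · intro x hx
      rw [Finset.mem_powersetCard] at h3
      exact off_adj.mpr ⟨h7 x hx, hwS, hBS x (h3.1 hx)⟩
  · intro t ht t' ht' hne
    obtain ⟨T, hTJ, rfl⟩ := Finset.mem_image.mp ht
    obtain ⟨T', hTJ', rfl⟩ := Finset.mem_image.mp ht'
    have hTT' : T ≠ T' := fun h => hne (by rw [h])
    have h1 := hJ T hTJ T' hTJ' hTT'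
    simp only [hR, not_or] at h1
    have h2 := hM2 T (hFM (hJF hTJ)) T' (hFM (hJF hTJ')) hTT'
    obtain ⟨r1, r2, r3⟩ := h1
    show Disjoint (insert (w T) T) (insert (w T') T')
    rw [Finset.disjoint_left]
    intro x hx hx'
    rw [Finset.mem_insert] at hx hx'
    rcases hx with rfl | hx <;> rcases hx' with h | h
    · exact r1 h
    · exact r2 h
    · exact r3 (h ▸ hx)
    · exact (Finset.disjoint_left.mp h2) hx h

/-- A set of vertices all of whose complete graphs on four vertices are covered is almost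
contained in a neighbourhood. -/
theorem det4 (G : SimpleGraph (Fin n)) (p : ℝ) (s b s8 D D2 T j m : ℕ) (hn : 0 < n)
    (hs : 100 ≤ s) (hb : b = 2 * s - s / 100) (hD : 0 < D) (hD2 : 50 * D2 ≤ s) (hT : 0 < T)
    (hm0 : 0 < m) (hm : 8 * (j * (5 * T)) ≤ m) (hs8 : 8 * s8 ≤ s + 7)
    (hG : Good4 G p s b s8 D D2 T j m) (C : Finset (Fin n))
    (hK4 : ∀ Q : Finset (Fin n), Q ⊆ C → Q.card = 4 → Clq G Q → ∃ w, ∀ x ∈ Q, G.Adj w x) :
    ∃ v, (C \ nb G v C).card ≤ 6 * s := by
  by_contra hcon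
  push Not at hcon
  have v0 : Fin n := ⟨0, hn⟩
  have hCc : 6 * s < C.card := (hcon v0).trans_le (Finset.card_le_card Finset.sdiff_subset)
  obtain ⟨C', hC'C, hC'c, hC'w⟩ := det_spread G s D2 hn (by omega) hD2 hG.codeg C hcon
  set H := Finset.univ.filter (fun w => D ≤ (nb G w C').card) with hH
  have hHc : H.card ≤ s / 100 := hG.few C' hC'c
  obtain ⟨B, hBsub, hBc⟩ := Finset.exists_subset_card_eq (show b ≤ (C' \ H).card by
    have := Finset.le_card_sdiff H C'
    omega)
  have hBC' : B ⊆ C' := hBsub.trans Finset.sdiff_subset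
  have hBC : B ⊆ C := hBC'.trans hC'C
  have h52 : ∀ w, 100 * (nb G w B).card ≤ 52 * b := by
    intro w
    have h1 := hC'w w
    have h2 := Finset.card_le_card (nb_mono G w hBC')
    omega
  have hnotH : ∀ w, w ∉ H → (nb G w B).card < D := by
    intro w hw
    have h1 : (nb G w C').card < D := by
      by_contra h
      exact hw (Finset.mem_filter.mpr ⟨Finset.mem_univ _, by omega⟩)
    exact (Finset.card_le_card (nb_mono G w hBC')).trans_lt h1
  have hlowB : ∀ x ∈ B, (nb G x B).card < D := fun x hx =>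
    hnotH x (Finset.mem_sdiff.mp (hBsub hx)).2
  have hunc := unc3_card G B D b hBc h52 (hG.cover B hBc) (by omega)
  have htris := hG.tris B hBc hunc
  set A0 := C \ (C' ∪ H) with hA0
  have hA0c : 3 * s ≤ A0.card := by
    have h1 : C.card - (C' ∪ H).card ≤ A0.card := Finset.le_card_sdiff (C' ∪ H) C
    have h2 := Finset.card_union_le C' H
    omega
  have hA0B : ∀ a ∈ A0, a ∉ B := by
    intro a ha haB
    have := (Finset.mem_sdiff.mp ha).2
    exact this (Finset.mem_union_left _ (hBC' haB))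
  have hA0low : ∀ a ∈ A0, (nb G a B).card < D := by
    intro a ha
    apply hnotH
    intro h
    exact (Finset.mem_sdiff.mp ha).2 (Finset.mem_union_right _ h)
  -- matchings
  have hmat : ∀ A ⊆ A0, A.card = s → ∃ a ∈ A, DM (ctr G B D) (nb G a univ) m := by
    intro A hA hAc
    have hAB : Disjoint A B := by
      rw [Finset.disjoint_left]
      intro a ha
      exact hA0B a (hA ha)
    have hlA : ∀ a ∈ A, (nb G a B).card < D := fun a ha => hA0low a (hA ha)
    have hcl := ctr_off G A B D hD hAB hlA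
    obtain ⟨a, ha, M, hM1, hMc, hM2, hM3⟩ := hG.mat B A hBc hAc hAB (by rw [hcl]; exact htris) (by
      intro x hx
      rw [nb_off G A B hAB x (fun h => (Finset.disjoint_left.mp hAB) h hx)]
      exact hlowB x hx)
    rw [hcl] at hM1
    exact ⟨a, ha, M, hM1, hMc, fun T hT => (hM2 T hT).trans (nb_mono G a (Finset.subset_univ _)),
      hM3⟩
  set A1 := A0.filter (fun a => DM (ctr G B D) (nb G a univ) m) with hA1
  have hA1c : s ≤ A1.card := by
    by_contra h
    have h1 : A0.card = A1.card + (A0.filter (fun a => ¬ DM (ctr G B D) (nb G a univ) m)).card :=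
      (Finset.card_filter_add_card_filter_not _).symm
    obtain ⟨A, hA, hAc⟩ := Finset.exists_subset_card_eq
      (show s ≤ (A0.filter (fun a => ¬ DM (ctr G B D) (nb G a univ) m)).card by omega)
    obtain ⟨a, ha, h2⟩ := hmat A (hA.trans (Finset.filter_subset _ _)) hAc
    exact (Finset.mem_filter.mp (hA ha)).2 h2
  obtain ⟨A, hAA1, hAc⟩ := Finset.exists_subset_card_eq hA1c
  have hAA0 : A ⊆ A0 := hAA1.trans (Finset.filter_subset _ _)
  have hAC : A ⊆ C := hAA0.trans Finset.sdiff_subset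
  -- choose the matchings and the coverers
  have hchoice : ∀ a : Fin n, ∃ M : Finset (Finset (Fin n)), a ∈ A → M ⊆ ctr G B D ∧ M.card = m ∧
      (∀ T ∈ M, T ⊆ nb G a univ) ∧ ∀ T ∈ M, ∀ T' ∈ M, T ≠ T' → Disjoint T T' := by
    intro a
    by_cases ha : a ∈ A
    · obtain ⟨M, h1, h2, h3, h4⟩ := (Finset.mem_filter.mp (hAA1 ha)).2
      exact ⟨M, fun _ => ⟨h1, h2, h3, h4⟩⟩
    · exact ⟨∅, fun h => absurd h ha⟩
  choose M hM using hchoice
  have hctr : ∀ T ∈ ctr G B D, T ⊆ B ∧ T.card = 3 ∧ Clq G T ∧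
      ∀ w, w ∉ B → D ≤ (nb G w B).card → ¬ ∀ x ∈ T, G.Adj w x := by
    intro T hT
    unfold ctr unc3 at hT
    rw [Finset.mem_filter, Finset.mem_filter, Finset.mem_powersetCard] at hT
    exact ⟨hT.1.1.1, hT.1.1.2, hT.2, hT.1.2⟩
  have hchoice2 : ∀ (a : Fin n) (T : Finset (Fin n)), ∃ w : Fin n, a ∈ A → T ∈ M a →
      G.Adj w a ∧ ∀ x ∈ T, G.Adj w x := by
    intro a T
    by_cases h : a ∈ A ∧ T ∈ M a
    · obtain ⟨h1, h2⟩ := h
      obtain ⟨h3, h4, h5, h6⟩ := hM a h1
      obtain ⟨h7, h8, h9, h10⟩ := hctr T (h3 h2)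
      have haT : a ∉ T := fun h => hA0B a (hAA0 h1) (h7 h)
      obtain ⟨w, hw⟩ := hK4 (insert a T)
        (Finset.insert_subset (hAC h1) (h7.trans hBC))
        (by rw [Finset.card_insert_of_notMem haT, h8]) (by
          intro x hx y hy hxy
          rw [Finset.mem_insert] at hx hy
          rcases hx with rfl | hx <;> rcases hy with rfl | hy
          · exact absurd rfl hxy
          · exact (mem_nb.mp (h5 T h2 hy)).2
          · exact (mem_nb.mp (h5 T h2 hx)).2.symm
          · exact h9 x hx y hy hxy)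
      exact ⟨w, fun _ _ => ⟨hw a (Finset.mem_insert_self _ _),
        fun x hx => hw x (Finset.mem_insert_of_mem hx)⟩⟩
    · exact ⟨a, fun h1 h2 => absurd ⟨h1, h2⟩ h⟩
  choose w hw using hchoice2
  obtain ⟨S, hSA, hSc, hS⟩ := exists_sel' A m s8 M hm0 (fun a ha => (hM a ha).2.1) w
    (fun a ha T hT => (hw a T ha hT).1.ne) (by rw [hAc]; exact hs8)
  have hSB : Disjoint S B := by
    rw [Finset.disjoint_left]
    intro a ha
    exact hA0B a (hAA0 (hSA ha))
  obtain ⟨a, ha, hbad⟩ := hG.nobad B S hBc hSc hSB (by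
    intro x hx
    rw [nb_off G S B hSB x (fun h => (Finset.disjoint_left.mp hSB) h hx)]
    exact hlowB x hx)
  have haA := hSA ha
  refine extract4 G B S hSB T j D m hT a hbad (M a) (fun T hT => ?_) (hM a haA).2.2.2 (w a)
    (fun T hT => ?_) hlowB (hS a ha) hm
  · obtain ⟨h3, h4, h5, h6⟩ := hM a haA
    obtain ⟨h7, h8, h9, h10⟩ := hctr T (h3 hT)
    refine ⟨?_, h9, ?_⟩
    · rw [Finset.mem_powersetCard]; exact ⟨h7, h8⟩
    · intro x hx
      exact (mem_nb.mp (h5 T hT hx)).2
  · obtain ⟨h1, h2⟩ := hw a T haA hT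
    refine ⟨h1, h2, ?_⟩
    obtain ⟨h7, h8, h9, h10⟩ := hctr T ((hM a haA).1 hT)
    by_cases hwB : w a T ∈ B
    · exact hlowB _ hwB
    · by_contra h11
      exact h10 (w a T) hwB (by omega) h2

/-- the lower bound -/
lemma lower_det4 (G : SimpleGraph (Fin n)) (k s : ℕ) (hk : k ≤ n) (t : ℝ)
    (h1 : ∀ C : Finset (Fin n), (∀ Q : Finset (Fin n), Q ⊆ C → Q.card = 4 → Clq G Q →
      ∃ w, ∀ x ∈ Q, G.Adj w x) → ∃ v, (C \ nb G v C).card ≤ 6 * s)
    (h2 : ∀ Q : Finset (Fin n), Q.card = k → t ≤ ((unn G Q).card : ℝ))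
    (h3 : 6 * (s : ℝ) * k < t) : k < cliqueChromaticNumber G := by
  by_contra hcon
  push Not at hcon
  obtain ⟨f, hf⟩ := chi_exists G k hcon
  set Cl : Fin k → Finset (Fin n) := fun i => univ.filter (fun x => f x = i) with hCl
  have hmem : ∀ i x, x ∈ Cl i ↔ f x = i := by
    intro i x
    rw [hCl]
    simp
  have h4 : ∀ i : Fin k, ∃ v, (Cl i \ nb G v (Cl i)).card ≤ 6 * s := by
    intro i
    apply h1
    intro Q hQ hQc hcl
    by_contra hno
    push Not at hno
    have hcl' : G.IsClique (Q : Set (Fin n)) := by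
      intro a ha b hb hab
      exact hcl a (Finset.mem_coe.mp ha) b (Finset.mem_coe.mp hb) hab
    have hmax : IsMaxClique G Q := by
      refine ⟨hcl', ?_⟩
      intro T hT hsub
      apply Finset.Subset.antisymm _ hsub
      intro w hw
      by_contra hwn
      obtain ⟨x, hx, hx2⟩ := hno w
      apply hx2
      exact hT hw (hsub hx) (fun h => hwn (h ▸ hx))
    obtain ⟨a, ha, b, hb, hab⟩ := hf _ hmax (by omega)
    apply hab
    rw [(hmem i a).1 (hQ ha), (hmem i b).1 (hQ hb)]
  choose v hv using h4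
  have h5 : (univ.image v).card ≤ k := by
    refine Finset.card_image_le.trans ?_
    rw [Finset.card_univ, Fintype.card_fin]
  obtain ⟨Q, hQ, hQc⟩ := Finset.exists_superset_card_eq h5
    (show k ≤ Fintype.card (Fin n) by rw [Fintype.card_fin]; exact hk)
  have h6 := h2 Q hQc
  have h7 : unn G Q ⊆ univ.biUnion (fun i => Cl i \ nb G (v i) (Cl i)) := by
    intro w hw
    rw [mem_unn] at hw
    rw [Finset.mem_biUnion]
    refine ⟨f w, Finset.mem_univ _, ?_⟩
    rw [Finset.mem_sdiff, mem_nb, hmem]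
    refine ⟨rfl, ?_⟩
    rintro ⟨_, hadj⟩
    exact hw.2 (v (f w)) (hQ (Finset.mem_image_of_mem _ (Finset.mem_univ _))) hadj.symm
  have h8 : (unn G Q).card ≤ k * (6 * s) := by
    refine (Finset.card_le_card h7).trans (Finset.card_biUnion_le.trans ?_)
    refine (Finset.sum_le_card_nsmul _ _ _ (fun i _ => hv i)).trans ?_
    rw [Finset.card_univ, Fintype.card_fin, smul_eq_mul]
  have h9 : ((unn G Q).card : ℝ) ≤ k * (6 * s) := by exact_mod_cast h8
  linarith

end

end Pool.Agent.H98.CD
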