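import Pool.Agent.H98.CD.K4E
import Pool.Agent.H98.CD.Jan
import Pool.Agent.H98.CC.Prob5

set_option autoImplicit false
set_option linter.unusedSectionVars false

/-!
# Lower bound with complete graphs on four vertices: many clean triangles
-/

namespace Pool.Agent.H98.CD

open Finset Pool.Agent.H98.CC
open scoped Classical

section

variable {n : ℕ} {p : ℝ}

lemma eWX_self (W : Finset (Fin n)) : (eWX W W).card = W.card.choose 2 := by
  have h1 : eWX W W = W.offDiag.image (fun e : Fin n × Fin n => s(e.1, e.2)) := by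
    unfold eWX
    congr 1
    ext e
    rw [Finset.mem_filter, Finset.mem_product, Finset.mem_offDiag]
    tauto
  rw [h1]
  exact Sym2.card_image_offDiag W

lemma eWX_mono {W W' : Finset (Fin n)} (h : W ⊆ W') : eWX W W ⊆ eWX W' W' := by
  unfold eWX
  apply Finset.image_subset_image
  apply Finset.filter_subset_filter
  exact Finset.product_subset_product h h

lemma mem_eWX_self {W : Finset (Fin n)} {a b : Fin n} :
    s(a, b) ∈ eWX W W ↔ a ∈ W ∧ b ∈ W ∧ a ≠ b := by
  constructor
  · intro h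
    have h2 := eWX_sub W W h
    rw [mem_eT, Sym2.mk_isDiag_iff] at h2
    rcases mem_eWX h with h3 | h3
    · exact ⟨h3.1, h3.2, h2⟩
    · exact ⟨h3.2, h3.1, h2⟩
  · rintro ⟨h1, h2, h3⟩
    unfold eWX
    apply Finset.mem_image_of_mem (fun e : Fin n × Fin n => s(e.1, e.2)) (a := (a, b))
    rw [Finset.mem_filter, Finset.mem_product]
    exact ⟨⟨h1, h2⟩, h3⟩

lemma eWX_inter (T T' : Finset (Fin n)) : eWX T T ∩ eWX T' T' ⊆ eWX (T ∩ T') (T ∩ T') := by
  intro e he
  induction e using Sym2.ind with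
  | _ a b =>
    rw [Finset.mem_inter, mem_eWX_self, mem_eWX_self] at he
    rw [mem_eWX_self, Finset.mem_inter, Finset.mem_inter]
    exact ⟨⟨he.1.1, he.2.1⟩, ⟨he.1.2.1, he.2.2.1⟩, he.1.2.2⟩

/-- two different triangles span at least five edges -/
lemma union_five (T T' : Finset (Fin n)) (hT : T.card = 3) (hT' : T'.card = 3) (hne : T' ≠ T) :
    5 ≤ (eWX T' T' ∪ eWX T T).card := by
  have h1 : (T' ∩ T).card ≤ 2 := by
    by_contra h
    push Not at h
    apply hne
    have h2 : T' ∩ T = T' := Finset.eq_of_subset_of_card_le Finset.inter_subset_left (by omega)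
    have h3 : T' ∩ T = T := Finset.eq_of_subset_of_card_le Finset.inter_subset_right (by omega)
    rw [← h2, h3]
  have h2 : (eWX T' T' ∩ eWX T T).card ≤ 1 := by
    refine (Finset.card_le_card (eWX_inter T' T)).trans ?_
    rw [eWX_self]
    exact (Nat.choose_le_choose 2 h1).trans (by norm_num)
  have h3 := Finset.card_union_add_card_inter (eWX T' T') (eWX T T)
  rw [eWX_self T, eWX_self T', hT, hT'] at h3
  have h4 : Nat.choose 3 2 = 3 := rfl
  rw [h4] at h3
  omega

/-- few triangles share an edge with a given triangle -/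
lemma tri_share (B T : Finset (Fin n)) (hT : T.card = 3) (I : Finset (Finset (Fin n)))
    (hI : ∀ T' ∈ I, T' ⊆ B ∧ T'.card = 3) :
    (I.filter (fun T' => T' ≠ T ∧ ¬ Disjoint (eWX T' T') (eWX T T))).card ≤ 3 * B.card := by
  have h1 : I.filter (fun T' => T' ≠ T ∧ ¬ Disjoint (eWX T' T') (eWX T T)) ⊆
      (T.powersetCard 2 ×ˢ B).image (fun e => insert e.2 e.1) := by
    intro T' hT'
    rw [Finset.mem_filter, Finset.not_disjoint_iff] at hT'
    obtain ⟨hI', hne, e, he1, he2⟩ := hT'
    induction e using Sym2.ind with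
    | _ a c =>
      rw [mem_eWX_self] at he1 he2
      obtain ⟨a1, a2, a3⟩ := he1
      obtain ⟨c1, c2, _⟩ := he2
      obtain ⟨hB, hc⟩ := hI T' hI'
      have h2 : ({a, c} : Finset (Fin n)) ⊆ T' := by
        intro x hx
        rw [Finset.mem_insert, Finset.mem_singleton] at hx
        rcases hx with rfl | rfl
        · exact a1
        · exact a2
      have h3 : (T' \ {a, c}).card = 1 := by
        rw [Finset.card_sdiff_of_subset h2, hc, Finset.card_pair a3]
      obtain ⟨x, hx⟩ := Finset.card_eq_one.mp h3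
      have hxT : x ∈ T' := by
        have : x ∈ T' \ {a, c} := by rw [hx]; exact Finset.mem_singleton_self x
        exact (Finset.mem_sdiff.mp this).1
      rw [Finset.mem_image]
      refine ⟨({a, c}, x), ?_, ?_⟩
      · rw [Finset.mem_product, Finset.mem_powersetCard]
        refine ⟨⟨?_, Finset.card_pair a3⟩, hB hxT⟩
        intro y hy
        rw [Finset.mem_insert, Finset.mem_singleton] at hy
        rcases hy with rfl | rfl
        · exact c1
        · exact c2
      · show insert x ({a, c} : Finset (Fin n)) = T'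
        have h4 : T' = (T' \ {a, c}) ∪ {a, c} := (Finset.sdiff_union_of_subset h2).symm
        rw [h4, hx]
        rfl
  refine (Finset.card_le_card h1).trans (Finset.card_image_le.trans ?_)
  rw [Finset.card_product, Finset.card_powersetCard, hT]
  exact le_of_eq rfl

/-- many uncovered triples give many clean triangles -/
lemma tris_bound (hp0 : 0 < p) (hp1 : p ≤ 1) (hn : 0 < n) (b D : ℕ) (hb : 0 < b)
    (h1 : 768 * Real.log n ≤ b * p) (h2 : 1 ≤ 6 * (b * p ^ 2)) :
    gnp n p (fun G => ¬ ∀ B : Finset (Fin n), B.card = b →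
      1 / 12 * (b : ℝ) ^ 3 ≤ ((unc3 G B D).card : ℝ) →
      1 / 48 * ((b : ℝ) ^ 3 * p ^ 3) ≤ ((ctr G B D).card : ℝ)) ≤ 1 / n := by
  have hL : 0 ≤ Real.log n := Real.log_nonneg (by exact_mod_cast hn)
  have hbr : (1 : ℝ) ≤ b := by exact_mod_cast hb
  have hbr0 : (0 : ℝ) < b := by linarith
  have e1 : gnp n p (fun G => ¬ ∀ B : Finset (Fin n), B.card = b →
      1 / 12 * (b : ℝ) ^ 3 ≤ ((unc3 G B D).card : ℝ) →
      1 / 48 * ((b : ℝ) ^ 3 * p ^ 3) ≤ ((ctr G B D).card : ℝ)) ≤
      gnp n p (fun G => ∃ B ∈ (univ : Finset (Fin n)).powersetCard b,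
        1 / 12 * (b : ℝ) ^ 3 ≤ ((unc3 G B D).card : ℝ) ∧
        ((ctr G B D).card : ℝ) ≤ 1 / 48 * ((b : ℝ) ^ 3 * p ^ 3)) := by
    apply gnp_mono hp0.le hp1
    intro G h
    push Not at h
    obtain ⟨B, hB, h, h'⟩ := h
    refine ⟨B, ?_, h, h'.le⟩
    rw [Finset.mem_powersetCard]
    exact ⟨Finset.subset_univ _, hB⟩
  refine e1.trans ((gnp_union_le hp0.le hp1 _ _ (Real.exp (-((b : ℝ) ^ 2 * p / 384)))
    (Real.exp (b * Real.log n)) (Real.exp_pos _).le ?_ ?_).trans ?_)
  · rw [← pow_eq_exp hn]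
    exact card_pc b
  · intro B hB
    rw [Finset.mem_powersetCard] at hB
    have hBb := hB.2
    rw [gnp_eq]
    have hT : eWX B B ⊆ eT n := eWX_sub B B
    have hunc : ∀ W, W ⊆ eT n → unc3 (gr (W ∩ (eT n \ eWX B B))) B D = unc3 (gr W) B D := by
      intro W hW
      unfold unc3
      apply Finset.filter_congr
      intro T _
      constructor
      · intro h w hw hD h3
        apply h w hw (by rwa [nb_outside W hW B w hw])
        intro x hx
        rw [adj_outside W hW B w _ hw]
        exact h3 x hx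
      · intro h w hw hD h3
        rw [nb_outside W hW B w hw] at hD
        apply h w hw hD
        intro x hx
        rw [← adj_outside W hW B w _ hw]
        exact h3 x hx
    set Ed : Finset (Fin n) → Finset (Sym2 (Fin n)) := fun T => eWX T T with hEd
    have e2 : prs (eT n) p (fun W => 1 / 12 * (b : ℝ) ^ 3 ≤ ((unc3 (gr W) B D).card : ℝ) ∧
        ((ctr (gr W) B D).card : ℝ) ≤ 1 / 48 * ((b : ℝ) ^ 3 * p ^ 3)) ≤
        prs (eT n) p (fun W => (fun Z Y => 1 / 12 * (b : ℝ) ^ 3 ≤ ((unc3 (gr Z) B D).card : ℝ) ∧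
          (xc Ed (unc3 (gr Z) B D) Y : ℝ) ≤ 1 / 48 * ((b : ℝ) ^ 3 * p ^ 3))
          (W ∩ (eT n \ eWX B B)) (W ∩ eWX B B)) := by
      apply prs_mono _ hp0.le hp1
      intro W hW h
      beta_reduce
      rw [hunc W hW]
      refine ⟨h.1, le_trans ?_ h.2⟩
      have h3 : xc Ed (unc3 (gr W) B D) (W ∩ eWX B B) ≤ (ctr (gr W) B D).card := by
        unfold xc ctr
        apply Finset.card_le_card
        intro T hT
        rw [Finset.mem_filter] at hT ⊢
        refine ⟨hT.1, ?_⟩
        intro x hx y hy hxy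
        rw [gr_adj]
        have h4 : s(x, y) ∈ Ed T := mem_eWX_self.mpr ⟨hx, hy, hxy⟩
        exact ⟨(Finset.mem_inter.mp (hT.2 h4)).1, hxy⟩
      exact_mod_cast h3
    refine e2.trans (expose_inside hp0.le hp1 (eWX B B) hT (Real.exp (-((b : ℝ) ^ 2 * p / 384)))
      (fun Z Y => 1 / 12 * (b : ℝ) ^ 3 ≤ ((unc3 (gr Z) B D).card : ℝ) ∧
          (xc Ed (unc3 (gr Z) B D) Y : ℝ) ≤ 1 / 48 * ((b : ℝ) ^ 3 * p ^ 3)) ?_)
    intro Z _
    by_cases h : 1 / 12 * (b : ℝ) ^ 3 ≤ ((unc3 (gr Z) B D).card : ℝ)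
    · set I := unc3 (gr Z) B D with hI
      have hI3 : ∀ T ∈ I, T ⊆ B ∧ T.card = 3 := by
        intro T hT
        rw [hI, unc3, Finset.mem_filter, Finset.mem_powersetCard] at hT
        exact hT.1
      have hEdc : ∀ T ∈ I, (Ed T).card = 3 := by
        intro T hT
        rw [hEd]
        show (eWX T T).card = 3
        rw [eWX_self, (hI3 T hT).2]
        rfl
      have hmu : mu p Ed I = I.card * p ^ 3 := by
        unfold mu
        rw [Finset.sum_congr rfl (fun T hT => by rw [hEdc T hT]), Finset.sum_const, nsmul_eq_mul]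
      have hdel : del p Ed I ≤ mu p Ed I * (3 * (b * p ^ 2)) := by
        unfold del
        have h3 : ∀ T ∈ I, ∑ T' ∈ I.filter (fun T' => T' ≠ T ∧ ¬ Disjoint (Ed T') (Ed T)),
            p ^ (Ed T' ∪ Ed T).card ≤ 3 * b * p ^ 5 := by
          intro T hT
          have h4 : ∀ T' ∈ I.filter (fun T' => T' ≠ T ∧ ¬ Disjoint (Ed T') (Ed T)),
              p ^ (Ed T' ∪ Ed T).card ≤ p ^ 5 := by
            intro T' hT'
            rw [Finset.mem_filter] at hT'
            exact pow_le_pow_of_le_one hp0.le hp1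
              (union_five T T' (hI3 T hT).2 (hI3 T' hT'.1).2 hT'.2.1)
          refine (Finset.sum_le_card_nsmul _ _ _ h4).trans ?_
          rw [nsmul_eq_mul]
          apply mul_le_mul_of_nonneg_right _ (by positivity)
          have h5 := tri_share B T (hI3 T hT).2 I hI3
          rw [hBb] at h5
          exact_mod_cast h5
        refine (Finset.sum_le_card_nsmul _ _ _ h3).trans (le_of_eq ?_)
        rw [nsmul_eq_mul, hmu]
        ring
      set q : ℝ := 1 / (12 * (b * p ^ 2)) with hq
      have hq0 : 0 ≤ q := by positivity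
      have hq1 : q ≤ 1 / 2 := by
        rw [hq]
        apply one_div_le_one_div_of_le (by norm_num)
        linarith
      have hmu1 : 1 / 12 * (b : ℝ) ^ 3 * p ^ 3 ≤ mu p Ed I := by
        rw [hmu]
        exact mul_le_mul_of_nonneg_right h (by positivity)
      have hJ := janson_lt (eWX B B) (p := p) hp0.le hp1 q hq0 hq1 Ed I
        (fun T hT => eWX_mono (hI3 T hT).1) (1 / 48 * ((b : ℝ) ^ 3 * p ^ 3)) (by linarith) (by
        have h4 := mul_le_mul_of_nonneg_left hdel hq0
        have h5 : q * (mu p Ed I * (3 * (b * p ^ 2))) = mu p Ed I / 4 := by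
          rw [hq]; field_simp; ring
        rw [h5] at h4
        linarith)
      refine le_trans ?_ (hJ.trans ?_)
      · apply prs_mono _ hp0.le hp1
        intro Y _ h4
        exact h4.2
      · apply Real.exp_le_exp.mpr
        have h4 := mul_le_mul_of_nonneg_left hmu1 hq0
        have h5 : q * (1 / 12 * (b : ℝ) ^ 3 * p ^ 3) = (b : ℝ) ^ 2 * p / 144 := by
          rw [hq]; field_simp; norm_num
        rw [h5] at h4
        linarith
    · have e3 : prs (eWX B B) p (fun Y => 1 / 12 * (b : ℝ) ^ 3 ≤ ((unc3 (gr Z) B D).card : ℝ) ∧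
          (xc Ed (unc3 (gr Z) B D) Y : ℝ) ≤ 1 / 48 * ((b : ℝ) ^ 3 * p ^ 3)) = 0 := by
        rw [show (0 : ℝ) = exs (eWX B B) p (fun _ => 0) by rw [exs_const]]
        apply exs_congr
        intro W _
        exact ind_neg (fun h2 => h h2.1)
      rw [e3]
      exact (Real.exp_pos _).le
  · rw [inv_eq_exp hn, ← Real.exp_add]
    apply Real.exp_le_exp.mpr
    have h3 : (b : ℝ) * (768 * Real.log n) ≤ b * (b * p) :=
      mul_le_mul_of_nonneg_left h1 (by positivity)
    have h5 : 1 * Real.log n ≤ b * Real.log n := mul_le_mul_of_nonneg_right hbr hL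
    have h6 : (b : ℝ) ^ 2 * p = b * (b * p) := by ring
    rw [h6]
    linarith

end

end Pool.Agent.H98.CD
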