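import Pool.Agent.H98.CD.K4P1

set_option autoImplicit false
set_option linter.unusedSectionVars false

/-!
# Disjoint triples in a random set
-/

namespace Pool.Agent.H98.CD

open Finset Pool.Agent.H98.CC
open scoped Classical

section

variable {n : ℕ} {p : ℝ}

/-- disjoint members in a random set are unlikely if the family is small -/
lemma dm_bound (hp0 : 0 ≤ p) (hp1 : p ≤ 1) (F : Finset (Finset (Fin n))) (Q : Finset (Fin n))
    (r : ℕ) (h3 : ∀ T ∈ F, T ⊆ Q ∧ T.card = r) (m : ℕ) :
    prs Q p (fun N => DM F N m) ≤ ((F.card : ℝ) * p ^ r) ^ m := by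
  have e1 : prs Q p (fun N => DM F N m) ≤ prs Q p (fun N =>
      ∃ M ∈ (F.powersetCard m).filter (fun M => ∀ T ∈ M, ∀ T' ∈ M, T ≠ T' → Disjoint T T'),
        M.biUnion (fun T => T) ⊆ N) := by
    apply prs_mono _ hp0 hp1
    rintro N hN ⟨M, hM, hMc, hM1, hM2⟩
    refine ⟨M, ?_, ?_⟩
    · rw [Finset.mem_filter, Finset.mem_powersetCard]
      exact ⟨⟨hM, hMc⟩, hM2⟩
    · rw [Finset.biUnion_subset]
      exact hM1
  refine e1.trans ((prs_union _ hp0 hp1 _ _).trans ?_)
  have h2 : ∀ M ∈ (F.powersetCard m).filter (fun M => ∀ T ∈ M, ∀ T' ∈ M, T ≠ T' → Disjoint T T'),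
      prs Q p (fun N => M.biUnion (fun T => T) ⊆ N) ≤ (p ^ r) ^ m := by
    intro M hM
    rw [Finset.mem_filter, Finset.mem_powersetCard] at hM
    obtain ⟨⟨hM1, hM2⟩, hM3⟩ := hM
    have hsub : M.biUnion (fun T => T) ⊆ Q := by
      rw [Finset.biUnion_subset]
      intro T hT
      exact (h3 T (hM1 hT)).1
    rw [prs_subset _ _ hsub, Finset.card_biUnion hM3]
    have h4 : ∑ T ∈ M, T.card = r * m := by
      rw [Finset.sum_congr rfl (g := fun _ => r), Finset.sum_const, hM2, smul_eq_mul, mul_comm]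
      intro T hT
      exact (h3 T (hM1 hT)).2
    rw [h4, pow_mul]
  refine (Finset.sum_le_card_nsmul _ _ _ h2).trans ?_
  rw [nsmul_eq_mul, mul_pow]
  apply mul_le_mul_of_nonneg_right _ (by positivity)
  have h3 : ((F.powersetCard m).filter
      (fun M => ∀ T ∈ M, ∀ T' ∈ M, T ≠ T' → Disjoint T T')).card ≤ F.card ^ m := by
    refine (Finset.card_filter_le _ _).trans ?_
    rw [Finset.card_powersetCard]
    exact Nat.choose_le_pow _ _
  exact_mod_cast h3

/-- a maximal family of disjoint members -/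
lemma dm_cover (F : Finset (Finset (Fin n))) (Q N : Finset (Fin n))
    (h3 : ∀ T ∈ F, T ⊆ Q ∧ T.card = 3) (m : ℕ) (hm : 3 * m ≤ Q.card) (h : ¬ DM F N m) :
    ∃ U ∈ Q.powersetCard (3 * m), ∀ T ∈ F, T ⊆ N → ¬ Disjoint T U := by
  set PF := ((F.filter (fun T => T ⊆ N)).powerset).filter
    (fun M => ∀ T ∈ M, ∀ T' ∈ M, T ≠ T' → Disjoint T T') with hPF
  have hne : PF.Nonempty := by
    refine ⟨∅, ?_⟩
    rw [hPF, Finset.mem_filter]
    exact ⟨Finset.empty_mem_powerset _, by simp⟩
  obtain ⟨M, hM, hmax⟩ := Finset.exists_max_image PF (fun M => M.card) hne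
  rw [hPF, Finset.mem_filter, Finset.mem_powerset] at hM
  obtain ⟨hM1, hM2⟩ := hM
  have hMm : M.card < m := by
    by_contra hcon
    push Not at hcon
    obtain ⟨J, hJ, hJc⟩ := Finset.exists_subset_card_eq hcon
    apply h
    refine ⟨J, ?_, hJc, ?_, ?_⟩
    · intro T hT
      exact (Finset.mem_filter.mp (hM1 (hJ hT))).1
    · intro T hT
      exact (Finset.mem_filter.mp (hM1 (hJ hT))).2
    · intro T hT T' hT' hne'
      exact hM2 T (hJ hT) T' (hJ hT') hne'
  have hU0 : (M.biUnion (fun T => T)).card ≤ 3 * m := by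
    refine Finset.card_biUnion_le.trans ?_
    have h4 : ∀ T ∈ M, T.card ≤ 3 := by
      intro T hT
      exact (h3 T (Finset.mem_filter.mp (hM1 hT)).1).2.le
    refine (Finset.sum_le_card_nsmul _ _ _ h4).trans ?_
    rw [smul_eq_mul]
    omega
  have hUQ : M.biUnion (fun T => T) ⊆ Q := by
    rw [Finset.biUnion_subset]
    intro T hT
    exact (h3 T (Finset.mem_filter.mp (hM1 hT)).1).1
  obtain ⟨U, hU1, hU2, hU3⟩ := Finset.exists_subsuperset_card_eq hUQ hU0 hm
  refine ⟨U, Finset.mem_powersetCard.mpr ⟨hU2, hU3⟩, ?_⟩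
  intro T hT hTN hdis
  have hTU : ∀ T' ∈ M, Disjoint T T' := by
    intro T' hT'
    apply hdis.mono_right
    intro x hx
    exact hU1 (Finset.mem_biUnion.mpr ⟨T', hT', hx⟩)
  have hTne : T.Nonempty := by rw [← Finset.card_pos, (h3 T hT).2]; norm_num
  have hTM : T ∉ M := by
    intro hTM
    have := hTU T hTM
    rw [disjoint_self, Finset.bot_eq_empty] at this
    exact hTne.ne_empty this
  have h5 : insert T M ∈ PF := by
    rw [hPF, Finset.mem_filter, Finset.mem_powerset]
    refine ⟨Finset.insert_subset (Finset.mem_filter.mpr ⟨hT, hTN⟩) hM1, ?_⟩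
    intro A hA B hB hAB
    rw [Finset.mem_insert] at hA hB
    rcases hA with rfl | hA <;> rcases hB with rfl | hB
    · exact absurd rfl hAB
    · exact hTU B hB
    · exact (hTU A hA).symm
    · exact hM2 A hA B hB hAB
  have h6 := hmax _ h5
  rw [Finset.card_insert_of_notMem hTM] at h6
  omega

/-- large families have disjoint members in a random set -/
lemma dm_fail (hp0 : 0 < p) (hp1 : p ≤ 1) (F : Finset (Finset (Fin n))) (Q : Finset (Fin n))
    (h3 : ∀ T ∈ F, T ⊆ Q ∧ T.card = 3) (dv d2 μ0 X1 : ℝ) (m : ℕ) (hm : 3 * m ≤ Q.card)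
    (hv : ∀ x, ((F.filter (fun T => x ∈ T)).card : ℝ) ≤ dv)
    (h2 : ∀ x y, x ≠ y → ((F.filter (fun T => x ∈ T ∧ y ∈ T)).card : ℝ) ≤ d2)
    (hμ : μ0 ≤ (F.card - 3 * m * dv) * p ^ 3)
    (hX : 3 * dv * p ^ 2 + 3 * d2 * p ≤ X1) (hX1 : 1 ≤ 2 * X1) :
    prs Q p (fun N => ¬ DM F N m) ≤
      (n : ℝ) ^ (3 * m) * Real.exp (-(3 / 8 * (1 / (4 * X1) * μ0))) := by
  have hX0 : 0 < X1 := by linarith
  have e1 : prs Q p (fun N => ¬ DM F N m) ≤ prs Q p (fun N =>
      ∃ U ∈ Q.powersetCard (3 * m), ∀ T ∈ F, T ⊆ N → ¬ Disjoint T U) := by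
    apply prs_mono _ hp0.le hp1
    intro N _ h
    exact dm_cover F Q N h3 m hm h
  refine e1.trans ((prs_union _ hp0.le hp1 _ _).trans ?_)
  have h4 : ∀ U ∈ Q.powersetCard (3 * m),
      prs Q p (fun N => ∀ T ∈ F, T ⊆ N → ¬ Disjoint T U) ≤
        Real.exp (-(3 / 8 * (1 / (4 * X1) * μ0))) := by
    intro U hU
    rw [Finset.mem_powersetCard] at hU
    set I := F.filter (fun T => Disjoint T U) with hI
    have hI3 : ∀ T ∈ I, T ⊆ Q ∧ T.card = 3 := fun T hT => h3 T (Finset.mem_filter.mp hT).1
    have hmu : mu p (fun T : Finset (Fin n) => T) I = I.card * p ^ 3 := by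
      unfold mu
      rw [Finset.sum_congr rfl (fun T hT => by rw [(hI3 T hT).2]), Finset.sum_const, nsmul_eq_mul]
    have hmu1 : μ0 ≤ mu p (fun T : Finset (Fin n) => T) I := by
      rw [hmu]
      refine hμ.trans ?_
      apply mul_le_mul_of_nonneg_right _ (by positivity)
      have h5 : F.card = I.card + (F.filter (fun T => ¬ Disjoint T U)).card :=
        (Finset.card_filter_add_card_filter_not _).symm
      have h6 : F.filter (fun T => ¬ Disjoint T U) ⊆
          U.biUnion (fun x => F.filter (fun T => x ∈ T)) := by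
        intro T hT
        rw [Finset.mem_filter, Finset.not_disjoint_iff] at hT
        obtain ⟨hTF, x, hx1, hx2⟩ := hT
        exact Finset.mem_biUnion.mpr ⟨x, hx2, Finset.mem_filter.mpr ⟨hTF, hx1⟩⟩
      have h7 : ((F.filter (fun T => ¬ Disjoint T U)).card : ℝ) ≤ 3 * m * dv := by
        have h8 : ((F.filter (fun T => ¬ Disjoint T U)).card : ℝ) ≤
            ∑ x ∈ U, ((F.filter (fun T => x ∈ T)).card : ℝ) := by
          exact_mod_cast (Finset.card_le_card h6).trans Finset.card_biUnion_le
        refine h8.trans ((Finset.sum_le_card_nsmul _ _ _ (fun x _ => hv x)).trans ?_)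
        rw [nsmul_eq_mul, hU.2]
        push_cast
        exact le_refl _
      have h5r : (F.card : ℝ) = I.card + ((F.filter (fun T => ¬ Disjoint T U)).card : ℝ) := by
        exact_mod_cast h5
      linarith
    have hmu0 : 0 ≤ mu p (fun T : Finset (Fin n) => T) I := by rw [hmu]; positivity
    have hdel : del p (fun T : Finset (Fin n) => T) I ≤
        mu p (fun T : Finset (Fin n) => T) I * X1 := by
      unfold del
      have h5 : ∀ T ∈ I, ∑ T' ∈ I.filter (fun T' => T' ≠ T ∧ ¬ Disjoint T' T),
          p ^ (T' ∪ T).card ≤ p ^ 3 * X1 := by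
        intro T hT
        have hTc := (hI3 T hT).2
        have h6 : ∀ T' ∈ I.filter (fun T' => T' ≠ T ∧ ¬ Disjoint T' T), p ^ (T' ∪ T).card ≤
            ∑ x ∈ T, (if x ∈ T' then p ^ 5 else 0) +
            ∑ P ∈ T.powersetCard 2, (if P ⊆ T' then p ^ 4 else 0) := by
          intro T' hT'
          rw [Finset.mem_filter] at hT'
          obtain ⟨hT'I, hne, hnd⟩ := hT'
          have hT'c := (hI3 T' hT'I).2
          rw [Finset.not_disjoint_iff] at hnd
          obtain ⟨x0, hx1, hx2⟩ := hnd
          have h7 : (T' ∩ T).card ≤ 2 := by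
            by_contra h
            push Not at h
            apply hne
            have h8 : T' ∩ T = T' :=
              Finset.eq_of_subset_of_card_le Finset.inter_subset_left (by omega)
            have h9 : T' ∩ T = T :=
              Finset.eq_of_subset_of_card_le Finset.inter_subset_right (by omega)
            rw [← h8, h9]
          have h8 := Finset.card_union_add_card_inter T' T
          have hnn1 : 0 ≤ ∑ x ∈ T, (if x ∈ T' then p ^ 5 else 0) :=
            Finset.sum_nonneg (fun x _ => by split_ifs <;> positivity)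
          have hnn2 : 0 ≤ ∑ P ∈ T.powersetCard 2, (if P ⊆ T' then p ^ 4 else 0) :=
            Finset.sum_nonneg (fun P _ => by split_ifs <;> positivity)
          by_cases h9 : (T' ∩ T).card = 2
          · have h10 : p ^ (T' ∪ T).card ≤ p ^ 4 := pow_le_pow_of_le_one hp0.le hp1 (by omega)
            have h11 : p ^ 4 ≤ ∑ P ∈ T.powersetCard 2, (if P ⊆ T' then p ^ 4 else 0) := by
              have h12 := Finset.single_le_sum (f := fun P => if P ⊆ T' then p ^ 4 else 0)
                (fun P _ => by split_ifs <;> positivity)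
                (show T' ∩ T ∈ T.powersetCard 2 from
                  Finset.mem_powersetCard.mpr ⟨Finset.inter_subset_right, h9⟩)
              rw [if_pos Finset.inter_subset_left] at h12
              exact h12
            linarith
          · have h10 : p ^ (T' ∪ T).card ≤ p ^ 5 := pow_le_pow_of_le_one hp0.le hp1 (by omega)
            have h11 : p ^ 5 ≤ ∑ x ∈ T, (if x ∈ T' then p ^ 5 else 0) := by
              have h12 := Finset.single_le_sum (f := fun x => if x ∈ T' then p ^ 5 else 0)
                (fun P _ => by split_ifs <;> positivity) hx2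
              rw [if_pos hx1] at h12
              exact h12
            linarith
        refine (Finset.sum_le_sum h6).trans ?_
        rw [Finset.sum_add_distrib]
        have hsc1 : ∑ T' ∈ I.filter (fun T' => T' ≠ T ∧ ¬ Disjoint T' T), ∑ x ∈ T, (if x ∈ T' then p ^ 5 else 0) = ∑ x ∈ T, ∑ T' ∈ I.filter (fun T' => T' ≠ T ∧ ¬ Disjoint T' T), (if x ∈ T' then p ^ 5 else 0) := Finset.sum_comm
        have hsc2 : ∑ T' ∈ I.filter (fun T' => T' ≠ T ∧ ¬ Disjoint T' T), ∑ P ∈ T.powersetCard 2, (if P ⊆ T' then p ^ 4 else 0) = ∑ P ∈ T.powersetCard 2, ∑ T' ∈ I.filter (fun T' => T' ≠ T ∧ ¬ Disjoint T' T), (if P ⊆ T' then p ^ 4 else 0) := Finset.sum_comm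
        rw [hsc1, hsc2]
        have hIF : I.filter (fun T' => T' ≠ T ∧ ¬ Disjoint T' T) ⊆ F :=
          (Finset.filter_subset _ _).trans (Finset.filter_subset _ _)
        have h7 : ∀ x ∈ T, ∑ T' ∈ I.filter (fun T' => T' ≠ T ∧ ¬ Disjoint T' T),
            (if x ∈ T' then p ^ 5 else 0) ≤ dv * p ^ 5 := by
          intro x _
          rw [← Finset.sum_filter, Finset.sum_const, nsmul_eq_mul]
          apply mul_le_mul_of_nonneg_right _ (by positivity)
          refine le_trans ?_ (hv x)
          have h8 := Finset.card_le_card (Finset.filter_subset_filter (fun T' => x ∈ T') hIF)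
          exact_mod_cast h8
        have h8 : ∀ P ∈ T.powersetCard 2, ∑ T' ∈ I.filter (fun T' => T' ≠ T ∧ ¬ Disjoint T' T),
            (if P ⊆ T' then p ^ 4 else 0) ≤ d2 * p ^ 4 := by
          intro P hP
          rw [Finset.mem_powersetCard] at hP
          obtain ⟨x, y, hxy, rfl⟩ := Finset.card_eq_two.mp hP.2
          rw [← Finset.sum_filter, Finset.sum_const, nsmul_eq_mul]
          apply mul_le_mul_of_nonneg_right _ (by positivity)
          refine le_trans ?_ (h2 x y hxy)
          have h9 : (I.filter (fun T' => T' ≠ T ∧ ¬ Disjoint T' T)).filter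
              (fun T' => ({x, y} : Finset (Fin n)) ⊆ T') ⊆ F.filter (fun T => x ∈ T ∧ y ∈ T) := by
            intro T' hT'
            rw [Finset.mem_filter, Finset.insert_subset_iff, Finset.singleton_subset_iff] at hT'
            exact Finset.mem_filter.mpr ⟨hIF hT'.1, hT'.2⟩
          exact_mod_cast Finset.card_le_card h9
        have h9 := (Finset.sum_le_card_nsmul _ _ _ h7)
        have h10 := (Finset.sum_le_card_nsmul _ _ _ h8)
        rw [nsmul_eq_mul, hTc] at h9
        rw [nsmul_eq_mul, Finset.card_powersetCard, hTc] at h10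
        have h11 : ((Nat.choose 3 2 : ℕ) : ℝ) = 3 := by
          have : Nat.choose 3 2 = 3 := rfl
          rw [this]; norm_num
        rw [h11] at h10
        have h12 := mul_le_mul_of_nonneg_left hX (show 0 ≤ p ^ 3 by positivity)
        push_cast at h9
        calc _ ≤ 3 * (dv * p ^ 5) + 3 * (d2 * p ^ 4) := add_le_add h9 h10
          _ = p ^ 3 * (3 * dv * p ^ 2 + 3 * d2 * p) := by ring
          _ ≤ p ^ 3 * X1 := h12
      refine (Finset.sum_le_card_nsmul _ _ _ h5).trans (le_of_eq ?_)
      rw [nsmul_eq_mul, hmu]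
      ring
    set q : ℝ := 1 / (4 * X1) with hq
    have hq0 : 0 ≤ q := by positivity
    have hq1 : q ≤ 1 / 2 := by
      rw [hq]
      apply one_div_le_one_div_of_le (by norm_num)
      linarith
    have hJ := janson_lt Q (p := p) hp0.le hp1 q hq0 hq1 (fun T : Finset (Fin n) => T) I
      (fun T hT => (hI3 T hT).1) 0 (by linarith) (by
      have h5 := mul_le_mul_of_nonneg_left hdel hq0
      have h6 : q * (mu p (fun T : Finset (Fin n) => T) I * X1) =
          mu p (fun T : Finset (Fin n) => T) I / 4 := by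
        rw [hq]; field_simp
      rw [h6] at h5
      linarith)
    refine le_trans ?_ (hJ.trans ?_)
    · apply prs_mono _ hp0.le hp1
      intro N _ h5
      have h6 : xc (fun T : Finset (Fin n) => T) I N = 0 := by
        unfold xc
        rw [Finset.card_eq_zero, Finset.filter_eq_empty_iff]
        intro T hT hTN
        exact h5 T (Finset.mem_filter.mp hT).1 hTN (Finset.mem_filter.mp hT).2
      rw [h6]
      simp
    · apply Real.exp_le_exp.mpr
      have h5 := mul_le_mul_of_nonneg_left hmu1 hq0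
      linarith
  refine (Finset.sum_le_card_nsmul _ _ _ h4).trans ?_
  rw [nsmul_eq_mul]
  apply mul_le_mul_of_nonneg_right _ (Real.exp_pos _).le
  rw [Finset.card_powersetCard]
  have h5 : (Q.card.choose (3 * m) : ℝ) ≤ ((n.choose (3 * m) : ℕ) : ℝ) := by
    apply cast_choose_le
    refine (Finset.card_le_univ _).trans ?_
    rw [Fintype.card_fin]
  refine h5.trans ?_
  exact_mod_cast Nat.choose_le_pow _ _

end

end Pool.Agent.H98.CD
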