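import Pool.Agent.H98.CD.Com
import Pool.Agent.H98.CC.Up

set_option autoImplicit false
set_option linter.unusedSectionVars false

/-!
# Probability estimates for the upper bound
-/

namespace Pool.Agent.H98.CD

open Finset Pool.Agent.H98.CC
open scoped Classical

section

variable {n : ℕ} {p : ℝ}

/-- a property of the set of vertices without a neighbour in `Q` and of the graph outside `Q` -/
lemma unn_cond (hp0 : 0 ≤ p) (hp1 : p ≤ 1) (Q : Finset (Fin n)) (r0 : ℝ) (δ : ℝ) (hδ : 0 ≤ δ)
    (Φ : Finset (Fin n) → SimpleGraph (Fin n) → Prop)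
    (hoff : ∀ R G, Disjoint R Q → (Φ R (off Q G) ↔ Φ R G))
    (h : ∀ R, Disjoint R Q → (R.card : ℝ) ≤ r0 → gnp n p (fun G => ¬ Φ R G) ≤ δ) :
    gnp n p (fun G => ((unn G Q).card : ℝ) ≤ r0 ∧ ¬ Φ (unn G Q) G) ≤ δ := by
  rw [gnp_eq]
  have hsub : eA Q ⊆ eT n := Finset.filter_subset _ _
  have hd : Disjoint (eA Q) (eT n \ eA Q) := Finset.disjoint_sdiff
  have hU : eA Q ∪ (eT n \ eA Q) = eT n := Finset.union_sdiff_of_subset hsub
  set P : Finset (Sym2 (Fin n)) → Finset (Sym2 (Fin n)) → Prop := fun Y Z =>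
    ((unn (gr Y) Q).card : ℝ) ≤ r0 ∧ ¬ Φ (unn (gr Y) Q) (gr Z) with hP
  have h1 : prs (eT n) p (fun W => ((unn (gr W) Q).card : ℝ) ≤ r0 ∧ ¬ Φ (unn (gr W) Q) (gr W)) =
      exs (eA Q) p (fun Y => exs (eT n \ eA Q) p (fun Z => ind (P Y Z))) := by
    rw [← exs_fubini _ _ hd p (fun Y Z => ind (P Y Z)), hU]
    apply exs_congr
    intro W hW
    apply ind_congr
    have h2 : unn (gr (W ∩ eA Q)) Q = unn (gr W) Q := by
      ext w
      rw [mem_unn, mem_unn]
      apply and_congr_right
      intro _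
      apply forall_congr'
      intro x
      apply forall_congr'
      intro hx
      rw [gr_adj, gr_adj, Finset.mem_inter, eA, Finset.mem_filter]
      constructor
      · rintro h ⟨h3, h4⟩
        exact h ⟨⟨h3, hW h3, x, Sym2.mem_mk_right w x, hx⟩, h4⟩
      · rintro h ⟨⟨h3, _⟩, h4⟩
        exact h ⟨h3, h4⟩
    have hdu : Disjoint (unn (gr W) Q) Q := by
      rw [Finset.disjoint_left]
      intro x hx
      exact (mem_unn.mp hx).1
    rw [hP]
    dsimp only
    rw [h2, ← off_gr Q W hW, hoff _ _ hdu]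
  rw [h1, ← exs_const (eA Q) p δ]
  apply exs_mono _ hp0 hp1
  intro Y _
  set R := unn (gr Y) Q with hR
  have hdR : Disjoint R Q := by
    rw [Finset.disjoint_left]
    intro x hx
    exact (mem_unn.mp hx).1
  by_cases hc : (R.card : ℝ) ≤ r0
  · have h3 : exs (eT n \ eA Q) p (fun Z => ind (P Y Z)) = gnp n p (fun G => ¬ Φ R G) := by
      rw [gnp_eq, show exs (eT n \ eA Q) p (fun Z => ind (P Y Z)) =
        prs (eT n \ eA Q) p (fun Z => P Y Z) from rfl, ← prs_inter (eT n) _ Finset.sdiff_subset]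
      apply prs_congr
      intro W hW
      rw [hP]
      dsimp only
      rw [← off_gr Q W hW, hoff _ _ hdR]
      exact ⟨fun h => h.2, fun h => ⟨hc, h⟩⟩
    rw [h3]
    exact h R hdR hc
  · have h3 : exs (eT n \ eA Q) p (fun Z => ind (P Y Z)) = 0 := by
      rw [show (0 : ℝ) = exs (eT n \ eA Q) p (fun _ => 0) by rw [exs_const]]
      apply exs_congr
      intro W _
      exact ind_neg (fun h => hc h.1)
    rw [h3]
    exact hδ

/-- the vertices `y ∈ R` joined to `v` and `x` such that no vertex of `W` is joined to all three -/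
noncomputable def wb (G : SimpleGraph (Fin n)) (R W : Finset (Fin n)) (v x : Fin n) :
    Finset (Fin n) :=
  (ful G R {v, x}).filter (fun y => ∀ w ∈ W, ¬ (G.Adj w v ∧ G.Adj w x ∧ G.Adj w y))

/-- the degree conditions -/
structure Nice (G : SimpleGraph (Fin n)) (R W : Finset (Fin n)) (d1 d2 d3 t3 : ℕ) : Prop where
  a1 : ∀ v ∈ R, (ful G R {v}).card ≤ d1
  a2 : ∀ v ∈ R, ∀ x ∈ R, v ≠ x → (ful G R {v, x}).card ≤ d2
  a3 : ∀ v ∈ R, ∀ x ∈ R, ∀ y ∈ R, v ≠ x → v ≠ y → x ≠ y → (ful G R {v, x, y}).card ≤ d3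
  a4 : ∀ v ∈ R, ∀ x ∈ R, v ≠ x → (wb G R W v x).card ≤ t3

lemma ful_off (G : SimpleGraph (Fin n)) (A R Q : Finset (Fin n)) (h1 : Disjoint R A)
    (h2 : Disjoint Q A) : ful (off A G) R Q = ful G R Q := by
  ext w
  rw [mem_ful, mem_ful]
  apply and_congr_right
  intro hw
  apply forall_congr'
  intro x
  apply forall_congr'
  intro hx
  constructor
  · intro h; exact h.1
  · intro h; exact ⟨h, Finset.disjoint_left.mp h1 hw, Finset.disjoint_left.mp h2 hx⟩

lemma wb_off (G : SimpleGraph (Fin n)) (A R W : Finset (Fin n)) (h1 : Disjoint R A)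
    (h2 : Disjoint W A) (v x : Fin n) (hv : v ∈ R) (hx : x ∈ R) :
    wb (off A G) R W v x = wb G R W v x := by
  have hvA := Finset.disjoint_left.mp h1 hv
  have hxA := Finset.disjoint_left.mp h1 hx
  unfold wb
  rw [ful_off G A R {v, x} h1 (by
    rw [Finset.disjoint_left]
    intro z hz
    rw [Finset.mem_insert, Finset.mem_singleton] at hz
    rcases hz with rfl | rfl
    · exact hvA
    · exact hxA)]
  apply Finset.filter_congr
  intro y hy
  have hyA := Finset.disjoint_left.mp h1 (mem_ful.mp hy).1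
  apply forall_congr'
  intro w
  apply forall_congr'
  intro hw
  have hwA := Finset.disjoint_left.mp h2 hw
  apply not_congr
  constructor
  · rintro ⟨h3, h4, h5⟩; exact ⟨h3.1, h4.1, h5.1⟩
  · rintro ⟨h3, h4, h5⟩
    exact ⟨⟨h3, hwA, hvA⟩, ⟨h4, hwA, hxA⟩, ⟨h5, hwA, hyA⟩⟩

lemma nice_off (G : SimpleGraph (Fin n)) (A R W : Finset (Fin n)) (h1 : Disjoint R A)
    (h2 : Disjoint W A) (d1 d2 d3 t3 : ℕ) :
    Nice (off A G) R W d1 d2 d3 t3 ↔ Nice G R W d1 d2 d3 t3 := by
  have hs : ∀ Z : Finset (Fin n), Z ⊆ R → Disjoint Z A := fun Z hZ => h1.mono_left hZ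
  have e1 : ∀ v ∈ R, ful (off A G) R {v} = ful G R {v} := fun v hv =>
    ful_off G A R _ h1 (hs _ (by simpa using hv))
  have e2 : ∀ v ∈ R, ∀ x ∈ R, ful (off A G) R {v, x} = ful G R {v, x} := fun v hv x hx =>
    ful_off G A R _ h1 (hs _ (by
      intro z hz
      rw [Finset.mem_insert, Finset.mem_singleton] at hz
      rcases hz with rfl | rfl
      · exact hv
      · exact hx))
  have e3 : ∀ v ∈ R, ∀ x ∈ R, ∀ y ∈ R, ful (off A G) R {v, x, y} = ful G R {v, x, y} :=
    fun v hv x hx y hy => ful_off G A R _ h1 (hs _ (by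
      intro z hz
      simp only [Finset.mem_insert, Finset.mem_singleton] at hz
      rcases hz with rfl | rfl | rfl
      · exact hv
      · exact hx
      · exact hy))
  constructor
  · rintro ⟨b1, b2, b3, b4⟩
    refine ⟨fun v hv => ?_, fun v hv x hx h => ?_, fun v hv x hx y hy h h' h'' => ?_,
      fun v hv x hx h => ?_⟩
    · rw [← e1 v hv]; exact b1 v hv
    · rw [← e2 v hv x hx]; exact b2 v hv x hx h
    · rw [← e3 v hv x hx y hy]; exact b3 v hv x hx y hy h h' h''
    · rw [← wb_off G A R W h1 h2 v x hv hx]; exact b4 v hv x hx h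
  · rintro ⟨b1, b2, b3, b4⟩
    refine ⟨fun v hv => ?_, fun v hv x hx h => ?_, fun v hv x hx y hy h h' h'' => ?_,
      fun v hv x hx h => ?_⟩
    · rw [e1 v hv]; exact b1 v hv
    · rw [e2 v hv x hx]; exact b2 v hv x hx h
    · rw [e3 v hv x hx y hy]; exact b3 v hv x hx y hy h h' h''
    · rw [wb_off G A R W h1 h2 v x hv hx]; exact b4 v hv x hx h

lemma ful_sdiff (G : SimpleGraph (Fin n)) (R Q : Finset (Fin n)) : ful G (R \ Q) Q = ful G R Q := by
  ext w
  rw [mem_ful, mem_ful, Finset.mem_sdiff]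
  constructor
  · rintro ⟨⟨h1, _⟩, h2⟩; exact ⟨h1, h2⟩
  · rintro ⟨h1, h2⟩
    exact ⟨⟨h1, fun h => (h2 w h).ne rfl⟩, h2⟩

/-- union over all `Q` of a given size -/
lemma ful_all (hp0 : 0 ≤ p) (hp1 : p ≤ 1) (hn : 0 < n) (R : Finset (Fin n)) (q d : ℕ) (x : ℝ)
    (hx : R.card * p ^ q ≤ x) (h8 : 8 * x ≤ (d : ℝ) + 1)
    (hd : (q + 2) * Real.log n ≤ (d : ℝ) + 1) :
    gnp n p (fun G => ∃ Q ∈ (univ : Finset (Fin n)).powersetCard q, d + 1 ≤ (ful G R Q).card) ≤
      Real.exp (-(2 * Real.log n)) := by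
  refine (gnp_union_le hp0 hp1 _ _ (Real.exp (-(((d + 1 : ℕ) : ℝ)))) (n ^ q)
    (Real.exp_pos _).le (card_pc q) ?_).trans ?_
  · intro Q hQ
    rw [Finset.mem_powersetCard] at hQ
    have h1 : gnp n p (fun G => d + 1 ≤ (ful G R Q).card) =
        gnp n p (fun G => d + 1 ≤ (ful G (R \ Q) Q).card) := by
      simp only [ful_sdiff]
    rw [h1]
    refine (ful_many hp0 hp1 (R \ Q) Q Finset.sdiff_disjoint (d + 1)).trans ?_
    apply pow_tail _ (d + 1) (p ^ Q.card) x (by positivity) (Nat.succ_pos _)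
    · rw [hQ.2]
      refine le_trans ?_ hx
      apply mul_le_mul_of_nonneg_right _ (by positivity)
      exact_mod_cast Finset.card_le_card Finset.sdiff_subset
    · push_cast; exact h8
  · rw [pow_eq_exp hn, ← Real.exp_add]
    apply Real.exp_le_exp.mpr
    push_cast
    linarith

/-- few vertices close a bad triangle -/
lemma wb_bound (hp0 : 0 ≤ p) (hp1 : p ≤ 1) (R W : Finset (Fin n)) (hRW : Disjoint R W)
    (v x : Fin n) (hv : v ∈ R) (hx : x ∈ R) (hvx : v ≠ x) (c0 t : ℕ) (ht : 0 < t) (y : ℝ)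
    (hy : R.card * (p ^ 2 * (1 - p) ^ c0) ≤ y) (h8 : 8 * y ≤ t) :
    gnp n p (fun G => c0 ≤ (ful G W {v, x}).card ∧ t ≤ (wb G R W v x).card) ≤ Real.exp (-t) := by
  have hp' : 0 ≤ 1 - p := by linarith
  set β : ℝ := p ^ 2 * (1 - p) ^ c0 with hβ
  have hβ0 : 0 ≤ β := by positivity
  have hvW : v ∉ W := Finset.disjoint_left.mp hRW hv
  have hxW : x ∉ W := Finset.disjoint_left.mp hRW hx
  set Bad : SimpleGraph (Fin n) → Fin n → Finset (Fin n) → Prop := fun H _ N =>
    c0 ≤ (ful H W {v, x}).card ∧ (({v, x} : Finset (Fin n)) ⊆ N ∧ Disjoint (ful H W {v, x}) N)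
    with hBad
  have e1 : gnp n p (fun G => c0 ≤ (ful G W {v, x}).card ∧ t ≤ (wb G R W v x).card) ≤
      gnp n p (fun G => ∃ Y ∈ (R \ {v, x}).powersetCard t,
        ∀ a ∈ Y, Bad (off Y G) a (nb G a Yᶜ)) := by
    apply gnp_mono hp0 hp1
    rintro G ⟨h1, h2⟩
    obtain ⟨Y, hY, hYc⟩ := Finset.exists_subset_card_eq h2
    have hYR : Y ⊆ R \ {v, x} := by
      intro y hy
      have h3 := hY hy
      unfold wb at h3
      rw [Finset.mem_filter, mem_ful] at h3
      rw [Finset.mem_sdiff]
      exact ⟨h3.1.1, fun h => (h3.1.2 y h).ne rfl⟩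
    refine ⟨Y, Finset.mem_powersetCard.mpr ⟨hYR, hYc⟩, ?_⟩
    have hvY : v ∉ Y := fun h => (Finset.mem_sdiff.mp (hYR h)).2 (by simp)
    have hxY : x ∉ Y := fun h => (Finset.mem_sdiff.mp (hYR h)).2 (by simp)
    have hWY : Disjoint W Y := by
      rw [Finset.disjoint_left]
      intro w hw hwY
      exact Finset.disjoint_left.mp hRW (Finset.mem_sdiff.mp (hYR hwY)).1 hw
    have hful : ful (off Y G) W {v, x} = ful G W {v, x} := by
      apply ful_off G Y W _ hWY
      rw [Finset.disjoint_left]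
      intro z hz
      rw [Finset.mem_insert, Finset.mem_singleton] at hz
      rcases hz with rfl | rfl
      · exact hvY
      · exact hxY
    intro a ha
    have h3 := hY ha
    unfold wb at h3
    rw [Finset.mem_filter, mem_ful] at h3
    refine ⟨by rw [hful]; exact h1, ?_, ?_⟩
    · intro z hz
      have hadj := h3.1.2 z hz
      rw [mem_nb, Finset.mem_compl]
      rw [Finset.mem_insert, Finset.mem_singleton] at hz
      rcases hz with rfl | rfl
      · exact ⟨hvY, hadj⟩
      · exact ⟨hxY, hadj⟩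
    · rw [hful, Finset.disjoint_left]
      intro w hw hwN
      rw [mem_ful] at hw
      exact h3.2 w hw.1 ⟨hw.2 v (by simp), hw.2 x (by simp), (mem_nb.mp hwN).2.symm⟩
  refine e1.trans ((gnp_union_le hp0 hp1 _ _ (β ^ t) ((R.card.choose t : ℕ) : ℝ)
    (by positivity) ?_ ?_).trans ?_)
  · rw [Finset.card_powersetCard]
    exact_mod_cast Nat.choose_le_choose t (Finset.card_le_card Finset.sdiff_subset)
  · intro Y hY
    rw [Finset.mem_powersetCard] at hY
    have hvY : v ∉ Y := fun h => (Finset.mem_sdiff.mp (hY.1 h)).2 (by simp)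
    have hxY : x ∉ Y := fun h => (Finset.mem_sdiff.mp (hY.1 h)).2 (by simp)
    have h5 : ∀ H : SimpleGraph (Fin n), ∀ a ∈ Y, prs Yᶜ p (Bad H a) ≤ β := by
      intro H a _
      by_cases hc : c0 ≤ (ful H W {v, x}).card
      · set Z := ful H W {v, x} with hZ
        have hZW : Z ⊆ W := Finset.filter_subset _ _
        have hZY : Z ⊆ Yᶜ := by
          intro w hw
          rw [Finset.mem_compl]
          intro hwY
          exact Finset.disjoint_left.mp hRW (Finset.mem_sdiff.mp (hY.1 hwY)).1 (hZW hw)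
        have hvxY : ({v, x} : Finset (Fin n)) ⊆ Yᶜ := by
          intro z hz
          rw [Finset.mem_insert, Finset.mem_singleton] at hz
          rw [Finset.mem_compl]
          rcases hz with rfl | rfl
          · exact hvY
          · exact hxY
        have hdis : Disjoint ({v, x} : Finset (Fin n)) Z := by
          rw [Finset.disjoint_left]
          intro z hz hzZ
          rw [Finset.mem_insert, Finset.mem_singleton] at hz
          rcases hz with rfl | rfl
          · exact hvW (hZW hzZ)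
          · exact hxW (hZW hzZ)
        have h6 : prs Yᶜ p (Bad H a) = prs Yᶜ p (fun N => ({v, x} : Finset (Fin n)) ⊆ N ∧
            Disjoint Z N) := by
          apply prs_congr
          intro N _
          exact ⟨fun h => h.2, fun h => ⟨hc, h⟩⟩
        rw [h6]
        -- independence
        have h7 : prs Yᶜ p (fun N => ({v, x} : Finset (Fin n)) ⊆ N ∧ Disjoint Z N) =
            prs ({v, x} ∪ (Yᶜ \ {v, x})) p (fun N => ({v, x} : Finset (Fin n)) ⊆ N ∧ Disjoint Z N)
            := by
          rw [Finset.union_sdiff_of_subset hvxY]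
        rw [h7]
        have h8 := exs_split ({v, x} : Finset (Fin n)) (Yᶜ \ {v, x}) Finset.disjoint_sdiff p
          (fun N => ind (({v, x} : Finset (Fin n)) ⊆ N)) (fun N => ind (Disjoint Z N))
        have h9 : prs ({v, x} ∪ (Yᶜ \ {v, x})) p
            (fun N => ({v, x} : Finset (Fin n)) ⊆ N ∧ Disjoint Z N) =
            exs ({v, x} ∪ (Yᶜ \ {v, x})) p (fun N => ind (({v, x} : Finset (Fin n)) ⊆ N ∩ {v, x}) *
              ind (Disjoint Z (N ∩ (Yᶜ \ {v, x})))) := by
          apply exs_congr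
          intro N hN
          rw [ind_and]
          congr 1
          · apply ind_congr
            rw [Finset.subset_inter_iff]
            simp
          · apply ind_congr
            rw [Finset.disjoint_left, Finset.disjoint_left]
            constructor
            · intro h z hz hz2
              exact h hz (Finset.mem_inter.mp hz2).1
            · intro h z hz hz2
              apply h hz
              rw [Finset.mem_inter, Finset.mem_sdiff]
              exact ⟨hz2, hZY hz, fun h' => Finset.disjoint_left.mp hdis h' hz⟩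
        rw [h9, h8]
        have h10 := prs_subset (p := p) ({v, x} : Finset (Fin n)) {v, x} (Finset.Subset.refl _)
        rw [Finset.card_pair hvx] at h10
        have h11 := prs_disjoint (p := p) (Yᶜ \ {v, x}) Z (by
          intro z hz
          rw [Finset.mem_sdiff]
          exact ⟨hZY hz, fun h' => Finset.disjoint_left.mp hdis h' hz⟩)
        unfold prs at h10 h11
        rw [h10, h11, hβ]
        apply mul_le_mul_of_nonneg_left _ (by positivity)
        exact pow_le_pow_of_le_one hp' (by linarith) hc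
      · have h6 : prs Yᶜ p (Bad H a) = 0 := by
          rw [show (0 : ℝ) = exs Yᶜ p (fun _ => 0) by rw [exs_const]]
          apply exs_congr
          intro W _
          exact ind_neg (fun h2 => hc h2.1)
        rw [h6]; exact hβ0
    refine (rows_env hp0 hp1 Y Bad β hβ0 h5).trans (le_of_eq ?_)
    rw [hY.2]
  · exact pow_tail R.card t β y hβ0 ht hy h8

end

end Pool.Agent.H98.CD
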