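import Pool.Agent.H98.CD.K4P2
import Pool.Agent.H98.CD.UpP

set_option autoImplicit false
set_option linter.unusedSectionVars false

/-!
# Lower bound with complete graphs on four vertices: matchings and bad events
-/

namespace Pool.Agent.H98.CD

open Finset Pool.Agent.H98.CC
open scoped Classical

section

variable {n : ℕ} {p : ℝ}

/-- the triangles inside `B` -/
noncomputable def trB (H : SimpleGraph (Fin n)) (B : Finset (Fin n)) : Finset (Finset (Fin n)) :=
  (B.powersetCard 3).filter (fun T => Clq H T)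

lemma mem_trB {H : SimpleGraph (Fin n)} {B T : Finset (Fin n)} :
    T ∈ trB H B ↔ T ⊆ B ∧ T.card = 3 ∧ Clq H T := by
  unfold trB
  rw [Finset.mem_filter, Finset.mem_powersetCard, and_assoc]

lemma ctr_trB (H : SimpleGraph (Fin n)) (B : Finset (Fin n)) (D : ℕ) : ctr H B D ⊆ trB H B := by
  intro T hT
  unfold ctr unc3 at hT
  rw [Finset.mem_filter, Finset.mem_filter, Finset.mem_powersetCard] at hT
  exact mem_trB.mpr ⟨hT.1.1.1, hT.1.1.2, hT.2⟩

/-- the number of triangles at a vertex -/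
lemma tr_deg (H : SimpleGraph (Fin n)) (B : Finset (Fin n)) (D : ℕ) (K : ℝ) (hK : 0 ≤ K)
    (hlow : ∀ x ∈ B, (nb H x B).card < D)
    (hdens : ∀ Y : Finset (Fin n), Y.card ≤ D → cpair H.Adj Y ≤ K) (x : Fin n) :
    (((trB H B).filter (fun T => x ∈ T)).card : ℝ) ≤ K := by
  by_cases hx : x ∈ B
  · refine le_trans ?_ (hdens (nb H x B) (hlow x hx).le)
    rw [cpair_eq]
    have h1 : (trB H B).filter (fun T => x ∈ T) ⊆
        ((nb H x B ×ˢ nb H x B).filter (fun e => H.Adj e.1 e.2)).image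
          (fun e => insert x {e.1, e.2}) := by
      intro T hT
      rw [Finset.mem_filter, mem_trB] at hT
      obtain ⟨⟨hTB, hTc, hcl⟩, hxT⟩ := hT
      have h2 : (T.erase x).card = 2 := by rw [Finset.card_erase_of_mem hxT, hTc]
      obtain ⟨y, z, hyz, h3⟩ := Finset.card_eq_two.mp h2
      have hy : y ∈ T.erase x := by rw [h3]; simp
      have hz : z ∈ T.erase x := by rw [h3]; simp
      rw [Finset.mem_erase] at hy hz
      rw [Finset.mem_image]
      refine ⟨(y, z), ?_, ?_⟩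
      · rw [Finset.mem_filter, Finset.mem_product, mem_nb, mem_nb]
        exact ⟨⟨⟨hTB hy.2, hcl x hxT y hy.2 hy.1.symm⟩, hTB hz.2, hcl x hxT z hz.2 hz.1.symm⟩,
          hcl y hy.2 z hz.2 hyz⟩
      · show insert x ({y, z} : Finset (Fin n)) = T
        rw [← h3, Finset.insert_erase hxT]
    have h4 := (Finset.card_le_card h1).trans Finset.card_image_le
    exact_mod_cast h4
  · have h1 : (trB H B).filter (fun T => x ∈ T) = ∅ := by
      rw [Finset.filter_eq_empty_iff]
      intro T hT hxT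
      rw [mem_trB] at hT
      exact hx (hT.1 hxT)
    rw [h1]
    simpa using hK

/-- the number of triangles at a pair of vertices -/
lemma tr_codeg (H : SimpleGraph (Fin n)) (B : Finset (Fin n)) (D2 : ℕ)
    (hcod : ∀ u v : Fin n, u ≠ v → (nb H u (nb H v univ)).card ≤ D2) (x y : Fin n) (hxy : x ≠ y) :
    (((trB H B).filter (fun T => x ∈ T ∧ y ∈ T)).card : ℝ) ≤ D2 := by
  have h1 : (trB H B).filter (fun T => x ∈ T ∧ y ∈ T) ⊆
      (nb H x (nb H y univ)).image (fun z => insert z {x, y}) := by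
    intro T hT
    rw [Finset.mem_filter, mem_trB] at hT
    obtain ⟨⟨hTB, hTc, hcl⟩, hxT, hyT⟩ := hT
    have h2 : ({x, y} : Finset (Fin n)) ⊆ T := by
      intro z hz
      rw [Finset.mem_insert, Finset.mem_singleton] at hz
      rcases hz with rfl | rfl
      · exact hxT
      · exact hyT
    have h3 : (T \ {x, y}).card = 1 := by
      rw [Finset.card_sdiff_of_subset h2, hTc, Finset.card_pair hxy]
    obtain ⟨z, hz⟩ := Finset.card_eq_one.mp h3
    have hzT : z ∈ T \ {x, y} := by rw [hz]; exact Finset.mem_singleton_self z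
    rw [Finset.mem_sdiff, Finset.mem_insert, Finset.mem_singleton, not_or] at hzT
    rw [Finset.mem_image]
    refine ⟨z, ?_, ?_⟩
    · rw [mem_nb, mem_nb]
      exact ⟨⟨Finset.mem_univ _, hcl y hyT z hzT.1 (Ne.symm hzT.2.2)⟩,
        hcl x hxT z hzT.1 (Ne.symm hzT.2.1)⟩
    · have h4 : T = (T \ {x, y}) ∪ {x, y} := (Finset.sdiff_union_of_subset h2).symm
      rw [h4, hz]
      rfl
  have h4 := (Finset.card_le_card h1).trans (Finset.card_image_le.trans (hcod x y hxy))
  exact_mod_cast h4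

/-- the number of triangles in a set -/
lemma tr_small (H : SimpleGraph (Fin n)) (Y : Finset (Fin n)) (D2 : ℕ)
    (hcod : ∀ u v : Fin n, u ≠ v → (nb H u (nb H v univ)).card ≤ D2) :
    ((trB H Y).card : ℝ) ≤ cpair H.Adj Y * D2 := by
  rw [cpair_eq]
  have h1 : trB H Y ⊆ ((Y ×ˢ Y).filter (fun e => H.Adj e.1 e.2)).biUnion
      (fun e => (trB H Y).filter (fun T => e.1 ∈ T ∧ e.2 ∈ T)) := by
    intro T hT
    have hT' := mem_trB.mp hT
    obtain ⟨x, y, z, hxy, _, _, rfl⟩ := Finset.card_eq_three.mp hT'.2.1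
    rw [Finset.mem_biUnion]
    refine ⟨(x, y), ?_, Finset.mem_filter.mpr ⟨hT, by simp, by simp⟩⟩
    rw [Finset.mem_filter, Finset.mem_product]
    exact ⟨⟨hT'.1 (by simp), hT'.1 (by simp)⟩, hT'.2.2 x (by simp) y (by simp) hxy⟩
  have h2 : ((trB H Y).card : ℝ) ≤ ∑ e ∈ (Y ×ˢ Y).filter (fun e => H.Adj e.1 e.2),
      (((trB H Y).filter (fun T => e.1 ∈ T ∧ e.2 ∈ T)).card : ℝ) := by
    exact_mod_cast (Finset.card_le_card h1).trans Finset.card_biUnion_le
  refine h2.trans ((Finset.sum_le_card_nsmul _ _ (D2 : ℝ) ?_).trans ?_)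
  · intro e he
    rw [Finset.mem_filter] at he
    exact tr_codeg H Y D2 hcod e.1 e.2 he.2.ne
  · rw [nsmul_eq_mul]

/-- the number of triangles in `B` -/
lemma tr_total (H : SimpleGraph (Fin n)) (B : Finset (Fin n)) (D : ℕ) (K : ℝ) (hK : 0 ≤ K)
    (hlow : ∀ x ∈ B, (nb H x B).card < D)
    (hdens : ∀ Y : Finset (Fin n), Y.card ≤ D → cpair H.Adj Y ≤ K) :
    ((trB H B).card : ℝ) ≤ B.card * K := by
  have h1 : trB H B ⊆ B.biUnion (fun x => (trB H B).filter (fun T => x ∈ T)) := by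
    intro T hT
    have hT' := mem_trB.mp hT
    have hne : T.Nonempty := by rw [← Finset.card_pos, hT'.2.1]; norm_num
    obtain ⟨x, hx⟩ := hne
    exact Finset.mem_biUnion.mpr ⟨x, hT'.1 hx, Finset.mem_filter.mpr ⟨hT, hx⟩⟩
  have h2 : ((trB H B).card : ℝ) ≤ ∑ x ∈ B, (((trB H B).filter (fun T => x ∈ T)).card : ℝ) := by
    exact_mod_cast (Finset.card_le_card h1).trans Finset.card_biUnion_le
  refine h2.trans ((Finset.sum_le_card_nsmul _ _ K ?_).trans ?_)
  · intro x _
    exact tr_deg H B D K hK hlow hdens x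
  · rw [nsmul_eq_mul]

/-- the complete graphs with a triangle in `B` -/
noncomputable def qB (H : SimpleGraph (Fin n)) (B S : Finset (Fin n)) :
    Finset (Finset (Fin n) × Fin n) :=
  (trB H B ×ˢ Sᶜ).filter (fun e => ∀ x ∈ e.1, H.Adj e.2 x)

lemma qB_card (H : SimpleGraph (Fin n)) (B S : Finset (Fin n)) (D D3 : ℕ) (K : ℝ) (hK : 0 ≤ K)
    (hlow : ∀ x ∈ B, (nb H x B).card < D)
    (hdens : ∀ Y : Finset (Fin n), Y.card ≤ D → cpair H.Adj Y ≤ K)
    (hcod3 : ∀ T : Finset (Fin n), T.card = 3 → (ful H univ T).card ≤ D3) :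
    ((qB H B S).card : ℝ) ≤ B.card * K * D3 := by
  have h1 : (qB H B S).card ≤ (trB H B).card * D3 := by
    rw [mul_comm]
    refine Finset.card_le_mul_card_image_of_maps_to
      (f := fun e : Finset (Fin n) × Fin n => e.1) ?_ D3 ?_
    · intro e he
      unfold qB at he
      rw [Finset.mem_filter, Finset.mem_product] at he
      exact he.1.1
    · intro T hT
      refine le_trans ?_ (hcod3 T (mem_trB.mp hT).2.1)
      have h2 : ((qB H B S).filter (fun e => e.1 = T)) ⊆
          (ful H univ T).image (fun z => (T, z)) := by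
        intro e he
        rw [Finset.mem_filter] at he
        obtain ⟨ha1, ha2⟩ := he
        unfold qB at ha1
        rw [Finset.mem_filter] at ha1
        rw [Finset.mem_image]
        refine ⟨e.2, ?_, ?_⟩
        · rw [mem_ful]
          refine ⟨Finset.mem_univ _, ?_⟩
          intro x hx
          exact ha1.2 x (ha2 ▸ hx)
        · rw [← ha2]
      exact (Finset.card_le_card h2).trans Finset.card_image_le
  have h2 : ((qB H B S).card : ℝ) ≤ (trB H B).card * D3 := by exact_mod_cast h1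
  refine h2.trans ?_
  exact mul_le_mul_of_nonneg_right (tr_total H B D K hK hlow hdens) (by positivity)

/-- disjoint complete graphs in a random set are unlikely -/
lemma qd_bound (hp0 : 0 ≤ p) (hp1 : p ≤ 1) (H : SimpleGraph (Fin n)) (B S : Finset (Fin n))
    (hBS : B ⊆ Sᶜ) (j : ℕ) :
    prs Sᶜ p (fun N => Qd H B N j) ≤ (((qB H B S).card : ℝ) * p ^ 4) ^ j := by
  have e1 : prs Sᶜ p (fun N => Qd H B N j) ≤ prs Sᶜ p (fun N =>
      ∃ M ∈ ((qB H B S).powersetCard j).filter (fun M => ∀ e ∈ M, ∀ e' ∈ M, e ≠ e' →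
        Disjoint (insert e.2 e.1) (insert e'.2 e'.1)),
        M.biUnion (fun e => insert e.2 e.1) ⊆ N) := by
    apply prs_mono _ hp0 hp1
    rintro N hN ⟨M, hM, hM1, hM2⟩
    refine ⟨M, ?_, ?_⟩
    · rw [Finset.mem_filter, Finset.mem_powersetCard]
      refine ⟨⟨?_, hM⟩, hM2⟩
      intro e he
      obtain ⟨h1, h2, h3, h4, h5⟩ := hM1 e he
      unfold qB
      rw [Finset.mem_filter, Finset.mem_product, mem_trB]
      rw [Finset.mem_powersetCard] at h1
      exact ⟨⟨⟨h1.1, h1.2, h2⟩, hN h4⟩, h5⟩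
    · rw [Finset.biUnion_subset]
      intro e he
      obtain ⟨h1, h2, h3, h4, h5⟩ := hM1 e he
      exact Finset.insert_subset h4 h3
  refine e1.trans ((prs_union _ hp0 hp1 _ _).trans ?_)
  have h2 : ∀ M ∈ ((qB H B S).powersetCard j).filter (fun M => ∀ e ∈ M, ∀ e' ∈ M, e ≠ e' →
        Disjoint (insert e.2 e.1) (insert e'.2 e'.1)),
      prs Sᶜ p (fun N => M.biUnion (fun e => insert e.2 e.1) ⊆ N) ≤ (p ^ 4) ^ j := by
    intro M hM
    rw [Finset.mem_filter, Finset.mem_powersetCard] at hM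
    obtain ⟨⟨hM1, hM2⟩, hM3⟩ := hM
    have hq : ∀ e ∈ M, e.1 ⊆ B ∧ e.1.card = 3 ∧ e.2 ∈ Sᶜ ∧ e.2 ∉ e.1 := by
      intro e he
      have h3 := hM1 he
      unfold qB at h3
      rw [Finset.mem_filter, Finset.mem_product, mem_trB] at h3
      exact ⟨h3.1.1.1, h3.1.1.2.1, h3.1.2, fun h => (h3.2 e.2 h).ne rfl⟩
    have hsub : M.biUnion (fun e => insert e.2 e.1) ⊆ Sᶜ := by
      rw [Finset.biUnion_subset]
      intro e he
      obtain ⟨h3, _, h4, _⟩ := hq e he
      exact Finset.insert_subset h4 (h3.trans hBS)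
    rw [prs_subset _ _ hsub, Finset.card_biUnion hM3]
    have h4 : ∑ e ∈ M, (insert e.2 e.1).card = 4 * j := by
      rw [Finset.sum_congr rfl (g := fun _ => 4), Finset.sum_const, hM2, smul_eq_mul, mul_comm]
      intro e he
      obtain ⟨_, h3, _, h4⟩ := hq e he
      rw [Finset.card_insert_of_notMem h4, h3]
    rw [h4, pow_mul]
  refine (Finset.sum_le_card_nsmul _ _ _ h2).trans ?_
  rw [nsmul_eq_mul, mul_pow]
  apply mul_le_mul_of_nonneg_right _ (by positivity)
  have h3 : (((qB H B S).powersetCard j).filter (fun M => ∀ e ∈ M, ∀ e' ∈ M, e ≠ e' →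
        Disjoint (insert e.2 e.1) (insert e'.2 e'.1))).card ≤ (qB H B S).card ^ j := by
    refine (Finset.card_filter_le _ _).trans ?_
    rw [Finset.card_powersetCard]
    exact Nat.choose_le_pow _ _
  exact_mod_cast h3

end

end Pool.Agent.H98.CD
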