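import Pool.Agent.H98.CD.K4P3
import Pool.Agent.H98.CD.Cov

set_option autoImplicit false
set_option linter.unusedSectionVars false

/-!
# Lower bound with complete graphs on four vertices: matchings and bad events, continued
-/

namespace Pool.Agent.H98.CD

open Finset Pool.Agent.H98.CC
open scoped Classical

section

variable {n : ℕ} {p : ℝ}

lemma off_codeg (G : SimpleGraph (Fin n)) (A : Finset (Fin n)) (D2 : ℕ)
    (h : ∀ u v : Fin n, u ≠ v → (nb G u (nb G v univ)).card ≤ D2) :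
    ∀ u v : Fin n, u ≠ v → (nb (off A G) u (nb (off A G) v univ)).card ≤ D2 := by
  intro u v huv
  refine le_trans (Finset.card_le_card ?_) (h u v huv)
  exact (nb_off_sub A G u _).trans (nb_mono G u (nb_off_sub A G v _))

lemma off_dens (G : SimpleGraph (Fin n)) (A : Finset (Fin n)) (D : ℕ) (K : ℝ)
    (h : ∀ Y : Finset (Fin n), Y.card ≤ D → cpair G.Adj Y ≤ K) :
    ∀ Y : Finset (Fin n), Y.card ≤ D → cpair (off A G).Adj Y ≤ K := by
  intro Y hY
  refine le_trans ?_ (h Y hY)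
  unfold cpair
  apply Finset.sum_le_sum
  intro x _
  have : (nbr (off A G).Adj Y x).card ≤ (nbr G.Adj Y x).card :=
    Finset.card_le_card (nb_off_sub A G x Y)
  exact_mod_cast this

lemma off_codeg3 (G : SimpleGraph (Fin n)) (A : Finset (Fin n)) (D3 : ℕ)
    (h : ∀ T : Finset (Fin n), T.card = 3 → (ful G univ T).card ≤ D3) :
    ∀ T : Finset (Fin n), T.card = 3 → (ful (off A G) univ T).card ≤ D3 := by
  intro T hT
  refine le_trans (Finset.card_le_card ?_) (h T hT)
  intro w hw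
  rw [mem_ful] at hw ⊢
  exact ⟨hw.1, fun x hx => (off_adj.mp (hw.2 x hx)).1⟩

/-- common neighbours of triples -/
lemma codeg3_bound (hp0 : 0 ≤ p) (hp1 : p ≤ 1) (hn : 0 < n) (D3 : ℕ) (x : ℝ)
    (hx : n * p ^ 3 ≤ x) (h8 : 8 * x ≤ (D3 : ℝ) + 1) (hd : 5 * Real.log n ≤ (D3 : ℝ) + 1) :
    gnp n p (fun G => ¬ ∀ T : Finset (Fin n), T.card = 3 → (ful G univ T).card ≤ D3) ≤ 1 / n := by
  have hL : 0 ≤ Real.log n := Real.log_nonneg (by exact_mod_cast hn)
  have h1 := ful_all hp0 hp1 hn (univ : Finset (Fin n)) 3 D3 x (by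
    rw [Finset.card_univ, Fintype.card_fin]; exact hx) h8 (by push_cast; linarith)
  refine le_trans (gnp_mono hp0 hp1 ?_) (h1.trans ?_)
  · intro G h
    push Not at h
    obtain ⟨T, hT, h2⟩ := h
    exact ⟨T, Finset.mem_powersetCard.mpr ⟨Finset.subset_univ _, hT⟩, h2⟩
  · rw [inv_eq_exp hn]
    apply Real.exp_le_exp.mpr
    linarith

/-- some vertex of each set has many disjoint clean triangles in its neighbourhood -/
lemma mat4_bound (hp0 : 0 < p) (hp1 : p ≤ 1) (hn : 0 < n) (s b D D2 m : ℕ) (K μ0 X1 : ℝ)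
    (hK : 0 ≤ K) (hs : 0 < s) (hb : b ≤ 2 * s) (hmb : 3 * m ≤ b)
    (hμ : μ0 ≤ (1 / 48 * ((b : ℝ) ^ 3 * p ^ 3) - 3 * m * K) * p ^ 3)
    (hX : 3 * K * p ^ 2 + 3 * D2 * p ≤ X1) (hX1 : 1 ≤ 2 * X1)
    (hμ2 : (3 * m + 4) * Real.log n ≤ 3 / 8 * (1 / (4 * X1) * μ0)) :
    gnp n p (fun G => (∀ u v : Fin n, u ≠ v → (nb G u (nb G v univ)).card ≤ D2) ∧
      (∀ Y : Finset (Fin n), Y.card ≤ D → cpair G.Adj Y ≤ K) ∧
      ¬ ∀ B A : Finset (Fin n), B.card = b → A.card = s → Disjoint A B →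
      1 / 48 * ((b : ℝ) ^ 3 * p ^ 3) ≤ ((ctr (off A G) B D).card : ℝ) →
      (∀ x ∈ B, (nb (off A G) x B).card < D) →
      ∃ a ∈ A, DM (ctr (off A G) B D) (nb G a Aᶜ) m) ≤ 1 / n := by
  have hL : 0 ≤ Real.log n := Real.log_nonneg (by exact_mod_cast hn)
  have hnr : (0 : ℝ) < n := by exact_mod_cast hn
  have hsr : (1 : ℝ) ≤ s := by exact_mod_cast hs
  set Env : Finset (Fin n) → SimpleGraph (Fin n) → Prop := fun B H =>
    (∀ u v : Fin n, u ≠ v → (nb H u (nb H v univ)).card ≤ D2) ∧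
      (∀ Y : Finset (Fin n), Y.card ≤ D → cpair H.Adj Y ≤ K) ∧
      (1 / 48 * ((b : ℝ) ^ 3 * p ^ 3) ≤ ((ctr H B D).card : ℝ) ∧
      ∀ x ∈ B, (nb H x B).card < D) with hEnv
  set Bad : Finset (Fin n) → SimpleGraph (Fin n) → Fin n → Finset (Fin n) → Prop :=
    fun B H _ N => Env B H ∧ ¬ DM (ctr H B D) N m with hBad
  have e1 : gnp n p (fun G => (∀ u v : Fin n, u ≠ v → (nb G u (nb G v univ)).card ≤ D2) ∧
      (∀ Y : Finset (Fin n), Y.card ≤ D → cpair G.Adj Y ≤ K) ∧
      ¬ ∀ B A : Finset (Fin n), B.card = b → A.card = s → Disjoint A B →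
      1 / 48 * ((b : ℝ) ^ 3 * p ^ 3) ≤ ((ctr (off A G) B D).card : ℝ) →
      (∀ x ∈ B, (nb (off A G) x B).card < D) →
      ∃ a ∈ A, DM (ctr (off A G) B D) (nb G a Aᶜ) m) ≤
      gnp n p (fun G => ∃ e ∈ ((univ : Finset (Fin n)).powersetCard b ×ˢ
        (univ : Finset (Fin n)).powersetCard s).filter (fun e => Disjoint e.2 e.1),
        ∀ a ∈ e.2, Bad e.1 (off e.2 G) a (nb G a e.2ᶜ)) := by
    apply gnp_mono hp0.le hp1
    rintro G ⟨g1, g2, h⟩
    push Not at h
    obtain ⟨B, A, hB, hA, hd, h5, h6, h7⟩ := h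
    refine ⟨(B, A), ?_, ?_⟩
    · rw [Finset.mem_filter, Finset.mem_product, Finset.mem_powersetCard, Finset.mem_powersetCard]
      exact ⟨⟨⟨Finset.subset_univ _, hB⟩, Finset.subset_univ _, hA⟩, hd⟩
    · intro a ha
      exact ⟨⟨off_codeg G A D2 g1, off_dens G A D K g2, h5, h6⟩, h7 a ha⟩
  refine e1.trans ((gnp_union_le hp0.le hp1 _ _ (Real.exp (-(4 * (s * Real.log n))))
    (Real.exp ((b + s) * Real.log n)) (Real.exp_pos _).le ?_ ?_).trans ?_)
  · have h5 : (((((univ : Finset (Fin n)).powersetCard b ×ˢ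
        (univ : Finset (Fin n)).powersetCard s).filter (fun e => Disjoint e.2 e.1)).card : ℕ) : ℝ) ≤
        ((((univ : Finset (Fin n)).powersetCard b ×ˢ
        (univ : Finset (Fin n)).powersetCard s).card : ℕ) : ℝ) := by
      exact_mod_cast Finset.card_filter_le _ _
    refine h5.trans ?_
    rw [Finset.card_product]
    push_cast
    refine (mul_le_mul (card_pc _) (card_pc _) (by positivity) (by positivity)).trans ?_
    rw [pow_eq_exp hn, pow_eq_exp hn, ← Real.exp_add]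
    apply Real.exp_le_exp.mpr
    linarith
  · rintro ⟨B, A⟩ he
    rw [Finset.mem_filter, Finset.mem_product, Finset.mem_powersetCard,
      Finset.mem_powersetCard] at he
    obtain ⟨⟨⟨_, hB⟩, ⟨_, hA⟩⟩, hd⟩ := he
    dsimp only at hB hA hd
    have h5 : ∀ H : SimpleGraph (Fin n), ∀ a ∈ A, prs Aᶜ p (Bad B H a) ≤
        Real.exp (-(4 * Real.log n)) := by
      intro H a _
      by_cases hc : Env B H
      · have hBA : B ⊆ Aᶜ := by
          intro x hx
          rw [Finset.mem_compl]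
          exact fun hxA => Finset.disjoint_left.mp hd hxA hx
        have hF3 : ∀ T ∈ ctr H B D, T ⊆ B ∧ T.card = 3 := by
          intro T hT
          have := mem_trB.mp (ctr_trB H B D hT)
          exact ⟨this.1, this.2.1⟩
        have e2 : prs Aᶜ p (Bad B H a) = prs B p (fun N => ¬ DM (ctr H B D) N m) := by
          rw [← prs_inter Aᶜ B hBA]
          apply prs_congr
          intro W _
          have h6 : DM (ctr H B D) W m ↔ DM (ctr H B D) (W ∩ B) m := by
            constructor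
            · rintro ⟨M, h7, h8, h9, h10⟩
              exact ⟨M, h7, h8, fun T hT => Finset.subset_inter (h9 T hT) (hF3 T (h7 hT)).1, h10⟩
            · rintro ⟨M, h7, h8, h9, h10⟩
              exact ⟨M, h7, h8, fun T hT => (h9 T hT).trans Finset.inter_subset_left, h10⟩
          rw [← h6]
          exact ⟨fun h => h.2, fun h => ⟨hc, h⟩⟩
        rw [e2]
        obtain ⟨hc1, hc2, hc3, hc4⟩ := hc
        refine (dm_fail hp0 hp1 (ctr H B D) B hF3 K D2 μ0 X1 m (by rw [hB]; exact hmb)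
          ?_ ?_ ?_ hX hX1).trans ?_
        · intro x
          refine le_trans ?_ (tr_deg H B D K hK hc4 hc2 x)
          exact_mod_cast Finset.card_le_card (Finset.filter_subset_filter _ (ctr_trB H B D))
        · intro x y hxy
          refine le_trans ?_ (tr_codeg H B D2 hc1 x y hxy)
          exact_mod_cast Finset.card_le_card (Finset.filter_subset_filter _ (ctr_trB H B D))
        · refine hμ.trans ?_
          apply mul_le_mul_of_nonneg_right _ (by positivity)
          linarith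
        · rw [pow_eq_exp hn, ← Real.exp_add]
          apply Real.exp_le_exp.mpr
          push_cast
          linarith
      · have e2 : prs Aᶜ p (Bad B H a) = 0 := by
          rw [show (0 : ℝ) = exs Aᶜ p (fun _ => 0) by rw [exs_const]]
          apply exs_congr
          intro W _
          exact ind_neg (fun h2 => hc h2.1)
        rw [e2]
        exact (Real.exp_pos _).le
    refine (rows_env hp0.le hp1 A (Bad B) _ (Real.exp_pos _).le h5).trans (le_of_eq ?_)
    rw [hA, ← Real.exp_nat_mul]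
    congr 1
    ring
  · rw [inv_eq_exp hn, ← Real.exp_add]
    apply Real.exp_le_exp.mpr
    have hbsr : (b : ℝ) ≤ 2 * s := by exact_mod_cast hb
    have h5 : (b : ℝ) * Real.log n ≤ 2 * s * Real.log n := mul_le_mul_of_nonneg_right hbsr hL
    have h6 : 1 * Real.log n ≤ s * Real.log n := mul_le_mul_of_nonneg_right hsr hL
    linarith

/-- some vertex of each set of `s8` vertices has no bad event -/
lemma nobad4_bound (hp0 : 0 ≤ p) (hp1 : p ≤ 1) (hn : 2 ≤ n) (b s8 D D2 D3 T0 j : ℕ) (K : ℝ)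
    (hK : 0 ≤ K) (hs : 0 < s8) (hb : b ≤ 16 * s8)
    (h1 : (K * D2 * p ^ 3) ^ T0 ≤ Real.exp (-(20 * Real.log n)))
    (h2 : (b * K * D3 * p ^ 4) ^ j ≤ Real.exp (-(19 * Real.log n))) :
    gnp n p (fun G => (∀ u v : Fin n, u ≠ v → (nb G u (nb G v univ)).card ≤ D2) ∧
      (∀ Y : Finset (Fin n), Y.card ≤ D → cpair G.Adj Y ≤ K) ∧
      (∀ T : Finset (Fin n), T.card = 3 → (ful G univ T).card ≤ D3) ∧
      ¬ ∀ B S : Finset (Fin n), B.card = b → S.card = s8 → Disjoint S B →
      (∀ x ∈ B, (nb (off S G) x B).card < D) →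
      ∃ a ∈ S, ¬ Bad4 (off S G) B S T0 j D (nb G a Sᶜ)) ≤ 1 / n := by
  have hn0 : 0 < n := by omega
  have hL : 0 ≤ Real.log n := Real.log_nonneg (by exact_mod_cast hn0)
  have hnr : (0 : ℝ) < n := by exact_mod_cast hn0
  have hsr : (1 : ℝ) ≤ s8 := by exact_mod_cast hs
  set Env : Finset (Fin n) → SimpleGraph (Fin n) → Prop := fun B H =>
    (∀ u v : Fin n, u ≠ v → (nb H u (nb H v univ)).card ≤ D2) ∧
      (∀ Y : Finset (Fin n), Y.card ≤ D → cpair H.Adj Y ≤ K) ∧
      (∀ T : Finset (Fin n), T.card = 3 → (ful H univ T).card ≤ D3) ∧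
      (∀ x ∈ B, (nb H x B).card < D) with hEnv
  have e1 : gnp n p (fun G => (∀ u v : Fin n, u ≠ v → (nb G u (nb G v univ)).card ≤ D2) ∧
      (∀ Y : Finset (Fin n), Y.card ≤ D → cpair G.Adj Y ≤ K) ∧
      (∀ T : Finset (Fin n), T.card = 3 → (ful G univ T).card ≤ D3) ∧
      ¬ ∀ B S : Finset (Fin n), B.card = b → S.card = s8 → Disjoint S B →
      (∀ x ∈ B, (nb (off S G) x B).card < D) →
      ∃ a ∈ S, ¬ Bad4 (off S G) B S T0 j D (nb G a Sᶜ)) ≤
      gnp n p (fun G => ∃ e ∈ ((univ : Finset (Fin n)).powersetCard b ×ˢ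
        (univ : Finset (Fin n)).powersetCard s8).filter (fun e => Disjoint e.2 e.1),
        ∀ a ∈ e.2, (fun H _ N => Env e.1 H ∧ Bad4 H e.1 e.2 T0 j D N) (off e.2 G) a
          (nb G a e.2ᶜ)) := by
    apply gnp_mono hp0 hp1
    rintro G ⟨g1, g2, g3, h⟩
    push Not at h
    obtain ⟨B, S, hB, hS, hd, hlow, h5⟩ := h
    refine ⟨(B, S), ?_, ?_⟩
    · rw [Finset.mem_filter, Finset.mem_product, Finset.mem_powersetCard, Finset.mem_powersetCard]
      exact ⟨⟨⟨Finset.subset_univ _, hB⟩, Finset.subset_univ _, hS⟩, hd⟩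
    · intro a ha
      exact ⟨⟨off_codeg G S D2 g1, off_dens G S D K g2, off_codeg3 G S D3 g3, hlow⟩, h5 a ha⟩
  refine e1.trans ((gnp_union_le hp0 hp1 _ _ (Real.exp (-(18 * (s8 * Real.log n))))
    (Real.exp ((b + s8) * Real.log n)) (Real.exp_pos _).le ?_ ?_).trans ?_)
  · have h5 : (((((univ : Finset (Fin n)).powersetCard b ×ˢ
        (univ : Finset (Fin n)).powersetCard s8).filter (fun e => Disjoint e.2 e.1)).card : ℕ) : ℝ) ≤
        ((((univ : Finset (Fin n)).powersetCard b ×ˢ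
        (univ : Finset (Fin n)).powersetCard s8).card : ℕ) : ℝ) := by
      exact_mod_cast Finset.card_filter_le _ _
    refine h5.trans ?_
    rw [Finset.card_product]
    push_cast
    refine (mul_le_mul (card_pc _) (card_pc _) (by positivity) (by positivity)).trans ?_
    rw [pow_eq_exp hn0, pow_eq_exp hn0, ← Real.exp_add]
    apply Real.exp_le_exp.mpr
    linarith
  · rintro ⟨B, S⟩ he
    rw [Finset.mem_filter, Finset.mem_product, Finset.mem_powersetCard,
      Finset.mem_powersetCard] at he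
    obtain ⟨⟨⟨_, hB⟩, ⟨_, hS⟩⟩, hd⟩ := he
    dsimp only at hB hS hd
    have hBS : B ⊆ Sᶜ := by
      intro x hx
      rw [Finset.mem_compl]
      exact fun hxA => Finset.disjoint_left.mp hd hxA hx
    have h5 : ∀ H : SimpleGraph (Fin n), ∀ a ∈ S,
        prs Sᶜ p (fun N => Env B H ∧ Bad4 H B S T0 j D N) ≤ Real.exp (-(18 * Real.log n)) := by
      intro H a _
      by_cases hc : Env B H
      · obtain ⟨hc1, hc2, hc3, hc4⟩ := hc
        have e2 : prs Sᶜ p (fun N => Env B H ∧ Bad4 H B S T0 j D N) ≤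
            prs Sᶜ p (fun N => (∃ w ∈ univ.filter (fun w => w ∉ S ∧ (nb H w B).card < D),
              DM (trB H (nb H w B)) N T0) ∨ Qd H B N j) := by
          apply prs_mono _ hp0 hp1
          rintro N _ ⟨_, h6 | h6⟩
          · left
            obtain ⟨w, hw1, hw2, hw3⟩ := h6
            exact ⟨w, Finset.mem_filter.mpr ⟨Finset.mem_univ _, hw1, hw2⟩, hw3⟩
          · right; exact h6
        refine e2.trans ((prs_or_le _ hp0 hp1 _ _).trans ?_)
        have h6 : prs Sᶜ p (fun N => ∃ w ∈ univ.filter (fun w => w ∉ S ∧ (nb H w B).card < D),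
              DM (trB H (nb H w B)) N T0) ≤ Real.exp (-(19 * Real.log n)) := by
          refine (prs_union _ hp0 hp1 _ _).trans ?_
          have h7 : ∀ w ∈ univ.filter (fun w => w ∉ S ∧ (nb H w B).card < D),
              prs Sᶜ p (fun N => DM (trB H (nb H w B)) N T0) ≤
                Real.exp (-(20 * Real.log n)) := by
            intro w hw
            rw [Finset.mem_filter] at hw
            have hsub : nb H w B ⊆ Sᶜ := (Finset.filter_subset _ _).trans hBS
            refine (dm_bound hp0 hp1 (trB H (nb H w B)) Sᶜ 3 (fun T hT =>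
              ⟨(mem_trB.mp hT).1.trans hsub, (mem_trB.mp hT).2.1⟩) T0).trans (le_trans ?_ h1)
            apply pow_le_pow_left₀ (by positivity)
            apply mul_le_mul_of_nonneg_right _ (by positivity)
            refine (tr_small H (nb H w B) D2 hc1).trans ?_
            exact mul_le_mul_of_nonneg_right (hc2 _ hw.2.2.le) (by positivity)
          refine (Finset.sum_le_card_nsmul _ _ _ h7).trans ?_
          rw [nsmul_eq_mul]
          have h8 : ((univ.filter (fun w : Fin n => w ∉ S ∧ (nb H w B).card < D)).card : ℝ) ≤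
              Real.exp (Real.log n) := by
            rw [Real.exp_log hnr]
            have : (univ.filter (fun w : Fin n => w ∉ S ∧ (nb H w B).card < D)).card ≤ n := by
              refine (Finset.card_le_univ _).trans ?_
              rw [Fintype.card_fin]
            exact_mod_cast this
          refine (mul_le_mul_of_nonneg_right h8 (Real.exp_pos _).le).trans (le_of_eq ?_)
          rw [← Real.exp_add]
          congr 1
          ring
        have h7 : prs Sᶜ p (fun N => Qd H B N j) ≤ Real.exp (-(19 * Real.log n)) := by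
          refine (qd_bound hp0 hp1 H B S hBS j).trans (le_trans ?_ h2)
          apply pow_le_pow_left₀ (by positivity)
          apply mul_le_mul_of_nonneg_right _ (by positivity)
          have h9 := qB_card H B S D D3 K hK hc4 hc2 hc3
          rw [hB] at h9
          exact h9
        have h8 : 2 * Real.exp (-(19 * Real.log n)) ≤ Real.exp (-(18 * Real.log n)) := by
          have h9 : Real.exp (-(18 * Real.log n)) =
              Real.exp (Real.log n) * Real.exp (-(19 * Real.log n)) := by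
            rw [← Real.exp_add]; congr 1; ring
          rw [h9, Real.exp_log hnr]
          apply mul_le_mul_of_nonneg_right _ (Real.exp_pos _).le
          exact_mod_cast hn
        linarith
      · have e2 : prs Sᶜ p (fun N => Env B H ∧ Bad4 H B S T0 j D N) = 0 := by
          rw [show (0 : ℝ) = exs Sᶜ p (fun _ => 0) by rw [exs_const]]
          apply exs_congr
          intro W _
          exact ind_neg (fun h2 => hc h2.1)
        rw [e2]
        exact (Real.exp_pos _).le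
    refine (rows_env hp0 hp1 S (fun H _ N => Env B H ∧ Bad4 H B S T0 j D N) _ (Real.exp_pos _).le
      h5).trans (le_of_eq ?_)
    rw [hS, ← Real.exp_nat_mul]
    congr 1
    ring
  · rw [inv_eq_exp hn0, ← Real.exp_add]
    apply Real.exp_le_exp.mpr
    have hbsr : (b : ℝ) ≤ 16 * s8 := by exact_mod_cast hb
    have h5 : (b : ℝ) * Real.log n ≤ 16 * s8 * Real.log n := mul_le_mul_of_nonneg_right hbsr hL
    have h6 : 1 * Real.log n ≤ s8 * Real.log n := mul_le_mul_of_nonneg_right hsr hL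
    linarith

/-- the lower bound -/
lemma lower4_prob (hp0 : 0 < p) (hp2 : p ≤ 1 / 2) (hn : 2 ≤ n) (s b s8 D D2 D3 T j m k : ℕ)
    (Λ K μ0 X1 x3 : ℝ)
    (hΛ : p = Real.exp (-Λ)) (hΛ2 : 200 ≤ Λ) (hs : 100 ≤ s) (hb : b = 2 * s - s / 100)
    (hs8 : s8 = (s + 7) / 8) (hbn : b ≤ n) (hkn : 2 * k ≤ n) (hDn : D ≤ n)
    (hL : Real.log n ≤ 4 * Λ)
    (hD2s : 50 * D2 ≤ s) (hT : 0 < T) (hm0 : 0 < m) (hm : 8 * (j * (5 * T)) ≤ m)
    (hmb : 3 * m ≤ b) (hK : 0 < K)
    (c1 : 6 * (n * p ^ 2) ≤ (D2 : ℝ) + 1) (c2 : 4 * Real.log n ≤ (D2 : ℝ) + 1)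
    (c3 : 11 * (s * p) ≤ D * Real.exp (-(Λ / 5))) (c4 : 404 * Real.log n ≤ Λ / 5 * D)
    (c5 : 300 ≤ D) (c6 : Real.log (b / D) ≤ 7 / 10 * Λ + 1)
    (c7 : 1 + b * (1 + Real.log n - Real.log b - 63 / 40 * Λ) ≤ - Real.log n)
    (c8 : 768 * Real.log n ≤ b * p) (c8' : 1 ≤ 6 * (b * p ^ 2))
    (cx : n * p ^ 3 ≤ x3) (cx8 : 8 * x3 ≤ (D3 : ℝ) + 1) (cxL : 5 * Real.log n ≤ (D3 : ℝ) + 1)
    (cμ : μ0 ≤ (1 / 48 * ((b : ℝ) ^ 3 * p ^ 3) - 3 * m * K) * p ^ 3)
    (cX : 3 * K * p ^ 2 + 3 * D2 * p ≤ X1) (cX1 : 1 ≤ 2 * X1)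
    (cμ2 : (3 * m + 4) * Real.log n ≤ 3 / 8 * (1 / (4 * X1) * μ0))
    (cK1 : 15 * ((D : ℝ) ^ 2 * p) ≤ K) (cK2 : 4 * (D * Real.log n) ≤ K)
    (c11 : (K * D2 * p ^ 3) ^ T ≤ Real.exp (-(20 * Real.log n)))
    (c12 : (b * K * D3 * p ^ 4) ^ j ≤ Real.exp (-(19 * Real.log n)))
    (c13 : (k + 1) * Real.log n ≤ 3 / 20 * (n * Real.exp (-(2 * p * k))))
    (c14 : 6 * (s : ℝ) * k < n / 8 * Real.exp (-(2 * p * k))) :
    gnp n p (fun G => ¬ k < cliqueChromaticNumber G) ≤ 9 / n := by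
  have hp1 : p ≤ 1 := by linarith only [hp2]
  have hn0 : 0 < n := by omega
  have hb0 : 100 ≤ b := by omega
  have hb2 : b ≤ 2 * s := by omega
  have hL0 : 0 ≤ Real.log n := Real.log_nonneg (by exact_mod_cast hn0)
  have e1 := codeg_bound hp0.le hp1 hn0 D2 c1 c2
  have e2 := few_bound hp0.le hp1 hn0 s D (by omega) (Λ / 5) (by linarith only [hΛ2]) c3 c4
  have e3 := cover_gen hp0.le hp1 hn0 b D Λ (by linarith only [hΛ2]) hb0 hbn
    (fun d hd1 hd2 => (cover_term b D d Λ hΛ hΛ2 (by omega) (by omega) c6 hd1 hd2).trans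
      (Real.exp_le_exp.mpr (by
        have h5 : (300 : ℝ) ≤ D := by exact_mod_cast c5
        have h6 : Λ / 25 * 300 ≤ Λ / 25 * D :=
          mul_le_mul_of_nonneg_left h5 (by linarith only [hΛ2])
        linarith only [h6, hL]))) c7
  have e4 := tris_bound hp0 hp1 hn0 b D (by omega) c8 c8'
  have e5 := mat4_bound hp0 hp1 hn0 s b D D2 m K μ0 X1 hK.le (by omega) hb2 hmb cμ cX cX1 cμ2
  have e6 := nobad4_bound hp0.le hp1 hn b s8 D D2 D3 T j K hK.le (by omega) (by omega) c11 c12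
  have e7 := dense_small hp0.le hp1 hn0 D (by omega) hDn K hK cK1 cK2
  have e8 := unn_lower hp0.le hp2 hn0 k hkn c13
  have e9 := codeg3_bound hp0.le hp1 hn0 D3 x3 cx cx8 cxL
  have key : gnp n p (fun G => ¬ k < cliqueChromaticNumber G) ≤ gnp n p (fun G =>
      (¬ ∀ u v : Fin n, u ≠ v → (nb G u (nb G v univ)).card ≤ D2) ∨
      (¬ ∀ X : Finset (Fin n), X.card = 2 * s →
        (univ.filter (fun w => D ≤ (nb G w X).card)).card ≤ s / 100) ∨
      (¬ ∀ B : Finset (Fin n), B.card = b →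
        ∑ w ∈ Bᶜ, (if D ≤ (nb G w B).card ∧ 100 * (nb G w B).card ≤ 52 * b
        then ((nb G w B).card : ℝ) ^ 2 else 0) ≤ 9 / 10 * (b : ℝ) ^ 2) ∨
      (¬ ∀ B : Finset (Fin n), B.card = b →
        1 / 12 * (b : ℝ) ^ 3 ≤ ((unc3 G B D).card : ℝ) →
        1 / 48 * ((b : ℝ) ^ 3 * p ^ 3) ≤ ((ctr G B D).card : ℝ)) ∨
      ((∀ u v : Fin n, u ≠ v → (nb G u (nb G v univ)).card ≤ D2) ∧
      (∀ Y : Finset (Fin n), Y.card ≤ D → cpair G.Adj Y ≤ K) ∧
      ¬ ∀ B A : Finset (Fin n), B.card = b → A.card = s → Disjoint A B →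
      1 / 48 * ((b : ℝ) ^ 3 * p ^ 3) ≤ ((ctr (off A G) B D).card : ℝ) →
      (∀ x ∈ B, (nb (off A G) x B).card < D) →
      ∃ a ∈ A, DM (ctr (off A G) B D) (nb G a Aᶜ) m) ∨
      ((∀ u v : Fin n, u ≠ v → (nb G u (nb G v univ)).card ≤ D2) ∧
      (∀ Y : Finset (Fin n), Y.card ≤ D → cpair G.Adj Y ≤ K) ∧
      (∀ T : Finset (Fin n), T.card = 3 → (ful G univ T).card ≤ D3) ∧
      ¬ ∀ B S : Finset (Fin n), B.card = b → S.card = s8 → Disjoint S B →
      (∀ x ∈ B, (nb (off S G) x B).card < D) →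
      ∃ a ∈ S, ¬ Bad4 (off S G) B S T j D (nb G a Sᶜ)) ∨
      (¬ ∀ Y : Finset (Fin n), Y.card ≤ D → cpair G.Adj Y ≤ K) ∨
      (¬ ∀ Q : Finset (Fin n), Q.card = k →
        n / 8 * Real.exp (-(2 * p * k)) ≤ ((unn G Q).card : ℝ)) ∨
      (¬ ∀ T : Finset (Fin n), T.card = 3 → (ful G univ T).card ≤ D3)) := by
    apply gnp_mono hp0.le hp1
    intro G h
    by_contra hcon
    simp only [not_or, not_not] at hcon
    obtain ⟨g1, g2, g3, g4, g5, g6, g7, g8, g9⟩ := hcon
    have g5' : ∀ B A : Finset (Fin n), B.card = b → A.card = s → Disjoint A B →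
      1 / 48 * ((b : ℝ) ^ 3 * p ^ 3) ≤ ((ctr (off A G) B D).card : ℝ) →
      (∀ x ∈ B, (nb (off A G) x B).card < D) →
      ∃ a ∈ A, DM (ctr (off A G) B D) (nb G a Aᶜ) m := by
      by_contra h6
      exact g5 ⟨g1, g7, h6⟩
    have g6' : ∀ B S : Finset (Fin n), B.card = b → S.card = s8 → Disjoint S B →
      (∀ x ∈ B, (nb (off S G) x B).card < D) →
      ∃ a ∈ S, ¬ Bad4 (off S G) B S T j D (nb G a Sᶜ) := by
      by_contra h6
      exact g6 ⟨g1, g7, g9, h6⟩
    have hgood : Good4 G p s b s8 D D2 T j m := ⟨g1, g2, g3, g4, g5', g6'⟩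
    apply h
    exact lower_det4 G k s (by omega) _
      (fun C hC => det4 G p s b s8 D D2 T j m hn0 hs hb (by omega) hD2s hT hm0 hm
        (by omega) hgood C hC) g8 c14
  refine key.trans ?_
  have t8 := (gnp_or hp0.le hp1 _ _).trans (add_le_add e8 e9)
  have t7 := (gnp_or hp0.le hp1 _ _).trans (add_le_add e7 t8)
  have t6 := (gnp_or hp0.le hp1 _ _).trans (add_le_add e6 t7)
  have t5 := (gnp_or hp0.le hp1 _ _).trans (add_le_add e5 t6)
  have t4 := (gnp_or hp0.le hp1 _ _).trans (add_le_add e4 t5)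
  have t3 := (gnp_or hp0.le hp1 _ _).trans (add_le_add e3 t4)
  have t2 := (gnp_or hp0.le hp1 _ _).trans (add_le_add e2 t3)
  have t1 := (gnp_or hp0.le hp1 _ _).trans (add_le_add e1 t2)
  refine t1.trans (le_of_eq ?_)
  ring

end

end Pool.Agent.H98.CD
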