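import Pool.Agent.H98.CD.L3F
import Pool.Agent.H98.CD.Upp2

set_option autoImplicit false
set_option linter.unusedSectionVars false

/-!
# Lower bound with triangles: asymptotics
-/

namespace Pool.Agent.H98.CD

open Finset Pool.Agent.H98.CC
open scoped Classical

lemma one_sub_sharp (p : ℝ) (hp0 : 0 ≤ p) (hp : p ≤ 1 / 2) :
    Real.exp (-(p + p ^ 2)) ≤ 1 - p := by
  have h1 := Real.quadratic_le_exp_of_nonneg (show 0 ≤ p + p ^ 2 by positivity)
  rw [Real.exp_neg, inv_le_comm₀ (Real.exp_pos _) (by linarith)]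
  refine le_trans ?_ h1
  rw [inv_le_iff_one_le_mul₀ (by linarith)]
  have h2 : (1 + (p + p ^ 2) + (p + p ^ 2) ^ 2 / 2) * (1 - p) =
      1 + p ^ 2 / 2 * (1 - p - p ^ 2 - p ^ 3) := by ring
  have h3 : p ^ 2 ≤ 1 / 4 := by nlinarith
  have h4 : p ^ 3 ≤ 1 / 8 := by
    calc p ^ 3 ≤ (1 / 2) ^ 3 := pow_le_pow_left₀ hp0 hp 3
      _ = 1 / 8 := by norm_num
  have h5 : 0 ≤ p ^ 2 / 2 * (1 - p - p ^ 2 - p ^ 3) :=
    mul_nonneg (by positivity) (by linarith)
  rw [h2]
  linarith

/-- a lower bound for a power of `1 - p` -/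
lemma one_sub_pow (p y L : ℝ) (hp0 : 0 ≤ p) (hp : p ≤ 1 / 2) (hL : 0 < L) (D2 : ℕ) (N : ℝ)
    (hN : N * p = y) (hy : y ≤ L / 3) (hpL : 2 * y * p + 2 * p ≤ 1 / 10)
    (h1 : (D2 : ℝ) ≤ (1 + 1 / L) * N + 1) (hy0 : 0 ≤ y) (hL1 : 10 ≤ L) :
    Real.exp (-y) / 2 ≤ (1 - p) ^ D2 := by
  have h2 := pow_le_pow_left₀ (Real.exp_pos _).le (one_sub_sharp p hp0 hp) D2
  rw [← Real.exp_nat_mul] at h2
  refine le_trans ?_ h2
  have h3 : (D2 : ℝ) * -(p + p ^ 2) ≥ -(y + 1 / 2) := by
    have h4 : (D2 : ℝ) * (p + p ^ 2) ≤ ((1 + 1 / L) * N + 1) * (p + p ^ 2) :=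
      mul_le_mul_of_nonneg_right h1 (by positivity)
    have h5 : ((1 + 1 / L) * N + 1) * (p + p ^ 2) =
        y + y / L + (y + y / L) * p + p + p ^ 2 := by
      rw [← hN]; ring
    have h6 : y / L ≤ 1 / 3 := by
      rw [div_le_iff₀ hL]; linarith
    have h7 : p ^ 2 ≤ p := by nlinarith
    have h8 : (y + y / L) * p ≤ 2 * y * p := by
      apply mul_le_mul_of_nonneg_right _ hp0
      have : y / L ≤ y := div_le_self hy0 (by linarith)
      linarith
    linarith
  have h4 : Real.exp (-y) / 2 ≤ Real.exp (-(y + 1 / 2)) := by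
    have h5 : Real.exp (-(y + 1 / 2)) = Real.exp (-y) * Real.exp (-(1 / 2)) := by
      rw [← Real.exp_add]; congr 1; ring
    rw [h5, div_eq_mul_one_div]
    apply mul_le_mul_of_nonneg_left _ (Real.exp_pos _).le
    rw [Real.exp_neg, ← one_div]
    apply one_div_le_one_div_of_le (Real.exp_pos _)
    have h6 : Real.exp (1 / 2) ^ 2 ≤ 2 ^ 2 := by
      rw [← Real.exp_nat_mul]
      have := Real.exp_one_lt_d9
      norm_num
      linarith
    exact le_of_pow_le_pow_left₀ two_ne_zero (by norm_num) h6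
  exact h4.trans (Real.exp_le_exp.mpr h3)

lemma exp18 : Real.exp 18 ≤ 10 ^ 8 := by
  have h3 : Real.exp 18 = Real.exp 1 ^ 18 := by rw [← Real.exp_nat_mul]; norm_num
  rw [h3]
  have h4 : Real.exp 1 ^ 18 ≤ 2.7182818286 ^ 18 :=
    pow_le_pow_left₀ (Real.exp_pos 1).le Real.exp_one_lt_d9.le 18
  refine h4.trans (by norm_num)

lemma exp35 : Real.exp 35 ≤ 10 ^ 16 := by
  have h3 : Real.exp 35 = Real.exp 1 ^ 35 := by rw [← Real.exp_nat_mul]; norm_num
  rw [h3]
  have h4 : Real.exp 1 ^ 35 ≤ 2.7182818286 ^ 35 :=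
    pow_le_pow_left₀ (Real.exp_pos 1).le Real.exp_one_lt_d9.le 35
  refine h4.trans (by norm_num)

/-- the lower bound when `log n / 3 - n p ^ 3` is not too small -/
lemma asy_lower3 (n : ℕ) (p Λ L z : ℝ) (hn : 5 ≤ n) (hp : p = Real.exp (-Λ)) (hL : L = Real.log n)
    (b1 : 9000 ≤ L) (b2 : L ≤ Real.exp (L / 1000))
    (h1 : Λ ≤ (1 / 3 + 1 / 300) * L) (h2 : (1 / 3 - 1 / 1000) * L ≤ Λ)
    (hz : z = L / 3 - Real.exp (L - 3 * Λ)) (hzL : 40 * Real.log L ≤ z) :
    gnp n p (fun G => ¬ 1 / 1000 * (Real.exp Λ * z) ≤ (cliqueChromaticNumber G : ℝ)) ≤ 8 / n := by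
  have hn0 : 0 < n := by omega
  have hnr : (0 : ℝ) < n := by exact_mod_cast hn0
  have hnL : (n : ℝ) = Real.exp L := by rw [hL, Real.exp_log hnr]
  have hL0 : 0 < L := by linarith only [b1]
  have hp0 : 0 < p := hp ▸ Real.exp_pos _
  have hpp : p * Real.exp Λ = 1 := by
    rw [hp, ← Real.exp_add, neg_add_cancel, Real.exp_zero]
  set y : ℝ := Real.exp (L - 3 * Λ) with hy
  have hy0 : 0 < y := Real.exp_pos _
  set l : ℝ := Real.log L with hl
  have hl0 : 1 ≤ l := by
    rw [hl, Real.le_log_iff_exp_le hL0]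
    have := Real.exp_one_lt_d9
    linarith only [this, b1]
  have hexpl : Real.exp l = L := by rw [hl, Real.exp_log hL0]
  have hlk : ∀ k : ℕ, Real.exp (k * l) = L ^ k := by
    intro k; rw [Real.exp_nat_mul, hexpl]
  have hl1 : l ≤ L / 1000 := by rw [hl, Real.log_le_iff_le_exp hL0]; exact b2
  have hz0 : 0 < z := by linarith only [hzL, hl0]
  have hzL3 : z ≤ L / 3 := by linarith only [hz, hy0]
  have hyL : y ≤ L / 3 := by linarith only [hz, hz0]
  have hw : L - 3 * Λ ≤ l := by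
    rw [hl, Real.le_log_iff_exp_le hL0]; linarith only [hyL, hL0]
  have hy1 : Real.exp (-(L / 100)) ≤ y := Real.exp_le_exp.mpr (by linarith only [h1])
  -- large powers
  have hpow : ∀ k : ℕ, L ^ k ≤ Real.exp (k * (L / 1000)) := fun k => epow L hL0.le b2 k
  have hL1 : (1 : ℝ) ≤ L := by linarith only [b1]
  -- `x`
  set x : ℝ := Real.exp (-(z / 8)) with hx
  have hx0 : 0 < x := Real.exp_pos _
  have hx5 : x * L ^ 5 ≤ 1 := by
    have e1 : x ≤ Real.exp (-((5 : ℕ) * l)) := by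
      rw [hx]; apply Real.exp_le_exp.mpr; push_cast; linarith only [hzL]
    have e2 : Real.exp (-((5 : ℕ) * l)) * L ^ 5 = 1 := by
      rw [← hlk 5, ← Real.exp_add, neg_add_cancel, Real.exp_zero]
    calc x * L ^ 5 ≤ Real.exp (-((5 : ℕ) * l)) * L ^ 5 :=
          mul_le_mul_of_nonneg_right e1 (by positivity)
      _ = 1 := e2
  have hxL : Real.exp (-(L / 24)) ≤ x := by
    rw [hx]; apply Real.exp_le_exp.mpr; linarith only [hzL3]
  -- `E`
  set E : ℝ := Real.exp (L - Λ - z / 8) with hE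
  have hE0 : 0 < E := Real.exp_pos _
  have hE1 : Real.exp (L / 2) ≤ E := by
    rw [hE]; apply Real.exp_le_exp.mpr; linarith only [h1, hzL3, hL0]
  have hEn : E = n * p * x := by
    rw [hnL, hp, hx, ← Real.exp_add, ← Real.exp_add, hE,
      show L + -Λ + -(z / 8) = L - Λ - z / 8 by ring]
  have hEp : Real.exp (L / 4) ≤ E * p := by
    rw [hE, hp, ← Real.exp_add]; apply Real.exp_le_exp.mpr; linarith only [h1, hzL3, hL0]
  have hEp2 : E * p ^ 2 = y * x := by
    rw [hE, hp, ← Real.exp_nat_mul, ← Real.exp_add, hy, hx, ← Real.exp_add]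
    congr 1
    push_cast
    ring
  have h4pow : 100 * L ^ 4 ≤ Real.exp (L / 4) := by
    have e1 := hpow 5
    have e2 : Real.exp ((5 : ℕ) * (L / 1000)) ≤ Real.exp (L / 4) :=
      Real.exp_le_exp.mpr (by push_cast; linarith only [hL0])
    have e3 : 100 * L ^ 4 ≤ L ^ 5 := by
      have : L ^ 5 = L * L ^ 4 := by ring
      rw [this]
      exact mul_le_mul_of_nonneg_right (by linarith only [b1]) (by positivity)
    linarith only [e1, e2, e3]
  have hL4 : L ≤ L ^ 4 := by
    calc L = L ^ 1 := (pow_one L).symm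
      _ ≤ L ^ 4 := pow_le_pow_right₀ hL1 (by norm_num)
  have hL41 : 1 ≤ L ^ 4 := one_le_pow₀ hL1
  have hE2 : Real.exp (L / 4) ≤ Real.exp (L / 2) :=
    Real.exp_le_exp.mpr (by linarith only [hL0])
  have hpsmall : p ≤ Real.exp (-(L / 4)) := by
    rw [hp]; apply Real.exp_le_exp.mpr; linarith only [h2, hL0]
  have hpsmall2 : p * (100 * L ^ 4) ≤ 1 := by
    have e1 : Real.exp (-(L / 4)) * Real.exp (L / 4) = 1 := by
      rw [← Real.exp_add, neg_add_cancel, Real.exp_zero]
    calc p * (100 * L ^ 4) ≤ Real.exp (-(L / 4)) * Real.exp (L / 4) :=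
          mul_le_mul hpsmall h4pow (by positivity) (Real.exp_pos _).le
      _ = 1 := e1
  have hpL : p * L ≤ 1 / 100 := by
    have : p * L ≤ p * L ^ 4 := mul_le_mul_of_nonneg_left hL4 hp0.le
    linarith only [this, hpsmall2]
  have hp9 : p * 9000 ≤ 1 / 100 := by
    have : p * 9000 ≤ p * L := mul_le_mul_of_nonneg_left b1 hp0.le
    linarith only [this, hpL]
  have hp12 : p ≤ 1 / 2 := by linarith only [hp9, hp0]
  -- `s`
  set s : ℕ := ⌈E⌉₊ with hs
  have s_lo : E ≤ s := Nat.le_ceil _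
  have s_hi : (s : ℝ) ≤ 101 / 100 * E := by
    have := Nat.ceil_lt_add_one hE0.le
    linarith only [this, hE1, hE2, h4pow, hL41]
  have hs0 : (0 : ℝ) < s := lt_of_lt_of_le hE0 s_lo
  have hs100 : 100 ≤ s := by
    have : (100 : ℝ) ≤ s := by linarith only [s_lo, hE1, hE2, h4pow, hL41]
    exact_mod_cast this
  set b : ℕ := 2 * s - s / 100 with hb
  have b_hi : (b : ℝ) ≤ 2 * s := by
    have : b ≤ 2 * s := by omega
    exact_mod_cast this
  have b_lo : 199 / 100 * (s : ℝ) ≤ b := by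
    have : 199 * s ≤ 100 * b := by omega
    have h2 : 199 * (s : ℝ) ≤ 100 * b := by exact_mod_cast this
    linarith only [h2]
  have b_lo1 : (s : ℝ) ≤ b := by linarith only [b_lo, hs0]
  have hb0 : (0 : ℝ) < b := by linarith only [b_lo1, hs0]
  have hb2 : 3 * (s : ℝ) ^ 2 ≤ (b : ℝ) ^ 2 := by
    calc 3 * (s : ℝ) ^ 2 ≤ (199 / 100 * (s : ℝ)) ^ 2 := by
          have := sq_nonneg (s : ℝ)
          have e : (199 / 100 * (s : ℝ)) ^ 2 = 39601 / 10000 * (s : ℝ) ^ 2 := by ring
          rw [e]; linarith only [this]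
      _ ≤ _ := pow_le_pow_left₀ (by positivity) b_lo 2
  have hsp : Real.exp (L / 4) ≤ s * p :=
    hEp.trans (mul_le_mul_of_nonneg_right s_lo hp0.le)
  have hsp1 : 1 ≤ s * p := by linarith only [hsp, h4pow, hL41]
  -- `D`
  set D : ℕ := ⌈100 * (s * p)⌉₊ with hD
  have D_lo : 100 * (s * p) ≤ D := Nat.le_ceil _
  have D_hi : (D : ℝ) ≤ 101 * (s * p) := by
    have := Nat.ceil_lt_add_one (show 0 ≤ 100 * (s * p) by positivity)
    linarith only [this, hsp1]
  have D_lo2 : 100 * L ^ 4 ≤ (D : ℝ) := by linarith only [D_lo, hsp, h4pow, hsp1]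
  have D0 : (0 : ℝ) < D := by linarith only [D_lo2, hL41]
  have hD0 : 0 < D := by exact_mod_cast D0
  have hDp : D * p ≤ 103 * (y * x) := by
    calc D * p ≤ 101 * (s * p) * p := mul_le_mul_of_nonneg_right D_hi hp0.le
      _ = 101 * (s * p ^ 2) := by ring
      _ ≤ 101 * (101 / 100 * E * p ^ 2) := by
        apply mul_le_mul_of_nonneg_left _ (by norm_num)
        exact mul_le_mul_of_nonneg_right s_hi (by positivity)
      _ = 101 * (101 / 100) * (y * x) := by rw [← hEp2]; ring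
      _ ≤ 103 * (y * x) := mul_le_mul_of_nonneg_right (by norm_num) (by positivity)
  have hyx : y * x * L ^ 4 ≤ 1 / 3 := by
    calc y * x * L ^ 4 ≤ L / 3 * x * L ^ 4 := by
          apply mul_le_mul_of_nonneg_right _ (by positivity)
          exact mul_le_mul_of_nonneg_right hyL hx0.le
      _ = (x * L ^ 5) / 3 := by ring
      _ ≤ 1 / 3 := by linarith only [hx5]
  have hDpL : D * p * L ^ 4 ≤ 35 := by
    have := mul_le_mul_of_nonneg_right hDp (show 0 ≤ L ^ 4 by positivity)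
    have e : 103 * (y * x) * L ^ 4 = 103 * (y * x * L ^ 4) := by ring
    rw [e] at this
    linarith only [this, hyx]
  have hL4big : (9000 : ℝ) ^ 4 ≤ L ^ 4 := pow_le_pow_left₀ (by norm_num) b1 4
  have hDp0 : 0 ≤ D * p := by positivity
  have hDp18 : D * p ≤ Real.exp (-18) := by
    rw [Real.exp_neg, ← one_div, le_div_iff₀ (Real.exp_pos _)]
    have e1 : D * p * Real.exp 18 ≤ D * p * 10 ^ 8 := mul_le_mul_of_nonneg_left exp18 hDp0
    have e2 : D * p * (9000 : ℝ) ^ 4 ≤ D * p * L ^ 4 := mul_le_mul_of_nonneg_left hL4big hDp0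
    have e3 : D * p * (9000 : ℝ) ^ 4 ≤ 35 := e2.trans hDpL
    norm_num at e3
    linarith only [e1, e3, hDp0]
  have hDp1 : D * p ≤ 1 / 1000 := by
    have e2 : D * p * (9000 : ℝ) ^ 4 ≤ D * p * L ^ 4 := mul_le_mul_of_nonneg_left hL4big hDp0
    have e3 : D * p * (9000 : ℝ) ^ 4 ≤ 35 := e2.trans hDpL
    norm_num at e3
    linarith only [e3, hDp0]
  -- `D2`
  have hnp2 : n * p ^ 2 = Real.exp (L - 2 * Λ) := by
    rw [hnL, hp, ← Real.exp_nat_mul, ← Real.exp_add]; congr 1; push_cast; ring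
  have hnp2' : 2 * Real.exp (L / 4) ≤ n * p ^ 2 := by
    rw [hnp2]
    calc 2 * Real.exp (L / 4) ≤ Real.exp (L / 1000) * Real.exp (L / 4) :=
          mul_le_mul_of_nonneg_right (by linarith only [b1, b2]) (Real.exp_pos _).le
      _ = Real.exp (L / 1000 + L / 4) := by rw [Real.exp_add]
      _ ≤ Real.exp (L - 2 * Λ) := Real.exp_le_exp.mpr (by linarith only [h1, hL0])
  have hinvL : 1 / L ≤ 1 / 9000 := one_div_le_one_div_of_le (by norm_num) b1
  have hinvL0 : 0 < 1 / L := by positivity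
  have hnp20 : 0 < n * p ^ 2 := by positivity
  set D2 : ℕ := ⌈(1 + 1 / L) * (n * p ^ 2)⌉₊ with hD2
  have D2_lo : (1 + 1 / L) * (n * p ^ 2) ≤ D2 := Nat.le_ceil _
  have D2_hi : (D2 : ℝ) ≤ (1 + 1 / L) * (n * p ^ 2) + 1 :=
    (Nat.ceil_lt_add_one (by positivity)).le
  have D2_hi2 : (D2 : ℝ) ≤ 2 * (n * p ^ 2) := by
    have e1 : (1 + 1 / L) * (n * p ^ 2) ≤ (1 + 1 / 9000) * (n * p ^ 2) :=
      mul_le_mul_of_nonneg_right (by linarith only [hinvL]) hnp20.le
    linarith only [e1, D2_hi, hnp2', h4pow, hL41]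
  have D2_lo2 : 1 ≤ (D2 : ℝ) := by
    have e1 : 1 * (n * p ^ 2) ≤ (1 + 1 / L) * (n * p ^ 2) :=
      mul_le_mul_of_nonneg_right (by linarith only [hinvL0]) hnp20.le
    linarith only [e1, D2_lo, hnp2', h4pow, hL41]
  -- the power of `1 - p`
  have hnp3 : n * p ^ 2 * p = y := by
    rw [hnp2, hp, ← Real.exp_add, hy]; congr 1; ring
  have hpw : Real.exp (-y) / 2 ≤ (1 - p) ^ D2 := by
    refine one_sub_pow p y L hp0.le hp12 hL0 D2 (n * p ^ 2) hnp3 hyL ?_ D2_hi hy0.le
      (by linarith only [b1])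
    have e1 : y * p ≤ L / 3 * p := mul_le_mul_of_nonneg_right hyL hp0.le
    linarith only [e1, hpL, hp9, hp0]
  have hexpy : 0 < Real.exp (-y) := Real.exp_pos _
  -- `K`
  set K : ℝ := 4 * (D * L) with hK
  have hK0 : 0 < K := by positivity
  have hKlo : 1 ≤ K := by
    have e1 : 1 * 1 ≤ (D : ℝ) * L := by
      apply mul_le_mul _ hL1 (by norm_num) D0.le
      linarith only [D_lo2, hL41]
    linarith only [e1, hK]
  -- `k`
  set k : ℕ := ⌊1 / 1000 * (Real.exp Λ * z)⌋₊ with hk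
  have k_hi : (k : ℝ) ≤ 1 / 1000 * (Real.exp Λ * z) := Nat.floor_le (by positivity)
  have hpk : p * k ≤ z / 1000 := by
    calc p * k ≤ p * (1 / 1000 * (Real.exp Λ * z)) := mul_le_mul_of_nonneg_left k_hi hp0.le
      _ = (p * Real.exp Λ) * (z / 1000) := by ring
      _ = z / 1000 := by rw [hpp, one_mul]
  have k_hi2 : (k : ℝ) ≤ Real.exp (L / 2) := by
    have e1 : Real.exp Λ * z ≤ Real.exp (2 / 5 * L) * Real.exp (L / 10) := by
      apply mul_le_mul _ _ hz0.le (Real.exp_pos _).le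
      · apply Real.exp_le_exp.mpr; linarith only [h1, hL0]
      · have e2 : Real.exp (L / 1000) ≤ Real.exp (L / 10) :=
          Real.exp_le_exp.mpr (by linarith only [hL0])
        linarith only [e2, b2, hzL3, hL0]
    rw [← Real.exp_add] at e1
    have e2 : 2 / 5 * L + L / 10 = L / 2 := by ring
    rw [e2] at e1
    have e3 : 0 ≤ Real.exp Λ * z := by positivity
    linarith only [e1, k_hi, e3]
  -- reduction
  have hred : gnp n p (fun G => ¬ 1 / 1000 * (Real.exp Λ * z) ≤ (cliqueChromaticNumber G : ℝ)) ≤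
      gnp n p (fun G => ¬ k < cliqueChromaticNumber G) := by
    apply gnp_mono hp0.le (by linarith only [hp12])
    intro G h h2
    apply h
    have h3 : ((k + 1 : ℕ) : ℝ) ≤ cliqueChromaticNumber G := by exact_mod_cast h2
    have h4 := Nat.lt_floor_add_one (1 / 1000 * (Real.exp Λ * z))
    push_cast at h3
    linarith only [h3, h4]
  refine hred.trans ?_
  set T : ℕ := ⌈L⌉₊ with hT
  have T_lo : L ≤ T := Nat.le_ceil _
  have T_hi : (T : ℝ) ≤ 101 / 100 * L := by
    have := Nat.ceil_lt_add_one hL0.le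
    linarith only [this, b1]
  have hT0 : 0 < T := by
    have : (0 : ℝ) < T := by linarith only [T_lo, hL0]
    exact_mod_cast this
  set m : ℕ := 8 * (T * (3 * T)) with hm
  have hm0 : 0 < m := by positivity
  have m_hi : (m : ℝ) ≤ 25 * L ^ 2 := by
    rw [hm]; push_cast
    have e1 : (T : ℝ) * T ≤ 101 / 100 * L * (101 / 100 * L) :=
      mul_le_mul T_hi T_hi (by positivity) (by positivity)
    have e2 : (0 : ℝ) ≤ L ^ 2 := by positivity
    have e3 : 101 / 100 * L * (101 / 100 * L) = 10201 / 10000 * L ^ 2 := by ring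
    rw [e3] at e1
    have e4 : 8 * ((T : ℝ) * (3 * T)) = 24 * (T * T) := by ring
    rw [e4]
    linarith only [e1, e2]
  have hexpn : Real.exp (L / 2) * (100 * L ^ 4) ≤ n := by
    rw [hnL]
    calc Real.exp (L / 2) * (100 * L ^ 4) ≤ Real.exp (L / 2) * Real.exp (L / 4) :=
          mul_le_mul_of_nonneg_left h4pow (Real.exp_pos _).le
      _ = Real.exp (L / 2 + L / 4) := by rw [Real.exp_add]
      _ ≤ Real.exp L := Real.exp_le_exp.mpr (by linarith only [hL0])
  have hexp1 : 1 ≤ Real.exp (L / 2) := Real.one_le_exp (by linarith only [hL0])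
  have hs_n : 100 * (s : ℝ) ≤ n := by
    calc 100 * (s : ℝ) ≤ 100 * (101 / 100 * E) := mul_le_mul_of_nonneg_left s_hi (by norm_num)
      _ = 101 * (n * p * x) := by rw [← hEn]; ring
      _ ≤ n := by
        have e1 : p * x ≤ 1 / 9000 * 1 := by
          apply mul_le_mul _ _ hx0.le (by norm_num)
          · linarith only [hp9, hp0]
          · rw [hx]; exact Real.exp_le_one_iff.mpr (by linarith only [hz0])
        have e2 : (n : ℝ) * (p * x) ≤ n * (1 / 9000 * 1) := mul_le_mul_of_nonneg_left e1 hnr.le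
        have e3 : 101 * (n * p * x) = 101 * ((n : ℝ) * (p * x)) := by ring
        rw [e3]
        linarith only [e2, hnr]
  refine lower3_prob hp0.le hp12 (by omega) s b ((s + 7) / 8) D D2 T T m k Λ (1 / L) K hp
    (by linarith only [h2, b1]) hs100 hb rfl ?_ ?_ ?_ hD0 ?_ hT0 hm0 (le_of_eq hm.symm)
    hinvL0.le (by linarith only [hinvL]) hK0 D2_lo ?_ ?_ ?_ ?_ ?_ ?_ ?_ ?_ ?_ ?_ ?_ ?_ ?_ ?_ ?_ ?_
  · -- b ≤ n
    have : (b : ℝ) ≤ n := by linarith only [b_hi, hs_n, hs0]
    exact_mod_cast this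
  · -- 2 k ≤ n
    have : 2 * (k : ℝ) ≤ n := by
      have e1 : Real.exp (L / 2) * 100 ≤ Real.exp (L / 2) * (100 * L ^ 4) :=
        mul_le_mul_of_nonneg_left (by linarith only [hL41]) (Real.exp_pos _).le
      linarith only [k_hi2, hexpn, e1, hexp1]
    exact_mod_cast this
  · -- D ≤ n
    have : (D : ℝ) ≤ n := by
      have e1 : s * p ≤ s * (1 / 2) := mul_le_mul_of_nonneg_left hp12 hs0.le
      linarith only [D_hi, hs_n, e1, hs0]
    exact_mod_cast this
  · -- 50 D2 ≤ s
    have : 50 * (D2 : ℝ) ≤ s := by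
      have e1 : 100 * p ≤ x := by
        have e2 : Real.exp (-(L / 4)) * Real.exp (L / 24) ≤ 1 / 100 := by
          rw [← Real.exp_add]
          have e3 : Real.exp (-(L / 4) + L / 24) = Real.exp (-(5 * L / 24)) := by
            congr 1; ring
          rw [e3, Real.exp_neg, ← one_div]
          apply one_div_le_one_div_of_le (by norm_num)
          have e4 : Real.exp (L / 1000) ≤ Real.exp (5 * L / 24) :=
            Real.exp_le_exp.mpr (by linarith only [hL0])
          linarith only [e4, b1, b2]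
        have e3 : Real.exp (L / 24) * Real.exp (-(L / 24)) = 1 := by
          rw [← Real.exp_add, add_neg_cancel, Real.exp_zero]
        calc 100 * p ≤ 100 * Real.exp (-(L / 4)) := by linarith only [hpsmall]
          _ = 100 * (Real.exp (-(L / 4)) * Real.exp (L / 24)) * Real.exp (-(L / 24)) := by
            rw [mul_assoc, mul_assoc, e3, mul_one]
          _ ≤ 100 * (1 / 100) * Real.exp (-(L / 24)) := by
            apply mul_le_mul_of_nonneg_right _ (Real.exp_pos _).le
            linarith only [e2]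
          _ = Real.exp (-(L / 24)) := by ring
          _ ≤ x := hxL
      calc 50 * (D2 : ℝ) ≤ 50 * (2 * (n * p ^ 2)) := by linarith only [D2_hi2]
        _ = n * p * (100 * p) := by ring
        _ ≤ n * p * x := mul_le_mul_of_nonneg_left e1 (by positivity)
        _ = E := hEn.symm
        _ ≤ s := s_lo
    exact_mod_cast this
  · -- c2
    rw [← hL]
    have e1 : Real.exp (L / 4) ≤ (n - 2) * p ^ 2 := by
      have e2 : p ^ 2 ≤ 1 := by
        calc p ^ 2 ≤ 1 ^ 2 := pow_le_pow_left₀ hp0.le (by linarith only [hp12]) 2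
          _ = 1 := one_pow 2
      have e3 : ((n : ℝ) - 2) * p ^ 2 = n * p ^ 2 - 2 * p ^ 2 := by ring
      rw [e3]
      linarith only [hnp2', e2, h4pow, hL41]
    have e2 : (1 / L) ^ 2 / 8 * (100 * L ^ 4) ≤ (1 / L) ^ 2 / 8 * ((n - 2) * p ^ 2) :=
      mul_le_mul_of_nonneg_left (h4pow.trans e1) (by positivity)
    refine le_trans ?_ e2
    have e3 : (1 / L) ^ 2 / 8 * (100 * L ^ 4) = 100 / 8 * (L * L) := by
      field_simp
    rw [e3]
    have e4 : 1 * L ≤ L * L := mul_le_mul_of_nonneg_right hL1 hL0.le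
    linarith only [e4, hL0]
  · -- c3
    have e1 : Real.exp 2 ≤ 8 := by
      have e2 : Real.exp 2 = Real.exp 1 * Real.exp 1 := by rw [← Real.exp_add]; norm_num
      rw [e2]
      have e3 := Real.exp_one_lt_d9
      have e4 := Real.exp_pos 1
      nlinarith only [e3, e4]
    have e2 : 1 / 8 ≤ Real.exp (-2) := by
      rw [Real.exp_neg, ← one_div]
      exact one_div_le_one_div_of_le (Real.exp_pos _) e1
    calc 11 * (s * p) ≤ 100 * (s * p) * (1 / 8) := by
          have : 0 ≤ s * p := by positivity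
          linarith only [this]
      _ ≤ D * (1 / 8) := mul_le_mul_of_nonneg_right D_lo (by norm_num)
      _ ≤ D * Real.exp (-2) := mul_le_mul_of_nonneg_left e2 D0.le
  · -- c4
    rw [← hL]
    have e1 : 9000 * L ≤ L ^ 4 := by
      calc 9000 * L ≤ L * L := mul_le_mul_of_nonneg_right b1 hL0.le
        _ = L ^ 2 := by ring
        _ ≤ L ^ 4 := pow_le_pow_right₀ hL1 (by norm_num)
    linarith only [e1, D_lo2, hL0]
  · -- c5
    calc 49 * (b * p) ≤ 49 * (2 * s * p) := by
          apply mul_le_mul_of_nonneg_left _ (by norm_num)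
          exact mul_le_mul_of_nonneg_right b_hi hp0.le
      _ ≤ 100 * (s * p) := by
          have : 0 ≤ s * p := by positivity
          linarith only [this]
      _ ≤ D := D_lo
  · -- c7
    rw [← hL]
    have e1 : L - Λ - z / 8 ≤ Real.log b := by
      rw [Real.le_log_iff_exp_le hb0]
      linarith only [s_lo, b_lo1]
    have e2 : 1 + L - Real.log b - 63 / 40 * Λ ≤ -1 := by
      linarith only [e1, h2, hzL3, b1]
    have e3 : b * (1 + L - Real.log b - 63 / 40 * Λ) ≤ b * (-1) :=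
      mul_le_mul_of_nonneg_left e2 hb0.le
    linarith only [e3, b_lo1, s_lo, hE1, hE2, h4pow, hL4, hL1]
  · -- c8
    rw [← hL]
    have e1 : (s : ℝ) * p ≤ b * p := mul_le_mul_of_nonneg_right b_lo1 hp0.le
    have e2 : 9000 * L ≤ L ^ 4 := by
      calc 9000 * L ≤ L * L := mul_le_mul_of_nonneg_right b1 hL0.le
        _ = L ^ 2 := by ring
        _ ≤ L ^ 4 := pow_le_pow_right₀ hL1 (by norm_num)
    linarith only [e1, e2, hsp, h4pow, hL0]
  · -- c9
    linarith only [hDp1]
  · -- cX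
    calc (1 : ℝ) = 1 * 1 := (one_mul 1).symm
      _ ≤ D2 * K := mul_le_mul D2_lo2 hKlo (by norm_num) (by positivity)
  · -- cμ
    rw [← hL]
    have hΛy : Real.exp ((34 : ℕ) * l) ≤ Real.exp (Λ - y - z / 8) := by
      apply Real.exp_le_exp.mpr
      push_cast
      linarith only [hw, hz, hzL, hl0]
    rw [hlk 34] at hΛy
    have e1 : n * p ^ 2 * L ^ 34 ≤ s * Real.exp (-y) := by
      calc n * p ^ 2 * L ^ 34 ≤ n * p ^ 2 * Real.exp (Λ - y - z / 8) :=
            mul_le_mul_of_nonneg_left hΛy hnp20.le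
        _ = E * Real.exp (-y) := by
          rw [hnp2, hE, ← Real.exp_add, ← Real.exp_add]; congr 1; ring
        _ ≤ s * Real.exp (-y) := mul_le_mul_of_nonneg_right s_lo hexpy.le
    have hKhi : K ≤ 404 * ((s * p) * L) := by
      have e2 := mul_le_mul_of_nonneg_right D_hi hL0.le
      rw [hK]; linarith only [e2]
    have hA : 4 * (D2 * K) ≤ 3232 * ((n * p ^ 2) * ((s * p) * L)) := by
      have e2 : (D2 : ℝ) * K ≤ 2 * (n * p ^ 2) * (404 * ((s * p) * L)) :=
        mul_le_mul D2_hi2 hKhi hK0.le (by positivity)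
      linarith only [e2]
    have hB : 3 / 200 * ((s * p) * (s * Real.exp (-y))) ≤
        1 / 100 * (b : ℝ) ^ 2 * p * (1 - p) ^ D2 := by
      have e2 : 3 * (s : ℝ) ^ 2 * (Real.exp (-y) / 2) ≤ (b : ℝ) ^ 2 * (1 - p) ^ D2 :=
        mul_le_mul hb2 hpw (by positivity) (by positivity)
      have e3 := mul_le_mul_of_nonneg_left e2 (show 0 ≤ 1 / 100 * p by positivity)
      linarith only [e3]
    rw [one_div_mul_eq_div, mul_div_assoc', le_div_iff₀ (by positivity)]
    have e2 : 7 * L * (4 * (D2 * K)) ≤ 7 * L * (3232 * ((n * p ^ 2) * ((s * p) * L))) :=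
      mul_le_mul_of_nonneg_left hA (by positivity)
    have e3 : (s * p) * (n * p ^ 2 * L ^ 34) ≤ (s * p) * (s * Real.exp (-y)) :=
      mul_le_mul_of_nonneg_left e1 (by positivity)
    have e4 : 7 * L * (3232 * ((n * p ^ 2) * ((s * p) * L))) ≤
        9 / 1600 * ((s * p) * (n * p ^ 2 * L ^ 34)) := by
      have e5 : 7 * L * (3232 * ((n * p ^ 2) * ((s * p) * L))) =
        22624 * (((s * p) * (n * p ^ 2)) * L ^ 2) := by ring
      have e6 : (s * p) * (n * p ^ 2 * L ^ 34) = ((s * p) * (n * p ^ 2) * L ^ 2) * L ^ 32 := by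
        ring
      have e7 : (9000 : ℝ) ^ 4 ≤ L ^ 32 :=
        hL4big.trans (pow_le_pow_right₀ hL1 (by norm_num))
      have e8 := mul_le_mul_of_nonneg_left e7
        (show 0 ≤ (s * p) * (n * p ^ 2) * L ^ 2 by positivity)
      rw [e5, e6]
      norm_num at e8
      have e9 : 0 ≤ (s * p) * (n * p ^ 2) * L ^ 2 := by positivity
      linarith only [e8, e9]
    linarith only [e2, e3, e4, hB]
  · -- cm
    rw [← hL]
    have e0 : L ^ 30 ≤ E ^ 2 * p ^ 3 * Real.exp (-y) := by
      rw [← hlk 30, hE, hp, ← Real.exp_nat_mul, ← Real.exp_nat_mul, ← Real.exp_add,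
        ← Real.exp_add]
      apply Real.exp_le_exp.mpr
      push_cast
      have e1 : 2 * (L - Λ - z / 8) + 3 * -Λ + -y = 5 / 3 * (L - 3 * Λ) + 3 / 4 * z := by
        rw [hz]; ring
      rw [e1]
      rcases le_or_gt 0 (L - 3 * Λ) with hw0 | hw0
      · linarith only [hw0, hzL]
      · have e2 : y ≤ 1 := by rw [hy]; exact Real.exp_le_one_iff.mpr hw0.le
        linarith only [e2, hz, h1, hl1, b1]
    have e1 : p ^ 2 * (1 / 200 * (b : ℝ) ^ 2 * p * (1 - p) ^ D2 - 4 * m * D) / 4 =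
        1 / 800 * ((b : ℝ) ^ 2 * (1 - p) ^ D2 * p ^ 3) - m * (D * p) * p := by ring
    rw [e1]
    have e2 : 3 * (s : ℝ) ^ 2 * (Real.exp (-y) / 2) ≤ (b : ℝ) ^ 2 * (1 - p) ^ D2 :=
      mul_le_mul hb2 hpw (by positivity) (by positivity)
    have e3 := mul_le_mul_of_nonneg_right e2 (show 0 ≤ p ^ 3 by positivity)
    have e4 : E ^ 2 ≤ (s : ℝ) ^ 2 := pow_le_pow_left₀ hE0.le s_lo 2
    have e5 : E ^ 2 * p ^ 3 * Real.exp (-y) ≤ (s : ℝ) ^ 2 * p ^ 3 * Real.exp (-y) := by
      apply mul_le_mul_of_nonneg_right _ hexpy.le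
      exact mul_le_mul_of_nonneg_right e4 (by positivity)
    have e6 : m * (D * p) * p ≤ m * 1 * 1 := by
      apply mul_le_mul _ (by linarith only [hp12]) hp0.le (by positivity)
      exact mul_le_mul_of_nonneg_left (by linarith only [hDp1]) (by positivity)
    have e7 : (2 * (m : ℝ) + 7) * L ≤ (50 * L ^ 2 + 7) * L :=
      mul_le_mul_of_nonneg_right (by linarith only [m_hi]) hL0.le
    have e8 : (50 * L ^ 2 + 7) * L = 50 * L ^ 3 + 7 * L := by ring
    have e9 : L ≤ L ^ 3 := by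
      calc L = L ^ 1 := (pow_one L).symm
        _ ≤ L ^ 3 := pow_le_pow_right₀ hL1 (by norm_num)
    have e10 : L ^ 2 ≤ L ^ 3 := pow_le_pow_right₀ hL1 (by norm_num)
    have e11 : 100 * L ^ 3 ≤ 3 / 1600 * L ^ 30 := by
      have e12 : L ^ 30 = L ^ 3 * L ^ 27 := by ring
      have e13 : (9000 : ℝ) ^ 4 ≤ L ^ 27 :=
        hL4big.trans (pow_le_pow_right₀ hL1 (by norm_num))
      have e14 := mul_le_mul_of_nonneg_left e13 (show 0 ≤ L ^ 3 by positivity)
      norm_num at e14
      rw [e12]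
      have e15 : 0 ≤ L ^ 3 := by positivity
      linarith only [e14, e15]
    rw [e8] at e7
    linarith only [e0, e3, e5, e6, e7, e9, e10, e11, m_hi]
  · -- cK1
    have e1 : D * (D * p) ≤ D * (1 / 1000) := mul_le_mul_of_nonneg_left hDp1 D0.le
    have e2 : D * 1 ≤ D * L := mul_le_mul_of_nonneg_left hL1 D0.le
    have e3 : (D : ℝ) ^ 2 * p = D * (D * p) := by ring
    rw [e3, hK]
    linarith only [e1, e2, D0]
  · -- cK2
    rw [← hL]
  · -- c11
    rw [← hL]
    refine (pow_le_pow_left₀ hDp0 hDp18 _).trans ?_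
    rw [← Real.exp_nat_mul]
    apply Real.exp_le_exp.mpr
    push_cast
    linarith only [T_lo]
  · -- c12
    rw [← hL]
    have hKhi : K ≤ 404 * ((s * p) * L) := by
      have e2 := mul_le_mul_of_nonneg_right D_hi hL0.le
      rw [hK]; linarith only [e2]
    have e1 : (2 * (s : ℝ) + b) * K * p ^ 3 ≤ Real.exp (-35) := by
      have e2 : (2 * (s : ℝ) + b) * K ≤ 4 * s * (404 * ((s * p) * L)) :=
        mul_le_mul (by linarith only [b_hi]) hKhi hK0.le (by positivity)
      have e3 := mul_le_mul_of_nonneg_right e2 (show 0 ≤ p ^ 3 by positivity)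
      have e4 : 4 * s * (404 * ((s * p) * L)) * p ^ 3 = 1616 * ((s * p ^ 2) ^ 2 * L) := by ring
      rw [e4] at e3
      have e5 : (s * p ^ 2) ≤ 101 / 100 * (y * x) := by
        rw [← hEp2]
        have := mul_le_mul_of_nonneg_right s_hi (show 0 ≤ p ^ 2 by positivity)
        linarith only [this]
      have e6 : (s * p ^ 2) ^ 2 ≤ (101 / 100 * (y * x)) ^ 2 :=
        pow_le_pow_left₀ (by positivity) e5 2
      have e7 := mul_le_mul_of_nonneg_right e6 hL0.le
      have e8 : (y * x * L ^ 4) ^ 2 ≤ (1 / 3) ^ 2 := pow_le_pow_left₀ (by positivity) hyx 2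
      have e9 : (101 / 100 * (y * x)) ^ 2 * L * L ^ 7 = 10201 / 10000 * (y * x * L ^ 4) ^ 2 := by
        ring
      have e10 : (101 / 100 * (y * x)) ^ 2 * L * L ^ 7 ≤ 1 / 8 := by
        rw [e9]; norm_num at e8; linarith only [e8]
      have e11 : (9000 : ℝ) ^ 5 ≤ L ^ 7 :=
        (pow_le_pow_left₀ (by norm_num) b1 5).trans (pow_le_pow_right₀ hL1 (by norm_num))
      have e12 : (101 / 100 * (y * x)) ^ 2 * L * (9000 : ℝ) ^ 5 ≤
          (101 / 100 * (y * x)) ^ 2 * L * L ^ 7 :=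
        mul_le_mul_of_nonneg_left e11 (by positivity)
      have e13 : (101 / 100 * (y * x)) ^ 2 * L ≤ 1 / (8 * (9000 : ℝ) ^ 5) := by
        rw [le_div_iff₀ (by norm_num)]
        linarith only [e12, e10]
      have e14 : 1 / (10 : ℝ) ^ 16 ≤ Real.exp (-35) := by
        rw [Real.exp_neg, ← one_div]
        exact one_div_le_one_div_of_le (Real.exp_pos _) exp35
      have e15 : 1616 * (1 / (8 * (9000 : ℝ) ^ 5)) ≤ 1 / (10 : ℝ) ^ 16 := by norm_num
      linarith only [e3, e7, e13, e14, e15]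
    refine (pow_le_pow_left₀ (by positivity) e1 _).trans ?_
    rw [← Real.exp_nat_mul]
    apply Real.exp_le_exp.mpr
    linarith only [T_lo]
  · -- c13
    rw [← hL]
    have e1 : Real.exp (L / 2) * (100 * L ^ 4) ≤ n * Real.exp (-(2 * p * k)) := by
      have e2 : Real.exp (L / 2) * Real.exp (L / 4) ≤ n * Real.exp (-(2 * p * k)) := by
        rw [hnL, ← Real.exp_add, ← Real.exp_add]
        apply Real.exp_le_exp.mpr
        linarith only [hpk, hzL3, hL0]
      exact (mul_le_mul_of_nonneg_left h4pow (Real.exp_pos _).le).trans e2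
    have e2 : ((k : ℝ) + 1) * L ≤ (2 * Real.exp (L / 2)) * L ^ 4 := by
      apply mul_le_mul _ hL4 hL0.le (by positivity)
      linarith only [k_hi2, hexp1]
    have e3 : 0 ≤ Real.exp (L / 2) * L ^ 4 := by positivity
    linarith only [e1, e2, e3]
  · -- c14
    have e1 : 6 * (s : ℝ) * k ≤ 606 / 100000 * (n * (x * z)) := by
      calc 6 * (s : ℝ) * k ≤ 6 * (101 / 100 * E) * (1 / 1000 * (Real.exp Λ * z)) := by
            apply mul_le_mul _ k_hi (by positivity) (by positivity)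
            linarith only [s_hi]
        _ = 606 / 100000 * (n * (x * z)) * (p * Real.exp Λ) := by rw [hEn]; ring
        _ = 606 / 100000 * (n * (x * z)) := by rw [hpp, mul_one]
    have e2 : x * z ≤ 25 / 3 * Real.exp (-(2 * p * k)) := by
      have e3 : z ≤ 25 / 3 * Real.exp (3 / 25 * z) := by
        have := Real.add_one_le_exp (3 / 25 * z)
        linarith only [this]
      have e4 : x * z ≤ x * (25 / 3 * Real.exp (3 / 25 * z)) := mul_le_mul_of_nonneg_left e3 hx0.le
      have e5 : x * (25 / 3 * Real.exp (3 / 25 * z)) = 25 / 3 * Real.exp (-(z / 200)) := by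
        have e6 : Real.exp (-(z / 200)) = x * Real.exp (3 / 25 * z) := by
          rw [hx, ← Real.exp_add]; congr 1; ring
        rw [e6]; ring
      rw [e5] at e4
      have e6 : Real.exp (-(z / 200)) ≤ Real.exp (-(2 * p * k)) := by
        apply Real.exp_le_exp.mpr
        linarith only [hpk, hz0]
      linarith only [e4, e6]
    have e3 := mul_le_mul_of_nonneg_left e2 hnr.le
    have e4 : 0 < n * Real.exp (-(2 * p * k)) := by positivity
    linarith only [e1, e3, e4]

end Pool.Agent.H98.CD
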