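import Pool.Agent.H98.CD.L3N
import Pool.Agent.H98.CD.Cov
import Pool.Agent.H98.CC.Fin2

set_option autoImplicit false
set_option linter.unusedSectionVars false

/-!
# Lower bound with triangles: assembly with explicit numerical hypotheses
-/

namespace Pool.Agent.H98.CD

open Finset Pool.Agent.H98.CC
open scoped Classical

section

variable {n : ℕ} {p : ℝ}

/-- the lower bound -/
lemma lower3_prob (hp0 : 0 ≤ p) (hp2 : p ≤ 1 / 2) (hn : 2 ≤ n) (s b s8 D D2 T j m k : ℕ)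
    (Λ η K : ℝ)
    (hΛ : p = Real.exp (-Λ)) (hΛ2 : 200 ≤ Λ) (hs : 100 ≤ s) (hb : b = 2 * s - s / 100)
    (hs8 : s8 = (s + 7) / 8) (hbn : b ≤ n) (hkn : 2 * k ≤ n) (hDn : D ≤ n) (hD0 : 0 < D)
    (hD2s : 50 * D2 ≤ s) (hT : 0 < T) (hm0 : 0 < m) (hm : 8 * (j * (3 * T)) ≤ m)
    (hη0 : 0 ≤ η) (hη1 : η ≤ 1) (hK : 0 < K)
    (c1 : (1 + η) * (n * p ^ 2) ≤ D2) (c2 : 3 * Real.log n ≤ η ^ 2 / 8 * ((n - 2) * p ^ 2))
    (c3 : 11 * (s * p) ≤ D * Real.exp (-2)) (c4 : 404 * Real.log n ≤ 2 * D)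
    (c5 : 49 * (b * p) ≤ D)
    (c7 : 1 + b * (1 + Real.log n - Real.log b - 63 / 40 * Λ) ≤ - Real.log n)
    (c8 : 200 * Real.log n ≤ b * p) (c9 : 3 * (D * p) ≤ 1)
    (cX : 1 ≤ D2 * K)
    (cμ : 7 * Real.log n ≤
      3 / 8 * (1 / (4 * (D2 * K)) * (1 / 100 * (b : ℝ) ^ 2 * p * (1 - p) ^ D2)))
    (cm : (2 * m + 7) * Real.log n ≤
      p ^ 2 * (1 / 200 * (b : ℝ) ^ 2 * p * (1 - p) ^ D2 - 4 * m * D) / 4)
    (cK1 : 15 * ((D : ℝ) ^ 2 * p) ≤ K) (cK2 : 4 * (D * Real.log n) ≤ K)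
    (c11 : (D * p) ^ (2 * T) ≤ Real.exp (-(36 * Real.log n)))
    (c12 : ((2 * s + b) * K * p ^ 3) ^ j ≤ Real.exp (-(35 * Real.log n)))
    (c13 : (k + 1) * Real.log n ≤ 3 / 20 * (n * Real.exp (-(2 * p * k))))
    (c14 : 6 * (s : ℝ) * k < n / 8 * Real.exp (-(2 * p * k))) :
    gnp n p (fun G => ¬ k < cliqueChromaticNumber G) ≤ 8 / n := by
  have hp1 : p ≤ 1 := by linarith only [hp2]
  have hn0 : 0 < n := by omega
  have hb0 : 100 ≤ b := by omega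
  have hb2 : b ≤ 2 * s := by omega
  have e1 := codeg_sharp hp0 hp1 hn D2 η hη0 hη1 c1 c2
  have e2 := few_bound hp0 hp1 hn0 s D (by omega) 2 (by norm_num) c3 c4
  have e3 := cover_gen hp0 hp1 hn0 b D Λ (by linarith only [hΛ2]) hb0 hbn
    (fun d hd1 hd2 => (term3 b D d Λ hΛ hΛ2 hD0 (by omega) c5 hd1 hd2).trans
      (Real.exp_le_exp.mpr (by
        have : 0 ≤ Real.log n := Real.log_nonneg (by exact_mod_cast hn0)
        linarith only [c4, this]))) c7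
  have e4 := edges_bound hp0 hp1 hn0 b D (by omega) c8
  have e5 := mat3_bound hp0 hp1 hn s b D D2 m K hK.le (by omega) (by omega) hb2 hbn c9 cX cμ cm
  have e6 := nobad3_bound hp0 hp1 hn b s s8 D T j K hK.le (by omega) hb2 (by omega) c11 c12
  have e7 := dense_small hp0 hp1 hn0 D hD0 hDn K hK cK1 cK2
  have e8 := unn_lower hp0 hp2 hn0 k hkn c13
  have key : gnp n p (fun G => ¬ k < cliqueChromaticNumber G) ≤ gnp n p (fun G =>
      (¬ ∀ u v : Fin n, u ≠ v → (nb G u (nb G v univ)).card ≤ D2) ∨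
      (¬ ∀ X : Finset (Fin n), X.card = 2 * s →
        (univ.filter (fun w => D ≤ (nb G w X).card)).card ≤ s / 100) ∨
      (¬ ∀ B : Finset (Fin n), B.card = b →
        ∑ w ∈ Bᶜ, (if D ≤ (nb G w B).card ∧ 100 * (nb G w B).card ≤ 52 * b
        then ((nb G w B).card : ℝ) ^ 2 else 0) ≤ 9 / 10 * (b : ℝ) ^ 2) ∨
      (¬ ∀ B : Finset (Fin n), B.card = b →
        8 / 100 * (b : ℝ) ^ 2 ≤ ((unc G B D).card : ℝ) →
        2 / 100 * (b : ℝ) ^ 2 * p ≤ cpair (clean G B D) B) ∨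
      ((∀ u v : Fin n, u ≠ v → (nb G u (nb G v univ)).card ≤ D2) ∧
      (∀ Y : Finset (Fin n), Y.card ≤ D → cpair G.Adj Y ≤ K) ∧
      ¬ ∀ B Z A : Finset (Fin n), B.card = b → Z.card = 2 * s → A.card = s → A ⊆ Z →
      Disjoint Z B → 2 / 100 * (b : ℝ) ^ 2 * p ≤ cpair (clean (off A G) B D) B →
      (∀ x ∈ B, (nb (off A G) x B).card < D) →
      ∃ a ∈ A, HasMatching (opn (off A G) B D Z (nb G a Aᶜ)) (nb G a Aᶜ ∩ B) m) ∨
      ((∀ Y : Finset (Fin n), Y.card ≤ D → cpair G.Adj Y ≤ K) ∧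
      ¬ ∀ B Z S : Finset (Fin n), B.card = b → Z.card = 2 * s → S.card = s8 → S ⊆ Z →
      Disjoint Z B → ∃ a ∈ S, ¬ Bad3 (off S G) B Z S T j D (nb G a Sᶜ)) ∨
      (¬ ∀ Y : Finset (Fin n), Y.card ≤ D → cpair G.Adj Y ≤ K) ∨
      (¬ ∀ Q : Finset (Fin n), Q.card = k →
        n / 8 * Real.exp (-(2 * p * k)) ≤ ((unn G Q).card : ℝ))) := by
    apply gnp_mono hp0 hp1
    intro G h
    by_contra hcon
    simp only [not_or, not_not] at hcon
    obtain ⟨g1, g2, g3, g4, g5, g6, g7, g8⟩ := hcon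
    have g5' : ∀ B Z A : Finset (Fin n), B.card = b → Z.card = 2 * s → A.card = s → A ⊆ Z →
      Disjoint Z B → 2 / 100 * (b : ℝ) ^ 2 * p ≤ cpair (clean (off A G) B D) B →
      (∀ x ∈ B, (nb (off A G) x B).card < D) →
      ∃ a ∈ A, HasMatching (opn (off A G) B D Z (nb G a Aᶜ)) (nb G a Aᶜ ∩ B) m := by
      by_contra h6
      exact g5 ⟨g1, g7, h6⟩
    have g6' : ∀ B Z S : Finset (Fin n), B.card = b → Z.card = 2 * s → S.card = s8 → S ⊆ Z →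
      Disjoint Z B → ∃ a ∈ S, ¬ Bad3 (off S G) B Z S T j D (nb G a Sᶜ) := by
      by_contra h6
      exact g6 ⟨g7, h6⟩
    have hgood : Good3 G p s b s8 D D2 T j m := ⟨g1, g2, g3, g4, g5', g6'⟩
    apply h
    exact lower_det G k s (by omega) _
      (fun C hC => det3 G p s b s8 D D2 T j m hn0 hs hb hD0 hD2s hT hm0 hm
        (by omega) hgood C hC) g8 c14
  refine key.trans ?_
  refine (gnp_or hp0 hp1 _ _).trans ((add_le_add e1 ((gnp_or hp0 hp1 _ _).trans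
    (add_le_add e2 ((gnp_or hp0 hp1 _ _).trans (add_le_add e3 ((gnp_or hp0 hp1 _ _).trans
    (add_le_add e4 ((gnp_or hp0 hp1 _ _).trans (add_le_add e5 ((gnp_or hp0 hp1 _ _).trans
    (add_le_add e6 ((gnp_or hp0 hp1 _ _).trans (add_le_add e7 e8))))))))))))).trans (le_of_eq ?_))
  ring

end

end Pool.Agent.H98.CD
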