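import Pool.Agent.H98.CD.L3P

set_option autoImplicit false
set_option linter.unusedSectionVars false

/-!
# Lower bound with triangles: bad events
-/

namespace Pool.Agent.H98.CD

open Finset Pool.Agent.H98.CC
open scoped Classical

section

variable {n : ℕ} {p : ℝ}

/-- the triangles with an edge in `B` and a third vertex in `Z ∪ B` of small degree -/
noncomputable def Tri3 (H : SimpleGraph (Fin n)) (B Z S : Finset (Fin n)) (D : ℕ) :
    Finset (Fin n × Fin n × Fin n) :=
  (B ×ˢ B ×ˢ ((Z ∪ B) \ S)).filter (fun e => (nb H e.2.2 B).card < D ∧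
    H.Adj e.1 e.2.1 ∧ H.Adj e.2.2 e.1 ∧ H.Adj e.2.2 e.2.1)

lemma Tri3_card (H : SimpleGraph (Fin n)) (B Z S : Finset (Fin n)) (D : ℕ) (K : ℝ)
    (hK : 0 ≤ K) (hdens : ∀ Y : Finset (Fin n), Y.card ≤ D → cpair H.Adj Y ≤ K) :
    ((Tri3 H B Z S D).card : ℝ) ≤ (Z.card + B.card) * K := by
  have h1 : ((Tri3 H B Z S D).card : ℝ) = ∑ w ∈ (Z ∪ B),
      (((Tri3 H B Z S D).filter (fun e => e.2.2 = w)).card : ℝ) := by
    have h2 : (Tri3 H B Z S D).card = ∑ w ∈ (Z ∪ B),
        ((Tri3 H B Z S D).filter (fun e => e.2.2 = w)).card := by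
      apply Finset.card_eq_sum_card_fiberwise
      intro e he
      unfold Tri3 at he
      rw [Finset.mem_coe, Finset.mem_filter, Finset.mem_product, Finset.mem_product,
        Finset.mem_sdiff] at he
      exact Finset.mem_coe.mpr he.1.2.2.1
    rw [h2]
    push_cast
    rfl
  rw [h1]
  have h3 : ∀ w ∈ (Z ∪ B), (((Tri3 H B Z S D).filter (fun e => e.2.2 = w)).card : ℝ) ≤ K := by
    intro w _
    by_cases hw : (nb H w B).card < D
    · refine le_trans ?_ (hdens (nb H w B) hw.le)
      rw [cpair_eq]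
      have h4 : ((Tri3 H B Z S D).filter (fun e => e.2.2 = w)) ⊆
          ((nb H w B ×ˢ nb H w B).filter (fun e => H.Adj e.1 e.2)).image
            (fun e => (e.1, e.2, w)) := by
        intro e he
        unfold Tri3 at he
        rw [Finset.mem_filter, Finset.mem_filter, Finset.mem_product, Finset.mem_product] at he
        obtain ⟨⟨⟨h5, h6, _⟩, _, h7, h8, h9⟩, h10⟩ := he
        rw [Finset.mem_image]
        refine ⟨(e.1, e.2.1), ?_, ?_⟩
        · rw [Finset.mem_filter, Finset.mem_product, mem_nb, mem_nb]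
          rw [h10] at h8 h9
          exact ⟨⟨⟨h5, h8⟩, h6, h9⟩, h7⟩
        · rw [← h10]
      have h5 := (Finset.card_le_card h4).trans Finset.card_image_le
      exact_mod_cast h5
    · have h4 : (Tri3 H B Z S D).filter (fun e => e.2.2 = w) = ∅ := by
        rw [Finset.filter_eq_empty_iff]
        intro e he h
        unfold Tri3 at he
        rw [Finset.mem_filter] at he
        rw [h] at he
        exact hw he.2.1
      rw [h4]
      simpa using hK
  refine (Finset.sum_le_card_nsmul _ _ _ h3).trans ?_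
  rw [nsmul_eq_mul]
  apply mul_le_mul_of_nonneg_right _ hK
  have := Finset.card_union_le Z B
  exact_mod_cast this

/-- disjoint triangles in a random set are unlikely -/
lemma tr3_bound (hp0 : 0 ≤ p) (hp1 : p ≤ 1) (H : SimpleGraph (Fin n)) (B Z S : Finset (Fin n))
    (hBS : B ⊆ Sᶜ) (D j : ℕ) :
    prs Sᶜ p (fun N => Tr3 H B Z N D j) ≤ (((Tri3 H B Z S D).card : ℝ) * p ^ 3) ^ j := by
  have e1 : prs Sᶜ p (fun N => Tr3 H B Z N D j) ≤ prs Sᶜ p (fun N =>
      ∃ M ∈ ((Tri3 H B Z S D).powersetCard j).filter (fun M => ∀ e ∈ M, ∀ e' ∈ M, e ≠ e' →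
        Disjoint ({e.1, e.2.1, e.2.2} : Finset (Fin n)) {e'.1, e'.2.1, e'.2.2}),
        M.biUnion (fun e => ({e.1, e.2.1, e.2.2} : Finset (Fin n))) ⊆ N) := by
    apply prs_mono _ hp0 hp1
    rintro N hN ⟨M, hM, hM1, hM2⟩
    refine ⟨M, ?_, ?_⟩
    · rw [Finset.mem_filter, Finset.mem_powersetCard]
      refine ⟨⟨?_, hM⟩, hM2⟩
      intro e he
      obtain ⟨h1, h2, h3, h4, _, _, h5, h6⟩ := hM1 e he
      unfold Tri3
      rw [Finset.mem_filter, Finset.mem_product, Finset.mem_product, Finset.mem_sdiff]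
      exact ⟨⟨h1, h2, h3, Finset.mem_compl.mp (hN h5)⟩, h4, h6⟩
    · rw [Finset.biUnion_subset]
      intro e he
      obtain ⟨_, _, _, _, h3, h4, h5, _⟩ := hM1 e he
      intro x hx
      simp only [Finset.mem_insert, Finset.mem_singleton] at hx
      rcases hx with rfl | rfl | rfl
      · exact h3
      · exact h4
      · exact h5
  refine e1.trans ((prs_union _ hp0 hp1 _ _).trans ?_)
  have h2 : ∀ M ∈ ((Tri3 H B Z S D).powersetCard j).filter (fun M => ∀ e ∈ M, ∀ e' ∈ M, e ≠ e' →
        Disjoint ({e.1, e.2.1, e.2.2} : Finset (Fin n)) {e'.1, e'.2.1, e'.2.2}),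
      prs Sᶜ p (fun N => M.biUnion (fun e => ({e.1, e.2.1, e.2.2} : Finset (Fin n))) ⊆ N) ≤
        (p ^ 3) ^ j := by
    intro M hM
    rw [Finset.mem_filter, Finset.mem_powersetCard] at hM
    obtain ⟨⟨hM1, hM2⟩, hM3⟩ := hM
    have hsub : M.biUnion (fun e => ({e.1, e.2.1, e.2.2} : Finset (Fin n))) ⊆ Sᶜ := by
      rw [Finset.biUnion_subset]
      intro e he x hx
      have h3 := hM1 he
      unfold Tri3 at h3
      rw [Finset.mem_filter, Finset.mem_product, Finset.mem_product, Finset.mem_sdiff] at h3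
      simp only [Finset.mem_insert, Finset.mem_singleton] at hx
      rcases hx with rfl | rfl | rfl
      · exact hBS h3.1.1
      · exact hBS h3.1.2.1
      · exact Finset.mem_compl.mpr h3.1.2.2.2
    rw [prs_subset _ _ hsub, Finset.card_biUnion hM3]
    have h4 : ∑ e ∈ M, ({e.1, e.2.1, e.2.2} : Finset (Fin n)).card = 3 * j := by
      rw [Finset.sum_congr rfl (g := fun _ => 3), Finset.sum_const, hM2, smul_eq_mul, mul_comm]
      intro e he
      have h3 := hM1 he
      unfold Tri3 at h3
      rw [Finset.mem_filter] at h3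
      exact Finset.card_eq_three.mpr ⟨e.1, e.2.1, e.2.2, h3.2.2.1.ne, h3.2.2.2.1.ne.symm,
        h3.2.2.2.2.ne.symm, rfl⟩
    rw [h4, pow_mul]
  refine (Finset.sum_le_card_nsmul _ _ _ h2).trans ?_
  rw [nsmul_eq_mul, mul_pow]
  apply mul_le_mul_of_nonneg_right _ (by positivity)
  have h3 : (((Tri3 H B Z S D).powersetCard j).filter (fun M => ∀ e ∈ M, ∀ e' ∈ M, e ≠ e' →
        Disjoint ({e.1, e.2.1, e.2.2} : Finset (Fin n)) {e'.1, e'.2.1, e'.2.2})).card ≤
        (Tri3 H B Z S D).card ^ j := by
    refine (Finset.card_filter_le _ _).trans ?_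
    rw [Finset.card_powersetCard]
    exact Nat.choose_le_pow _ _
  exact_mod_cast h3

/-- some vertex of each set of `s8` vertices has no bad event -/
lemma nobad3_bound (hp0 : 0 ≤ p) (hp1 : p ≤ 1) (hn : 2 ≤ n) (b s s8 D T j : ℕ) (K : ℝ)
    (hK : 0 ≤ K) (hs0 : 0 < s8) (hb : b ≤ 2 * s) (hs : s ≤ 8 * s8)
    (h1 : (D * p) ^ (2 * T) ≤ Real.exp (-(36 * Real.log n)))
    (h2 : ((2 * s + b) * K * p ^ 3) ^ j ≤ Real.exp (-(35 * Real.log n))) :
    gnp n p (fun G => (∀ Y : Finset (Fin n), Y.card ≤ D → cpair G.Adj Y ≤ K) ∧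
      ¬ ∀ B Z S : Finset (Fin n), B.card = b → Z.card = 2 * s → S.card = s8 → S ⊆ Z →
      Disjoint Z B → ∃ a ∈ S, ¬ Bad3 (off S G) B Z S T j D (nb G a Sᶜ)) ≤ 1 / n := by
  have hn0 : 0 < n := by omega
  have hL : 0 ≤ Real.log n := Real.log_nonneg (by exact_mod_cast hn0)
  have hnr : (0 : ℝ) < n := by exact_mod_cast hn0
  have hsr : (1 : ℝ) ≤ s8 := by exact_mod_cast hs0
  set Env : SimpleGraph (Fin n) → Prop := fun H =>
    (∀ Y : Finset (Fin n), Y.card ≤ D → cpair H.Adj Y ≤ K) with hEnv
  set F := (((univ : Finset (Fin n)).powersetCard b ×ˢ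
        ((univ : Finset (Fin n)).powersetCard (2 * s) ×ˢ
        (univ : Finset (Fin n)).powersetCard s8))).filter (fun e => Disjoint e.2.2 e.1) with hF
  have e1 : gnp n p (fun G => (∀ Y : Finset (Fin n), Y.card ≤ D →
      cpair G.Adj Y ≤ K) ∧
      ¬ ∀ B Z S : Finset (Fin n), B.card = b → Z.card = 2 * s → S.card = s8 → S ⊆ Z →
      Disjoint Z B → ∃ a ∈ S, ¬ Bad3 (off S G) B Z S T j D (nb G a Sᶜ)) ≤
      gnp n p (fun G => ∃ e ∈ F, ∀ a ∈ e.2.2,
        (fun H _ N => Env H ∧ Bad3 H e.1 e.2.1 e.2.2 T j D N) (off e.2.2 G) a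
          (nb G a e.2.2ᶜ)) := by
    apply gnp_mono hp0 hp1
    rintro G ⟨h3, h⟩
    push Not at h
    obtain ⟨B, Z, S, hB, hZ, hS, hSZ, hd, h5⟩ := h
    refine ⟨(B, Z, S), ?_, ?_⟩
    · rw [hF, Finset.mem_filter, Finset.mem_product, Finset.mem_product, Finset.mem_powersetCard,
        Finset.mem_powersetCard, Finset.mem_powersetCard]
      exact ⟨⟨⟨Finset.subset_univ _, hB⟩, ⟨Finset.subset_univ _, hZ⟩, Finset.subset_univ _, hS⟩,
        hd.mono_left hSZ⟩
    · intro a ha
      refine ⟨?_, h5 a ha⟩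
      intro Y hY
      refine le_trans ?_ (h3 Y hY)
      unfold cpair
      apply Finset.sum_le_sum
      intro x _
      have : (nbr (off S G).Adj Y x).card ≤ (nbr G.Adj Y x).card :=
        Finset.card_le_card (nb_off_sub S G x Y)
      exact_mod_cast this
  refine e1.trans ((gnp_union_le hp0 hp1 _ _ (Real.exp (-(34 * (s8 * Real.log n))))
    (Real.exp ((b + 2 * s + s8) * Real.log n)) (Real.exp_pos _).le ?_ ?_).trans ?_)
  · have h5 : ((F.card : ℕ) : ℝ) ≤ (((((univ : Finset (Fin n)).powersetCard b ×ˢ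
        ((univ : Finset (Fin n)).powersetCard (2 * s) ×ˢ
        (univ : Finset (Fin n)).powersetCard s8))).card : ℕ) : ℝ) := by
      exact_mod_cast Finset.card_filter_le _ _
    refine h5.trans ?_
    rw [Finset.card_product, Finset.card_product]
    push_cast
    refine (mul_le_mul (card_pc _) (mul_le_mul (card_pc _) (card_pc _) (by positivity)
      (by positivity)) (by positivity) (by positivity)).trans ?_
    rw [pow_eq_exp hn0, pow_eq_exp hn0, pow_eq_exp hn0, ← Real.exp_add, ← Real.exp_add]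
    apply Real.exp_le_exp.mpr
    push_cast
    linarith
  · rintro ⟨B, Z, S⟩ he
    rw [hF, Finset.mem_filter, Finset.mem_product, Finset.mem_product, Finset.mem_powersetCard,
        Finset.mem_powersetCard, Finset.mem_powersetCard] at he
    obtain ⟨⟨⟨_, hB⟩, ⟨_, hZ⟩, _, hS⟩, hd⟩ := he
    dsimp only at hB hZ hS hd
    have hBS : B ⊆ Sᶜ := by
      intro x hx
      rw [Finset.mem_compl]
      exact fun hxA => Finset.disjoint_left.mp hd hxA hx
    have h5 : ∀ H : SimpleGraph (Fin n), ∀ a ∈ S,
        prs Sᶜ p (fun N => Env H ∧ Bad3 H B Z S T j D N) ≤ Real.exp (-(34 * Real.log n)) := by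
      intro H a _
      by_cases hc : Env H
      · have e2 : prs Sᶜ p (fun N => Env H ∧ Bad3 H B Z S T j D N) ≤
            prs Sᶜ p (fun N => (∃ w ∈ univ.filter (fun w => w ∉ S ∧ (nb H w B).card < D),
              2 * T ≤ (N ∩ nb H w B).card) ∨ Tr3 H B Z N D j) := by
          apply prs_mono _ hp0 hp1
          rintro N _ ⟨_, h6 | h6⟩
          · left
            obtain ⟨w, hw1, hw2, hw3⟩ := h6
            refine ⟨w, Finset.mem_filter.mpr ⟨Finset.mem_univ _, hw1, hw2⟩, ?_⟩
            rwa [Finset.inter_comm]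
          · right; exact h6
        refine e2.trans ((prs_or_le _ hp0 hp1 _ _).trans ?_)
        have h6 : prs Sᶜ p (fun N => ∃ w ∈ univ.filter (fun w => w ∉ S ∧ (nb H w B).card < D),
              2 * T ≤ (N ∩ nb H w B).card) ≤ Real.exp (-(35 * Real.log n)) := by
          refine (prs_union _ hp0 hp1 _ _).trans ?_
          have h7 : ∀ w ∈ univ.filter (fun w => w ∉ S ∧ (nb H w B).card < D),
              prs Sᶜ p (fun N => 2 * T ≤ (N ∩ nb H w B).card) ≤
                Real.exp (-(36 * Real.log n)) := by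
            intro w hw
            rw [Finset.mem_filter] at hw
            have hsub : nb H w B ⊆ Sᶜ := (Finset.filter_subset _ _).trans hBS
            rw [prs_inter Sᶜ (nb H w B) hsub (fun N => 2 * T ≤ N.card)]
            refine (prs_many hp0 hp1 _ _).trans ?_
            refine le_trans ?_ h1
            rw [mul_pow]
            apply mul_le_mul_of_nonneg_right _ (by positivity)
            have h8 : ((nb H w B).card.choose (2 * T) : ℝ) ≤ (D.choose (2 * T) : ℝ) :=
              cast_choose_le hw.2.2.le _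
            refine h8.trans ?_
            exact_mod_cast Nat.choose_le_pow _ _
          refine (Finset.sum_le_card_nsmul _ _ _ h7).trans ?_
          rw [nsmul_eq_mul]
          have h8 : ((univ.filter (fun w : Fin n => w ∉ S ∧ (nb H w B).card < D)).card : ℝ) ≤
              Real.exp (Real.log n) := by
            rw [Real.exp_log hnr]
            have : (univ.filter (fun w : Fin n => w ∉ S ∧ (nb H w B).card < D)).card ≤ n := by
              refine (Finset.card_le_univ _).trans ?_
              rw [Fintype.card_fin]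
            exact_mod_cast this
          refine (mul_le_mul_of_nonneg_right h8 (Real.exp_pos _).le).trans (le_of_eq ?_)
          rw [← Real.exp_add]
          congr 1
          ring
        have h7 : prs Sᶜ p (fun N => Tr3 H B Z N D j) ≤ Real.exp (-(35 * Real.log n)) := by
          refine (tr3_bound hp0 hp1 H B Z S hBS D j).trans (le_trans ?_ h2)
          apply pow_le_pow_left₀ (by positivity)
          apply mul_le_mul_of_nonneg_right _ (by positivity)
          have h9 := Tri3_card H B Z S D K hK hc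
          rw [hZ, hB] at h9
          push_cast at h9
          exact h9
        have h8 : 2 * Real.exp (-(35 * Real.log n)) ≤ Real.exp (-(34 * Real.log n)) := by
          have h9 : Real.exp (-(34 * Real.log n)) =
              Real.exp (Real.log n) * Real.exp (-(35 * Real.log n)) := by
            rw [← Real.exp_add]; congr 1; ring
          rw [h9, Real.exp_log hnr]
          apply mul_le_mul_of_nonneg_right _ (Real.exp_pos _).le
          exact_mod_cast hn
        linarith
      · have e2 : prs Sᶜ p (fun N => Env H ∧ Bad3 H B Z S T j D N) = 0 := by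
          rw [show (0 : ℝ) = exs Sᶜ p (fun _ => 0) by rw [exs_const]]
          apply exs_congr
          intro W _
          exact ind_neg (fun h2 => hc h2.1)
        rw [e2]
        exact (Real.exp_pos _).le
    refine (rows_env hp0 hp1 S (fun H _ N => Env H ∧ Bad3 H B Z S T j D N) _ (Real.exp_pos _).le
      h5).trans (le_of_eq ?_)
    rw [hS, ← Real.exp_nat_mul]
    congr 1
    ring
  · rw [inv_eq_exp hn0, ← Real.exp_add]
    apply Real.exp_le_exp.mpr
    have hbsr : (b : ℝ) ≤ 2 * s := by exact_mod_cast hb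
    have hssr : (s : ℝ) ≤ 8 * s8 := by exact_mod_cast hs
    have h5 : (b + 2 * s + s8 : ℝ) * Real.log n ≤ (33 * s8) * Real.log n :=
      mul_le_mul_of_nonneg_right (by linarith) hL
    have h6 : 1 * Real.log n ≤ s8 * Real.log n := mul_le_mul_of_nonneg_right hsr hL
    linarith

end

end Pool.Agent.H98.CD
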