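import Pool.Agent.H98.CD.L3D
import Pool.Agent.H98.CD.Jan
import Pool.Agent.H98.CD.UpP
import Pool.Agent.H98.CC.Prob5

set_option autoImplicit false
set_option linter.unusedSectionVars false

/-!
# Lower bound with triangles: probability estimates
-/

namespace Pool.Agent.H98.CD

open Finset Pool.Agent.H98.CC
open scoped Classical

section

variable {n : ℕ} {p : ℝ}

/-- passing to the complement -/
lemma exs_flip {X : Type*} [DecidableEq X] (U : Finset X) (p : ℝ) (f : Finset X → ℝ) :
    exs U p (fun O => f (U \ O)) = exs U (1 - p) f := by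
  unfold exs
  apply Finset.sum_bij' (fun W _ => U \ W) (fun W _ => U \ W)
  · intro W _
    rw [Finset.mem_powerset]; exact Finset.sdiff_subset
  · intro W _
    rw [Finset.mem_powerset]; exact Finset.sdiff_subset
  · intro W hW
    rw [Finset.mem_powerset] at hW
    exact Finset.sdiff_sdiff_eq_self hW
  · intro W hW
    rw [Finset.mem_powerset] at hW
    exact Finset.sdiff_sdiff_eq_self hW
  · intro W hW
    rw [Finset.mem_powerset] at hW
    have h1 := Finset.card_sdiff_add_card_eq_card hW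
    have h2 : U.card - W.card = (U \ W).card := by omega
    have h3 : U.card - (U \ W).card = W.card := by omega
    rw [h3, h2]
    have h4 : (1 - (1 - p)) = p := by ring
    rw [h4]; ring

/-- codegrees are at most slightly more than expected -/
lemma codeg_sharp (hp0 : 0 ≤ p) (hp1 : p ≤ 1) (hn : 2 ≤ n) (D2 : ℕ) (η : ℝ) (hη0 : 0 ≤ η)
    (hη1 : η ≤ 1) (h1 : (1 + η) * (n * p ^ 2) ≤ D2)
    (h2 : 3 * Real.log n ≤ η ^ 2 / 8 * ((n - 2) * p ^ 2)) :
    gnp n p (fun G => ¬ ∀ u v : Fin n, u ≠ v → (nb G u (nb G v univ)).card ≤ D2) ≤ 1 / n := by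
  have hn0 : 0 < n := by omega
  have hnr : (0 : ℝ) < n := by exact_mod_cast hn0
  have e1 : gnp n p (fun G => ¬ ∀ u v : Fin n, u ≠ v → (nb G u (nb G v univ)).card ≤ D2) ≤
      gnp n p (fun G => ∃ e ∈ (univ : Finset (Fin n)).offDiag,
        (1 + η) * (((univ \ {e.1, e.2} : Finset (Fin n))).card * p ^ ({e.1, e.2} : Finset (Fin n)).card)
          ≤ ((ful G (univ \ {e.1, e.2}) {e.1, e.2}).card : ℝ)) := by
    apply gnp_mono hp0 hp1
    intro G h
    push Not at h
    obtain ⟨u, v, huv, h⟩ := h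
    refine ⟨(u, v), by simp [huv], ?_⟩
    dsimp only
    rw [ful_sdiff, Finset.card_pair huv]
    have h3 : nb G u (nb G v univ) = ful G univ {u, v} := by
      ext w
      rw [mem_nb, mem_nb, mem_ful]
      constructor
      · rintro ⟨⟨h4, h5⟩, h6⟩
        refine ⟨h4, ?_⟩
        intro x hx
        rw [Finset.mem_insert, Finset.mem_singleton] at hx
        rcases hx with rfl | rfl
        · exact h6.symm
        · exact h5.symm
      · rintro ⟨h4, h5⟩
        exact ⟨⟨h4, (h5 v (by simp)).symm⟩, (h5 u (by simp)).symm⟩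
    rw [h3] at h
    have h4 : (D2 : ℝ) ≤ ((ful G univ {u, v}).card : ℝ) := by exact_mod_cast h.le
    refine le_trans ?_ (h1.trans h4)
    apply mul_le_mul_of_nonneg_left _ (by linarith)
    apply mul_le_mul_of_nonneg_right _ (by positivity)
    have h5 : (univ \ {u, v} : Finset (Fin n)).card ≤ n := by
      refine (Finset.card_le_univ _).trans ?_
      rw [Fintype.card_fin]
    exact_mod_cast h5
  refine e1.trans ((gnp_union_le hp0 hp1 _ _ (Real.exp (-(3 * Real.log n))) (n ^ 2)
    (Real.exp_pos _).le ?_ ?_).trans ?_)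
  · rw [Finset.offDiag_card, Finset.card_univ, Fintype.card_fin]
    have : n * n - n ≤ n ^ 2 := by rw [pow_two]; exact Nat.sub_le _ _
    exact_mod_cast this
  · intro e he
    have hne : e.1 ≠ e.2 := (Finset.mem_offDiag.mp he).2.2
    refine (ful_upper hp0 hp1 _ _ Finset.sdiff_disjoint η hη0 hη1).trans ?_
    apply Real.exp_le_exp.mpr
    rw [Finset.card_pair hne]
    have h3 : ((univ \ {e.1, e.2} : Finset (Fin n)).card : ℝ) = n - 2 := by
      rw [Finset.card_sdiff_of_subset (Finset.subset_univ _), Finset.card_univ, Fintype.card_fin,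
        Finset.card_pair hne, Nat.cast_sub hn]
      norm_num
    rw [h3]
    linarith
  · have : (n : ℝ) ^ 2 = Real.exp (2 * Real.log n) := by
      have := pow_eq_exp hn0 2
      exact_mod_cast this
    rw [this, inv_eq_exp hn0, ← Real.exp_add]
    apply Real.exp_le_exp.mpr
    linarith

/-- the probability that one vertex has no large matching of open edges -/
lemma mat3_one (hp0 : 0 ≤ p) (hp1 : p ≤ 1) (hn : 2 ≤ n) (H : SimpleGraph (Fin n))
    (A B Z : Finset (Fin n)) (hBA : B ⊆ Aᶜ) (b D C2 m : ℕ) (K : ℝ) (hK : 0 ≤ K)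
    (hB : B.card = b) (hb0 : 0 < b)
    (hbn : b ≤ n) (h3 : 3 * (D * p) ≤ 1)
    (hcl : 2 / 100 * (b : ℝ) ^ 2 * p ≤ cpair (clean H B D) B)
    (hlow : ∀ x ∈ B, (nb H x B).card < D)
    (hcod : ∀ u v : Fin n, u ≠ v → (nb H u (nb H v univ)).card ≤ C2)
    (hdens : ∀ Y : Finset (Fin n), Y.card ≤ D → cpair H.Adj Y ≤ K)
    (hX : 1 ≤ C2 * K)
    (hμ : 7 * Real.log n ≤
      3 / 8 * (1 / (4 * (C2 * K)) * (1 / 100 * (b : ℝ) ^ 2 * p * (1 - p) ^ C2)))
    (hmat : (2 * m + 7) * Real.log n ≤
      p ^ 2 * (1 / 200 * (b : ℝ) ^ 2 * p * (1 - p) ^ C2 - 4 * m * D) / 4) :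
    prs Aᶜ p (fun N => ¬ HasMatching (opn H B D Z N) (N ∩ B) m) ≤
      Real.exp (-(6 * Real.log n)) := by
  have hn0 : 0 < n := by omega
  have hnr : (0 : ℝ) < n := by exact_mod_cast hn0
  have hp' : 0 ≤ 1 - p := by linarith
  have hp'' : 1 - p ≤ 1 := by linarith
  set L := Real.log n with hL
  set U := Aᶜ \ B with hU
  have hUB : U ∪ B = Aᶜ := Finset.sdiff_union_of_subset hBA
  have hd : Disjoint U B := Finset.sdiff_disjoint
  have hBne : B.Nonempty := by rw [← Finset.card_pos, hB]; exact hb0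
  set t : ℝ := 1 / 400 * (b : ℝ) ^ 2 * p * (1 - p) ^ C2 with ht
  -- split the neighbourhood
  have e1 : prs Aᶜ p (fun N => ¬ HasMatching (opn H B D Z N) (N ∩ B) m) =
      exs U p (fun O => exs B p (fun N' => ind (¬ HasMatching (opn H B D Z O) N' m))) := by
    rw [← exs_fubini U B hd p (fun O N' => ind (¬ HasMatching (opn H B D Z O) N' m)), hUB]
    apply exs_congr
    intro N hN
    have h4 : opn H B D Z N = opn H B D Z (N ∩ U) := by
      funext x y
      apply propext
      unfold opn
      apply and_congr_right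
      intro _
      constructor
      · intro h w hw; exact h w (Finset.mem_inter.mp hw).1
      · intro h w hw hwZ hwB
        refine h w ?_ hwZ hwB
        rw [Finset.mem_inter, hU, Finset.mem_sdiff]
        exact ⟨hw, hN hw, hwB⟩
    dsimp only
    rw [← h4]
  rw [e1]
  have e2 : exs U p (fun O => exs B p (fun N' => ind (¬ HasMatching (opn H B D Z O) N' m))) ≤
      exs U p (fun O => ind (cpair (opn H B D Z O) B < 2 * t) + Real.exp (-(7 * L))) := by
    apply exs_mono _ hp0 hp1
    intro O _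
    by_cases hc : cpair (opn H B D Z O) B < 2 * t
    · rw [ind_pos hc]
      have h4 : exs B p (fun N' => ind (¬ HasMatching (opn H B D Z O) N' m)) ≤ 1 :=
        prs_le_one B hp0 hp1 _
      have h5 := Real.exp_pos (-(7 * L))
      linarith
    · rw [ind_neg hc, zero_add]
      push Not at hc
      refine (matching_bound (opn H B D Z O) (opn_symm H B D Z O) (opn_irrefl H B D Z O) D
        (by positivity) hp0 hp1 h3 B hBne ?_ m).trans ?_
      · intro y hy
        have h6 : nbr (opn H B D Z O) B y ⊆ nb H y B := by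
          intro z hz
          rw [mem_nbr] at hz
          exact mem_nb.mpr ⟨hz.1, hz.2.1.1⟩
        have h7 := (Finset.card_le_card h6).trans (hlow y hy).le
        exact_mod_cast h7
      · rw [hB]
        have h6 : ((b : ℝ) ^ 2) ^ m ≤ Real.exp (2 * m * L) := by
          have h7 : ((b : ℝ) ^ 2) ^ m ≤ ((n : ℝ) ^ 2) ^ m := by
            apply pow_le_pow_left₀ (by positivity)
            apply pow_le_pow_left₀ (by positivity)
            exact_mod_cast hbn
          refine h7.trans (le_of_eq ?_)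
          rw [← pow_mul, pow_eq_exp hn0, hL]
          congr 1
          push_cast
          ring
        refine (mul_le_mul_of_nonneg_right h6 (Real.exp_pos _).le).trans ?_
        rw [← Real.exp_add]
        apply Real.exp_le_exp.mpr
        have h7 : p ^ 2 * (1 / 200 * (b : ℝ) ^ 2 * p * (1 - p) ^ C2 - 4 * m * D) / 4 ≤
            p ^ 2 * (cpair (opn H B D Z O) B - 4 * m * D) / 4 := by
          apply div_le_div_of_nonneg_right _ (by norm_num)
          apply mul_le_mul_of_nonneg_left _ (by positivity)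
          rw [ht] at hc
          linarith
        linarith
  refine e2.trans ?_
  rw [exs_add, exs_const]
  -- the number of open edges
  set I := (B ×ˢ B).filter (fun e => e.1 < e.2 ∧ clean H B D e.1 e.2) with hI
  set Te : Fin n × Fin n → Finset (Fin n) := fun e =>
    U.filter (fun w => w ∉ Z ∧ H.Adj w e.1 ∧ H.Adj w e.2) with hTe
  have hTU : ∀ e ∈ I, Te e ⊆ U := fun e _ => Finset.filter_subset _ _
  have hIc : 1 / 100 * (b : ℝ) ^ 2 * p ≤ I.card := by
    have h4 : cpair (clean H B D) B ≤ 2 * (I.card : ℝ) := by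
      rw [cpair_eq]
      have h5 : (B ×ˢ B).filter (fun e => clean H B D e.1 e.2) ⊆ I ∪ I.image Prod.swap := by
        intro e he
        rw [Finset.mem_filter, Finset.mem_product] at he
        have hne : e.1 ≠ e.2 := he.2.1.ne
        rcases lt_or_gt_of_ne hne with h | h
        · apply Finset.mem_union_left
          rw [hI, Finset.mem_filter, Finset.mem_product]
          exact ⟨he.1, h, he.2⟩
        · apply Finset.mem_union_right
          rw [Finset.mem_image]
          refine ⟨e.swap, ?_, Prod.swap_swap e⟩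
          rw [hI, Finset.mem_filter, Finset.mem_product]
          exact ⟨⟨he.1.2, he.1.1⟩, h, clean_symm _ _ _ _ _ he.2⟩
      have h6 := (Finset.card_le_card h5).trans (Finset.card_union_le _ _)
      have h7 : (I.image Prod.swap).card ≤ I.card := Finset.card_image_le
      have h8 : ((B ×ˢ B).filter (fun e => clean H B D e.1 e.2)).card ≤ 2 * I.card := by omega
      exact_mod_cast h8
    linarith
  have hTc : ∀ e ∈ I, (Te e).card ≤ C2 := by
    intro e he
    rw [hI, Finset.mem_filter] at he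
    refine le_trans (Finset.card_le_card ?_) (hcod e.1 e.2 he.2.1.ne)
    intro w hw
    rw [hTe, Finset.mem_filter] at hw
    rw [mem_nb, mem_nb]
    exact ⟨⟨Finset.mem_univ _, hw.2.2.2.symm⟩, hw.2.2.1.symm⟩
  have hmu1 : 1 / 100 * (b : ℝ) ^ 2 * p * (1 - p) ^ C2 ≤ mu (1 - p) Te I := by
    unfold mu
    have h4 : ∑ e ∈ I, (1 - p) ^ C2 ≤ ∑ e ∈ I, (1 - p) ^ (Te e).card := by
      apply Finset.sum_le_sum
      intro e he
      exact pow_le_pow_of_le_one hp' hp'' (hTc e he)
    rw [Finset.sum_const, nsmul_eq_mul] at h4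
    exact (mul_le_mul_of_nonneg_right hIc (by positivity)).trans h4
  set X1 : ℝ := C2 * K with hX1
  have hX0 : 0 < X1 := by linarith
  have hdel : del (1 - p) Te I ≤ mu (1 - p) Te I * X1 := by
    unfold del mu
    rw [Finset.sum_mul]
    apply Finset.sum_le_sum
    intro e he
    have h4 : ∑ j ∈ I.filter (fun j => j ≠ e ∧ ¬ Disjoint (Te j) (Te e)),
        (1 - p) ^ (Te j ∪ Te e).card ≤
        ∑ j ∈ I.filter (fun j => j ≠ e ∧ ¬ Disjoint (Te j) (Te e)), (1 - p) ^ (Te e).card := by
      apply Finset.sum_le_sum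
      intro j _
      exact pow_le_pow_of_le_one hp' hp'' (Finset.card_le_card Finset.subset_union_right)
    refine h4.trans ?_
    rw [Finset.sum_const, nsmul_eq_mul, mul_comm]
    apply mul_le_mul_of_nonneg_left _ (by positivity)
    have h5 : I.filter (fun j => j ≠ e ∧ ¬ Disjoint (Te j) (Te e)) ⊆
        (Te e).biUnion (fun w => I.filter (fun j => w ∈ Te j)) := by
      intro j hj
      rw [Finset.mem_filter] at hj
      obtain ⟨hjI, _, hdj⟩ := hj
      rw [Finset.not_disjoint_iff] at hdj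
      obtain ⟨w, hw1, hw2⟩ := hdj
      rw [Finset.mem_biUnion]
      exact ⟨w, hw2, Finset.mem_filter.mpr ⟨hjI, hw1⟩⟩
    have h6 : ∀ w ∈ Te e, ((I.filter (fun j => w ∈ Te j)).card : ℝ) ≤ K := by
      intro w hw
      rw [hTe, Finset.mem_filter, hU, Finset.mem_sdiff] at hw
      rw [hI, Finset.mem_filter] at he
      have hwD : (nb H w B).card < D := by
        by_contra h7
        exact he.2.2.2 w hw.1.2 (by omega) hw.2.2
      refine le_trans ?_ (hdens (nb H w B) hwD.le)
      rw [cpair_eq]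
      have h7 : I.filter (fun j => w ∈ Te j) ⊆
          (nb H w B ×ˢ nb H w B).filter (fun e => H.Adj e.1 e.2) := by
        intro j hj
        rw [Finset.mem_filter, hI, Finset.mem_filter, Finset.mem_product, hTe,
          Finset.mem_filter] at hj
        obtain ⟨⟨⟨h8, h9⟩, _, h10⟩, _, _, h11, h12⟩ := hj
        rw [Finset.mem_filter, Finset.mem_product, mem_nb, mem_nb]
        exact ⟨⟨⟨h8, h11⟩, h9, h12⟩, h10.1⟩
      exact_mod_cast Finset.card_le_card h7
    have h7 := (Finset.card_le_card h5).trans Finset.card_biUnion_le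
    have h8 : ((I.filter (fun j => j ≠ e ∧ ¬ Disjoint (Te j) (Te e))).card : ℝ) ≤
        ∑ w ∈ Te e, ((I.filter (fun j => w ∈ Te j)).card : ℝ) := by exact_mod_cast h7
    refine h8.trans ((Finset.sum_le_card_nsmul _ _ _ h6).trans ?_)
    rw [nsmul_eq_mul, hX1]
    apply mul_le_mul_of_nonneg_right _ (by positivity)
    exact_mod_cast hTc e he
  set q : ℝ := 1 / (4 * X1) with hq
  have hq0 : 0 ≤ q := by positivity
  have hq1 : q ≤ 1 / 2 := by
    rw [hq]
    apply one_div_le_one_div_of_le (by norm_num)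
    linarith
  have hmu0 : 0 ≤ mu (1 - p) Te I := by
    unfold mu; exact Finset.sum_nonneg (fun _ _ => by positivity)
  have hJ := janson_lt U (p := 1 - p) hp' hp'' q hq0 hq1 Te I hTU t (by
    rw [ht]; linarith) (by
    have h4 := mul_le_mul_of_nonneg_left hdel hq0
    have h5 : q * (mu (1 - p) Te I * X1) = mu (1 - p) Te I / 4 := by
      rw [hq]; field_simp
    rw [h5] at h4
    linarith)
  have e3 : exs U p (fun O => ind (cpair (opn H B D Z O) B < 2 * t)) ≤
      prs U (1 - p) (fun W => (xc Te I W : ℝ) ≤ t) := by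
    unfold prs
    rw [← exs_flip U p (fun W => ind ((xc Te I W : ℝ) ≤ t))]
    apply exs_mono _ hp0 hp1
    intro O hO
    apply ind_mono
    intro hc
    have h4 : 2 * (xc Te I (U \ O) : ℝ) ≤ cpair (opn H B D Z O) B := by
      rw [cpair_eq]
      set I' := I.filter (fun i => Te i ⊆ U \ O) with hI'
      have h5 : I' ∪ I'.image Prod.swap ⊆ (B ×ˢ B).filter (fun e => opn H B D Z O e.1 e.2) := by
        have h6 : ∀ e ∈ I', e.1 ∈ B ∧ e.2 ∈ B ∧ opn H B D Z O e.1 e.2 := by
          intro e he
          rw [hI', Finset.mem_filter, hI, Finset.mem_filter, Finset.mem_product] at he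
          obtain ⟨⟨⟨h7, h8⟩, _, h9⟩, h10⟩ := he
          refine ⟨h7, h8, h9, ?_⟩
          intro w hw hwZ _ hw2
          have h11 : w ∈ Te e := by
            rw [hTe, Finset.mem_filter]
            exact ⟨hO hw, hwZ, hw2⟩
          exact (Finset.mem_sdiff.mp (h10 h11)).2 hw
        apply Finset.union_subset
        · intro e he
          obtain ⟨h7, h8, h9⟩ := h6 e he
          exact Finset.mem_filter.mpr ⟨Finset.mem_product.mpr ⟨h7, h8⟩, h9⟩
        · intro e he
          obtain ⟨a, ha, rfl⟩ := Finset.mem_image.mp he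
          obtain ⟨h7, h8, h9⟩ := h6 a ha
          exact Finset.mem_filter.mpr ⟨Finset.mem_product.mpr ⟨h8, h7⟩, opn_symm _ _ _ _ _ _ _ h9⟩
      have h6 : Disjoint I' (I'.image Prod.swap) := by
        rw [Finset.disjoint_left]
        intro e he he2
        obtain ⟨a, ha, rfl⟩ := Finset.mem_image.mp he2
        have h7 : a.swap.1 < a.swap.2 :=
          (Finset.mem_filter.mp (Finset.mem_filter.mp he).1).2.1
        have h8 : a.1 < a.2 := (Finset.mem_filter.mp (Finset.mem_filter.mp ha).1).2.1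
        exact absurd h7 (not_lt.mpr h8.le)
      have h7 := Finset.card_le_card h5
      rw [Finset.card_union_of_disjoint h6,
        Finset.card_image_of_injective _ Prod.swap_injective] at h7
      have h8 : 2 * I'.card ≤ ((B ×ˢ B).filter (fun e => opn H B D Z O e.1 e.2)).card := by omega
      have h9 : xc Te I (U \ O) = I'.card := rfl
      rw [h9]
      exact_mod_cast h8
    linarith
  have e4 : Real.exp (-(3 / 8 * (q * mu (1 - p) Te I))) ≤ Real.exp (-(7 * L)) := by
    apply Real.exp_le_exp.mpr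
    have h4 := mul_le_mul_of_nonneg_left hmu1 hq0
    have h5 : 3 / 8 * (1 / (4 * (C2 * K)) *
        (1 / 100 * (b : ℝ) ^ 2 * p * (1 - p) ^ C2)) =
        3 / 8 * (q * (1 / 100 * (b : ℝ) ^ 2 * p * (1 - p) ^ C2)) := by rw [hq, hX1]
    rw [h5] at hμ
    linarith
  have e5 : 2 * Real.exp (-(7 * L)) ≤ Real.exp (-(6 * L)) := by
    have h4 : Real.exp (-(6 * L)) = Real.exp L * Real.exp (-(7 * L)) := by
      rw [← Real.exp_add]; congr 1; ring
    rw [h4, hL, Real.exp_log hnr]
    apply mul_le_mul_of_nonneg_right _ (Real.exp_pos _).le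
    exact_mod_cast hn
  linarith [e3.trans (hJ.trans e4)]

/-- some vertex of each set has a large matching of open edges -/
lemma mat3_bound (hp0 : 0 ≤ p) (hp1 : p ≤ 1) (hn : 2 ≤ n) (s b D C2 m : ℕ) (K : ℝ) (hK : 0 ≤ K)
    (hs : 0 < s) (hb0 : 0 < b) (hb : b ≤ 2 * s) (hbn : b ≤ n) (h3 : 3 * (D * p) ≤ 1)
    (hX : 1 ≤ C2 * K)
    (hμ : 7 * Real.log n ≤
      3 / 8 * (1 / (4 * (C2 * K)) * (1 / 100 * (b : ℝ) ^ 2 * p * (1 - p) ^ C2)))
    (hmat : (2 * m + 7) * Real.log n ≤
      p ^ 2 * (1 / 200 * (b : ℝ) ^ 2 * p * (1 - p) ^ C2 - 4 * m * D) / 4) :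
    gnp n p (fun G => (∀ u v : Fin n, u ≠ v → (nb G u (nb G v univ)).card ≤ C2) ∧
      (∀ Y : Finset (Fin n), Y.card ≤ D → cpair G.Adj Y ≤ K) ∧
      ¬ ∀ B Z A : Finset (Fin n), B.card = b → Z.card = 2 * s → A.card = s → A ⊆ Z →
      Disjoint Z B → 2 / 100 * (b : ℝ) ^ 2 * p ≤ cpair (clean (off A G) B D) B →
      (∀ x ∈ B, (nb (off A G) x B).card < D) →
      ∃ a ∈ A, HasMatching (opn (off A G) B D Z (nb G a Aᶜ)) (nb G a Aᶜ ∩ B) m) ≤ 1 / n := by
  have hn0 : 0 < n := by omega
  have hL : 0 ≤ Real.log n := Real.log_nonneg (by exact_mod_cast hn0)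
  have hnr : (0 : ℝ) < n := by exact_mod_cast hn0
  have hsr : (1 : ℝ) ≤ s := by exact_mod_cast hs
  set Env : Finset (Fin n) → SimpleGraph (Fin n) → Prop := fun B H =>
    (∀ u v : Fin n, u ≠ v → (nb H u (nb H v univ)).card ≤ C2) ∧
      (∀ Y : Finset (Fin n), Y.card ≤ D → cpair H.Adj Y ≤ K) ∧
      (2 / 100 * (b : ℝ) ^ 2 * p ≤ cpair (clean H B D) B ∧
      ∀ x ∈ B, (nb H x B).card < D) with hEnv
  set Bad : Finset (Fin n) → Finset (Fin n) → SimpleGraph (Fin n) → Fin n → Finset (Fin n) → Prop :=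
    fun B Z H _ N => Env B H ∧ ¬ HasMatching (opn H B D Z N) (N ∩ B) m with hBad
  set F := (((univ : Finset (Fin n)).powersetCard b ×ˢ
        ((univ : Finset (Fin n)).powersetCard (2 * s) ×ˢ
        (univ : Finset (Fin n)).powersetCard s))).filter (fun e => Disjoint e.2.2 e.1) with hF
  have e1 : gnp n p (fun G => (∀ u v : Fin n, u ≠ v → (nb G u (nb G v univ)).card ≤ C2) ∧
      (∀ Y : Finset (Fin n), Y.card ≤ D → cpair G.Adj Y ≤ K) ∧
      ¬ ∀ B Z A : Finset (Fin n), B.card = b → Z.card = 2 * s → A.card = s → A ⊆ Z →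
      Disjoint Z B → 2 / 100 * (b : ℝ) ^ 2 * p ≤ cpair (clean (off A G) B D) B →
      (∀ x ∈ B, (nb (off A G) x B).card < D) →
      ∃ a ∈ A, HasMatching (opn (off A G) B D Z (nb G a Aᶜ)) (nb G a Aᶜ ∩ B) m) ≤
      gnp n p (fun G => ∃ e ∈ F, ∀ a ∈ e.2.2, Bad e.1 e.2.1 (off e.2.2 G) a (nb G a e.2.2ᶜ)) := by
    apply gnp_mono hp0 hp1
    rintro G ⟨g1, g2, h⟩
    push Not at h
    obtain ⟨B, Z, A, hB, hZ, hA, hAZ, hd, h5, h6, h7⟩ := h
    refine ⟨(B, Z, A), ?_, ?_⟩
    · rw [hF, Finset.mem_filter, Finset.mem_product, Finset.mem_product, Finset.mem_powersetCard,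
        Finset.mem_powersetCard, Finset.mem_powersetCard]
      exact ⟨⟨⟨Finset.subset_univ _, hB⟩, ⟨Finset.subset_univ _, hZ⟩, Finset.subset_univ _, hA⟩,
        hd.mono_left hAZ⟩
    · intro a ha
      refine ⟨⟨?_, ?_, h5, h6⟩, h7 a ha⟩
      · intro u v huv
        refine le_trans (Finset.card_le_card ?_) (g1 u v huv)
        exact (nb_off_sub A G u _).trans (nb_mono G u (nb_off_sub A G v _))
      · intro Y hY
        refine le_trans ?_ (g2 Y hY)
        unfold cpair
        apply Finset.sum_le_sum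
        intro x _
        have : (nbr (off A G).Adj Y x).card ≤ (nbr G.Adj Y x).card :=
          Finset.card_le_card (nb_off_sub A G x Y)
        exact_mod_cast this
  refine e1.trans ((gnp_union_le hp0 hp1 _ _ (Real.exp (-(6 * (s * Real.log n))))
    (Real.exp ((b + 3 * s) * Real.log n)) (Real.exp_pos _).le ?_ ?_).trans ?_)
  · have h5 : ((F.card : ℕ) : ℝ) ≤ (((((univ : Finset (Fin n)).powersetCard b ×ˢ
        ((univ : Finset (Fin n)).powersetCard (2 * s) ×ˢ
        (univ : Finset (Fin n)).powersetCard s))).card : ℕ) : ℝ) := by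
      exact_mod_cast Finset.card_filter_le _ _
    refine h5.trans ?_
    rw [Finset.card_product, Finset.card_product]
    push_cast
    refine (mul_le_mul (card_pc _) (mul_le_mul (card_pc _) (card_pc _) (by positivity)
      (by positivity)) (by positivity) (by positivity)).trans ?_
    rw [pow_eq_exp hn0, pow_eq_exp hn0, pow_eq_exp hn0, ← Real.exp_add, ← Real.exp_add]
    apply Real.exp_le_exp.mpr
    push_cast
    linarith
  · rintro ⟨B, Z, A⟩ he
    rw [hF, Finset.mem_filter, Finset.mem_product, Finset.mem_product, Finset.mem_powersetCard,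
        Finset.mem_powersetCard, Finset.mem_powersetCard] at he
    obtain ⟨⟨⟨_, hB⟩, ⟨_, _⟩, _, hA⟩, hd⟩ := he
    dsimp only at hB hA hd
    have hBA : B ⊆ Aᶜ := by
      intro x hx
      rw [Finset.mem_compl]
      exact fun hxA => Finset.disjoint_left.mp hd hxA hx
    have h5 : ∀ H : SimpleGraph (Fin n), ∀ a ∈ A, prs Aᶜ p (Bad B Z H a) ≤
        Real.exp (-(6 * Real.log n)) := by
      intro H a _
      by_cases hc : Env B H
      · have e2 : prs Aᶜ p (Bad B Z H a) =
            prs Aᶜ p (fun N => ¬ HasMatching (opn H B D Z N) (N ∩ B) m) := by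
          apply prs_congr
          intro W _
          exact ⟨fun h => h.2, fun h => ⟨hc, h⟩⟩
        rw [e2]
        exact mat3_one hp0 hp1 hn H A B Z hBA b D C2 m K hK hB hb0 hbn h3 hc.2.2.1 hc.2.2.2 hc.1 hc.2.1
          hX hμ hmat
      · have e2 : prs Aᶜ p (Bad B Z H a) = 0 := by
          rw [show (0 : ℝ) = exs Aᶜ p (fun _ => 0) by rw [exs_const]]
          apply exs_congr
          intro W _
          exact ind_neg (fun h2 => hc h2.1)
        rw [e2]
        exact (Real.exp_pos _).le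
    refine (rows_env hp0 hp1 A (Bad B Z) _ (Real.exp_pos _).le h5).trans (le_of_eq ?_)
    rw [hA, ← Real.exp_nat_mul]
    congr 1
    ring
  · rw [inv_eq_exp hn0, ← Real.exp_add]
    apply Real.exp_le_exp.mpr
    have hbsr : (b : ℝ) ≤ 2 * s := by exact_mod_cast hb
    have h5 : (b : ℝ) * Real.log n ≤ 2 * s * Real.log n := mul_le_mul_of_nonneg_right hbsr hL
    have h6 : Real.log n ≤ s * Real.log n := by nlinarith
    nlinarith

end

end Pool.Agent.H98.CD
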