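import Pool.Agent.H98.CD.L3A
import Pool.Agent.H98.CD.K4A

set_option autoImplicit false
set_option linter.unusedSectionVars false

/-!
# The lower bound near `n^{-1/3}`
-/

namespace Pool.Agent.H98.CD

open Finset Pool.Agent.H98.CC
open scoped Classical

/-- the lower bound -/
lemma asy_low2 (n : ℕ) (p Λ L : ℝ) (hn : 5 ≤ n) (hp : p = Real.exp (-Λ)) (hL : L = Real.log n)
    (b1 : 10 ^ 24 ≤ L) (b2 : L ≤ Real.exp (L / 1000))
    (h1 : Λ ≤ (1 / 3 + 1 / 300) * L) (h2 : (1 / 3 - 1 / 1000) * L ≤ Λ) :
    gnp n p (fun G => ¬ 1 / 41000 * ff2 n p ≤ (cliqueChromaticNumber G : ℝ)) ≤ 9 / n := by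
  have b1' : (9000 : ℝ) ≤ L := le_trans (by norm_num) b1
  obtain ⟨y0, y1, y2, y3, y4⟩ := yfacts L Λ (le_trans (by norm_num) b1) b2 h1 h2
  have hn0 : 0 < n := by omega
  have hnr : (0 : ℝ) < n := by exact_mod_cast hn0
  have hnL : (n : ℝ) = Real.exp L := by rw [hL, Real.exp_log hnr]
  have hL0 : 0 < L := by linarith only [b1']
  have hp0 : 0 < p := hp ▸ Real.exp_pos _
  have hp1 : p ≤ 1 := by rw [hp]; exact Real.exp_le_one_iff.mpr (by linarith only [h2, hL0])
  set y : ℝ := Real.exp (L - 3 * Λ) with hy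
  have hnp3 : n * p ^ 3 = y := by
    rw [hnL, hp, ← Real.exp_nat_mul, ← Real.exp_add, hy]; congr 1; push_cast; ring
  have hff : ff2 n p = Real.exp Λ * (max (L / 3 - y) 0 + Real.log (L + y)) := by
    unfold ff2
    rw [← hL, hnp3, hp, Real.exp_neg, one_div, inv_inv]
  have hlL : Real.log L ≤ L / 1000 := by rw [Real.log_le_iff_le_exp hL0]; exact b2
  have hlL1 : 1 ≤ Real.log L := by
    rw [Real.le_log_iff_exp_le hL0]
    have := Real.exp_one_lt_d9
    linarith only [this, b1']
  have hexpΛ := Real.exp_pos Λ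
  rcases le_or_gt (40 * Real.log L) (L / 3 - y) with hcase | hcase
  · have h3 := asy_lower3 n p Λ L (L / 3 - y) hn hp hL b1' b2 h1 h2 rfl hcase
    have hz0 : 0 ≤ L / 3 - y := by linarith only [hcase, hlL1]
    have hlog : Real.log (L + y) ≤ 2 * Real.log L := by
      have e1 : L + y ≤ L ^ 2 := by
        have e2 : L * 2 ≤ L * L := mul_le_mul_of_nonneg_left (by linarith only [b1']) hL0.le
        have e3 : L ^ 2 = L * L := by ring
        linarith only [e2, e3, hz0, hL0]
      have e2 := Real.log_le_log (show 0 < L + y by linarith only [hL0, y0]) e1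
      rw [Real.log_pow] at e2
      push_cast at e2
      exact e2
    have hle : 1 / 41000 * ff2 n p ≤ 1 / 1000 * (Real.exp Λ * (L / 3 - y)) := by
      rw [hff, max_eq_left hz0]
      have e1 : L / 3 - y + Real.log (L + y) ≤ 2 * (L / 3 - y) := by
        linarith only [hlog, hcase, hlL1]
      have e2 := mul_le_mul_of_nonneg_left e1 hexpΛ.le
      have e3 : 0 ≤ Real.exp Λ * (L / 3 - y) := by positivity
      linarith only [e2, e3]
    refine le_trans (gnp_mono hp0.le hp1 ?_) (h3.trans ?_)
    · intro G h h4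
      exact h (hle.trans h4)
    · apply div_le_div_of_nonneg_right (by norm_num) hnr.le
  · have hy4 : L / 4 ≤ y := by linarith only [hcase, hlL, hL0]
    have h4 := asy_lower4 n p Λ L hn hp hL b1 b2 h1 h2 hy4
    have hle : 1 / 41000 * ff2 n p ≤ 1 / 1000 * (Real.exp Λ * Real.log (L + y)) := by
      rw [hff]
      have e0 : Real.log L ≤ Real.log (L + y) :=
        Real.log_le_log hL0 (by linarith only [y0])
      have e1 : max (L / 3 - y) 0 ≤ 40 * Real.log (L + y) := by
        apply max_le
        · linarith only [hcase, e0]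
        · linarith only [e0, hlL1]
      have e2 : max (L / 3 - y) 0 + Real.log (L + y) ≤ 41 * Real.log (L + y) := by
        linarith only [e1]
      have e3 := mul_le_mul_of_nonneg_left e2 hexpΛ.le
      linarith only [e3]
    refine le_trans (gnp_mono hp0.le hp1 ?_) h4
    intro G h h5
    exact h (hle.trans h5)

end Pool.Agent.H98.CD
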