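import Mathlib

set_option autoImplicit false
set_option linter.unusedSectionVars false

/-!
# Colouring hypergraphs by counting
-/

namespace Pool.Agent.H98.CD

open Finset
open scoped Classical

section

variable {V : Type*} [DecidableEq V] [Fintype V] {k : ℕ}

/-- the colour function is constant on `h` -/
def Mono (f : V → Fin k) (h : Finset V) : Prop := ∀ x ∈ h, ∀ y ∈ h, f x = f y

/-- the proper colourings of `S`, equal to `c0` outside `S` -/
noncomputable def cols (H : Finset (Finset V)) (c0 : Fin k) (S : Finset V) : Finset (V → Fin k) :=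
  univ.filter (fun f => (∀ x, x ∉ S → f x = c0) ∧ ∀ h ∈ H, h ⊆ S → ¬ Mono f h)

lemma mem_cols {H : Finset (Finset V)} {c0 : Fin k} {S : Finset V} {f : V → Fin k} :
    f ∈ cols H c0 S ↔ (∀ x, x ∉ S → f x = c0) ∧ ∀ h ∈ H, h ⊆ S → ¬ Mono f h := by
  simp [cols]

/-- the counting step -/
lemma cols_step (H : Finset (Finset V)) (c0 : Fin k) (β : ℝ) (hβ : 0 < β)
    (hH : ∀ h ∈ H, 2 ≤ h.card)
    (hd : ∀ v, ∑ h ∈ H.filter (fun h => v ∈ h), 1 / β ^ (h.card - 2) ≤ k - β) :
    ∀ m : ℕ, ∀ S : Finset V, S.card = m → ∀ v, v ∉ S →
      β * ((cols H c0 S).card : ℝ) ≤ ((cols H c0 (insert v S)).card : ℝ) := by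
  intro m
  induction m using Nat.strong_induction_on with
  | _ m ih =>
    intro S hS v hv
    -- removing a subset
    have hrem : ∀ t : ℕ, ∀ Z : Finset V, Z ⊆ S → Z.card = t →
        β ^ t * ((cols H c0 (S \ Z)).card : ℝ) ≤ ((cols H c0 S).card : ℝ) := by
      intro t
      induction t with
      | zero =>
        intro Z _ hZ0
        rw [Finset.card_eq_zero] at hZ0
        rw [hZ0, Finset.sdiff_empty, pow_zero, one_mul]
      | succ t iht =>
        intro Z hZ hZt
        have hne : Z.Nonempty := by rw [← Finset.card_pos]; omega
        obtain ⟨z, hz⟩ := hne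
        have h1 := iht (Z.erase z) ((Finset.erase_subset _ _).trans hZ)
          (by rw [Finset.card_erase_of_mem hz]; omega)
        have h2 : S \ Z.erase z = insert z (S \ Z) := by
          ext x
          simp only [Finset.mem_sdiff, Finset.mem_erase, Finset.mem_insert]
          constructor
          · rintro ⟨hx, hx2⟩
            by_cases hxz : x = z
            · exact Or.inl hxz
            · exact Or.inr ⟨hx, fun h => hx2 ⟨hxz, h⟩⟩
          · rintro (rfl | ⟨hx, hx2⟩)
            · exact ⟨hZ hz, fun h => h.1 rfl⟩
            · exact ⟨hx, fun h => hx2 h.2⟩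
        have h3 : (S \ Z).card < m := by
          have := Finset.card_sdiff_add_card_eq_card hZ
          omega
        have h4 := ih _ h3 (S \ Z) rfl z (by
          rw [Finset.mem_sdiff]; exact fun h => h.2 hz)
        rw [h2] at h1
        have h5 := mul_le_mul_of_nonneg_left h4 (show 0 ≤ β ^ t by positivity)
        rw [pow_succ]
        linarith
    -- the extensions
    set P := cols H c0 S with hP
    set E := P ×ˢ (univ : Finset (Fin k)) with hE
    set up : (V → Fin k) × Fin k → (V → Fin k) := fun e => Function.update e.1 v e.2 with hup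
    have hinj : Set.InjOn up (E : Set ((V → Fin k) × Fin k)) := by
      rintro ⟨f, c⟩ he ⟨f', c'⟩ he' h
      rw [Finset.mem_coe, hE, Finset.mem_product] at he he'
      simp only [hup] at h
      have h1 : c = c' := by
        have := congrFun h v
        simpa using this
      have h2 : f = f' := by
        funext x
        by_cases hx : x = v
        · subst hx
          exact ((mem_cols.mp he.1).1 x hv).trans ((mem_cols.mp he'.1).1 x hv).symm
        · have := congrFun h x
          simpa [Function.update_of_ne hx] using this
      rw [h1, h2]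
    set Hv := H.filter (fun h => v ∈ h) with hHv
    set bad : Finset V → Finset ((V → Fin k) × Fin k) := fun h =>
      E.filter (fun e => h ⊆ insert v S ∧ Mono (up e) h) with hbad
    have hcover : E ⊆ (E.filter (fun e => up e ∈ cols H c0 (insert v S))) ∪ Hv.biUnion bad := by
      rintro ⟨f, c⟩ he
      by_cases h1 : up (f, c) ∈ cols H c0 (insert v S)
      · exact Finset.mem_union_left _ (Finset.mem_filter.mpr ⟨he, h1⟩)
      · apply Finset.mem_union_right
        rw [mem_cols] at h1
        have hf := mem_cols.mp (Finset.mem_product.mp he).1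
        have h2 : ∀ x, x ∉ insert v S → up (f, c) x = c0 := by
          intro x hx
          rw [Finset.mem_insert, not_or] at hx
          simp only [hup]
          rw [Function.update_of_ne hx.1]
          exact hf.1 x hx.2
        have h3 : ∃ h ∈ H, h ⊆ insert v S ∧ Mono (up (f, c)) h := by
          by_contra hcon
          push Not at hcon
          exact h1 ⟨h2, hcon⟩
        obtain ⟨h, hh, h4, h5⟩ := h3
        rw [Finset.mem_biUnion]
        have hvh : v ∈ h := by
          by_contra hvh
          have h6 : h ⊆ S := by
            intro x hx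
            rcases Finset.mem_insert.mp (h4 hx) with h7 | h7
            · exact absurd (h7 ▸ hx) hvh
            · exact h7
          apply hf.2 h hh h6
          intro x hx y hy
          have := h5 x hx y hy
          simp only [hup] at this
          rwa [Function.update_of_ne (fun h8 : x = v => hvh (h8 ▸ hx)),
            Function.update_of_ne (fun h8 : y = v => hvh (h8 ▸ hy))] at this
        exact ⟨h, Finset.mem_filter.mpr ⟨hh, hvh⟩, Finset.mem_filter.mpr ⟨he, h4, h5⟩⟩
    have hbadc : ∀ h ∈ Hv, ((bad h).card : ℝ) ≤ (P.card : ℝ) * (1 / β ^ (h.card - 2)) := by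
      intro h hh
      rw [hHv, Finset.mem_filter] at hh
      by_cases hsub : h ⊆ insert v S
      · have h2 := hH h hh.1
        obtain ⟨u, hu⟩ : (h.erase v).Nonempty := by
          rw [← Finset.card_pos, Finset.card_erase_of_mem hh.2]; omega
        have huv : u ≠ v := Finset.ne_of_mem_erase hu
        have huh : u ∈ h := Finset.mem_of_mem_erase hu
        set Z := (h.erase v).erase u with hZ
        have hZc : Z.card = h.card - 2 := by
          rw [hZ, Finset.card_erase_of_mem hu, Finset.card_erase_of_mem hh.2]; omega
        have hZS : Z ⊆ S := by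
          intro x hx
          rw [hZ, Finset.mem_erase, Finset.mem_erase] at hx
          rcases Finset.mem_insert.mp (hsub hx.2.2) with h3 | h3
          · exact absurd h3 hx.2.1
          · exact h3
        have huZ : u ∉ Z := by rw [hZ]; exact Finset.notMem_erase u _
        have h3 : (bad h).card ≤ (cols H c0 (S \ Z)).card := by
          apply Finset.card_le_card_of_injOn
            (fun e : (V → Fin k) × Fin k => fun x => if x ∈ Z then c0 else e.1 x)
          · rintro ⟨f, c⟩ he
            rw [Finset.mem_coe, hbad, Finset.mem_filter, hE, Finset.mem_product] at he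
            obtain ⟨⟨he1, _⟩, _, _⟩ := he
            rw [hP, mem_cols] at he1
            rw [Finset.mem_coe, mem_cols]
            refine ⟨?_, ?_⟩
            · intro x hx
              rw [Finset.mem_sdiff] at hx
              by_cases hxZ : x ∈ Z
              · simp [hxZ]
              · simp only [hxZ, if_false]
                apply he1.1
                intro hxS; exact hx ⟨hxS, hxZ⟩
            · intro e he2 hes hmono
              apply he1.2 e he2 (hes.trans Finset.sdiff_subset)
              intro x hx y hy
              have h4 := hmono x hx y hy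
              have hxZ := (Finset.mem_sdiff.mp (hes hx)).2
              have hyZ := (Finset.mem_sdiff.mp (hes hy)).2
              simpa only [hxZ, hyZ, if_false] using h4
          · rintro ⟨f, c⟩ he ⟨f', c'⟩ he' heq
            rw [Finset.mem_coe, hbad, Finset.mem_filter, hE, Finset.mem_product] at he he'
            obtain ⟨⟨he1, _⟩, _, he2⟩ := he
            obtain ⟨⟨he1', _⟩, _, he2'⟩ := he'
            have h4 : ∀ x, x ∉ Z → f x = f' x := by
              intro x hx
              have := congrFun heq x
              simpa only [hx, if_false] using this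
            have h5 : f u = c := by
              have := he2 u huh v hh.2
              simp only [hup, Function.update_of_ne huv, Function.update_self] at this
              exact this
            have h5' : f' u = c' := by
              have := he2' u huh v hh.2
              simp only [hup, Function.update_of_ne huv, Function.update_self] at this
              exact this
            have h6 : c = c' := by rw [← h5, ← h5', h4 u huZ]
            have h7 : f = f' := by
              funext x
              by_cases hx : x ∈ Z
              · have hx' := hx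
                rw [hZ, Finset.mem_erase, Finset.mem_erase] at hx'
                have h8 := he2 x hx'.2.2 v hh.2
                have h8' := he2' x hx'.2.2 v hh.2
                simp only [hup, Function.update_of_ne hx'.2.1, Function.update_self] at h8 h8'
                rw [h8, h8', h6]
              · exact h4 x hx
            rw [h6, h7]
        have h4 := hrem (h.card - 2) Z hZS hZc
        have h3r : ((bad h).card : ℝ) ≤ ((cols H c0 (S \ Z)).card : ℝ) := by exact_mod_cast h3
        refine h3r.trans ?_
        rw [mul_one_div, le_div_iff₀ (by positivity)]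
        linarith
      · have h3 : bad h = ∅ := by
          rw [hbad]
          apply Finset.filter_false_of_mem
          intro e _ h4
          exact hsub h4.1
        rw [h3, Finset.card_empty, Nat.cast_zero]
        positivity
    have h1 : E.card ≤ (cols H c0 (insert v S)).card + ∑ h ∈ Hv, (bad h).card := by
      refine (Finset.card_le_card hcover).trans ((Finset.card_union_le _ _).trans ?_)
      apply add_le_add _ Finset.card_biUnion_le
      apply Finset.card_le_card_of_injOn up
      · intro e he
        exact (Finset.mem_filter.mp he).2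
      · exact hinj.mono (fun e he => (Finset.mem_filter.mp he).1)
    have h2 : (E.card : ℝ) = P.card * k := by
      rw [hE, Finset.card_product, Finset.card_univ, Fintype.card_fin]
      push_cast; ring
    have h3 : (E.card : ℝ) ≤ ((cols H c0 (insert v S)).card : ℝ) + ∑ h ∈ Hv, ((bad h).card : ℝ) := by
      exact_mod_cast h1
    have h4 : ∑ h ∈ Hv, ((bad h).card : ℝ) ≤ (P.card : ℝ) * (k - β) := by
      refine (Finset.sum_le_sum hbadc).trans ?_
      rw [← Finset.mul_sum]
      exact mul_le_mul_of_nonneg_left (hd v) (by positivity)
    rw [h2] at h3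
    linarith

/-- existence of a colouring without a constant hyperedge -/
theorem exists_coloring (H : Finset (Finset V)) (k : ℕ) (Δ3 Δ4 : ℝ) (hk : 0 < k)
    (hH : ∀ h ∈ H, h.card = 3 ∨ h.card = 4)
    (h3 : ∀ v, ((H.filter (fun h => v ∈ h ∧ h.card = 3)).card : ℝ) ≤ Δ3)
    (h4 : ∀ v, ((H.filter (fun h => v ∈ h ∧ h.card = 4)).card : ℝ) ≤ Δ4)
    (hd : 4 * Δ3 * k + 8 * Δ4 ≤ (k : ℝ) ^ 3) :
    ∃ f : V → Fin k, ∀ h ∈ H, ¬ Mono f h := by
  set c0 : Fin k := ⟨0, hk⟩
  have hkr : (0 : ℝ) < k := by exact_mod_cast hk
  set β : ℝ := k / 2 with hβ
  have hβ0 : 0 < β := by positivity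
  have hdeg : ∀ v, ∑ h ∈ H.filter (fun h => v ∈ h), 1 / β ^ (h.card - 2) ≤ k - β := by
    intro v
    have e1 : H.filter (fun h => v ∈ h) ⊆ H.filter (fun h => v ∈ h ∧ h.card = 3) ∪
        H.filter (fun h => v ∈ h ∧ h.card = 4) := by
      intro h hh
      rw [Finset.mem_filter] at hh
      rcases hH h hh.1 with h5 | h5
      · exact Finset.mem_union_left _ (Finset.mem_filter.mpr ⟨hh.1, hh.2, h5⟩)
      · exact Finset.mem_union_right _ (Finset.mem_filter.mpr ⟨hh.1, hh.2, h5⟩)
    have e2 : ∑ h ∈ H.filter (fun h => v ∈ h), 1 / β ^ (h.card - 2) ≤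
        ∑ h ∈ H.filter (fun h => v ∈ h ∧ h.card = 3) ∪ H.filter (fun h => v ∈ h ∧ h.card = 4),
          1 / β ^ (h.card - 2) :=
      Finset.sum_le_sum_of_subset_of_nonneg e1 (fun _ _ _ => by positivity)
    have e3 : Disjoint (H.filter (fun h => v ∈ h ∧ h.card = 3))
        (H.filter (fun h => v ∈ h ∧ h.card = 4)) := by
      rw [Finset.disjoint_left]
      intro h h5 h6
      have h7 := (Finset.mem_filter.mp h5).2.2
      have h8 := (Finset.mem_filter.mp h6).2.2
      omega
    rw [Finset.sum_union e3] at e2
    have e4 : ∑ h ∈ H.filter (fun h => v ∈ h ∧ h.card = 3), 1 / β ^ (h.card - 2) ≤ Δ3 * (1 / β) := by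
      have : ∀ h ∈ H.filter (fun h => v ∈ h ∧ h.card = 3), 1 / β ^ (h.card - 2) = 1 / β := by
        intro h hh
        rw [(Finset.mem_filter.mp hh).2.2]; norm_num
      rw [Finset.sum_congr rfl this, Finset.sum_const, nsmul_eq_mul]
      exact mul_le_mul_of_nonneg_right (h3 v) (by positivity)
    have e5 : ∑ h ∈ H.filter (fun h => v ∈ h ∧ h.card = 4), 1 / β ^ (h.card - 2) ≤
        Δ4 * (1 / β ^ 2) := by
      have : ∀ h ∈ H.filter (fun h => v ∈ h ∧ h.card = 4), 1 / β ^ (h.card - 2) = 1 / β ^ 2 := by
        intro h hh
        rw [(Finset.mem_filter.mp hh).2.2]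
      rw [Finset.sum_congr rfl this, Finset.sum_const, nsmul_eq_mul]
      exact mul_le_mul_of_nonneg_right (h4 v) (by positivity)
    have e6 : Δ3 * (1 / β) + Δ4 * (1 / β ^ 2) ≤ k - β := by
      have e7 : Δ3 * (1 / β) + Δ4 * (1 / β ^ 2) = (4 * Δ3 * k + 8 * Δ4) / (2 * (k : ℝ) ^ 2) := by
        rw [hβ]; field_simp; ring
      rw [e7, div_le_iff₀ (by positivity), hβ]
      nlinarith
    linarith
  have key : ∀ S : Finset V, 0 < ((cols H c0 S).card : ℝ) := by
    intro S
    induction S using Finset.induction_on with
    | empty =>
      have : (fun _ => c0) ∈ cols H c0 (∅ : Finset V) := by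
        rw [mem_cols]
        refine ⟨fun _ _ => rfl, ?_⟩
        intro h hh hsub
        have h5 : h = ∅ := Finset.subset_empty.mp hsub
        have h6 := hH h hh
        rw [h5, Finset.card_empty] at h6
        omega
      have h5 : 0 < (cols H c0 (∅ : Finset V)).card := Finset.card_pos.mpr ⟨_, this⟩
      exact_mod_cast h5
    | insert v S hv ih =>
      have h5 := cols_step H c0 β hβ0 (fun h hh => by rcases hH h hh with h6 | h6 <;> omega) hdeg
        S.card S rfl v hv
      have h6 : 0 < β * ((cols H c0 S).card : ℝ) := mul_pos hβ0 ih
      linarith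
  have h5 := key univ
  have h6 : 0 < (cols H c0 (univ : Finset V)).card := by exact_mod_cast h5
  obtain ⟨f, hf⟩ := Finset.card_pos.mp h6
  exact ⟨f, fun h hh => (mem_cols.mp hf).2 h hh (Finset.subset_univ _)⟩

end

end Pool.Agent.H98.CD
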