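import Pool.Agent.H98.CD.UpP
import Pool.Agent.H98.CD.Ros
import Pool.Agent.H98.CC.Fin1

set_option autoImplicit false
set_option linter.unusedSectionVars false

/-!
# The upper bound: deterministic part and summary
-/

namespace Pool.Agent.H98.CD

open Finset Pool.Agent.H98.CC
open scoped Classical

section

variable {n : ℕ} {p : ℝ}

/-- a colouring from a colouring of the vertices without a neighbour in `Q` -/
lemma upper_gen (G : SimpleGraph (Fin n)) (Q : Finset (Fin n)) (k : ℕ) (f : Fin n → Fin k)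
    (hf : ∀ S : Finset (Fin n), IsMaxClique G S → 2 ≤ S.card → S ⊆ unn G Q → ¬ Mono f S) :
    cliqueChromaticNumber G ≤ 2 * Q.card + k := by
  have hcard : Fintype.card ((Q ⊕ Q) ⊕ Fin k) = 2 * Q.card + k := by
    rw [Fintype.card_sum, Fintype.card_sum, Fintype.card_coe, Fintype.card_fin]; ring
  rw [← hcard]
  set g : Fin n → (Q ⊕ Q) ⊕ Fin k := fun w =>
    if h : w ∈ Q then Sum.inl (Sum.inl ⟨w, h⟩)
    else if h2 : ∃ x : Q, G.Adj w x then Sum.inl (Sum.inr h2.choose) else Sum.inr (f w) with hg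
  apply chi_le G g
  intro S hS hS2
  by_contra hcon
  push Not at hcon
  have hS' := hS
  obtain ⟨hcl, hmax⟩ := hS
  obtain ⟨u, hu, v, hv, huv⟩ := Finset.one_lt_card.mp (show 1 < S.card by omega)
  have hext : ∀ w, w ∉ S → (∀ x ∈ S, G.Adj w x) → False := by
    intro w hw h
    have h1 : G.IsClique ((insert w S : Finset (Fin n)) : Set (Fin n)) := by
      rw [Finset.coe_insert]
      exact hcl.insert (fun b hb _ => h b hb)
    have h2 := hmax (insert w S) h1 (Finset.subset_insert _ _)
    exact hw (h2 ▸ Finset.mem_insert_self w S)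
  by_cases h1 : u ∈ Q
  · have hgu : g u = Sum.inl (Sum.inl ⟨u, h1⟩) := by rw [hg]; simp [h1]
    have hgv := hcon v hv u hu
    rw [hgu, hg] at hgv
    by_cases h2 : v ∈ Q
    · simp only [h2, dif_pos, Sum.inl.injEq, Subtype.mk.injEq] at hgv
      exact huv hgv.symm
    · by_cases h3 : ∃ x : Q, G.Adj v x
      · simp only [h2, h3, dif_pos, dif_neg, not_false_eq_true, Sum.inl.injEq] at hgv
        exact absurd hgv (by simp)
      · simp only [h2, h3, dif_neg, not_false_eq_true] at hgv
        exact absurd hgv (by simp)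
  · by_cases h3 : ∃ x : Q, G.Adj u x
    · have hgu : g u = Sum.inl (Sum.inr h3.choose) := by
        rw [hg]; simp only [h1, h3, dif_pos, dif_neg, not_false_eq_true]
      have hall : ∀ x ∈ S, x ∉ Q ∧ G.Adj x h3.choose := by
        intro x hx
        have hgx := hcon x hx u hu
        rw [hgu, hg] at hgx
        by_cases h4 : x ∈ Q
        · simp only [h4, dif_pos, Sum.inl.injEq] at hgx
          exact absurd hgx (by simp)
        · by_cases h5 : ∃ y : Q, G.Adj x y
          · simp only [h4, h5, dif_pos, dif_neg, not_false_eq_true, Sum.inl.injEq,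
              Sum.inr.injEq] at hgx
            refine ⟨h4, ?_⟩
            rw [← hgx]
            exact h5.choose_spec
          · simp only [h4, h5, dif_neg, not_false_eq_true] at hgx
            exact absurd hgx (by simp)
      refine hext h3.choose ?_ ?_
      · intro h4
        exact (hall _ h4).1 h3.choose.2
      · intro x hx
        exact (hall x hx).2.symm
    · have hgu : g u = Sum.inr (f u) := by
        rw [hg]; simp only [h1, h3, dif_neg, not_false_eq_true]
      have hall : ∀ x ∈ S, x ∈ unn G Q ∧ f x = f u := by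
        intro x hx
        have hgx := hcon x hx u hu
        rw [hgu, hg] at hgx
        by_cases h4 : x ∈ Q
        · simp only [h4, dif_pos] at hgx
          exact absurd hgx (by simp)
        · by_cases h5 : ∃ y : Q, G.Adj x y
          · simp only [h4, h5, dif_pos, dif_neg, not_false_eq_true] at hgx
            exact absurd hgx (by simp)
          · simp only [h4, h5, dif_neg, not_false_eq_true, Sum.inr.injEq] at hgx
            rw [mem_unn]
            refine ⟨⟨h4, ?_⟩, hgx⟩
            intro y hy hadj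
            exact h5 ⟨⟨y, hy⟩, hadj⟩
      apply hf S hS' hS2 (fun x hx => (hall x hx).1)
      intro x hx y hy
      rw [(hall x hx).2, (hall y hy).2]

/-- the upper bound -/
lemma upper_det2 (G : SimpleGraph (Fin n)) (Q : Finset (Fin n)) (k d1 d2 d3 t3 : ℕ) (hk : 0 < k)
    (hcn : ∀ u v : Fin n, u ≠ v → ∃ w, G.Adj w u ∧ G.Adj w v)
    (hnice : Nice G (unn G Q) (unn G Q ∪ Q)ᶜ d1 d2 d3 t3)
    (hd : 4 * ((d1 : ℝ) * t3) * k + 8 * (d1 * d2 * d3) ≤ (k : ℝ) ^ 3) :
    cliqueChromaticNumber G ≤ 2 * Q.card + k := by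
  set R := unn G Q with hR
  set W := (R ∪ Q)ᶜ with hW
  set H4 : Finset (Finset (Fin n)) :=
    (R.powersetCard 4).filter (fun h : Finset (Fin n) => G.IsClique (h : Set (Fin n))) with hH4
  set H3 : Finset (Finset (Fin n)) :=
    (R.powersetCard 3).filter (fun h : Finset (Fin n) => G.IsClique (h : Set (Fin n)) ∧
    ∀ w ∈ W, ¬ ∀ x ∈ h, G.Adj w x) with hH3
  obtain ⟨a1, a2, a3, a4⟩ := hnice
  have hcard : ∀ h ∈ H3 ∪ H4, h.card = 3 ∨ h.card = 4 := by
    intro h hh
    rcases Finset.mem_union.mp hh with h1 | h1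
    · left; exact (Finset.mem_powersetCard.mp (Finset.mem_filter.mp h1).1).2
    · right; exact (Finset.mem_powersetCard.mp (Finset.mem_filter.mp h1).1).2
  have hdeg3 : ∀ v, (((H3 ∪ H4).filter (fun h => v ∈ h ∧ h.card = 3)).card : ℝ) ≤
      (d1 : ℝ) * t3 := by
    intro v
    by_cases hv : v ∈ R
    · have h1 : (H3 ∪ H4).filter (fun h => v ∈ h ∧ h.card = 3) ⊆
          ((ful G R {v}).sigma (fun x => wb G R W v x)).image (fun e => ({v, e.1, e.2} : Finset _)) := by
        intro h hh
        rw [Finset.mem_filter] at hh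
        obtain ⟨hh, hvh, hc⟩ := hh
        have hh3 : h ∈ H3 := by
          rcases Finset.mem_union.mp hh with h1 | h1
          · exact h1
          · have := (Finset.mem_powersetCard.mp (Finset.mem_filter.mp h1).1).2
            omega
        rw [hH3, Finset.mem_filter, Finset.mem_powersetCard] at hh3
        obtain ⟨⟨hsub, _⟩, hcl, hbad⟩ := hh3
        have hc2 : (h.erase v).card = 2 := by rw [Finset.card_erase_of_mem hvh, hc]
        obtain ⟨x, y, hxy, hxy2⟩ := Finset.card_eq_two.mp hc2
        have hheq : h = {v, x, y} := by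
          rw [← Finset.insert_erase hvh, hxy2]
        have hx : x ∈ h.erase v := by rw [hxy2]; simp
        have hy : y ∈ h.erase v := by rw [hxy2]; simp
        have hxv := Finset.ne_of_mem_erase hx
        have hyv := Finset.ne_of_mem_erase hy
        have hxh := Finset.mem_of_mem_erase hx
        have hyh := Finset.mem_of_mem_erase hy
        rw [Finset.mem_image]
        refine ⟨⟨x, y⟩, ?_, hheq.symm⟩
        rw [Finset.mem_sigma]
        refine ⟨?_, ?_⟩
        · rw [mem_ful]
          refine ⟨hsub hxh, ?_⟩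
          intro z hz
          rw [Finset.mem_singleton] at hz
          rw [hz]
          exact hcl hxh hvh hxv
        · unfold wb
          rw [Finset.mem_filter, mem_ful]
          refine ⟨⟨hsub hyh, ?_⟩, ?_⟩
          · intro z hz
            rw [Finset.mem_insert, Finset.mem_singleton] at hz
            rcases hz with rfl | rfl
            · exact hcl hyh hvh hyv
            · exact hcl hyh hxh hxy.symm
          · rintro w hw ⟨h2, h3, h4⟩
            apply hbad w hw
            rw [hheq]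
            intro z hz
            simp only [Finset.mem_insert, Finset.mem_singleton] at hz
            rcases hz with rfl | rfl | rfl
            · exact h2
            · exact h3
            · exact h4
      have h2 := (Finset.card_le_card h1).trans Finset.card_image_le
      rw [Finset.card_sigma] at h2
      have h3 : ∑ x ∈ ful G R {v}, (wb G R W v x).card ≤ (ful G R {v}).card * t3 := by
        rw [← smul_eq_mul]
        apply Finset.sum_le_card_nsmul
        intro x hx
        have hx' := mem_ful.mp hx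
        exact a4 v hv x hx'.1 (hx'.2 v (by simp)).ne.symm
      have h4 : ((H3 ∪ H4).filter (fun h => v ∈ h ∧ h.card = 3)).card ≤ d1 * t3 :=
        h2.trans (h3.trans (Nat.mul_le_mul_right t3 (a1 v hv)))
      exact_mod_cast h4
    · have h1 : (H3 ∪ H4).filter (fun h => v ∈ h ∧ h.card = 3) = ∅ := by
        apply Finset.filter_false_of_mem
        rintro h hh ⟨hvh, _⟩
        apply hv
        rcases Finset.mem_union.mp hh with h1 | h1
        · exact (Finset.mem_powersetCard.mp (Finset.mem_filter.mp h1).1).1 hvh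
        · exact (Finset.mem_powersetCard.mp (Finset.mem_filter.mp h1).1).1 hvh
      rw [h1, Finset.card_empty, Nat.cast_zero]
      positivity
  have hdeg4 : ∀ v, (((H3 ∪ H4).filter (fun h => v ∈ h ∧ h.card = 4)).card : ℝ) ≤
      (d1 : ℝ) * d2 * d3 := by
    intro v
    by_cases hv : v ∈ R
    · have h1 : (H3 ∪ H4).filter (fun h => v ∈ h ∧ h.card = 4) ⊆
          ((ful G R {v}).sigma (fun x => (ful G R {v, x}).sigma (fun y => ful G R {v, x, y}))).image
            (fun e => ({v, e.1, e.2.1, e.2.2} : Finset _)) := by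
        intro h hh
        rw [Finset.mem_filter] at hh
        obtain ⟨hh, hvh, hc⟩ := hh
        have hh4 : h ∈ H4 := by
          rcases Finset.mem_union.mp hh with h1 | h1
          · have := (Finset.mem_powersetCard.mp (Finset.mem_filter.mp h1).1).2
            omega
          · exact h1
        rw [hH4, Finset.mem_filter, Finset.mem_powersetCard] at hh4
        obtain ⟨⟨hsub, _⟩, hcl⟩ := hh4
        have hc2 : (h.erase v).card = 3 := by rw [Finset.card_erase_of_mem hvh, hc]
        obtain ⟨x, y, z, hxy, hxz, hyz, hxyz⟩ := Finset.card_eq_three.mp hc2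
        have hheq : h = {v, x, y, z} := by
          rw [← Finset.insert_erase hvh, hxyz]
        have hx : x ∈ h.erase v := by rw [hxyz]; simp
        have hy : y ∈ h.erase v := by rw [hxyz]; simp
        have hz : z ∈ h.erase v := by rw [hxyz]; simp
        have hxv := Finset.ne_of_mem_erase hx
        have hyv := Finset.ne_of_mem_erase hy
        have hzv := Finset.ne_of_mem_erase hz
        have hxh := Finset.mem_of_mem_erase hx
        have hyh := Finset.mem_of_mem_erase hy
        have hzh := Finset.mem_of_mem_erase hz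
        rw [Finset.mem_image]
        refine ⟨⟨x, y, z⟩, ?_, hheq.symm⟩
        rw [Finset.mem_sigma, Finset.mem_sigma]
        refine ⟨?_, ?_, ?_⟩
        · rw [mem_ful]
          refine ⟨hsub hxh, ?_⟩
          intro a ha
          rw [Finset.mem_singleton] at ha
          rw [ha]
          exact hcl hxh hvh hxv
        · rw [mem_ful]
          refine ⟨hsub hyh, ?_⟩
          intro a ha
          simp only [Finset.mem_insert, Finset.mem_singleton] at ha
          rcases ha with rfl | rfl
          · exact hcl hyh hvh hyv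
          · exact hcl hyh hxh hxy.symm
        · rw [mem_ful]
          refine ⟨hsub hzh, ?_⟩
          intro a ha
          simp only [Finset.mem_insert, Finset.mem_singleton] at ha
          rcases ha with rfl | rfl | rfl
          · exact hcl hzh hvh hzv
          · exact hcl hzh hxh hxz.symm
          · exact hcl hzh hyh hyz.symm
      have h2 := (Finset.card_le_card h1).trans Finset.card_image_le
      rw [Finset.card_sigma] at h2
      have h3 : ∑ x ∈ ful G R {v}, ((ful G R {v, x}).sigma (fun y => ful G R {v, x, y})).card ≤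
          (ful G R {v}).card * (d2 * d3) := by
        rw [← smul_eq_mul]
        apply Finset.sum_le_card_nsmul
        intro x hx
        have hx' := mem_ful.mp hx
        have hvx : v ≠ x := (hx'.2 v (by simp)).ne.symm
        rw [Finset.card_sigma]
        have h5 : ∑ y ∈ ful G R {v, x}, (ful G R {v, x, y}).card ≤ (ful G R {v, x}).card * d3 := by
          rw [← smul_eq_mul]
          apply Finset.sum_le_card_nsmul
          intro y hy
          have hy' := mem_ful.mp hy
          exact a3 v hv x hx'.1 y hy'.1 hvx (hy'.2 v (by simp)).ne.symm (hy'.2 x (by simp)).ne.symm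
        exact h5.trans (Nat.mul_le_mul_right d3 (a2 v hv x hx'.1 hvx))
      have h4 : ((H3 ∪ H4).filter (fun h => v ∈ h ∧ h.card = 4)).card ≤ d1 * d2 * d3 := by
        refine h2.trans (h3.trans ?_)
        rw [mul_assoc]
        exact Nat.mul_le_mul_right _ (a1 v hv)
      exact_mod_cast h4
    · have h1 : (H3 ∪ H4).filter (fun h => v ∈ h ∧ h.card = 4) = ∅ := by
        apply Finset.filter_false_of_mem
        rintro h hh ⟨hvh, _⟩
        apply hv
        rcases Finset.mem_union.mp hh with h1 | h1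
        · exact (Finset.mem_powersetCard.mp (Finset.mem_filter.mp h1).1).1 hvh
        · exact (Finset.mem_powersetCard.mp (Finset.mem_filter.mp h1).1).1 hvh
      rw [h1, Finset.card_empty, Nat.cast_zero]
      positivity
  obtain ⟨f, hf⟩ := exists_coloring (H3 ∪ H4) k _ _ hk hcard hdeg3 hdeg4 hd
  apply upper_gen G Q k f
  intro S hS hS2 hSR hmono
  obtain ⟨hcl, hmax⟩ := hS
  have hext : ∀ w, w ∉ S → (∀ x ∈ S, G.Adj w x) → False := by
    intro w hw h
    have h1 : G.IsClique ((insert w S : Finset (Fin n)) : Set (Fin n)) := by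
      rw [Finset.coe_insert]
      exact hcl.insert (fun b hb _ => h b hb)
    have h2 := hmax (insert w S) h1 (Finset.subset_insert _ _)
    exact hw (h2 ▸ Finset.mem_insert_self w S)
  have hext' : ∀ w, (∀ x ∈ S, G.Adj w x) → False := by
    intro w h
    exact hext w (fun hw => (h w hw).ne rfl) h
  rcases Nat.lt_or_ge S.card 4 with h4 | h4
  · rcases Nat.lt_or_ge S.card 3 with h3 | h3
    · -- an edge
      have hc : S.card = 2 := by omega
      obtain ⟨u, v, huv, hS⟩ := Finset.card_eq_two.mp hc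
      obtain ⟨w, hwu, hwv⟩ := hcn u v huv
      apply hext' w
      intro x hx
      rw [hS, Finset.mem_insert, Finset.mem_singleton] at hx
      rcases hx with rfl | rfl
      · exact hwu
      · exact hwv
    · -- a triangle
      have hc : S.card = 3 := by omega
      apply hf S _ hmono
      apply Finset.mem_union_left
      rw [hH3, Finset.mem_filter, Finset.mem_powersetCard]
      exact ⟨⟨hSR, hc⟩, hcl, fun w _ h => hext' w h⟩
  · obtain ⟨T, hT, hTc⟩ := Finset.exists_subset_card_eq h4
    apply hf T _ (fun x hx y hy => hmono x (hT hx) y (hT hy))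
    apply Finset.mem_union_right
    rw [hH4, Finset.mem_filter, Finset.mem_powersetCard]
    exact ⟨⟨hT.trans hSR, hTc⟩, hcl.subset (by exact_mod_cast hT)⟩

/-- the degree conditions hold with high probability -/
lemma nice_bound (hp0 : 0 ≤ p) (hp1 : p ≤ 1) (hn : 5 ≤ n) (R Q : Finset (Fin n))
    (hRQ : Disjoint R Q) (d1 d2 d3 t3 c0 : ℕ) (η x1 x2 x3 y wm : ℝ)
    (hη0 : 0 ≤ η) (hη1 : η ≤ 1 / 2)
    (h11 : R.card * p ≤ x1) (h12 : 8 * x1 ≤ (d1 : ℝ) + 1) (h13 : 3 * Real.log n ≤ (d1 : ℝ) + 1)
    (h21 : R.card * p ^ 2 ≤ x2) (h22 : 8 * x2 ≤ (d2 : ℝ) + 1)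
    (h23 : 4 * Real.log n ≤ (d2 : ℝ) + 1)
    (h31 : R.card * p ^ 3 ≤ x3) (h32 : 8 * x3 ≤ (d3 : ℝ) + 1)
    (h33 : 5 * Real.log n ≤ (d3 : ℝ) + 1)
    (h41 : R.card * (p ^ 2 * (1 - p) ^ c0) ≤ y) (h42 : 8 * y ≤ (t3 : ℝ) + 1)
    (h43 : 4 * Real.log n ≤ (t3 : ℝ) + 1)
    (hw : wm + R.card + Q.card ≤ n) (hc0 : (c0 : ℝ) ≤ (1 - η) * (wm * p ^ 2))
    (hw2 : 4 * Real.log n ≤ η ^ 2 / 8 * (wm * p ^ 2)) :
    gnp n p (fun G => ¬ Nice G R (R ∪ Q)ᶜ d1 d2 d3 t3) ≤ 1 / n := by
  have hn0 : 0 < n := by omega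
  have hnr : (0 : ℝ) < n := by exact_mod_cast hn0
  set W := (R ∪ Q)ᶜ with hW
  set L := Real.log n with hL
  have hL0 : 0 ≤ L := Real.log_nonneg (by exact_mod_cast hn0)
  have hRW : Disjoint R W := by
    rw [Finset.disjoint_left]
    intro x hx hxW
    exact (Finset.mem_compl.mp hxW) (Finset.mem_union_left _ hx)
  have hWc : wm ≤ W.card := by
    have h1 : W.card + (R ∪ Q).card = n := by
      rw [hW, Finset.card_compl, Fintype.card_fin]
      have : (R ∪ Q).card ≤ n := by
        refine (Finset.card_le_univ _).trans ?_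
        rw [Fintype.card_fin]
      omega
    rw [Finset.card_union_of_disjoint hRQ] at h1
    have h2 : (W.card : ℝ) + (R.card + Q.card) = n := by exact_mod_cast h1
    linarith
  have e1 := ful_all hp0 hp1 hn0 R 1 d1 x1 (by rw [pow_one]; exact h11) h12 (by
    push_cast; rw [← hL]; linarith)
  have e2 := ful_all hp0 hp1 hn0 R 2 d2 x2 h21 h22 (by push_cast; rw [← hL]; linarith)
  have e3 := ful_all hp0 hp1 hn0 R 3 d3 x3 h31 h32 (by push_cast; rw [← hL]; linarith)
  rw [← hL] at e1 e2 e3
  -- codegrees into `W`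
  have e4 : gnp n p (fun G => ∃ e ∈ R.offDiag, ¬ c0 ≤ (ful G W {e.1, e.2}).card) ≤
      n ^ 2 * Real.exp (-(4 * L)) := by
    apply gnp_union_le hp0 hp1 _ _ _ _ (Real.exp_pos _).le
    · have h1 : R.offDiag.card ≤ n ^ 2 := by
        rw [Finset.offDiag_card, sq]
        have h2 : R.card ≤ n := by
          refine (Finset.card_le_univ _).trans ?_
          rw [Fintype.card_fin]
        exact (Nat.sub_le _ _).trans (Nat.mul_le_mul h2 h2)
      exact_mod_cast h1
    · intro e he
      rw [Finset.mem_offDiag] at he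
      have hd : Disjoint W ({e.1, e.2} : Finset (Fin n)) := by
        rw [Finset.disjoint_left]
        intro z hz hz2
        rw [Finset.mem_insert, Finset.mem_singleton] at hz2
        rcases hz2 with rfl | rfl
        · exact Finset.disjoint_left.mp hRW he.1 hz
        · exact Finset.disjoint_left.mp hRW he.2.1 hz
      have h1 := ful_lower hp0 hp1 W {e.1, e.2} hd η hη0 hη1
      rw [Finset.card_pair he.2.2] at h1
      have h2 : gnp n p (fun G => ¬ c0 ≤ (ful G W {e.1, e.2}).card) ≤
          gnp n p (fun G => ((ful G W {e.1, e.2}).card : ℝ) ≤ (1 - η) * (W.card * p ^ 2)) := by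
        apply gnp_mono hp0 hp1
        intro G h
        push Not at h
        have h3 : ((ful G W {e.1, e.2}).card : ℝ) ≤ c0 := by exact_mod_cast h.le
        have h4 : wm * p ^ 2 ≤ W.card * p ^ 2 := mul_le_mul_of_nonneg_right hWc (by positivity)
        have h5 := mul_le_mul_of_nonneg_left h4 (show 0 ≤ 1 - η by linarith)
        linarith
      refine h2.trans (h1.trans ?_)
      apply Real.exp_le_exp.mpr
      have h4 : wm * p ^ 2 ≤ W.card * p ^ 2 := mul_le_mul_of_nonneg_right hWc (by positivity)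
      have h5 := mul_le_mul_of_nonneg_left h4 (show 0 ≤ η ^ 2 / 8 by positivity)
      linarith
  have e5 : gnp n p (fun G => ∃ e ∈ R.offDiag, c0 ≤ (ful G W {e.1, e.2}).card ∧
      t3 + 1 ≤ (wb G R W e.1 e.2).card) ≤ n ^ 2 * Real.exp (-(4 * L)) := by
    apply gnp_union_le hp0 hp1 _ _ _ _ (Real.exp_pos _).le
    · have h1 : R.offDiag.card ≤ n ^ 2 := by
        rw [Finset.offDiag_card, sq]
        have h2 : R.card ≤ n := by
          refine (Finset.card_le_univ _).trans ?_
          rw [Fintype.card_fin]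
        exact (Nat.sub_le _ _).trans (Nat.mul_le_mul h2 h2)
      exact_mod_cast h1
    · intro e he
      rw [Finset.mem_offDiag] at he
      refine (wb_bound hp0 hp1 R W hRW e.1 e.2 he.1 he.2.1 he.2.2 c0 (t3 + 1) (Nat.succ_pos _) y
        h41 (by push_cast; exact h42)).trans ?_
      apply Real.exp_le_exp.mpr
      push_cast
      linarith
  have key : gnp n p (fun G => ¬ Nice G R W d1 d2 d3 t3) ≤ gnp n p (fun G =>
      (∃ Q ∈ (univ : Finset (Fin n)).powersetCard 1, d1 + 1 ≤ (ful G R Q).card) ∨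
      (∃ Q ∈ (univ : Finset (Fin n)).powersetCard 2, d2 + 1 ≤ (ful G R Q).card) ∨
      (∃ Q ∈ (univ : Finset (Fin n)).powersetCard 3, d3 + 1 ≤ (ful G R Q).card) ∨
      (∃ e ∈ R.offDiag, ¬ c0 ≤ (ful G W {e.1, e.2}).card) ∨
      (∃ e ∈ R.offDiag, c0 ≤ (ful G W {e.1, e.2}).card ∧ t3 + 1 ≤ (wb G R W e.1 e.2).card)) := by
    apply gnp_mono hp0 hp1
    intro G h
    by_contra hcon
    push Not at hcon
    obtain ⟨g1, g2, g3, g4, g5⟩ := hcon
    apply h
    refine ⟨?_, ?_, ?_, ?_⟩
    · intro v _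
      have := g1 {v} (by rw [Finset.mem_powersetCard]; exact ⟨Finset.subset_univ _, by simp⟩)
      omega
    · intro v _ x _ hvx
      have := g2 {v, x} (by
        rw [Finset.mem_powersetCard]; exact ⟨Finset.subset_univ _, Finset.card_pair hvx⟩)
      omega
    · intro v _ x _ y _ hvx hvy hxy
      have := g3 {v, x, y} (by
        rw [Finset.mem_powersetCard]
        exact ⟨Finset.subset_univ _, Finset.card_eq_three.mpr ⟨v, x, y, hvx, hvy, hxy, rfl⟩⟩)
      omega
    · intro v hv x hx hvx
      have hm : (v, x) ∈ R.offDiag := Finset.mem_offDiag.mpr ⟨hv, hx, hvx⟩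
      have h1 := g4 (v, x) hm
      have h2 := g5 (v, x) hm h1
      dsimp only at h2
      omega
  refine key.trans ?_
  refine (gnp_or hp0 hp1 _ _).trans ((add_le_add e1 ((gnp_or hp0 hp1 _ _).trans
    (add_le_add e2 ((gnp_or hp0 hp1 _ _).trans (add_le_add e3 ((gnp_or hp0 hp1 _ _).trans
    (add_le_add e4 e5))))))).trans ?_)
  have hn2 : (n : ℝ) ^ 2 * Real.exp (-(4 * L)) = Real.exp (-(2 * L)) := by
    rw [pow_eq_exp hn0 2, ← Real.exp_add]; congr 1; push_cast; rw [← hL]; ring
  rw [hn2]
  have h5 : Real.exp (-(2 * L)) = 1 / n * (1 / n) := by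
    rw [inv_eq_exp hn0, ← Real.exp_add]; congr 1; rw [← hL]; ring
  rw [h5]
  have h6 : (5 : ℝ) ≤ n := by exact_mod_cast hn
  have h7 : 1 / (n : ℝ) ≤ 1 / 5 := one_div_le_one_div_of_le (by norm_num) h6
  have h8 : 0 ≤ 1 / (n : ℝ) := by positivity
  nlinarith

/-- the upper bound for the clique chromatic number -/
lemma upper_prob2 (hp0 : 0 ≤ p) (hp1 : p ≤ 1) (hn : 5 ≤ n) (k1 k2 : ℕ) (M : ℝ)
    (d1 d2 d3 t3 c0 : ℕ) (η : ℝ)
    (hk1 : k1 ≤ n) (hk2 : 0 < k2) (hη0 : 0 ≤ η) (hη1 : η ≤ 1 / 2)
    (c1 : 3 * Real.log n ≤ p ^ 2 * (n - 2))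
    (c3 : n * Real.exp (-(p * k1)) ≤ M) (c4 : Real.log n ≤ M)
    (h12 : 8 * (3 * M * p) ≤ (d1 : ℝ) + 1) (h13 : 3 * Real.log n ≤ (d1 : ℝ) + 1)
    (h22 : 8 * (3 * M * p ^ 2) ≤ (d2 : ℝ) + 1) (h23 : 4 * Real.log n ≤ (d2 : ℝ) + 1)
    (h32 : 8 * (3 * M * p ^ 3) ≤ (d3 : ℝ) + 1) (h33 : 5 * Real.log n ≤ (d3 : ℝ) + 1)
    (h42 : 8 * (3 * M * (p ^ 2 * (1 - p) ^ c0)) ≤ (t3 : ℝ) + 1)
    (h43 : 4 * Real.log n ≤ (t3 : ℝ) + 1)
    (hc0 : (c0 : ℝ) ≤ (1 - η) * ((n - 3 * M - k1) * p ^ 2))
    (hw2 : 4 * Real.log n ≤ η ^ 2 / 8 * ((n - 3 * M - k1) * p ^ 2))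
    (hd : 4 * ((d1 : ℝ) * t3) * k2 + 8 * (d1 * d2 * d3) ≤ (k2 : ℝ) ^ 3) :
    gnp n p (fun G => ¬ cliqueChromaticNumber G ≤ 2 * k1 + k2) ≤ 3 / n := by
  have hn0 : 0 < n := by omega
  have hp' : 0 ≤ 1 - p := by linarith
  obtain ⟨Q, _, hQc⟩ := Finset.exists_superset_card_eq (s := (∅ : Finset (Fin n))) (n := k1)
    (by simp) (show k1 ≤ Fintype.card (Fin n) by rw [Fintype.card_fin]; exact hk1)
  have e1 := tri_bound hp0 hp1 hn0 c1
  have e3 := unn_upper hp0 hp1 Q M (by rw [hQc]; exact c3)
  have e3' : Real.exp (-M) ≤ 1 / n := by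
    rw [inv_eq_exp hn0]
    apply Real.exp_le_exp.mpr
    linarith
  have e4 := unn_cond hp0 hp1 Q (3 * M) (1 / n) (by positivity)
    (fun R G => Nice G R (R ∪ Q)ᶜ d1 d2 d3 t3)
    (fun R G hR => nice_off G Q R _ hR (by
      rw [Finset.disjoint_left]
      intro x hx hxQ
      exact (Finset.mem_compl.mp hx) (Finset.mem_union_right _ hxQ)) _ _ _ _)
    (fun R hR hRc => by
      refine nice_bound hp0 hp1 hn R Q hR d1 d2 d3 t3 c0 η (3 * M * p) (3 * M * p ^ 2)
        (3 * M * p ^ 3) (3 * M * (p ^ 2 * (1 - p) ^ c0)) (n - 3 * M - k1) hη0 hη1 ?_ h12 h13 ?_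
        h22 h23 ?_ h32 h33 ?_ h42 h43 ?_ hc0 hw2
      · exact mul_le_mul_of_nonneg_right hRc hp0
      · exact mul_le_mul_of_nonneg_right hRc (by positivity)
      · exact mul_le_mul_of_nonneg_right hRc (by positivity)
      · exact mul_le_mul_of_nonneg_right hRc (by positivity)
      · rw [hQc]; linarith)
  have key : gnp n p (fun G => ¬ cliqueChromaticNumber G ≤ 2 * k1 + k2) ≤ gnp n p (fun G =>
      (¬ ∀ u v : Fin n, u ≠ v → ∃ w, G.Adj w u ∧ G.Adj w v) ∨
      (¬ ((unn G Q).card : ℝ) ≤ 3 * M) ∨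
      (((unn G Q).card : ℝ) ≤ 3 * M ∧ ¬ Nice G (unn G Q) (unn G Q ∪ Q)ᶜ d1 d2 d3 t3)) := by
    apply gnp_mono hp0 hp1
    intro G h
    by_contra hcon
    simp only [not_or, not_not] at hcon
    obtain ⟨g1, g3, g4⟩ := hcon
    apply h
    rw [← hQc]
    have g5 : Nice G (unn G Q) (unn G Q ∪ Q)ᶜ d1 d2 d3 t3 := by
      by_contra h5
      exact g4 ⟨g3, h5⟩
    exact upper_det2 G Q k2 d1 d2 d3 t3 hk2 g1 g5 hd
  refine key.trans ?_
  refine (gnp_or hp0 hp1 _ _).trans ((add_le_add e1 ((gnp_or hp0 hp1 _ _).trans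
    (add_le_add (e3.trans e3') e4))).trans (le_of_eq ?_))
  ring

end

end Pool.Agent.H98.CD
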